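import Pool.Agent.H54.C2T.Flr
import Pool.Agent.H23.D2.Rat

/-!
# The closed slope of the second coordinate

`lam1`: the closed slope, from the ratio of the closed curvatures of the row label. `lam_near`: it is
near the slope of the ball chart. `crd_ev`: a crude bound of the closed curvature. `pe_pig`: the
pigeonhole principle.
-/

set_option autoImplicit false

namespace Pool.C2T

open Finset Real MvPolynomial
open Pool.Agent.H49.Ent Pool.Agent.H32.Dense Pool.STK Pool.KA Pool.KSAT Pool.K2S Pool.PB Pool.S6C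
open Pool.GEN Pool.CHT Pool.CHX Pool.ISO Pool.D2R Pool.D2Z Pool.D2F Pool.RCV
open Pool.PB.Trl (rt rt_mem t_rt)
open Pool.FLF (Fam.sub)

variable {m J : ℕ}

/-- The relative time of the longer window. -/
noncomputable def tc {F : Fam m J} (n : ℕ) (s : LnT F) : Polynomial ℝ :=
  Polynomial.C (1 / 2 ^ n : ℝ) * (Polynomial.X + Polynomial.C (s.2.2 : ℝ)) -
    Polynomial.C ((co n s).2.2 : ℝ)

/-- The start of the shorter window. -/
noncomputable def ts {F : Fam m J} (n : ℕ) (s : LnT F) : ℝ :=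
  (s.2.2 : ℝ) / 2 ^ n - ((co n s).2.2 : ℝ)

theorem ts_mem {F : Fam m J} (n : ℕ) (s : LnT F) : ts n s ∈ Set.Icc (0 : ℝ) 1 := by
  have h2 : (0 : ℝ) < 2 ^ n := by positivity
  have e : ((co n s).2.2 : ℝ) = ((s.2.2 / 2 ^ n : ℕ) : ℝ) := rfl
  unfold ts
  rw [e]
  constructor
  · have h1 : ((s.2.2 / 2 ^ n : ℕ) : ℝ) ≤ (s.2.2 : ℝ) / 2 ^ n := by
      have := @Nat.cast_div_le ℝ _ _ _ s.2.2 (2 ^ n)
      push_cast at this
      exact this
    linarith
  · have h1 : s.2.2 < (s.2.2 / 2 ^ n + 1) * 2 ^ n := by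
      have h5 := Nat.div_add_mod s.2.2 (2 ^ n)
      have h6 := Nat.mod_lt s.2.2 (y := 2 ^ n) (by positivity)
      rw [add_mul, one_mul, mul_comm]
      omega
    have h3 : (s.2.2 : ℝ) < ((s.2.2 / 2 ^ n : ℕ) + 1) * 2 ^ n := by exact_mod_cast h1
    have h4 : (s.2.2 : ℝ) / 2 ^ n < (s.2.2 / 2 ^ n : ℕ) + 1 := by rwa [div_lt_iff₀ h2]
    linarith

theorem eval_tc_rt (F : Fam m J) {w a : ℕ} (hw : w ≤ a) (ha : a ≤ J) (ω : F.Ω) :
    (tc (a - w) (slam F a ω)).eval (rt F a ω) = rt F w ω := by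
  have h1 := t_rt F (hw.trans ha) ω
  have h2 := t_rt F ha ω
  have h3 := co_slam F hw ha ω
  have e2 : (2 : ℝ) ^ a = 2 ^ (a - w) * 2 ^ w := by rw [← pow_add, Nat.sub_add_cancel hw]
  unfold tc
  simp only [Polynomial.eval_sub, Polynomial.eval_mul, Polynomial.eval_C, Polynomial.eval_add,
    Polynomial.eval_X]
  rw [h3]
  have hp1 : (0 : ℝ) < 2 ^ w := by positivity
  have hp2 : (0 : ℝ) < 2 ^ (a - w) := by positivity
  have h4 : (((slam F w ω).2.2 : ℝ) + rt F w ω) / 2 ^ w =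
      (((slam F a ω).2.2 : ℝ) + rt F a ω) / 2 ^ a := h1.symm.trans h2
  rw [e2, div_eq_div_iff hp1.ne' (by positivity)] at h4
  have h5 : (((slam F w ω).2.2 : ℝ) + rt F w ω) * 2 ^ (a - w) =
      ((slam F a ω).2.2 : ℝ) + rt F a ω := by
    have : ((((slam F w ω).2.2 : ℝ) + rt F w ω) * 2 ^ (a - w)) * 2 ^ w =
        (((slam F a ω).2.2 : ℝ) + rt F a ω) * 2 ^ w := by linarith
    exact mul_right_cancel₀ hp1.ne' this
  have h6 : 1 / 2 ^ (a - w) * (rt F a ω + ((slam F a ω).2.2 : ℝ)) =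
      ((slam F w ω).2.2 : ℝ) + rt F w ω := by
    rw [add_comm (rt F a ω), ← h5]
    field_simp
  rw [h6]
  ring

theorem ts_near (F : Fam m J) {w a : ℕ} (hw : w ≤ a) (ha : a ≤ J) (ω : F.Ω) :
    |ts (a - w) (slam F a ω) - rt F w ω| ≤ 1 / 2 ^ (a - w) := by
  have h1 := eval_tc_rt F hw ha ω
  unfold tc at h1
  simp only [Polynomial.eval_sub, Polynomial.eval_mul, Polynomial.eval_C, Polynomial.eval_add,
    Polynomial.eval_X] at h1
  rw [← h1]
  unfold ts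
  obtain ⟨k0, k1⟩ := rt_mem F a ω
  have e : (((slam F a ω).2.2 : ℝ) / 2 ^ (a - w) - ((co (a - w) (slam F a ω)).2.2 : ℝ)) -
      (1 / 2 ^ (a - w) * (rt F a ω + ((slam F a ω).2.2 : ℝ)) -
        ((co (a - w) (slam F a ω)).2.2 : ℝ)) = -(1 / 2 ^ (a - w) * rt F a ω) := by ring
  rw [e, abs_neg, abs_mul, abs_of_pos (by positivity : (0 : ℝ) < 1 / 2 ^ (a - w)), abs_of_nonneg k0]
  calc 1 / 2 ^ (a - w) * rt F a ω ≤ 1 / 2 ^ (a - w) * 1 :=
        mul_le_mul_of_nonneg_left k1 (by positivity)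
    _ = _ := mul_one _

/-- **The closed slope.** -/
noncomputable def lam1 {F : Fam m J} (c : ℕ → Fin m) (W n N : ℕ)
    (ψH : LnT F → ℕ → Option (Fin m) → ℝ) (Ht : LnT F → MvPolynomial (Option (Fin m)) ℝ)
    (s : LnT F) (_ : ℕ) : Polynomial ℝ :=
  Polynomial.C (ψH (co n s) 1 (some (c 0))) +
    (rser (hq W (co n s) (Ht (co n s)) (dx c (ψH (co n s) 1 (some (c 0)))))
      (hq W (co n s) (Ht (co n s)) (ex (c 1)))
      ((hq W (co n s) (Ht (co n s)) (ex (c 1))).eval (ts n s)) N).comp (tc n s)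

theorem deg_lam1 {F : Fam m J} (c : ℕ → Fin m) (W n N : ℕ) {D : ℕ}
    (ψH : LnT F → ℕ → Option (Fin m) → ℝ) {Ht : LnT F → MvPolynomial (Option (Fin m)) ℝ}
    (hD : ∀ s, (Ht s).totalDegree ≤ D) (s : LnT F) (l : ℕ) :
    (lam1 c W n N ψH Ht s l).natDegree ≤ D * (N + 1) := by
  unfold lam1
  refine (Polynomial.natDegree_add_le _ _).trans (max_le ?_ ?_)
  · rw [Polynomial.natDegree_C]
    exact Nat.zero_le _
  · refine Polynomial.natDegree_comp_le.trans ?_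
    have h1 := deg_rser (deg_hq W (co n s) (hD (co n s)) (dx c (ψH (co n s) 1 (some (c 0)))))
      (deg_hq W (co n s) (hD (co n s)) (ex (c 1)))
      ((hq W (co n s) (Ht (co n s)) (ex (c 1))).eval (ts n s)) N
    have h2 : (tc n s).natDegree ≤ 1 := by
      unfold tc
      refine (Polynomial.natDegree_sub_le _ _).trans (max_le ?_ ?_)
      · refine (Polynomial.natDegree_C_mul_le _ _).trans ?_
        refine (Polynomial.natDegree_add_le _ _).trans (max_le Polynomial.natDegree_X_le ?_)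
        rw [Polynomial.natDegree_C]
        exact Nat.zero_le _
      · rw [Polynomial.natDegree_C]
        exact Nat.zero_le _
    calc _ ≤ D * (N + 1) * 1 := Nat.mul_le_mul h1 h2
      _ = _ := Nat.mul_one _

/-- **The closed slope is near the slope of the ball chart.** -/
theorem lam_near (D : ℕ) : ∃ C : ℝ, 1 ≤ C ∧ ∀ {m J : ℕ} {F : Fam m J} {c : ℕ → Fin m}
    {W W₁ N : ℕ} {ψH : LnT F → ℕ → Option (Fin m) → ℝ}
    {Ht : LnT F → MvPolynomial (Option (Fin m)) ℝ} {ω : F.Ω} {H M E κ μ : ℝ},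
    W ≤ W₁ → W₁ ≤ J → (∀ s, (Ht s).totalDegree ≤ D) → 0 < H →
    (∀ τ ∈ Set.Icc (0 : ℝ) 1,
      |(hq W (slam F W ω) (Ht (slam F W ω)) (ex (c 1))).eval τ| ≤ M) →
    H ≤ |hs (Ht (slam F W ω)) (bt F ω) (bd F ω) (ex (c 1))| →
    |hs (Ht (slam F W ω)) (bt F ω) (bd F ω) (dx c μ)| ≤ E →
    |ψH (slam F W ω) 1 (some (c 0)) - μ| ≤ κ → 4 * (C * M / 2 ^ (W₁ - W)) ≤ H →
    |(lam1 c W (W₁ - W) N ψH Ht (slam F W₁ ω) 0).eval (rt F W₁ ω) - μ| ≤
      4 / H * (E + (E + κ * M) * (C * M / 2 ^ (W₁ - W) / (H / 2)) ^ N) := by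
  obtain ⟨C, hC, hvar⟩ := pol_var D
  refine ⟨C, hC, ?_⟩
  intro m J F c W W₁ N ψH Ht ω H M E κ μ hW hW₁ hD hH hM hH1 hE hκ hδ
  have hWJ : W ≤ J := hW.trans hW₁
  obtain ⟨s, hs'⟩ : ∃ s, s = slam F W ω := ⟨_, rfl⟩
  obtain ⟨ψy, hψy⟩ : ∃ ψy, ψy = ψH s 1 (some (c 0)) := ⟨_, rfl⟩
  have hco : co (W₁ - W) (slam F W₁ ω) = s := by rw [hs']; exact co_slam F hW hW₁ ω
  obtain ⟨P, hP⟩ : ∃ P, P = hq W s (Ht s) (dx c ψy) := ⟨_, rfl⟩
  obtain ⟨Q, hQ⟩ : ∃ Q, Q = hq W s (Ht s) (ex (c 1)) := ⟨_, rfl⟩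
  have hPe : P.eval (rt F W ω) = hs (Ht s) (bt F ω) (bd F ω) (dx c ψy) := by
    rw [hP, hs']
    exact eval_hq_rt F hWJ ω _ _
  have hQe : Q.eval (rt F W ω) = hs (Ht s) (bt F ω) (bd F ω) (ex (c 1)) := by
    rw [hQ, hs']
    exact eval_hq_rt F hWJ ω _ _
  rw [← hs'] at hM hH1 hE hκ
  rw [← hQ] at hM
  rw [← hψy] at hκ
  have hM0 : 0 ≤ M := (abs_nonneg _).trans (hM 0 ⟨le_rfl, zero_le_one⟩)
  have hrm := rt_mem F W ω
  have hqM : |Q.eval (rt F W ω)| ≤ M := hM _ hrm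
  obtain ⟨τ₀, hτ₀⟩ : ∃ τ₀, τ₀ = ts (W₁ - W) (slam F W₁ ω) := ⟨_, rfl⟩
  have hτm : τ₀ ∈ Set.Icc (0 : ℝ) 1 := by rw [hτ₀]; exact ts_mem _ _
  have hτn : |τ₀ - rt F W ω| ≤ 1 / 2 ^ (W₁ - W) := by rw [hτ₀]; exact ts_near F hW hW₁ ω
  obtain ⟨δ, hδe⟩ : ∃ δ, δ = C * M / 2 ^ (W₁ - W) := ⟨_, rfl⟩
  have hvar1 : |Q.eval τ₀ - Q.eval (rt F W ω)| ≤ δ := by
    have h1 := hvar Q M (by rw [hQ]; exact deg_hq W s (hD s) _) hM τ₀ (rt F W ω)
      (by rw [abs_of_nonneg hτm.1]; linarith [hτm.2]) (by rw [abs_of_nonneg hrm.1]; linarith [hrm.2])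
    refine h1.trans ?_
    rw [hδe]
    calc C * M * |τ₀ - rt F W ω| ≤ C * M * (1 / 2 ^ (W₁ - W)) :=
          mul_le_mul_of_nonneg_left hτn (mul_nonneg (by linarith) hM0)
      _ = _ := by ring
  rw [← hδe] at hδ ⊢
  have hδ0 : 0 ≤ δ := (abs_nonneg _).trans hvar1
  have hq1 : H / 2 ≤ |Q.eval τ₀| := by
    have h1 : |Q.eval (rt F W ω)| ≤ |Q.eval τ₀| + δ := by
      have e : Q.eval (rt F W ω) = Q.eval τ₀ - (Q.eval τ₀ - Q.eval (rt F W ω)) := by ring
      rw [e]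
      exact (abs_sub _ _).trans (add_le_add le_rfl hvar1)
    rw [hQe] at h1
    linarith
  have hdir : P.eval (rt F W ω) + (μ - ψy) * Q.eval (rt F W ω) =
      hs (Ht s) (bt F ω) (bd F ω) (dx c μ) := by
    rw [hPe, hQe, hs_dx c _ _ ψy μ]
  have hE0 : 0 ≤ E := (abs_nonneg _).trans hE
  have hκ0 : 0 ≤ κ := (abs_nonneg _).trans hκ
  have hPK : |P.eval (rt F W ω)| ≤ E + κ * M := by
    have e : P.eval (rt F W ω) = (P.eval (rt F W ω) + (μ - ψy) * Q.eval (rt F W ω)) +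
        (ψy - μ) * Q.eval (rt F W ω) := by ring
    rw [e, hdir]
    refine (abs_add_le _ _).trans (add_le_add hE ?_)
    rw [abs_mul]
    exact mul_le_mul hκ hqM (abs_nonneg _) hκ0
  have hmain := rat_ser (P := P) (Q := Q) (q₁ := Q.eval τ₀) (μ := H / 2) (δ := δ) (ε := E)
    (K := E + κ * M) (k := μ - ψy) (τ := rt F W ω) N (by linarith) hq1 hvar1 (by linarith) hPK
    (by rw [hdir]; exact hE)
  have e1 : (lam1 c W (W₁ - W) N ψH Ht (slam F W₁ ω) 0).eval (rt F W₁ ω) =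
      ψy + (rser P Q (Q.eval τ₀) N).eval (rt F W ω) := by
    unfold lam1
    rw [Polynomial.eval_add, Polynomial.eval_C, Polynomial.eval_comp, eval_tc_rt F hW hW₁ ω, hco,
      ← hψy, ← hP, ← hQ, ← hτ₀]
  rw [e1, abs_sub_comm]
  have e2 : μ - (ψy + (rser P Q (Q.eval τ₀) N).eval (rt F W ω)) =
      μ - ψy - (rser P Q (Q.eval τ₀) N).eval (rt F W ω) := by ring
  rw [e2]
  refine hmain.trans (le_of_eq ?_)
  field_simp
  ring

/-- **The pigeonhole principle.** -/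
theorem pe_pig {Ω : Type} [Fintype Ω] {p : Ω → ℝ} (hp : IsLaw p) (n : ℕ) (A : ℕ → Ω → Prop)
    (B : Ω → Prop) (h : ∀ ω, B ω → ∃ i < n, A i ω) :
    ∃ i < n + 1, Pe p B ≤ (n + 1) * Pe p (fun ω => B ω ∧ A i ω) := by
  classical
  have h1 : Pe p B ≤ ∑ i ∈ range n, Pe p (fun ω => B ω ∧ A i ω) := by
    simp_rw [Pool.JVE.pe_sum]
    rw [Finset.sum_comm]
    refine Finset.sum_le_sum fun ω _ => ?_
    by_cases hB : B ω
    · rw [if_pos hB]
      obtain ⟨i, hi, hA⟩ := h ω hB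
      refine le_trans ?_ (Finset.single_le_sum (f := fun i =>
        @ite ℝ (B ω ∧ A i ω) (Classical.propDecidable _) (p ω) 0) (fun j _ => by
          split_ifs
          · exact hp.nonneg ω
          · exact le_rfl) (mem_range.2 hi))
      rw [if_pos ⟨hB, hA⟩]
    · rw [if_neg hB]
      exact Finset.sum_nonneg fun j _ => by
        split_ifs
        · exact hp.nonneg ω
        · exact le_rfl
  by_contra hcon
  push Not at hcon
  have h2 : ∑ i ∈ range n, Pe p (fun ω => B ω ∧ A i ω) ≤ ∑ i ∈ range n, Pe p B / (n + 1) := by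
    refine Finset.sum_le_sum fun i hi => ?_
    have := hcon i ((mem_range.1 hi).trans (Nat.lt_succ_self n))
    rw [le_div_iff₀ (by positivity)]
    linarith
  rw [Finset.sum_const, Finset.card_range, nsmul_eq_mul] at h2
  have h3 := hcon 0 (Nat.succ_pos n)
  have h4 := Pe_nonneg hp (fun ω => B ω ∧ A 0 ω)
  have h5 : 0 < Pe p B := lt_of_le_of_lt (by positivity) h3
  have h6 := h1.trans h2
  have h7 : (n : ℝ) * (Pe p B / (n + 1)) < Pe p B := by
    rw [mul_div_assoc', div_lt_iff₀ (by positivity)]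
    nlinarith
  linarith

/-- **A crude bound of the closed curvature.** -/
theorem crd_ev (m D : ℕ) : ∃ C : ℝ, 1 ≤ C ∧ ∀ {J : ℕ} {F : Fam m J} {B : F.Ω → Prop}
    (hB : 0 < Pe F.p B) {W : ℕ} {Ht : LnT F → MvPolynomial (Option (Fin m)) ℝ} {k : Fin m}
    {M θ : ℝ}, W ≤ J → (∀ s, (Ht s).totalDegree ≤ D) → 0 < M →
    (∀ ω, B ω → |dd (Ht (slam F W ω)) (bt F ω) (ex k)| ≤ M) → 0 ≤ θ →
    (Fam.sub F B hB).Tm θ → C * (θ + 1) ≤ ((J : ℝ) - W) * Real.log 2 →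
    ∃ B' : F.Ω → Prop, Sub B' B ∧ Pe F.p B / 2 ≤ Pe F.p B' ∧ ∀ ω, B' ω →
      |hs (Ht (slam F W ω)) (bt F ω) (bd F ω) (ex k)| ≤
        C * (Real.exp (C * (θ + 1)) * M) * 2 ^ W := by
  obtain ⟨C₁, hC₁, hrem⟩ := rem_fam m D 1
  obtain ⟨C₂, hC₂, hvar⟩ := pol_var D
  obtain ⟨C₃, hC₃, hco⟩ := Pool.Agent.H40.FR.unit_coef D
  obtain ⟨C, hC⟩ : ∃ C : ℝ, C = C₁ + (D + 1) * (D * C₃) := ⟨_, rfl⟩
  have hC0 : 0 ≤ ((D : ℝ) + 1) * (D * C₃) := by positivity
  refine ⟨C, by rw [hC]; linarith, ?_⟩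
  intro J F B hB W Ht k M θ hW hD hM hb hθ hTm hCJ
  have hCC : C₁ ≤ C := by rw [hC]; linarith
  obtain ⟨q, hq⟩ : ∃ q : ℕ → LnT F → Polynomial ℝ, q = fun _ s =>
      MvPolynomial.aeval (lc W s) (dP (Ht s) (ex k)) := ⟨_, rfl⟩
  have hqe : ∀ i s τ, (q i s).eval τ = dd (Ht s) (xt W s τ) (ex k) := by
    intro i s τ
    rw [hq]
    show (MvPolynomial.aeval (lc W s) (dP (Ht s) (ex k))).eval τ = _
    rw [eval_lcR, eval_dP]
  have hdeg : ∀ i s, (q i s).natDegree ≤ D := by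
    intro i s
    rw [hq]
    exact Pool.KBX.natDegree_aeval_le _ _ (natDegree_lc W s) (deg_dP (hD s) _)
  obtain ⟨B', b1, b2, b3⟩ := hrem J F B hB W q (fun _ => M) θ hW (fun i _ s => hdeg i s)
    (fun _ _ => hM) hθ hTm (by
      refine le_trans (mul_le_mul_of_nonneg_right hCC (by linarith)) hCJ) (fun ω hω i _ => by
      rw [hqe, xt_rt F hW]
      exact hb ω hω)
  refine ⟨B', b1, b2, fun ω hω => ?_⟩
  obtain ⟨E, hE⟩ : ∃ E : ℝ, E = Real.exp (C₁ * (θ + 1)) * M := ⟨_, rfl⟩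
  have hE0 : 0 ≤ E := by rw [hE]; positivity
  have h1 := b3 ω hω 0 (by norm_num)
  rw [← hE] at h1
  have h2 := hco (q 0 (slam F W ω)) E (hdeg _ _) h1
  -- the derivative
  have h3 : |(Polynomial.derivative (q 0 (slam F W ω))).eval (rt F W ω)| ≤
      (D + 1) * (D * C₃) * E := by
    have hr := rt_mem F W ω
    have hdd : (Polynomial.derivative (q 0 (slam F W ω))).natDegree ≤ D :=
      (Polynomial.natDegree_derivative_le _).trans ((Nat.sub_le _ _).trans (hdeg _ _))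
    rw [Polynomial.eval_eq_sum_range' (Nat.lt_succ_of_le hdd)]
    refine (Finset.abs_sum_le_sum_abs _ _).trans ?_
    have h4 : ∀ j ∈ range (D + 1), |(Polynomial.derivative (q 0 (slam F W ω))).coeff j *
        rt F W ω ^ j| ≤ D * C₃ * E := by
      intro j hj
      rw [Polynomial.coeff_derivative, abs_mul, abs_pow, abs_of_nonneg hr.1, abs_mul]
      have h5 : rt F W ω ^ j ≤ 1 := pow_le_one₀ hr.1 hr.2
      have h6 : |(q 0 (slam F W ω)).coeff (j + 1)| * |((j : ℝ) + 1)| ≤ D * C₃ * E := by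
        rcases Nat.lt_or_ge D (j + 1) with h7 | h7
        · rw [Polynomial.coeff_eq_zero_of_natDegree_lt (lt_of_le_of_lt (hdeg _ _) h7), abs_zero,
            zero_mul]
          positivity
        · have h8 : |((j : ℝ) + 1)| ≤ D := by
            rw [abs_of_nonneg (by positivity)]
            exact_mod_cast h7
          calc _ ≤ C₃ * E * D := mul_le_mul (h2 _) h8 (abs_nonneg _) (by positivity)
            _ = _ := by ring
      calc _ ≤ D * C₃ * E * 1 := mul_le_mul h6 h5 (by have := hr.1; positivity) (by positivity)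
        _ = _ := mul_one _
    refine (Finset.sum_le_sum h4).trans ?_
    rw [Finset.sum_const, Finset.card_range, nsmul_eq_mul]
    push_cast
    exact le_of_eq (by ring)
  have h4 : (Polynomial.derivative (q 0 (slam F W ω))).eval (rt F W ω) =
      1 / 2 ^ W * hs (Ht (slam F W ω)) (bt F ω) (bd F ω) (ex k) := by
    have e1 : q 0 (slam F W ω) = vq W (slam F W ω) (Ht (slam F W ω)) (ex k) := by
      rw [hq]
      unfold vq dP
      beta_reduce
      rw [map_sum]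
      refine Finset.sum_congr rfl fun o _ => ?_
      rw [map_mul, MvPolynomial.aeval_C, Polynomial.algebraMap_eq]
      ring
    rw [e1, der_vq, xt_rt F hW, wd_slam]
  rw [h4, abs_mul, abs_of_pos (by positivity : (0 : ℝ) < 1 / 2 ^ W)] at h3
  have h5 : |hs (Ht (slam F W ω)) (bt F ω) (bd F ω) (ex k)| ≤ (D + 1) * (D * C₃) * E * 2 ^ W := by
    have h6 : (0 : ℝ) < 2 ^ W := by positivity
    have h7 := mul_le_mul_of_nonneg_right h3 h6.le
    have e : 1 / 2 ^ W * |hs (Ht (slam F W ω)) (bt F ω) (bd F ω) (ex k)| * 2 ^ W =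
        |hs (Ht (slam F W ω)) (bt F ω) (bd F ω) (ex k)| := by field_simp
    rw [e] at h7
    exact h7
  refine h5.trans (mul_le_mul_of_nonneg_right ?_ (by positivity))
  have h6 : E ≤ Real.exp (C * (θ + 1)) * M := by
    rw [hE]
    exact mul_le_mul_of_nonneg_right (Real.exp_le_exp.2 (mul_le_mul_of_nonneg_right hCC
      (by linarith))) hM.le
  exact mul_le_mul (by rw [hC]; linarith) h6 hE0 (by rw [hC]; linarith)

end Pool.C2T
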