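import Pool.Agent.H54.C2T.Cls
import Pool.Agent.H3.D2G.CelQ

/-!
# The cell [one, thin]

`lCellA_one_thin`: the cell at base place two, a coordinate of slope one and a thin coordinate of
slope more than one.
-/

set_option autoImplicit false

namespace Pool.C2T

open Finset Real
open Pool.Agent.H49.Ent Pool.Agent.H32.Dense Pool.STK Pool.KA Pool.KSAT Pool.K2S Pool.PB Pool.S6C
open Pool.GEN Pool.CHT Pool.CHX Pool.ISO Pool.PKG Pool.GRW
open Pool.LBT (LSys ThrOf)
open Pool.LEV (Law)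

/-- The data of a window of a coordinate of the list. -/
theorem recL_winD {m : ℕ} {S : PCl m} {P P₂ : List (Fin m) × Fin m → ℝ → ℝ → ℝ} {θ θ₂ : ℝ}
    {c : ℕ → Fin m} {i l : ℕ} {Pt : ℝ → ℝ → ℝ} {L T : ℕ → ℝ → ℝ → ℝ} {Sl : ℕ → ℝ} {κ : ℕ → Kd}
    {S₀ N : ℕ} {A V : ℕ → ℝ} {S₂ N' : ℕ} {V' : ℕ → ℝ} {Eb e₂ Eb' e' K ε q t : ℝ}
    (R : RecQ S P P₂ θ θ₂ c i Pt L T Sl κ S₀ N A V S₂ N' V' Eb e₂ K ε q t) (hl : l < i)
    (R' : RecL S P θ c l L S₀ N A V S₂ N' V' Eb' e' K q t) {k : ℕ} (hk : k < N)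
    (hVK : -K ≤ V k) (hAV : V k < A k) (hAK : A k ≤ K) {ε' : ℝ} (hε' : 3 * ε * q ≤ ε')
    (hε : 0 ≤ ε) {Rg : ℕ → Prop} (hR : ∀ j < l, Rg j → κ j = .one ∨ κ j = .thin) :
    WinD S P θ c l (bet P c l) (t + A k * q) (t + V k * q) S₂ Eb' ε' Rg := by
  have hq := R.q0
  have hVA : V k * q < A k * q := mul_lt_mul_of_pos_right hAV hq
  have hV1 : -(K * q) ≤ V k * q := by
    have := mul_le_mul_of_nonneg_right hVK hq.le
    linarith
  have hA1 : A k * q ≤ K * q := mul_le_mul_of_nonneg_right hAK hq.le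
  have hεq : 0 ≤ ε * q := mul_nonneg hε hq.le
  have hbx : |t + V k * q - t| ≤ K * q := by
    rw [abs_le]
    constructor <;> linarith
  have hbx' : |t + A k * q - t| ≤ K * q := by
    rw [abs_le]
    constructor <;> linarith
  have h3 : 3 * (ε * q) ≤ ε' := by linarith
  have hLb : ∀ j < i, L j = bet P c j := fun j hj => by
    rw [R.lv j hj.le]
    funext a w
    unfold lvN
    rw [if_pos hj]
  have hLv : ∀ j ≤ l, lvN P c l (bet P c l) j = L j := fun j hj => by
    rw [hLb j (by omega)]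
    funext a w
    unfold lvN
    rcases hj.lt_or_eq with h | h
    · rw [if_pos h]
    · rw [h, if_neg (lt_irrefl l)]
  refine winD_of (by linarith) (R'.pt k hk).1 (R'.pt k hk).2 (by linarith) (fun j hj hRj => ?_)
    (fun j hj => ?_)
  · rw [← hLb j (by omega)]
    have h4 := R.kd j (by omega)
    have h5 := abs_le.1 (R.dL j (by omega) _ hbx)
    have h6 := abs_le.1 (R.dL j (by omega) _ hbx')
    rcases hR j hj hRj with h | h
    · rw [h] at h4
      have h7 : Sl j = 1 := h4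
      rw [h7] at h5 h6
      have h8 := (R.lawL j (by omega)).mono_w (t + A k * q) (t + V k * q) (t + A k * q)
        (by linarith [R.t0]) (by linarith) le_rfl (by linarith [R.t1])
      linarith
    · rw [h] at h4
      have h8 := h4.2 (t + A k * q) (t + V k * q) (by linarith) (by linarith) (by linarith)
      have h9 := abs_le.1 (R.dT j (by omega) _ hbx)
      linarith
  · rw [hLv j hj]
    have := R'.room j hj _ hbx
    linarith

/-- **The class theorem of the cell [one, thin].** -/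
theorem cellQ_one_thin (n : ℕ) (Sl : ℕ → ℝ) (h1 : 1 < Sl 1) (h2 : 2 < Sl 2) :
    CellQ n 2 Sl (fun l => [Kd.one, Kd.thin].getD l .one) := by
  intro del hdel S₀ hS₀
  obtain ⟨s, hs⟩ : ∃ s : ℝ, s = Sl 1 := ⟨_, rfl⟩
  obtain ⟨b, hb⟩ : ∃ b : ℝ, b = Sl 2 := ⟨_, rfl⟩
  rw [← hs] at h1
  rw [← hb] at h2
  have hs1 : 0 < s - 1 := by linarith
  have hb2 : 0 < b - 2 := by linarith
  obtain ⟨Γ, hΓ⟩ : ∃ Γ : ℝ, Γ = s - 1 + 3 / 8 := ⟨_, rfl⟩
  have hΓ0 : 0 < Γ := by rw [hΓ]; linarith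
  obtain ⟨D₂, hD₂⟩ : ∃ D₂ : ℝ, D₂ = 1 + 3 / 8 / (s - 1) + Γ / (b - 2) := ⟨_, rfl⟩
  have f1 : 0 < 3 / 8 / (s - 1) := by positivity
  have f2 : 0 < Γ / (b - 2) := by positivity
  have hD1 : 1 < D₂ := by rw [hD₂]; linarith
  have hDs : 3 / 8 ≤ (s - 1) * (D₂ - 1) := by
    have e1 : (s - 1) * (3 / 8 / (s - 1)) = 3 / 8 := by field_simp
    have e2 : (s - 1) * (3 / 8 / (s - 1)) ≤ (s - 1) * (D₂ - 1) :=
      mul_le_mul_of_nonneg_left (by rw [hD₂]; linarith) hs1.le
    linarith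
  have hDb : Γ ≤ (b - 2) * D₂ := by
    have e1 : (b - 2) * (Γ / (b - 2)) = Γ := by field_simp
    have e2 : (b - 2) * (Γ / (b - 2)) ≤ (b - 2) * D₂ :=
      mul_le_mul_of_nonneg_left (by rw [hD₂]; linarith) hb2.le
    linarith
  obtain ⟨A, hA⟩ : ∃ A : ℝ, A = D₂ + Γ + 1 / 8 := ⟨_, rfl⟩
  have hA1 : 1 < A := by linarith
  obtain ⟨V, hV⟩ : ∃ V : ℕ → ℝ, V = fun k => if k = 0 then 0 else if k = 1 then D₂ else 1 :=
    ⟨_, rfl⟩
  have V0 : V 0 = 0 := by rw [hV]; simp
  have V1 : V 1 = D₂ := by rw [hV]; simp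
  have V2 : V 2 = 1 := by rw [hV]; simp
  have hVb : ∀ k, 0 ≤ V k ∧ V k < A := fun k => by
    rw [hV]
    beta_reduce
    split_ifs
    · exact ⟨le_rfl, by linarith⟩
    · exact ⟨by linarith, by linarith⟩
    · exact ⟨by linarith, by linarith⟩
  refine ⟨A + 1, 3, fun _ => A, V, by linarith, fun k _ => ⟨by linarith [(hVb k).1],
    (hVb k).2.le, by linarith⟩, fun S₂ hS₂ => ⟨0, fun _ => 0, fun k hk => absurd hk (by omega), ?_⟩⟩
  obtain ⟨ε₀, hε₀, hcl⟩ := c2t_cls n S₂ (hS₀.trans hS₂) (s := s) (D₂ := D₂) (A := A) (Γ := Γ)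
    (α := 1 / 8) (lm₀ := 1 / 8) (s₁ := 1 / 8) (γ := 1 / 8) (by norm_num) (by norm_num) h1 hD1.le
    le_rfl le_rfl (by norm_num) le_rfl (by linarith) (by linarith) (by linarith)
  refine ⟨ε₀ / 8, by positivity, ?_⟩
  intro S P P₂ θ θ₂ c Pt L T Eb e₂ q t R
  exfalso
  obtain ⟨Eb', e', R'⟩ := R.lst 1 le_rfl (by norm_num)
  have hq := R.q0
  have hεq : 0 < ε₀ * q := mul_pos hε₀ hq
  have eK : (A + 1) * q = A * q + q := by ring
  have e3K : 3 * (A + 1) * q = 3 * (A * q) + 3 * q := by ring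
  have hqA : q < A * q := by
    have := mul_lt_mul_of_pos_right hA1 hq
    linarith
  have hDq : q < D₂ * q := by
    have := mul_lt_mul_of_pos_right hD1 hq
    linarith
  have hDA : D₂ * q < A * q := mul_lt_mul_of_pos_right (by linarith) hq
  have hLb : ∀ j < 2, L j = bet P c j := fun j hj => by
    rw [R.lv j hj.le]
    funext a w
    unfold lvN
    rw [if_pos hj]
  have hL2 : L 2 = Pt := by
    rw [R.lv 2 le_rfl]
    funext a w
    unfold lvN
    rw [if_neg (lt_irrefl 2)]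
  have bx : ∀ x : ℝ, t ≤ x → x ≤ t + A * q → |x - t| ≤ (A + 1) * q := fun x h3 h4 => by
    rw [abs_le, eK]
    constructor <;> linarith
  have b0 := bx t le_rfl (by linarith)
  have b1 := bx (t + q) (by linarith) (by linarith)
  have b2 := bx (t + D₂ * q) (by linarith) (by linarith)
  have k0 : Sl 0 = 1 := R.kd 0 (by norm_num)
  have k1 : ∀ a w : ℝ, t - (A + 1) * q ≤ w → w ≤ a → a ≤ t + (A + 1) * q →
      L 1 a w ≤ T 1 w w + (a - w) + ε₀ / 8 * q := (R.kd 1 (by norm_num)).2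
  have hkd : ∀ l < 2, True → (fun l => [Kd.one, Kd.thin].getD l .one) l = Kd.one ∨
      (fun l => [Kd.one, Kd.thin].getD l .one) l = Kd.thin := fun l hl _ => by
    have : l = 0 ∨ l = 1 := by omega
    rcases this with rfl | rfl
    · exact Or.inl rfl
    · exact Or.inr rfl
  have hε3 : 3 * (ε₀ / 8) * q ≤ ε₀ * q := by linarith
  have W0 := R.winD (k := 0) (by norm_num) (by linarith [(hVb 0).1]) (hVb 0).2 (by linarith)
    (ε' := ε₀ * q) hε3 (by positivity) (Rg := fun _ => True) hkd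
  have W1 := R.winD (k := 1) (by norm_num) (by linarith [(hVb 1).1]) (hVb 1).2 (by linarith)
    (ε' := ε₀ * q) hε3 (by positivity) (Rg := fun _ => True) hkd
  have U1 := recL_winD R (by norm_num) R' (k := 1) (by norm_num) (by linarith [(hVb 1).1])
    (hVb 1).2 (by linarith) (ε' := ε₀ * q) hε3 (by positivity) (Rg := fun _ => True)
    (fun l hl => hkd l (by omega))
  have U2 := recL_winD R (by norm_num) R' (k := 2) (by norm_num) (by linarith [(hVb 2).1])
    (hVb 2).2 (by linarith) (ε' := ε₀ * q) hε3 (by positivity) (Rg := fun _ => True)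
    (fun l hl => hkd l (by omega))
  rw [V0, zero_mul, add_zero] at W0
  rw [V1] at W1 U1
  rw [V2, one_mul] at U2
  -- the rational points
  obtain ⟨d, hd, hrat⟩ := R.rat 0 (by norm_num) (ε₀ * q) hεq
  rw [V0, zero_mul, add_zero] at hrat
  obtain ⟨d', hd', hrat'⟩ := R'.rat 2 (by norm_num) (ε₀ * q / 8) (by positivity)
  rw [V2, one_mul] at hrat'
  obtain ⟨w', hw1, hw2⟩ := exists_rat_btwn (show t < t + min d (A * q) by
    have : 0 < min d (A * q) := lt_min hd (by linarith)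
    linarith)
  have m1 := min_le_left d (A * q)
  have m2 := min_le_right d (A * q)
  obtain ⟨w₁, hw3, hw4⟩ := exists_rat_btwn (show t + q < t + q + min d' (min (ε₀ * q / 8)
      (A * q - q)) by
    have : 0 < min d' (min (ε₀ * q / 8) (A * q - q)) :=
      lt_min hd' (lt_min (by positivity) (by linarith))
    linarith)
  have m3 := min_le_left d' (min (ε₀ * q / 8) (A * q - q))
  have m4 := (min_le_right d' (min (ε₀ * q / 8) (A * q - q))).trans (min_le_left _ _)
  have m5 := (min_le_right d' (min (ε₀ * q / 8) (A * q - q))).trans (min_le_right _ _)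
  obtain ⟨a', ha1, ha2⟩ := exists_rat_btwn (show t + A * q < t + A * q + min d' (ε₀ * q) by
    have : 0 < min d' (ε₀ * q) := lt_min hd' hεq
    linarith)
  have m6 := min_le_left d' (ε₀ * q)
  have m7 := min_le_right d' (ε₀ * q)
  have ht1 := R.t1
  have ht0 := R.t0
  rw [eK] at ht1 ht0
  obtain ⟨-, r2, -⟩ := hrat (t + A * q) w' le_rfl (by linarith) hw1.le (by linarith)
    (by linarith)
  have r3 := hrat' a' w₁ ha1.le (by linarith) hw3.le (by linarith) (by linarith)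
  have hEbe := R.Ebe
  have hEbe' := R'.Ebe
  rw [e3K] at hEbe hEbe'
  have hbw := bx w' hw1.le (by linarith)
  have hbw₁ := bx w₁ (by linarith) (by linarith)
  have hrow : Pt t t + 2 * (A * q) ≤ Pt (t + A * q) t + 2 * (ε₀ / 8 * q) := by
    have h3 := R.stp (t + A * q) t (by linarith) (by linarith) (by linarith)
    have h4 := (R.TL 0 (by norm_num) 2 le_rfl).1
    rw [V0, zero_mul, add_zero] at h4
    have h5 := (abs_le.1 (R.dT 2 le_rfl t b0)).1
    rw [hL2] at h4 h5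
    rw [sub_self, mul_zero] at h5
    linarith
  have L1 := abs_le.1 (R.dL 0 (by norm_num) _ b1)
  have L2 := abs_le.1 (R.dL 0 (by norm_num) _ b2)
  have L3 := abs_le.1 (R.dL 1 (by norm_num) _ b1)
  have L4 := abs_le.1 (R.dL 1 (by norm_num) _ b2)
  have L5 := abs_le.1 (R.dL 2 le_rfl _ b2)
  rw [hLb 0 (by norm_num), k0] at L1 L2
  rw [hLb 1 (by norm_num), ← hs] at L3 L4
  rw [hL2, ← hb] at L5
  refine hcl (S := S) (P := P) (P₂ := P₂) (θ := θ) (θ₂ := θ₂) (c := c) (Pt := Pt) (w := t)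
    (q := q) (Eb := Eb) (Eb' := Eb') (e := e₂) (e' := e') (w' := w') (w₁ := w₁) (a' := a')
    R.ne R.thr R.th0 R.thr₂ R.tmh R.inj R.law hq (by linarith) W0 W1 U2 U1
    (fun l hl => ?_) (fun l hl => ?_) (fun l hl => ?_) (fun l hl => ?_)
    (abs_le.2 ⟨by linarith, by linarith⟩) (abs_le.2 ⟨by linarith, by linarith⟩)
    (abs_le.2 ⟨by linarith, by linarith⟩) (abs_le.2 ⟨by linarith, by linarith⟩)
    ?_ ?_ hw1.le (by linarith) hw3.le (by linarith) ha1.le (by linarith)
    ?_ ?_ ?_ (by linarith) (R.e₂θ _ hbw) (by linarith) (R'.eθ _ hbw₁)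
  · have := R.room l hl t b0
    rw [e3K] at this
    rw [← R.lv l hl]
    linarith
  · have := R.room l hl _ b2
    rw [e3K] at this
    rw [← R.lv l hl]
    linarith
  · have := R'.room l hl _ b1
    rw [e3K] at this
    rw [← hLb l (by omega)]
    linarith
  · have := R'.room l hl _ b2
    rw [e3K] at this
    rw [← hLb l (by omega)]
    linarith
  · have h3 := mul_le_mul_of_nonneg_right hDb hq.le
    linarith
  · have e1 : D₂ + A + Γ ≤ 2 * A := by linarith
    have h3 := mul_le_mul_of_nonneg_right e1 hq.le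
    linarith
  · have := r2 0 (by norm_num)
    rw [← hLb 0 (by norm_num)]
    linarith
  · have := r2 2 le_rfl
    rw [hL2] at this
    linarith
  · have h3 := k1 (t + A * q) (t + q) (by linarith) (by linarith) (by linarith)
    have h4 := (R.TL 2 (by norm_num) 1 (by norm_num)).2
    rw [V2, one_mul] at h4
    rw [hLb 1 (by norm_num)] at r3 h3 h4
    linarith

/-- **The cell [one, thin]** in every class. -/
theorem lCellA_one_thin {n : ℕ} (hn : 3 ≤ n) : Pool.ASM.LCellA n [.one, .thin] := by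
  refine Pool.ASM.lCellA_of_q (by simp) (by simp; omega) fun Sl hSl h2 => ?_
  exact cellQ_one_thin n Sl ((hSl 1 (by simp)).2.1 rfl) h2

end Pool.C2T
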