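import Pool.Agent.H54.C2T.Lme

/-!
# The cell [one, thin] in a class

`c2t_cls`: in a class, one coordinate of slope one, one thin coordinate of slope more than one, and a
target which grows by more than two, with a `2`-steep row: a contradiction.
-/

set_option autoImplicit false

namespace Pool.C2T

open Finset Real MvPolynomial
open Pool.Agent.H49.Ent Pool.Agent.H32.Dense Pool.STK Pool.KA Pool.KSAT Pool.K2S Pool.PB Pool.S6C
open Pool.GEN Pool.CHT Pool.CHX Pool.ISO Pool.D2R Pool.D2Z Pool.D2F Pool.RCV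
open Pool.LBT (LSys Slo Tri ThrOf fl_le')
open Pool.LEV (Law)
open Pool.PB.Trl (rt rt_mem t_rt)
open Pool.FLF (Fam.sub)

variable {m : ℕ}

/-- The bins. -/
theorem bin_ex {H y : ℝ} {l n : ℕ} (h : y ≤ H * 2 ^ (l * n)) :
    ∃ i < n + 1, if i = 0 then y ≤ H else H * 2 ^ (l * (i - 1)) ≤ y ∧ y ≤ H * 2 ^ (l * i) := by
  classical
  have hex : ∃ j, y ≤ H * 2 ^ (l * j) := ⟨n, h⟩
  refine ⟨Nat.find hex, Nat.lt_succ_of_le (Nat.find_min' hex h), ?_⟩
  have h1 := Nat.find_spec hex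
  split_ifs with h0
  · rw [h0, mul_zero, pow_zero, mul_one] at h1
    exact h1
  · refine ⟨?_, h1⟩
    have h2 := Nat.find_min hex (m := Nat.find hex - 1) (by omega)
    exact (not_le.1 h2).le

theorem flr_le {y b : ℝ} (h : y ≤ b) (hb : 0 ≤ b) : (⌊y⌋₊ : ℝ) ≤ b :=
  (Nat.cast_le.2 (Nat.floor_le_floor h)).trans (Nat.floor_le hb)

theorem nat_le {a b : ℕ} {x y : ℝ} (h1 : (a : ℝ) ≤ x) (h2 : x ≤ y) (h3 : y ≤ b) : a ≤ b := by
  exact_mod_cast h1.trans (h2.trans h3)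

/-- **The class theorem.** -/
theorem c2t_cls (m S₀ : ℕ) (hS₀ : 1 ≤ S₀) {s D₂ A Γ α lm₀ s₁ γ : ℝ} (hγ : 0 < γ) (hγ1 : γ ≤ 1)
    (hs : 1 < s) (hD₂ : 1 ≤ D₂) (hα : γ ≤ α) (hlm : γ ≤ lm₀) (hlm1 : lm₀ ≤ 1 / 4) (hs₁ : γ ≤ s₁)
    (hm1 : lm₀ + s₁ + γ ≤ s * D₂ - s - D₂ + 1) (hm2 : α + (s - 1) + s₁ + γ ≤ Γ)
    (hm3 : D₂ + Γ + γ ≤ A) :
    ∃ ε₀ : ℝ, 0 < ε₀ ∧ ∀ {S : PCl m} {P P₂ : List (Fin m) × Fin m → ℝ → ℝ → ℝ} {θ θ₂ : ℝ}
    {c : ℕ → Fin m} {Pt : ℝ → ℝ → ℝ} {w q Eb Eb' e e' : ℝ} {w' w₁ a' : ℚ}, S.Ne →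
    ThrOf (chsys m θ) S P → 0 < θ → ThrOf (chsys m θ₂) S P₂ → TmH S →
    Set.InjOn c (Set.Iio 3) → Law Pt → 0 < q → q ≤ w →
    WinD S P θ c 2 Pt (w + A * q) w S₀ Eb (ε₀ * q) (fun _ => True) →
    WinD S P θ c 2 Pt (w + A * q) (w + D₂ * q) S₀ Eb (ε₀ * q) (fun _ => True) →
    WinD S P θ c 1 (bet P c 1) (w + A * q) (w + q) S₀ Eb' (ε₀ * q) (fun _ => True) →
    WinD S P θ c 1 (bet P c 1) (w + A * q) (w + D₂ * q) S₀ Eb' (ε₀ * q) (fun _ => True) →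
    (∀ l ≤ 2, lvN P c 2 Pt l w w + Eb + (2 * A + 2) * q ≤ 1) →
    (∀ l ≤ 2, lvN P c 2 Pt l (w + D₂ * q) (w + D₂ * q) + Eb + (2 * A + 2) * q ≤ 1) →
    (∀ l ≤ 1, bet P c l (w + q) (w + q) + Eb' + (2 * A + 2) * q ≤ 1) →
    (∀ l ≤ 1, bet P c l (w + D₂ * q) (w + D₂ * q) + Eb' + (2 * A + 2) * q ≤ 1) →
    |bet P c 0 (w + q) (w + q) - bet P c 0 w w - q| ≤ ε₀ * q →
    |bet P c 0 (w + D₂ * q) (w + D₂ * q) - bet P c 0 w w - D₂ * q| ≤ ε₀ * q →
    |bet P c 1 (w + q) (w + q) - bet P c 1 w w - s * q| ≤ ε₀ * q →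
    |bet P c 1 (w + D₂ * q) (w + D₂ * q) - bet P c 1 w w - s * D₂ * q| ≤ ε₀ * q →
    Pt w w + (2 * D₂ + Γ) * q ≤ Pt (w + D₂ * q) (w + D₂ * q) + ε₀ * q →
    Pt w w + (D₂ + A + Γ) * q ≤ Pt (w + A * q) w + ε₀ * q →
    w ≤ w' → (w' : ℝ) < 1 → w + q ≤ w₁ → w₁ ≤ w + q + ε₀ * q → w + A * q ≤ a' →
    a' ≤ w + A * q + ε₀ * q →
    bet P₂ c 0 w' w' ≤ bet P c 0 w w + ε₀ * q → bet P₂ c 2 w' w' ≤ Pt w w + ε₀ * q →
    bet P c 1 a' w₁ ≤ bet P c 1 (w + q) (w + q) + (a' - w₁) + ε₀ * q →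
    Eb + q ≤ e → e < θ₂ * w' → Eb' + q ≤ e' → e' < θ * w₁ → False := by
  classical
  obtain ⟨N, hN⟩ : ∃ N : ℕ, 4 * (s + s₁ + 2) ≤ (N : ℝ) := exists_nat_ge _
  obtain ⟨D, hD, hcon⟩ := win_con m 2 S₀ (by norm_num) hS₀
  obtain ⟨Cw, hCw, hcon⟩ := hcon D le_rfl
  obtain ⟨D', hD', hcon'⟩ := win_con m 1 S₀ le_rfl hS₀
  obtain ⟨Cv, hCv, hcon'⟩ := hcon' D' le_rfl
  obtain ⟨Cd, hCd, hdat⟩ := dat_of m D
  obtain ⟨Cf, hCf, hflt⟩ := flat_end m D hD
  obtain ⟨Cl, Cr, hCl, hCr, hlam⟩ := lam_end m D D' N hD' hD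
  obtain ⟨Cc, hCc, hcrd⟩ := crd_ev m D
  obtain ⟨C₆, hC₆⟩ := pow_unbounded_of_one_lt Cc (one_lt_two (α := ℝ))
  have hCfR : (1 : ℝ) ≤ Cf := by exact_mod_cast hCf
  have hClR : (1 : ℝ) ≤ Cl := by exact_mod_cast hCl
  obtain ⟨K₀, hK₀⟩ : ∃ K₀ : ℝ, K₀ = Cw + Cv := ⟨_, rfl⟩
  have hK2 : 2 ≤ K₀ := by rw [hK₀]; linarith
  have hKw : Cw ≤ K₀ := by rw [hK₀]; linarith
  have hKv : Cv ≤ K₀ := by rw [hK₀]; linarith
  obtain ⟨M₀, hM₀⟩ : ∃ M₀ : ℝ, M₀ = Cr * (Cf + Cl) := ⟨_, rfl⟩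
  have hM2 : 2 ≤ M₀ := by
    rw [hM₀]
    nlinarith
  have hMr : 2 * Cr ≤ M₀ := by
    rw [hM₀]
    nlinarith
  obtain ⟨h₀, hh₀⟩ : ∃ h₀ : ℝ, h₀ = γ / (10000 * M₀) := ⟨_, rfl⟩
  have hh0 : 0 < h₀ := by rw [hh₀]; positivity
  have hhM : 10000 * (M₀ * h₀) = γ := by
    rw [hh₀]
    field_simp
  have hh1 : 20000 * h₀ ≤ γ := by
    rw [← hhM]
    have := mul_le_mul_of_nonneg_right hM2 hh0.le
    linarith only [this]
  obtain ⟨ε₀, hε₀⟩ : ∃ ε₀ : ℝ, ε₀ = h₀ / (8 * K₀ ^ 2) := ⟨_, rfl⟩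
  have hε0 : 0 < ε₀ := by rw [hε₀]; positivity
  have hεK : K₀ * ε₀ = h₀ / (8 * K₀) := by
    rw [hε₀]
    field_simp
  have hεK2 : K₀ * ε₀ ≤ h₀ / 16 := by
    rw [hεK]
    exact div_le_div_of_nonneg_left hh0.le (by norm_num) (by linarith only [hK2])
  have hε1 : ε₀ ≤ h₀ / 32 := by
    have := mul_le_mul_of_nonneg_right hK2 hε0.le
    linarith only [this, hεK2]
  refine ⟨ε₀, hε0, ?_⟩
  intro S P P₂ θ θ₂ c Pt w q Eb Eb' e e' w' w₁ a' hS hP hθ hP₂ hT hinj hPt hq hqw hWa hWb hVa hVb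
    hra hrb hrc hrd L1 L2 L3 L4 L5 L6 hww hw1 hwa hwb haa hab B1 B2 B3 E1 E2 E3 E4
  have hL2 : 0 < Real.log 2 := Real.log_pos (by norm_num)
  have hl21 : Real.log 2 ≤ 1 := by
    have := Real.log_two_lt_d9
    linarith only [this]
  have hinj2 : Set.InjOn c (Set.Iio 2) := hinj.mono (Set.Iio_subset_Iio (by norm_num))
  have hbP : Law (bet P c 1) := hP.law _
  -- the levels
  have lvl : ∀ l < 2, ∀ x y, lvN P c 2 Pt l x y = bet P c l x y := fun l hl x y => by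
    unfold lvN
    rw [if_pos hl]
  have lv2 : ∀ x y, lvN P c 2 Pt 2 x y = Pt x y := fun x y => by
    unfold lvN
    rw [if_neg (lt_irrefl 2)]
  have lvp : ∀ l ≤ 1, ∀ x y, lvN P c 1 (bet P c 1) l x y = bet P c l x y := fun l hl x y => by
    unfold lvN
    rcases hl.lt_or_eq with h | h
    · rw [if_pos h]
    · rw [h, if_neg (lt_irrefl 1)]
  have hEb : 0 ≤ Eb := by
    obtain ⟨ρ, vs, e, e₀, E, sg, Q, d1, d2⟩ := hWa.dw
    exact d1.E0.le.trans d2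
  have hEb' : 0 ≤ Eb' := by
    obtain ⟨ρ, vs, e, e₀, E, sg, Q, d1, d2⟩ := hVa.dw
    exact d1.E0.le.trans d2
  have hw0 : 0 < w := by linarith only [hq, hqw]
  have hlow : ∀ l, w ≤ lvN P c 2 Pt l w w := fun l => by
    obtain ⟨ρ, vs, e, e₀, E, sg, Q, d1, -⟩ := hWa.dw
    exact d1.low hP l
  have hlowA : w + A * q ≤ Pt (w + A * q) (w + D₂ * q) := by
    obtain ⟨ρ, vs, e, e₀, E, sg, Q, d1, -⟩ := hWb.da
    have := d1.low hP 2
    rwa [lv2] at this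
  have hlowB : w + A * q ≤ bet P c 1 (w + A * q) (w + q) := by
    obtain ⟨ρ, vs, e, e₀, E, sg, Q, d1, -⟩ := hVa.da
    have := d1.low hP 1
    rwa [lvp 1 le_rfl] at this
  have hlowC : w + A * q ≤ bet P c 1 (w + A * q) (w + D₂ * q) := by
    obtain ⟨ρ, vs, e, e₀, E, sg, Q, d1, -⟩ := hVb.da
    have := d1.low hP 1
    rwa [lvp 1 le_rfl] at this
  -- multiples of `q`
  have mq : ∀ {x y : ℝ}, x ≤ y → x * q ≤ y * q := fun h => mul_le_mul_of_nonneg_right h hq.le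
  have hD₂q : q ≤ D₂ * q := by have := mq hD₂; linarith only [this]
  have hγq : γ * q ≤ q := by have := mq hγ1; linarith only [this]
  have hγq0 : 0 < γ * q := mul_pos hγ hq
  have hαq : γ * q ≤ α * q := mq hα
  have hlmq : γ * q ≤ lm₀ * q := mq hlm
  have hlmq1 : lm₀ * q ≤ q / 4 := by have := mq hlm1; linarith only [this]
  have hs₁q : γ * q ≤ s₁ * q := mq hs₁
  have hsq : q ≤ s * q := by have := mq hs.le; linarith only [this]
  have hm1q : lm₀ * q + s₁ * q + γ * q ≤ s * D₂ * q - s * q - D₂ * q + q := by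
    have := mq hm1
    linarith only [this]
  have hm2q : α * q + (s * q - q) + s₁ * q + γ * q ≤ Γ * q := by
    have := mq hm2
    linarith only [this]
  have hm3q : D₂ * q + Γ * q + γ * q ≤ A * q := by
    have := mq hm3
    linarith only [this]
  obtain ⟨u, hu⟩ : ∃ u : ℝ, u = h₀ * q := ⟨_, rfl⟩
  have hu0 : 0 < u := by rw [hu]; positivity
  have hu1 : 20000 * u ≤ γ * q := by
    have := mq hh1
    rw [hu]
    linarith only [this]
  obtain ⟨η, hη⟩ : ∃ η : ℝ, η = u / (4 * K₀) := ⟨_, rfl⟩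
  have hη0 : 0 < η := by rw [hη]; positivity
  have hKη : K₀ * η = u / 4 := by
    rw [hη]
    field_simp
  have hη1 : η ≤ u / 8 := by
    have := mul_le_mul_of_nonneg_right hK2 hη0.le
    linarith only [this, hKη]
  have hCwη : Cw * η ≤ u / 4 := by
    rw [← hKη]
    exact mul_le_mul_of_nonneg_right hKw hη0.le
  have hCvη : Cv * η ≤ u / 4 := by
    rw [← hKη]
    exact mul_le_mul_of_nonneg_right hKv hη0.le
  have hεq0 : 0 < ε₀ * q := mul_pos hε0 hq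
  have hεqu : ε₀ * q ≤ u / 32 := by
    have := mq hε1
    rw [hu]
    linarith only [this]
  have hKεη : K₀ * (ε₀ * q) < η := by
    have e1 : K₀ * (ε₀ * q) = u / (8 * K₀) := by
      rw [← mul_assoc, hεK, hu]
      ring
    rw [e1, hη]
    exact div_lt_div_of_pos_left hu0 (by positivity) (by linarith only [hK2])
  have hCwε : Cw * (ε₀ * q) < η := lt_of_le_of_lt (mul_le_mul_of_nonneg_right hKw hεq0.le) hKεη
  have hCvε : Cv * (ε₀ * q) < η := lt_of_le_of_lt (mul_le_mul_of_nonneg_right hKv hεq0.le) hKεη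
  obtain ⟨ζ, hζ⟩ : ∃ ζ : ℝ, ζ = γ * q / (20 * Cr) := ⟨_, rfl⟩
  have hCr0 : 0 < Cr := by linarith only [hCr]
  have hζ0 : 0 < ζ := by rw [hζ]; positivity
  have hCrζ : Cr * ζ = γ * q / 20 := by
    rw [hζ]
    field_simp
  have hζM : 500 * ((Cf + Cl) * u) = ζ := by
    have e1 : Cr * (500 * ((Cf + Cl) * u)) = Cr * ζ := by
      rw [hCrζ, ← hhM, hM₀, hu]
      ring
    exact mul_left_cancel₀ hCr0.ne' e1
  have hζu : 1000 * u ≤ ζ := by
    rw [← hζM]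
    have : 2 * u ≤ (Cf + Cl) * u := mul_le_mul_of_nonneg_right (by linarith only [hCfR, hClR]) hu0.le
    linarith only [this]
  have hζγ : ζ ≤ γ * q / 20 := by
    have := mul_le_mul_of_nonneg_right hCr hζ0.le
    linarith only [this, hCrζ]
  -- the windows
  obtain ⟨o, ho⟩ : ∃ o : ℕ → ℝ, o = fun k => if k = 0 then w else w + D₂ * q := ⟨_, rfl⟩
  have ho0 : o 0 = w := by rw [ho]; simp
  have ho1 : o 1 = w + D₂ * q := by rw [ho]; simp
  have ho2 : o 2 = w + D₂ * q := by rw [ho]; simp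
  obtain ⟨o', ho'⟩ : ∃ o' : ℕ → ℝ, o' = fun k => if k = 0 then w + q else w + D₂ * q := ⟨_, rfl⟩
  have ho0' : o' 0 = w + q := by rw [ho']; simp
  have ho1' : o' 1 = w + D₂ * q := by rw [ho']; simp
  obtain ⟨p', hp'⟩ : ∃ p' : ℕ → ℝ, p' = fun k => if k = 0 then
      Pt w w + (D₂ + A + Γ) * q - u / 2 else u / 4 := ⟨_, rfl⟩
  have hp0 : p' 0 = Pt w w + (D₂ + A + Γ) * q - u / 2 := by rw [hp']; simp
  have hp1 : p' 1 = u / 4 := by rw [hp']; simp
  have hp2 : p' 2 = u / 4 := by rw [hp']; simp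
  have hk3 : ∀ {φ : ℕ → Prop}, φ 0 → φ 1 → φ 2 → ∀ k ≤ 2, φ k := by
    intro φ h0 h1 h2 k hk
    interval_cases k
    exacts [h0, h1, h2]
  have hk2 : ∀ {φ : ℕ → Prop}, φ 0 → φ 1 → ∀ k ≤ 1, φ k := by
    intro φ h0 h1 k hk
    interval_cases k
    exacts [h0, h1]
  have eA : (2 * A + 2) * q = 2 * (A * q) + 2 * q := by ring
  have e5 : (D₂ + A + Γ) * q = D₂ * q + A * q + Γ * q := by ring
  have e6 : (2 * D₂ + Γ) * q = 2 * (D₂ * q) + Γ * q := by ring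
  rw [eA] at hra hrb hrc hrd
  rw [e5] at L6 hp0
  rw [e6] at L5
  have hPw : w ≤ Pt w w := by have := hlow 2; rwa [lv2] at this
  obtain ⟨K₁', μ', b', hK₁', hμ', hcon'⟩ := hcon' (S := S) (P := P) (θ := θ) (c := c)
    (Pt := bet P c 1)
    (R := fun _ => True) (a := w + A * q) (Eb := Eb') (ηm := η) (o := o') (ε := fun _ => ε₀ * q)
    (p' := fun _ => u / 4) (η := fun _ => η) (σ := fun _ => η) (r₀ := fun _ => u / 2) 1 0 hP hθ hT
    hinj2 hbP hEb' (hk2 (by rw [ho0']; exact hVa) (by rw [ho1']; exact hVb))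
    (hk2 ⟨by rw [ho0']; linarith only [hCvε, hη1, hu1, hγq, hq, hw0], hCvε, by
        rw [ho0']; linarith only [hCvη, hu1, hγq, hq, hw0, hu0]⟩
      ⟨by rw [ho1']; linarith only [hCvε, hη1, hu1, hγq, hq, hw0, hD₂q], hCvε, by
        rw [ho1']; linarith only [hCvη, hu1, hγq, hq, hw0, hD₂q, hu0]⟩)
    (hk2 ⟨hCvη, by
        rw [ho0']
        linarith only [hCvε, hη1, hu1, hγq, hq, hw0, hm3q, hD₂q, hm2q, hsq, hαq, hγq0, hs₁q, hlowB,
          hu0]⟩ ⟨hCvη, by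
        rw [ho1']
        linarith only [hCvε, hη1, hu1, hγq, hq, hw0, hm3q, hD₂q, hm2q, hsq, hαq, hγq0, hs₁q, hlowC,
          hu0]⟩)
    (hk2 ⟨hη0, le_rfl, by linarith only [hu0], by
        linarith only [hη1, hu1, hγq, hw0, hm3q, hD₂q, hm2q, hsq, hαq, hγq0, hs₁q, hq], le_rfl⟩
      ⟨hη0, le_rfl, by linarith only [hu0], by
        linarith only [hη1, hu1, hγq, hw0, hm3q, hD₂q, hm2q, hsq, hαq, hγq0, hs₁q, hq], le_rfl⟩)
    (hk2 (fun l hl => by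
        rw [ho0', lvp l hl]
        linarith only [hrc l hl, hη1, hu1, hγq, hq, hm3q, hD₂q, hm2q, hsq, hαq, hγq0, hs₁q])
      (fun l hl => by
        rw [ho1', lvp l hl]
        linarith only [hrd l hl, hη1, hu1, hγq, hq, hm3q, hD₂q, hm2q, hsq, hαq, hγq0, hs₁q]))
    (hk2 (fun l hl => by
        have h1 := hVa.rgh l hl trivial
        rw [ho0']
        linarith only [h1, hrc l hl.le, hη1, hu1, hγq, hq, hm3q, hD₂q, hm2q, hsq, hαq, hγq0, hs₁q,
          hεqu])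
      (fun l hl => by
        have h1 := hVb.rgh l hl trivial
        rw [ho1']
        linarith only [h1, hrd l hl.le, hη1, hu1, hγq, hq, hm3q, hD₂q, hm2q, hsq, hαq, hγq0, hs₁q,
          hεqu]))
  have hcon' := hcon' 1 one_pos
  obtain ⟨K₁, μ, b, hK₁, hμ, hcon⟩ := hcon (S := S) (P := P) (θ := θ) (c := c) (Pt := Pt)
    (R := fun _ => True) (a := w + A * q) (Eb := Eb) (ηm := η) (o := o) (ε := fun _ => ε₀ * q)
    (p' := p') (η := fun _ => η) (σ := fun _ => η) (r₀ := fun _ => u / 2) 2 0 hP hθ hT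
    hinj hPt hEb (hk3 (by rw [ho0]; exact hWa) (by rw [ho1]; exact hWb) (by rw [ho2]; exact hWb))
    (hk3 ⟨by rw [ho0]; linarith only [hCwε, hη1, hu1, hγq, hq, hqw], hCwε, by
        rw [ho0]; linarith only [hCwη, hu1, hγq, hq, hqw, hu0]⟩
      ⟨by rw [ho1]; linarith only [hCwε, hη1, hu1, hγq, hq, hw0, hD₂q], hCwε, by
        rw [ho1]; linarith only [hCwη, hu1, hγq, hq, hw0, hD₂q, hu0]⟩
      ⟨by rw [ho2]; linarith only [hCwε, hη1, hu1, hγq, hq, hw0, hD₂q], hCwε, by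
        rw [ho2]; linarith only [hCwη, hu1, hγq, hq, hw0, hD₂q, hu0]⟩)
    (hk3 ⟨by
        rw [hp0]
        linarith only [hCwη, hu1, hγq, hq, hw0, hm3q, hD₂q, hm2q, hsq, hαq, hγq0, hs₁q, hPw, hu0],
        by
        rw [ho0, hp0]
        linarith only [hCwε, hη1, hεqu, hu0, L6]⟩
      ⟨by rw [hp1]; exact hCwη, by
        rw [hp1, ho1]
        linarith only [hCwε, hη1, hu1, hγq, hq, hw0, hm3q, hD₂q, hm2q, hsq, hαq, hγq0, hs₁q, hlowA,
          hu0]⟩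
      ⟨by rw [hp2]; exact hCwη, by
        rw [hp2, ho2]
        linarith only [hCwε, hη1, hu1, hγq, hq, hw0, hm3q, hD₂q, hm2q, hsq, hαq, hγq0, hs₁q, hlowA,
          hu0]⟩)
    (hk3 ⟨hη0, le_rfl, by linarith only [hu0], by
        linarith only [hη1, hu1, hγq, hw0, hm3q, hD₂q, hm2q, hsq, hαq, hγq0, hs₁q, hq], le_rfl⟩
      ⟨hη0, le_rfl, by linarith only [hu0], by
        linarith only [hη1, hu1, hγq, hw0, hm3q, hD₂q, hm2q, hsq, hαq, hγq0, hs₁q, hq], le_rfl⟩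
      ⟨hη0, le_rfl, by linarith only [hu0], by
        linarith only [hη1, hu1, hγq, hw0, hm3q, hD₂q, hm2q, hsq, hαq, hγq0, hs₁q, hq], le_rfl⟩)
    (hk3 (fun l hl => by
        rw [ho0]
        linarith only [hra l hl, hη1, hu1, hγq, hq, hm3q, hD₂q, hm2q, hsq, hαq, hγq0, hs₁q])
      (fun l hl => by
        rw [ho1]
        linarith only [hrb l hl, hη1, hu1, hγq, hq, hm3q, hD₂q, hm2q, hsq, hαq, hγq0, hs₁q])
      (fun l hl => by
        rw [ho2]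
        linarith only [hrb l hl, hη1, hu1, hγq, hq, hm3q, hD₂q, hm2q, hsq, hαq, hγq0, hs₁q]))
    (hk3 (fun l hl => by
        have h1 := hWa.rgh l hl trivial
        have h2 := hra l hl.le
        rw [lvl l hl] at h2
        rw [ho0]
        linarith only [h1, h2, hη1, hu1, hγq, hq, hm3q, hD₂q, hm2q, hsq, hαq, hγq0, hs₁q, hεqu])
      (fun l hl => by
        have h1 := hWb.rgh l hl trivial
        have h2 := hrb l hl.le
        rw [lvl l hl] at h2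
        rw [ho1]
        linarith only [h1, h2, hη1, hu1, hγq, hq, hm3q, hD₂q, hm2q, hsq, hαq, hγq0, hs₁q, hεqu])
      (fun l hl => by
        have h1 := hWb.rgh l hl trivial
        have h2 := hrb l hl.le
        rw [lvl l hl] at h2
        rw [ho2]
        linarith only [h1, h2, hη1, hu1, hγq, hq, hm3q, hD₂q, hm2q, hsq, hαq, hγq0, hs₁q, hεqu]))
  have hcon := bas_ev (hcon 1 one_pos) (κ := 1 / K₁') (by positivity)
  -- the ends
  obtain ⟨nb, hnb⟩ : ∃ nb : ℕ, 8 / (lm₀ * q) ≤ (nb : ℝ) := exists_nat_ge _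
  have hlm0 : 0 < lm₀ * q := by linarith only [hlmq, hγq0]
  rw [div_le_iff₀ hlm0] at hnb
  obtain ⟨κ₁, hκ₁⟩ : ∃ κ₁ : ℝ, κ₁ = 1 / (2 * (K₁' * K₁) * (nb + 2)) := ⟨_, rfl⟩
  have hκ0 : 0 < κ₁ := by rw [hκ₁]; positivity
  have hw'0 : (0 : ℚ) ≤ w' := by
    have : (0 : ℝ) ≤ w' := hw0.le.trans hww
    exact_mod_cast this
  have hw'1 : w' < 1 := by exact_mod_cast hw1
  have hw₁0 : (0 : ℚ) ≤ w₁ := by
    have : (0 : ℝ) ≤ w₁ := by linarith only [hw0, hq, hwa]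
    exact_mod_cast this
  have hA3 : γ * q + q + γ * q + γ * q ≤ A * q := by
    linarith only [hm3q, hD₂q, hm2q, hsq, hαq, hγq0, hs₁q]
  have hwa' : (w₁ : ℝ) ≤ a' := by linarith only [hwb, haa, hA3, hεqu, hu1, hγq0]
  have hra0 := hra 0 (by norm_num)
  have hra2 := hra 2 le_rfl
  have hrc0 := hrc 0 (by norm_num)
  have hrc1 := hrc 1 le_rfl
  have hlow0 := hlow 0
  rw [lvl 0 (by norm_num)] at hra0 hlow0
  rw [lv2] at hra2
  have ha'1 : (a' : ℝ) ≤ 1 := by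
    linarith only [hra0, hlow0, hab, hEb, hq, hεqu, hu1, hγq, hA3, hγq0]
  have hw₁1 : (w₁ : ℝ) < 1 := by
    linarith only [hra0, hlow0, hwb, hEb, hq, hεqu, hu1, hγq, hA3, hγq0]
  have hflt := hflt (S := S) (P := P₂) (θ := θ₂) (c := c) (C₀ := Cw) (Eb := Eb) (ηm := η)
    (o := o) (ε := fun _ => ε₀ * q) (p' := p') (η := fun _ => η) (σ := fun _ => η)
    (lv := fun k l => lvN P c 2 Pt l (o k) (o k)) (be := fun k l => bet P c l (w + A * q) (o k))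
    (Dr := D) (w' := w') (a' := w + A * q) (h := u) (e := e) (ε₁ := u) (κ₁ := κ₁) hP₂ hT hinj hw'0
    hw'1 E2 hu0 (by linarith only [B1, hra0, hεqu, hu1, hγq, hq, hEb, hA3, hγq0])
    (by linarith only [B2, hra2, hεqu, hu1, hγq, hq, hEb, hA3, hγq0]) hu0 hκ0
  have hlam := hlam (S := S) (P := P) (P₂ := P₂) (θ := θ) (θ₂ := θ₂) (c := c) (C₀ := Cw)
    (Eb := Eb) (ηm := η) (ζ := ζ) (o := o) (ε := fun _ => ε₀ * q) (p' := p') (η := fun _ => η)
    (σ := fun _ => η) (lv := fun k l => lvN P c 2 Pt l (o k) (o k))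
    (be := fun k l => bet P c l (w + A * q) (o k)) (Dr := D) (C₀' := Cv) (Eb' := Eb') (ηm' := η)
    (o' := o') (ε' := fun _ => ε₀ * q) (p'' := fun _ => u / 4) (η' := fun _ => η)
    (σ' := fun _ => η) (lv' := fun k l => lvN P c 1 (bet P c 1) l (o' k) (o' k))
    (be' := fun k l => bet P c l (w + A * q) (o' k)) (Dr' := D') (a := a') (w := w₁) (w' := w')
    (a' := w + A * q) (q₁ := u) (s₁ := s₁ * q) (h := u) (e := e') (e₂ := e) (ε₁ := u) (κ₁ := κ₁)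
    hP hP₂ hT hinj (by rw [ho0']; exact hwa) (by rw [ho0']; linarith only [hwb, hεqu, hζu, hu0])
    haa (by linarith only [hab, hεqu, hζu, hu0]) hw₁0 (by exact_mod_cast hwa')
    (by exact_mod_cast ha'1) (by exact_mod_cast hw₁1) E4 hu0 hζ0
    (by linarith only [hCvη, hζu, hu0]) hu0.le (by
      linarith only [B3, hrc1, hεqu, hu1, hγq, hq, hEb', hA3, hγq0, hwa, hab])
    (by linarith only [E3, hCrζ, hγq, hq]) (by
      rw [ho0', lvp 1 le_rfl]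
      linarith only [B3, hεqu, hu1, hCrζ, hs₁q, hγq0]) (by
      rw [ho1', lvp 1 le_rfl]
      have h1 := (abs_le.1 L3).2
      have h2 := (abs_le.1 L4).1
      linarith only [B3, hεqu, hu1, hCrζ, hs₁q, hγq0, h1, h2, hm1q, hlmq, hwa])
    (by
      rw [ho0', lvp 1 le_rfl]
      linarith only [B3, hεqu, hu1, hCrζ, hs₁q, hγq0, hA3, haa, hwb])
    (by linarith only [hεqu, hu1, hCrζ, hγq0, hA3, haa, hwb]) (fun l hl => by
      rw [ho0', lvp l hl]
      have h1 := hrc l hl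
      linarith only [h1, hεqu, hu1, hCrζ, hγq, hγq0, hA3, hab, hwa]) (by
      rw [ho0', lvp 1 le_rfl]
      linarith only [B3, hεqu, hζu, hu0]) hw'0 hw'1 E2
    (by linarith only [B1, hra0, hεqu, hu1, hγq, hq, hEb, hA3, hγq0]) hu0 hκ0
  -- the time
  have hCc0 : 0 < Cc := by linarith only [hCc]
  obtain ⟨εt, hεt⟩ : ∃ εt : ℝ, εt = u * Real.log 2 / (2 * Cc) := ⟨_, rfl⟩
  have hεt0 : 0 < εt := by rw [hεt]; positivity
  have hCεt : Cc * εt = u * Real.log 2 / 2 := by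
    rw [hεt]
    field_simp
  have htm := bas_ev (hT.2 εt hεt0) (κ := 1 / (K₁' * K₁)) (by positivity)
  have hpos : Bas S (fun _ F A => 0 < Pe F.p A) := ⟨1, one_pos, 0, fun J _ F A hA =>
    hT.1 1 J F A hA⟩
  obtain ⟨J₁, hJ₁⟩ := exists_nat_ge ((Cc + Cd + C₆ + N + 1000) / (u * Real.log 2 / 2))
  have key : Bas S (fun _ _ _ => False) := by
    refine Bas.mono J₁ (((hcon'.and hcon).and (hflt.and hlam)).and (htm.and hpos)) ?_
    rintro J hJ F Ae ⟨⟨⟨hcon', hcon⟩, hflt, hlam⟩, htm, hA0⟩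
    have hpn := Pe_nonneg F.isLaw
    have hJ0 : (0 : ℝ) ≤ J := Nat.cast_nonneg J
    obtain ⟨x, hx⟩ : ∃ x : ℝ, x = u * J := ⟨_, rfl⟩
    have hx' : u / 2 * J = x / 2 := by rw [hx]; ring
    have hxl : Cc + Cd + C₆ + N + 1000 ≤ x * Real.log 2 / 2 := by
      have h2 : (J₁ : ℝ) ≤ J := by exact_mod_cast hJ
      have h3 := hJ₁.trans h2
      rw [div_le_iff₀ (by positivity)] at h3
      rw [hx]
      linarith only [h3]
    have hC₆0 : (0 : ℝ) ≤ C₆ := Nat.cast_nonneg _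
    have hCd0 : (0 : ℝ) ≤ Cd := Nat.cast_nonneg _
    have hN0 : (0 : ℝ) ≤ N := Nat.cast_nonneg _
    have hx0 : 0 ≤ x := by rw [hx]; positivity
    have hx1 : Cc + Cd + C₆ + N + 1000 ≤ x := by
      have : x * Real.log 2 ≤ x * 1 := mul_le_mul_of_nonneg_left hl21 hx0
      linarith only [this, hxl, hx0]
    have mJ : ∀ {y z : ℝ}, y ≤ z → y * J ≤ z * J := fun h => mul_le_mul_of_nonneg_right h hJ0
    -- the units
    obtain ⟨Q, hQ⟩ : ∃ Q : ℝ, Q = q * J := ⟨_, rfl⟩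
    obtain ⟨wJ, hwJ⟩ : ∃ wJ : ℝ, wJ = w * J := ⟨_, rfl⟩
    obtain ⟨dQ, hdQ⟩ : ∃ dQ : ℝ, dQ = D₂ * q * J := ⟨_, rfl⟩
    obtain ⟨aQ, haQ⟩ : ∃ aQ : ℝ, aQ = A * q * J := ⟨_, rfl⟩
    obtain ⟨gQ, hgQ⟩ : ∃ gQ : ℝ, gQ = Γ * q * J := ⟨_, rfl⟩
    obtain ⟨alQ, halQ⟩ : ∃ alQ : ℝ, alQ = α * q * J := ⟨_, rfl⟩
    obtain ⟨lQ, hlQ⟩ : ∃ lQ : ℝ, lQ = lm₀ * q * J := ⟨_, rfl⟩
    obtain ⟨sgQ, hsgQ⟩ : ∃ sgQ : ℝ, sgQ = s₁ * q * J := ⟨_, rfl⟩
    obtain ⟨sQ, hsQ⟩ : ∃ sQ : ℝ, sQ = s * q * J := ⟨_, rfl⟩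
    obtain ⟨sdQ, hsdQ⟩ : ∃ sdQ : ℝ, sdQ = s * D₂ * q * J := ⟨_, rfl⟩
    obtain ⟨gm, hgm⟩ : ∃ gm : ℝ, gm = γ * q * J := ⟨_, rfl⟩
    obtain ⟨EJ, hEJ⟩ : ∃ EJ : ℝ, EJ = Eb * J := ⟨_, rfl⟩
    have hEJ0 : 0 ≤ EJ := by rw [hEJ]; positivity
    have v1 : Q ≤ dQ := by have := mJ hD₂q; rw [hQ, hdQ]; exact this
    have v2 : gm ≤ Q := by have := mJ hγq; rw [hQ, hgm]; exact this
    have v3 : gm ≤ alQ := by have := mJ hαq; rw [halQ, hgm]; exact this
    have v4 : gm ≤ lQ := by have := mJ hlmq; rw [hlQ, hgm]; exact this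
    have v5 : lQ ≤ Q / 4 := by have := mJ hlmq1; rw [hlQ, hQ]; linarith only [this]
    have v6 : gm ≤ sgQ := by have := mJ hs₁q; rw [hsgQ, hgm]; exact this
    have v7 : Q ≤ sQ := by have := mJ hsq; rw [hQ, hsQ]; exact this
    have v8 : lQ + sgQ + gm ≤ sdQ - sQ - dQ + Q := by
      have := mJ hm1q
      rw [hlQ, hsgQ, hgm, hsdQ, hsQ, hdQ, hQ]
      linarith only [this]
    have v9 : alQ + (sQ - Q) + sgQ + gm ≤ gQ := by
      have := mJ hm2q
      rw [halQ, hsQ, hQ, hsgQ, hgm, hgQ]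
      linarith only [this]
    have v10 : dQ + gQ + gm ≤ aQ := by
      have := mJ hm3q
      rw [hdQ, hgQ, hgm, haQ]
      linarith only [this]
    have v11 : 20000 * x ≤ gm := by
      have := mJ hu1
      rw [hx, hgm]
      linarith only [this]
    have v12 : Q ≤ wJ := by have := mJ hqw; rw [hQ, hwJ]; exact this
    have v13 : η * J ≤ x / 8 := by have := mJ hη1; rw [hx]; linarith only [this]
    have v14 : ε₀ * q * J ≤ x / 32 := by have := mJ hεqu; rw [hx]; linarith only [this]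
    have v15 : Cw * (η * J) ≤ x / 4 := by have := mJ hCwη; rw [hx]; linarith only [this]
    have v16 : Cv * (η * J) ≤ x / 4 := by have := mJ hCvη; rw [hx]; linarith only [this]
    have v17 : ζ * J = 500 * ((Cf + Cl) * x) := by rw [← hζM, hx]; ring
    have v18 : ζ * J ≤ gm / 20 := by have := mJ hζγ; rw [hgm]; linarith only [this]
    have v19 : 8 * (J : ℝ) ≤ nb * lQ := by have := mJ hnb; rw [hlQ]; linarith only [this]
    -- the levels
    obtain ⟨aL, haL⟩ : ∃ aL : ℕ → ℝ, aL = fun l => lvN P c 2 Pt l w w * J := ⟨_, rfl⟩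
    obtain ⟨dL, hdL⟩ : ∃ dL : ℕ → ℝ, dL = fun l => lvN P c 2 Pt l (w + D₂ * q) (w + D₂ * q) * J :=
      ⟨_, rfl⟩
    obtain ⟨bL, hbL⟩ : ∃ bL : ℕ → ℝ, bL = fun l => bet P c l (w + q) (w + q) * J := ⟨_, rfl⟩
    have y1 : ∀ l, wJ ≤ aL l := fun l => by rw [haL, hwJ]; exact mJ (hlow l)
    have y2 : ∀ l ≤ 2, aL l + EJ + 2 * aQ + 2 * Q ≤ J := fun l hl => by
      have := mJ (hra l hl)
      rw [haL, hEJ, haQ, hQ]
      linarith only [this]
    have y3 : ∀ l ≤ 2, dL l + EJ + 2 * aQ + 2 * Q ≤ J := fun l hl => by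
      have := mJ (hrb l hl)
      rw [hdL, hEJ, haQ, hQ]
      linarith only [this]
    have al0 : aL 0 = bet P c 0 w w * J := by rw [haL]; beta_reduce; rw [lvl 0 (by norm_num)]
    have al1 : aL 1 = bet P c 1 w w * J := by rw [haL]; beta_reduce; rw [lvl 1 (by norm_num)]
    have al2 : aL 2 = Pt w w * J := by rw [haL]; beta_reduce; rw [lv2]
    have dl0 : dL 0 = bet P c 0 (w + D₂ * q) (w + D₂ * q) * J := by
      rw [hdL]; beta_reduce; rw [lvl 0 (by norm_num)]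
    have dl1 : dL 1 = bet P c 1 (w + D₂ * q) (w + D₂ * q) * J := by
      rw [hdL]; beta_reduce; rw [lvl 1 (by norm_num)]
    have dl2 : dL 2 = Pt (w + D₂ * q) (w + D₂ * q) * J := by rw [hdL]; beta_reduce; rw [lv2]
    have y4 : bL 0 ≤ aL 0 + Q + x / 32 ∧ aL 0 + Q ≤ bL 0 + x / 32 := by
      have h1 := mJ (abs_le.1 L1).2
      have h2 := mJ (abs_le.1 L1).1
      rw [al0, hbL, hQ]
      constructor <;> linarith only [h1, h2, v14]
    have y5 : dL 0 ≤ aL 0 + dQ + x / 32 ∧ aL 0 + dQ ≤ dL 0 + x / 32 := by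
      have h1 := mJ (abs_le.1 L2).2
      have h2 := mJ (abs_le.1 L2).1
      rw [al0, dl0, hdQ]
      constructor <;> linarith only [h1, h2, v14]
    have y6 : bL 1 ≤ aL 1 + sQ + x / 32 ∧ aL 1 + sQ ≤ bL 1 + x / 32 := by
      have h1 := mJ (abs_le.1 L3).2
      have h2 := mJ (abs_le.1 L3).1
      rw [al1, hbL, hsQ]
      constructor <;> linarith only [h1, h2, v14]
    have y7 : dL 1 ≤ aL 1 + sdQ + x / 32 ∧ aL 1 + sdQ ≤ dL 1 + x / 32 := by
      have h1 := mJ (abs_le.1 L4).2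
      have h2 := mJ (abs_le.1 L4).1
      rw [al1, dl1, hsdQ]
      constructor <;> linarith only [h1, h2, v14]
    have y8 : aL 2 + 2 * dQ + gQ ≤ dL 2 + x / 32 := by
      have h1 := mJ L5
      rw [al2, dl2, hdQ, hgQ]
      linarith only [h1, v14]
    have y9 : p' 0 * J = aL 2 + dQ + aQ + gQ - x / 2 := by
      rw [hp0, al2, hdQ, haQ, hgQ, hx]
      ring
    -- the windows
    obtain ⟨W, hW⟩ : ∃ W : ℕ, W = ⌊o 0 * J⌋₊ := ⟨_, rfl⟩
    obtain ⟨W₁, hW₁⟩ : ∃ W₁ : ℕ, W₁ = ⌊o' 0 * J⌋₊ := ⟨_, rfl⟩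
    obtain ⟨W₂, hW₂⟩ : ∃ W₂ : ℕ, W₂ = ⌊o 2 * J⌋₊ := ⟨_, rfl⟩
    obtain ⟨R₀, hR₀⟩ : ∃ R₀ : ℕ, R₀ = ⌊(w + A * q) * J⌋₊ := ⟨_, rfl⟩
    have hwJ0 : 0 ≤ wJ := by rw [hwJ]; positivity
    have hQ0 : 0 ≤ Q := by rw [hQ]; positivity
    have z1 : (W : ℝ) ≤ wJ ∧ wJ < W + 1 := by
      rw [hW, ho0, ← hwJ]
      exact ⟨Nat.floor_le hwJ0, Nat.lt_floor_add_one _⟩
    have z2 : (W₁ : ℝ) ≤ wJ + Q ∧ wJ + Q < W₁ + 1 := by
      have e1 : (w + q) * (J : ℝ) = wJ + Q := by rw [hwJ, hQ]; ring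
      rw [hW₁, ho0', e1]
      exact ⟨Nat.floor_le (by linarith only [hwJ0, hQ0]), Nat.lt_floor_add_one _⟩
    have z3 : (W₂ : ℝ) ≤ wJ + dQ ∧ wJ + dQ < W₂ + 1 := by
      have e1 : (w + D₂ * q) * (J : ℝ) = wJ + dQ := by rw [hwJ, hdQ]; ring
      rw [hW₂, ho2, e1]
      exact ⟨Nat.floor_le (by linarith only [hwJ0, hQ0, v1]), Nat.lt_floor_add_one _⟩
    have z4 : (R₀ : ℝ) ≤ wJ + aQ ∧ wJ + aQ < R₀ + 1 := by
      have e1 : (w + A * q) * (J : ℝ) = wJ + aQ := by rw [hwJ, haQ]; ring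
      rw [hR₀, e1]
      exact ⟨Nat.floor_le (by linarith only [hwJ0, hQ0, v1, v10, v9, v7, v6, v3, v11, hx0]),
        Nat.lt_floor_add_one _⟩
    -- the numbers
    have nle : ∀ {a b : ℕ}, (a : ℝ) ≤ b → a ≤ b := fun h => by exact_mod_cast h
    obtain ⟨Y, hY⟩ : ∃ Y : ℕ, Y = ⌊x⌋₊ := ⟨_, rfl⟩
    obtain ⟨Gn, hGn⟩ : ∃ Gn : ℕ, Gn = ⌊gQ⌋₊ := ⟨_, rfl⟩
    obtain ⟨αn, hαn⟩ : ∃ αn : ℕ, αn = ⌊alQ⌋₊ := ⟨_, rfl⟩
    obtain ⟨lm, hlmn⟩ : ∃ lm : ℕ, lm = ⌊lQ⌋₊ := ⟨_, rfl⟩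
    obtain ⟨r, hr⟩ : ∃ r : ℕ, r = ⌊Q / 4⌋₊ := ⟨_, rfl⟩
    obtain ⟨sn, hsn⟩ : ∃ sn : ℕ, sn = ⌊s₁ * q * J⌋₊ := ⟨_, rfl⟩
    obtain ⟨e₀, he₀⟩ : ∃ e₀ : ℕ, e₀ = ⌊(Eb + η + η) * J⌋₊ := ⟨_, rfl⟩
    obtain ⟨Z, hZ⟩ : ∃ Z : ℕ, Z = ⌊ζ * J⌋₊ := ⟨_, rfl⟩
    obtain ⟨en, hen⟩ : ∃ en : ℕ, en = ⌊e * J⌋₊ := ⟨_, rfl⟩
    obtain ⟨wn, hwn⟩ : ∃ wn : ℕ, wn = ⌊(w' : ℝ) * J⌋₊ := ⟨_, rfl⟩
    obtain ⟨b0, hb0⟩ : ∃ b0 : ℕ, b0 = ⌊(bet P₂ c 0 w' w' + u) * J⌋₊ := ⟨_, rfl⟩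
    obtain ⟨b2, hb2⟩ : ∃ b2 : ℕ, b2 = ⌊(bet P₂ c 2 w' w' + u) * J⌋₊ := ⟨_, rfl⟩
    have x1 : 1000 ≤ x := by linarith only [hx1, hCc, hCd0, hC₆0, hN0]
    have x2 : Cd + 1 ≤ x := by linarith only [hx1, hCc, hC₆0, hN0]
    have x3 : N + 1 ≤ x := by linarith only [hx1, hCc, hC₆0, hCd0]
    have x4 : C₆ + 1 ≤ x := by linarith only [hx1, hCc, hN0, hCd0]
    have gm0 : 20000000 ≤ gm := by linarith only [v11, x1]
    have v20 : gm ≤ gQ := by linarith only [v9, v3, v7, v6, gm0]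
    have u1 : (Y : ℝ) ≤ x ∧ x < Y + 1 := by
      rw [hY]
      exact ⟨Nat.floor_le hx0, Nat.lt_floor_add_one _⟩
    have u2 : (Gn : ℝ) ≤ gQ ∧ gQ < Gn + 1 := by
      rw [hGn]
      exact ⟨Nat.floor_le (by linarith only [v20, gm0]), Nat.lt_floor_add_one _⟩
    have u3 : (αn : ℝ) ≤ alQ ∧ alQ < αn + 1 := by
      rw [hαn]
      exact ⟨Nat.floor_le (by linarith only [v3, gm0]), Nat.lt_floor_add_one _⟩
    have u4 : (lm : ℝ) ≤ lQ ∧ lQ < lm + 1 := by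
      rw [hlmn]
      exact ⟨Nat.floor_le (by linarith only [v4, gm0]), Nat.lt_floor_add_one _⟩
    have u5 : (r : ℝ) ≤ Q / 4 ∧ Q / 4 < r + 1 := by
      rw [hr]
      exact ⟨Nat.floor_le (by linarith only [hQ0]), Nat.lt_floor_add_one _⟩
    have u6 : (sn : ℝ) ≤ sgQ := by
      rw [hsn, ← hsgQ]
      exact Nat.floor_le (by linarith only [v6, gm0])
    have u7 : (e₀ : ℝ) ≤ EJ + x / 4 := by
      have e1 : (Eb + η + η) * (J : ℝ) = EJ + 2 * (η * J) := by rw [hEJ]; ring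
      rw [he₀, e1]
      exact flr_le (by linarith only [v13]) (by linarith only [hEJ0, x1])
    have u8 : ζ * J < Z + 1 := by rw [hZ]; exact Nat.lt_floor_add_one _
    have u9 : EJ + Q < en + 1 := by
      have h1 := mJ E1
      have h2 := Nat.lt_floor_add_one (e * (J : ℝ))
      rw [← hen] at h2
      rw [hEJ, hQ]
      linarith only [h1, h2]
    have u10 : wJ < wn + 1 := by
      have h1 := mJ hww
      have h2 := Nat.lt_floor_add_one ((w' : ℝ) * J)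
      rw [← hwn] at h2
      rw [hwJ]
      linarith only [h1, h2]
    have u11 : (b0 : ℝ) ≤ aL 0 + x / 32 + x := by
      rw [hb0]
      refine flr_le ?_ (by linarith only [y1 0, hwJ0, x1])
      have h1 := mJ B1
      rw [al0, hx]
      linarith only [h1, v14, hx]
    have u12 : (b2 : ℝ) ≤ aL 2 + x / 32 + x := by
      rw [hb2]
      refine flr_le ?_ (by linarith only [y1 2, hwJ0, x1])
      have h1 := mJ B2
      rw [al2, hx]
      linarith only [h1, v14, hx]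
    have hlv0 : ∀ l, lvN P c 2 Pt l (o 0) (o 0) * J = aL l := fun l => by rw [haL, ho0]
    have hlv1 : ∀ l, lvN P c 2 Pt l (o 1) (o 1) * J = dL l := fun l => by rw [hdL, ho1]
    have hlv2 : ∀ l, lvN P c 2 Pt l (o 2) (o 2) * J = dL l := fun l => by rw [hdL, ho2]
    have ow0 : o 0 * J = wJ := by rw [ho0, hwJ]
    have ow1 : o 1 * J = wJ + dQ := by rw [ho1, hwJ, hdQ]; ring
    have ow2 : o 2 * J = wJ + dQ := by rw [ho2, hwJ, hdQ]; ring
    have hW2' : ⌊o 1 * (J : ℝ)⌋₊ = W₂ := by rw [hW₂, ho1, ho2]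
    have hW2'' : ⌊o' 1 * (J : ℝ)⌋₊ = W₂ := by rw [hW₂, ho1', ho2]
    have aw : (w + A * q) * J = wJ + aQ := by rw [hwJ, haQ]; ring
    have R1 : 5 * Y + W₂ ≤ R₀ := nle (by
      push_cast
      linarith only [u1, z3, z4, v10, v20, v11, x1])
    have R2 : W ≤ W₂ := nle (by linarith only [z1, z3, v1, v2, gm0])
    have R3 : W₁ ≤ W₂ + 1 := nle (by
      push_cast
      linarith only [z2, z3, v1])
    have R4 : W ≤ W₁ := nle (by linarith only [z1, z2, v2, gm0])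
    have Y1 : 999 ≤ Y := nle (by
      push_cast
      linarith only [u1, x1])
    -- the environment of the list coordinate
    obtain ⟨Bp, gc', gT', g₀', G', H', T', TH', Gt', Ht', hBp, hPp, Wn'⟩ := hcon' (fun _ _ => Y)
      (hk2 (fun _ _ => ⟨by rw [hx']; linarith only [u1, x1], by rw [← hR₀, ← hW₁]; omega⟩)
        (fun _ _ => ⟨by rw [hx']; linarith only [u1, x1], by rw [← hR₀, hW2'']; omega⟩))
    obtain ⟨B, gc, gT, g₀, G, H, T, TH, Gt, Ht, hBBp, hPB, Wn⟩ := hcon Bp hBp (by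
        rw [div_mul_eq_mul_div, one_mul, div_le_iff₀ hK₁']
        linarith only [hPp]) (fun _ _ => Y)
      (hk3 (fun _ _ => ⟨by rw [hx']; linarith only [u1, x1], by rw [← hR₀, ← hW]; omega⟩)
        (fun _ _ => ⟨by rw [hx']; linarith only [u1, x1], by rw [← hR₀, hW2']; omega⟩)
        (fun _ _ => ⟨by rw [hx']; linarith only [u1, x1], by rw [← hR₀, ← hW₂]; omega⟩))
    have hBA : K2S.Sub B Ae := fun ω hω => hBp ω (hBBp ω hω)
    have hPA : Pe F.p Ae ≤ K₁' * K₁ * Pe F.p B := by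
      have := mul_le_mul_of_nonneg_left hPB hK₁'.le
      linarith only [this, hPp]
    have hK0 : 0 < K₁' * K₁ := mul_pos hK₁' hK₁
    have hB0 : 0 < Pe F.p B := by
      have h1 := hA0.trans_le hPA
      exact pos_of_mul_pos_right h1 hK0.le
    have hD0 := hdat Wn (zz := Y) (Y := Y) (Γ := Gn) hinj (fun _ _ => rfl)
      (by linarith only [v15, u1, x1])
      (nle (by linarith only [x2, u1])) (by rw [ho0, ho2]; linarith only [hD₂q, hq])
      (by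
        rw [aw]
        linarith only [y2 0 (by norm_num), y1 0, hEJ0, hQ0, v10, v1, v20, gm0])
      (hk3 (by rw [← hR₀, ← hW]; omega) (by rw [← hR₀, hW2']; omega)
        (by rw [← hR₀, ← hW₂]; omega))
      (nle (by push_cast; linarith only [u1, u2, v20, v11, x1]))
      (by linarith only [hlv2 0, hlv0 0, y5, ow0, ow2, u1, x1])
      (by linarith only [hlv2 0, hlv0 0, y5, ow0, ow2, u1, x1])
      (by linarith only [hlv2 0, hlv2 2, hlv0 0, hlv0 2, y5, y8, ow0, ow2, u1, u2, x1])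
      (by linarith only [hlv0 2, y9, ow0, ow2, aw, u1, u2, x1])
      (hk3 (fun l hl => by
          linarith only [hlv0 l, y2 l hl, hEJ, ow0, aw, u1, u2, x1, v10, v1, v11, v2, hQ0, v20])
        (fun l hl => by
          linarith only [hlv1 l, y3 l hl, hEJ, ow1, aw, u1, u2, x1, v10, v1, v11, v2, hQ0, v20])
        (fun l hl => by
          linarith only [hlv2 l, y3 l hl, hEJ, ow2, aw, u1, u2, x1, v10, v1, v11, v2, hQ0, v20]))
    have hE0 := Wn.evs 0 (by norm_num)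
    have hE1 := Wn'.evs 0 (by norm_num)
    have hD1 := hD0.swap (W₁' := W₁) (g₁' := g₀' 0) (G₁' := G' 0) hE1.ball.depG
      (fun ω ν hω hν hpt l hl => by
        rw [hW₁]
        refine (Wn'.vel (k := 0) (Y := Y) (by norm_num) (by linarith only [v16, u1, x1]) ω ν
          (hBBp ω hω) (hBBp ν hν) hpt l hl).trans ?_
        exact div_le_div_of_nonneg_right (mul_le_mul_of_nonneg_right (pow_le_pow_right₀
          (by norm_num) (by omega)) (by positivity)) (by positivity))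
    rw [← hW, ← hW₂] at hD1
    rw [← hW, ← he₀] at hE0
    have hWJ : W ≤ J := nle (by
      linarith only [z1, y1 0, y2 0 (by norm_num), hEJ0, hQ0, v10, v1, v20, gm0])
    -- the sides
    have g0 : ∀ l ≤ 2, aL l - x / 8 ≤ g₀ 0 l ∧ (g₀ 0 l : ℝ) ≤ aL l := fun l hl => by
      obtain ⟨-, -, h1, h2, -⟩ := Wn.g_num (k := 0) (l := l) (by norm_num) hl
      rw [hlv0] at h1 h2
      exact ⟨by linarith only [h1, v13], h2⟩
    have g2 : ∀ l ≤ 2, dL l - x / 8 ≤ g₀ 2 l ∧ (g₀ 2 l : ℝ) ≤ dL l := fun l hl => by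
      obtain ⟨-, -, h1, h2, -⟩ := Wn.g_num (k := 2) (l := l) (by norm_num) hl
      rw [hlv2] at h1 h2
      exact ⟨by linarith only [h1, v13], h2⟩
    have gc2 : ∀ l ≤ 2, dL l - x / 8 + (R₀ - W₂) ≤ gc 2 l ∧
        (gc 2 l : ℝ) ≤ dL l + (R₀ - W₂) := fun l hl => by
      obtain ⟨-, -, -, -, h1, h2⟩ := Wn.g_num (k := 2) (l := l) (by norm_num) hl
      rw [hlv2, ← hR₀, ← hW₂] at h1 h2
      exact ⟨by linarith only [h1, v13], h2⟩
    have g0' : ∀ l ≤ 1, bL l - x / 8 ≤ g₀' 0 l ∧ (g₀' 0 l : ℝ) ≤ bL l := fun l hl => by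
      obtain ⟨-, -, h1, h2, -⟩ := Wn'.g_num (k := 0) (l := l) (by norm_num) hl
      have e1 : lvN P c 1 (bet P c 1) l (o' 0) (o' 0) * J = bL l := by
        rw [hbL, ho0', lvp l hl]
      rw [e1] at h1 h2
      exact ⟨by linarith only [h1, v13], h2⟩
    have g1' : (g₀' 1 1 : ℝ) ≤ dL 1 := by
      obtain ⟨-, -, h1, h2, -⟩ := Wn'.g_num (k := 1) (l := 1) (by norm_num) le_rfl
      have e1 : lvN P c 1 (bet P c 1) 1 (o' 1) (o' 1) * J = dL 1 := by
        rw [dl1, ho1', lvp 1 le_rfl]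
      rw [e1] at h2
      exact h2
    -- the numbers of the ends
    obtain ⟨k, hk⟩ : ∃ k : ℕ, k = 31 * Y := ⟨_, rfl⟩
    obtain ⟨t, ht⟩ : ∃ t : ℕ, t = 3 * Y := ⟨_, rfl⟩
    obtain ⟨X, hX⟩ : ∃ X : ℕ, X = 30 * Y := ⟨_, rfl⟩
    have hkR : (k : ℝ) = 31 * Y := by rw [hk]; push_cast; ring
    have htR : (t : ℝ) = 3 * Y := by rw [ht]; push_cast; ring
    have hXR : (X : ℝ) = 30 * Y := by rw [hX]; push_cast; ring
    rw [← hX] at hD1
    obtain ⟨Lf, hLf⟩ : ∃ Lf : ℕ, Lf = Cf * (k + t + 1) := ⟨_, rfl⟩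
    obtain ⟨Ll, hLl⟩ : ∃ Ll : ℕ, Ll = Cl * (k + t + X + 1) := ⟨_, rfl⟩
    have w1 : (Lf : ℝ) ≤ 65 * ((Cf + Cl) * x) := by
      have e1 : (Lf : ℝ) = Cf * (34 * Y + 1) := by rw [hLf]; push_cast; rw [hkR, htR]; ring
      have h0 : (0 : ℝ) ≤ Y := Nat.cast_nonneg _
      have h1 : (34 * Y + 1 : ℝ) ≤ 65 * x := by linarith only [u1, x1]
      have h2 : (Cf : ℝ) * (34 * Y + 1) ≤ (Cf + Cl) * (65 * x) :=
        mul_le_mul (by linarith only [hClR]) h1 (by linarith only [h0])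
          (by linarith only [hCfR, hClR])
      rw [e1]
      linarith only [h2]
    have w2 : (Ll : ℝ) ≤ 65 * ((Cf + Cl) * x) := by
      have e1 : (Ll : ℝ) = Cl * (64 * Y + 1) := by rw [hLl]; push_cast; rw [hkR, htR, hXR]; ring
      have h0 : (0 : ℝ) ≤ Y := Nat.cast_nonneg _
      have h1 : (64 * Y + 1 : ℝ) ≤ 65 * x := by linarith only [u1, x1]
      have h2 : (Cl : ℝ) * (64 * Y + 1) ≤ (Cf + Cl) * (65 * x) :=
        mul_le_mul (by linarith only [hCfR]) h1 (by linarith only [h0])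
          (by linarith only [hCfR, hClR])
      rw [e1]
      linarith only [h2]
    have w3 : 2 * x ≤ (Cf + Cl) * x :=
      mul_le_mul_of_nonneg_right (by linarith only [hCfR, hClR]) hx0
    have w4 : (Lf : ℝ) ≤ gm / 20 - 10 * x := by linarith only [w1, w3, v17, v18]
    have w5 : (Ll : ℝ) ≤ gm / 20 - 10 * x := by linarith only [w2, w3, v17, v18]
    have w6 : (Ll : ℝ) ≤ ζ * J - 10 * x := by linarith only [w2, w3, v17]
    -- the crude bound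
    obtain ⟨M, hM⟩ : ∃ M : ℝ, M = 2 ^ (e₀ + g₀ 0 1 + X + 1) := ⟨_, rfl⟩
    have hM0 : 0 < M := by rw [hM]; positivity
    have hcr : ∀ ω, B ω → |dd (Ht 0 (slam F W ω)) (bt F ω) (ex (c 1))| ≤ M := by
      rw [hM]
      exact crd_pt hD1 hinj hE0.ball
    have hθ0 : 0 ≤ εt * J := by positivity
    have hCε : Cc * (εt * J + 1) ≤ x * Real.log 2 := by
      have e1 : Cc * (εt * J) = x * Real.log 2 / 2 := by
        rw [← mul_assoc, hCεt, hx]
        ring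
      linarith only [e1, hxl, hC₆0, hCd0, hN0]
    have hWJx : x ≤ (J : ℝ) - W := by
      linarith only [z1, y1 0, y2 0 (by norm_num), hEJ0, hQ0, v10, v1, v20, gm0, v11, v2, x1]
    have hmB : 1 / (K₁' * K₁) * Pe F.p Ae ≤ Pe F.p B := by
      rw [div_mul_eq_mul_div, one_mul, div_le_iff₀ hK0]
      linarith only [hPA]
    obtain ⟨B1, s1, s2, s3⟩ := hcrd hB0 hWJ hE0.dH hM0 hcr hθ0 (htm B hBA hmB hB0)
      (hCε.trans (mul_le_mul_of_nonneg_right hWJx hL2.le))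
    have hexp : Real.exp (Cc * (εt * J + 1)) ≤ 2 ^ k := by
      have h1 : Cc * (εt * J + 1) ≤ k * Real.log 2 := hCε.trans
        (mul_le_mul_of_nonneg_right (by linarith only [hkR, u1, x1]) hL2.le)
      have e2 : Real.exp (Cc * (εt * J + 1)) ≤ Real.exp (k * Real.log 2) := Real.exp_le_exp.2 h1
      rw [mul_comm (k : ℝ), ← Real.rpow_def_of_pos (by norm_num), Real.rpow_natCast] at e2
      exact e2
    obtain ⟨H₀, hH₀⟩ : ∃ H₀ : ℝ, H₀ = 2 ^ (W + g₀ 0 1) / 2 ^ (g₀ 0 2 + αn) := ⟨_, rfl⟩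
    have hH0 : 0 < H₀ := by rw [hH₀]; positivity
    obtain ⟨yy, hyy⟩ : ∃ yy : F.Ω → ℝ, yy = fun ω =>
        |D2R.hs (Ht 0 (slam F W ω)) (bt F ω) (bd F ω) (ex (c 1))| := ⟨_, rfl⟩
    have w7 : C₆ + k + e₀ + X + 1 + g₀ 0 2 + αn ≤ lm * nb := nle (by
      push_cast
      have h1 : (J : ℝ) ≤ lm * nb := by
        have h2 : lQ / 8 ≤ lm := by linarith only [u4, v4, gm0]
        have h3 := mul_le_mul_of_nonneg_left h2 (Nat.cast_nonneg (α := ℝ) nb)
        linarith only [h3, v19]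
      linarith only [h1, x4, hkR, hXR, u7, u1, (g0 2 le_rfl).2, u3, y2 2 le_rfl, v9, v10, v7, v6,
        gm0, v1, hQ0, v2, v11, x1])
    have s4 : ∀ ω, B1 ω → yy ω ≤ H₀ * 2 ^ (lm * nb) := by
      intro ω hω
      have h1 := s3 ω hω
      rw [hyy]
      refine h1.trans ?_
      have h2 : Cc * (Real.exp (Cc * (εt * J + 1)) * M) * 2 ^ W ≤
          2 ^ C₆ * (2 ^ k * M) * 2 ^ W := by
        refine mul_le_mul_of_nonneg_right (mul_le_mul hC₆.le
          (mul_le_mul_of_nonneg_right hexp hM0.le) (by positivity) (by positivity))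
          (by positivity)
      refine h2.trans ?_
      rw [hM, hH₀, ← pow_add, ← pow_add, ← pow_add, div_mul_eq_mul_div,
        le_div_iff₀ (by positivity), ← pow_add, ← pow_add]
      exact pow_le_pow_right₀ (by norm_num) (by omega)
    obtain ⟨i, -, hi⟩ := pe_pig F.isLaw (nb + 1) (fun i ω => if i = 0 then yy ω ≤ H₀ else
      H₀ * 2 ^ (lm * (i - 1)) ≤ yy ω ∧ yy ω ≤ H₀ * 2 ^ (lm * i)) B1 (fun ω hω => bin_ex (s4 ω hω))
    obtain ⟨B', hB'⟩ : ∃ B' : F.Ω → Prop, B' = fun ω => B1 ω ∧ if i = 0 then yy ω ≤ H₀ else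
      H₀ * 2 ^ (lm * (i - 1)) ≤ yy ω ∧ yy ω ≤ H₀ * 2 ^ (lm * i) := ⟨_, rfl⟩
    rw [← hB'] at hi
    push_cast at hi
    have hB'1 : K2S.Sub B' B1 := fun ω hω => by
      rw [hB'] at hω
      exact hω.1
    have hB'B : K2S.Sub B' B := fun ω hω => s1 ω (hB'1 ω hω)
    have hB'A : K2S.Sub B' Ae := fun ω hω => hBA ω (hB'B ω hω)
    have hmass : κ₁ * Pe F.p Ae ≤ Pe F.p B' := by
      have e1 : κ₁ * (2 * (K₁' * K₁) * (nb + 2)) = 1 := by
        rw [hκ₁]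
        field_simp
      have h1 : Pe F.p B ≤ 2 * (((nb : ℝ) + 1 + 1) * Pe F.p B') := by linarith only [s2, hi]
      have h2 := hPA.trans (mul_le_mul_of_nonneg_left h1 hK0.le)
      have h3 := mul_le_mul_of_nonneg_left h2 hκ0.le
      have e2 : κ₁ * (K₁' * K₁ * (2 * (((nb : ℝ) + 1 + 1) * Pe F.p B'))) =
          κ₁ * (2 * (K₁' * K₁) * (nb + 2)) * Pe F.p B' := by ring
      rw [e2, e1, one_mul] at h3
      exact h3
    have hD2 := hD1.sub hB'B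
    rw [← hW, ← he₀, ← hb0, ← hwn, ← hb2, ← hx, ← hen] at hflt
    rw [← hW, ← hW₂, ← hW₁, ← he₀, ← hb0, ← hwn, ← hx, ← hen, ← hZ, ← hsn, hW2''] at hlam
    have hWwn : W ≤ wn := by
      rw [hW, hwn]
      exact Nat.floor_le_floor (by rw [ow0, hwJ]; exact mJ hww)
    have g00 := g0 0 (by norm_num)
    have g01 := g0 1 (by norm_num)
    have g02 := g0 2 le_rfl
    have g20 := g2 0 (by norm_num)
    have g21 := g2 1 (by norm_num)
    have g00' := g0' 0 (by norm_num)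
    have g01' := g0' 1 le_rfl
    have gc20 := gc2 0 (by norm_num)
    have gc21 := gc2 1 (by norm_num)
    have N1 : W₂ + g₀ 0 1 ≤ W + g₀ 2 1 + X := nle (by
      push_cast
      linarith only [z1, z3, g01, g21, y7, hXR, u1, x1, v8, v7, v6, v4, gm0])
    have N2 : W₂ + g₀' 0 1 ≤ W₁ + g₀ 2 1 + X := nle (by
      push_cast
      linarith only [z2, z3, g01', g21, y7, y6, hXR, u1, x1, v8, v7, v6, v4, gm0])
    have N3 : W₁ + g₀ 0 0 ≤ g₀' 0 0 + W + X := nle (by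
      push_cast
      linarith only [z2, z1, g00, g00', y4, hXR, u1, x1])
    have N9 : g₀' 1 1 ≤ g₀ 2 1 + X := nle (by
      push_cast
      linarith only [g1', g21, hXR, u1, x1])
    have N10 : g₀ 2 0 + g₀ 0 1 ≤ g₀ 2 1 + g₀ 0 0 + X := nle (by
      push_cast
      linarith only [g20, g01, g21, g00, y5, y7, hXR, u1, x1, v8, v7, v6, v4, gm0])
    have N11 : b0 + W ≤ g₀ 0 0 + t + wn := nle (by
      push_cast
      linarith only [u11, z1, g00, htR, u10, u1, x1])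
    have N12 : b2 + W ≤ g₀ 0 2 + t + wn := nle (by
      push_cast
      linarith only [u12, z1, g02, htR, u10, u1, x1])
    have N13 : x ≤ k := by linarith only [hkR, u1, x1]
    have N14 : Cw * (η * J) ≤ k := by linarith only [hkR, u1, x1, v15]
    have hgl : ∀ l < 3, (e₀ : ℝ) + g₀ 0 l + gm ≤ J := fun l hl => by
      have hl' : l ≤ 2 := by omega
      linarith only [u7, (g0 l hl').2, y2 l hl', v10, v1, v20, v2, v11, x1]
    by_cases hi0 : i = 0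
    · have h1 := hflt (fun _ _ => Y) 1 b B gc gT g₀ G H T TH Gt Ht Wn hBA W₁ W₂ X Gn αn k t e₀
        (g₀' 0) (g₀ 2) (G' 0) (G 2) B' hB'B hD2 (fun ω hω => by
          rw [hB'] at hω
          have h2 := hω.2
          rw [if_pos hi0, hyy, hH₀] at h2
          exact h2) (by omega) (by omega) N13 N14 rfl hWJ hWwn
        (nle (by linarith only [u2, u3, v9, v7, v6, gm0])) N10 N1
        (by rw [← hLf]; exact nle (by linarith only [w4, u3, v3, x1])) (by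
          rw [← hLf]
          exact nle (by push_cast; linarith only [w4, u7, u9, v2, x1, gm0])) (fun l hl => by
          rw [← hLf]
          exact nle (by push_cast; linarith only [w4, hgl l hl, x1, gm0])) (fun l hl => by
          rw [← hLf]
          exact nle (by linarith only [w4, (g0 l (by omega)).1, y1 l, v12, v2, x1, gm0])) N11 N12
      exact absurd h1 (not_lt.2 hmass)
    · have h1 := hlam (fun _ _ => Y) 1 b' Bp gc' gT' g₀' G' H' T' TH' Gt' Ht' Wn' hBp hY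
        (fun _ _ => Y) 1 b B gc gT g₀ G H T TH Gt Ht Wn hBBp X Gn αn k t lm r e₀ e₀
        (H₀ * 2 ^ (lm * (i - 1))) B' hB'B hD1 (fun ω hω => by
          rw [hB'] at hω
          have h2 := hω.2
          rw [if_neg hi0, hyy] at h2
          refine ⟨h2.1, h2.2.trans (le_of_eq ?_)⟩
          obtain ⟨j, rfl⟩ : ∃ j, i = j + 1 := ⟨i - 1, by omega⟩
          rw [Nat.add_sub_cancel, mul_assoc, ← pow_add, mul_add, mul_one]) (by
          rw [← hH₀]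
          exact le_mul_of_one_le_right hH0.le (one_le_pow₀ (by norm_num))) (by omega) N13 N14 rfl
        rfl (nle (by
          linarith only [z2, y1 0, y2 0 (by norm_num), hEJ0, hQ0, v10, v1, v20, gm0, v11])) rfl
        hWwn R4 N1 N2 N3 N9 (by
          rw [← hLl]
          refine Nat.le_sub_of_add_le (nle ?_)
          push_cast
          linarith only [u5, u4, v5, w5, z1, z2, v2, x1, gm0])
        (nle (by
          push_cast
          linarith only [g00, u3, g01', u6, hXR, g00', u2, g01, y4, y6, v9, u1, x1, gm0]))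
        (nle (by
          push_cast
          linarith only [g20, u4, g01', u6, hXR, g00', g21, y4, y5, y6, y7, v8, u1, x1, gm0]))
        (nle (by
          push_cast
          have h2 : (Q / 4 - 1) * N ≤ r * N :=
            mul_le_mul_of_nonneg_right (by linarith only [u5]) hN0
          have h3 : Q / 4 * (4 * (s + s₁ + 2)) ≤ Q / 4 * N :=
            mul_le_mul_of_nonneg_left hN (by linarith only [hQ0])
          have e1 : Q / 4 * (4 * (s + s₁ + 2)) = sQ + sgQ + 2 * Q := by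
            rw [hQ, hsQ, hsgQ]
            ring
          rw [e1] at h3
          linarith only [h2, h3, g00, u4, v5, g01', u6, hXR, g00', g01, y4, y6, u1, x1, x3, hQ0]))
        (nle (by
          push_cast
          linarith only [gc20, g01', u6, hXR, g00', gc21, y4, y5, y6, y7, v8, u1, x1, gm0, v4]))
        (by rw [← hLl]; exact nle (by linarith only [w6, u8, x1])) (by
          rw [← hLl]
          exact nle (by push_cast; linarith only [w5, u7, u9, v2, x1, gm0])) (by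
          rw [← hLl]
          exact nle (by push_cast; linarith only [w5, hgl 0 (by norm_num), x1, gm0])) (by
          rw [← hLl]
          exact nle (by push_cast; linarith only [w5, hgl 1 (by norm_num), x1, gm0]))
        (fun l hl => by
          rw [← hLl]
          exact nle (by
            push_cast
            linarith only [w5, u7, (gc2 l (by omega)).2, y3 l (by omega), z3, z4, x1, gm0, v10, v1,
              v20, v2])) N11
      exact absurd h1 (not_lt.2 hmass)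
  obtain ⟨τ, hτ, J₃, h3⟩ := key
  obtain ⟨J, hJ, F, A, hA⟩ := hS τ hτ J₃
  exact h3 J hJ F A hA

end Pool.C2T
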