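import Pool.Agent.H54.C2T.Ser
import Pool.Agent.H23.D2.Num

/-!
# The facts about three windows

`Dat`: the facts about the windows `W ≤ W₁ ≤ W₂` which are used. `dat_of`: they follow from `Wins`.
-/

set_option autoImplicit false

namespace Pool.C2T

open Finset Real MvPolynomial
open Pool.Agent.H49.Ent Pool.Agent.H32.Dense Pool.STK Pool.KA Pool.KSAT Pool.K2S Pool.PB Pool.S6C
open Pool.GEN Pool.CHT Pool.CHX Pool.ISO Pool.D2R Pool.D2Z Pool.D2F Pool.RCV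
open Pool.PB.Trl (rt rt_mem t_rt)
open Pool.FLF (Fam.sub)

variable {m J : ℕ}

/-- **The facts about three windows**, up to `2 ^ X`, with the gain `2 ^ Γ`. -/
structure Dat (F : Fam m J) (c : ℕ → Fin m) (W W₁ W₂ X Γ : ℕ) (g₀ g₁ g₂ : ℕ → ℕ)
    (B : F.Ω → Prop) (G₀ G₁ G₂ : PtT F → ℕ → MvPolynomial (Option (Fin m)) ℝ)
    (Gt : PtT F → MvPolynomial (Option (Fin m)) ℝ)
    (Ht : LnT F → MvPolynomial (Option (Fin m)) ℝ) : Prop where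
  d0 : ∀ y l, DepC c l (G₀ y l)
  d1 : ∀ y l, DepC c l (G₁ y l)
  d2 : ∀ y l, DepC c l (G₂ y l)
  pG : ∀ y, DepC c 2 (Gt y)
  pH : ∀ s, DepC c 2 (Ht s)
  vel0 : ∀ ω ν, B ω → B ν → ptr F J ω = ptr F J ν → ∀ l ≤ 2,
    |bd F ν (some (c l)) - dd (G₀ (ptr F J ω) l) (bt F ω) (bd F ν)| ≤ 2 ^ X * 2 ^ W / 2 ^ g₀ l
  vel1 : ∀ ω ν, B ω → B ν → ptr F J ω = ptr F J ν → ∀ l ≤ 1,
    |bd F ν (some (c l)) - dd (G₁ (ptr F J ω) l) (bt F ω) (bd F ν)| ≤ 2 ^ X * 2 ^ W₁ / 2 ^ g₁ l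
  vel2 : ∀ ω ν, B ω → B ν → ptr F J ω = ptr F J ν → ∀ l ≤ 2,
    |bd F ν (some (c l)) - dd (G₂ (ptr F J ω) l) (bt F ω) (bd F ν)| ≤ 2 ^ X * 2 ^ W₂ / 2 ^ g₂ l
  nb : ∀ ω, B ω → nrm c (G₀ (ptr F J ω)) g₀ W 2 (bt F ω) (bd F ω) ≤ 2 ^ X * 2 ^ W
  row : ∀ ω, B ω → ∀ V : Option (Fin m) → ℝ,
    |dd (Gt (ptr F J ω)) (hx F ω) V - dd (Ht (slam F W ω)) (bt F ω) V| ≤
      2 ^ X / 2 ^ (g₀ 2 + Γ) * nrm c (G₀ (ptr F J ω)) g₀ W 2 (bt F ω) V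
  rel1 : ∀ ω, B ω → ∀ V : Option (Fin m) → ℝ,
    |dd (Ht (slam F W ω)) (bt F ω) V - dd (G₀ (ptr F J ω) 2) (bt F ω) V| ≤
      2 ^ X / 2 ^ g₀ 2 * nrm c (G₀ (ptr F J ω)) g₀ W 2 (bt F ω) V
  velt : ∀ ω, B ω → |bd F ω (some (c 2)) - dd (Ht (slam F W ω)) (bt F ω) (bd F ω)| ≤
    2 ^ X * 2 ^ W / 2 ^ (g₀ 2 + Γ)
  be : ∀ ω ν, B ω → B ν → ptr F J ω = ptr F J ν → ∀ β : ℝ,
    |hs (Ht (slam F W ν)) (bt F ν) (bd F ν) (ex (c 1))| ≤ β →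
    |hs (G₀ (ptr F J ω) 2) (bt F ω) (bd F ν) (ex (c 1))| ≤
      β + 2 ^ X * (2 ^ W / 2 ^ g₀ 2) * 2 ^ g₀ 1
  rel : ∀ ω ν₁ ν₂, B ω → B ν₁ → B ν₂ → ptr F J ν₁ = ptr F J ω → ptr F J ν₂ = ptr F J ω →
    ∀ Y β : ℝ, 1 ≤ Y →
    1 / Y ≤ 2 ^ g₀ 0 / 2 ^ W * |bd F ν₁ (some (c 0)) - bd F ω (some (c 0))| →
    1 / Y ≤ 2 ^ g₀ 0 / 2 ^ W * |bd F ν₂ (some (c 0)) - bd F ω (some (c 0))| →
    1 / Y ≤ 2 ^ g₀ 0 / 2 ^ W * |bd F ν₂ (some (c 0)) - bd F ν₁ (some (c 0))| →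
    (∀ ν, ν = ω ∨ ν = ν₁ ∨ ν = ν₂ →
      |hs (Ht (slam F W ν)) (bt F ν) (bd F ν) (ex (c 1))| ≤ β) →
    |hs (Ht (slam F W ω)) (bt F ω) (bd F ω)
      (dx c (eval (bt F ω) (pderiv (some (c 0)) (G₂ (ptr F J ω) 1))))| ≤
      (2 ^ X * Y) ^ 33 * (2 ^ (g₀ 0 + W) / 2 ^ (g₀ 2 + Γ) + 2 ^ g₂ 0 / 2 ^ g₂ 1 * β)

theorem Dat.sub {F : Fam m J} {c : ℕ → Fin m} {W W₁ W₂ X Γ : ℕ} {g₀ g₁ g₂ : ℕ → ℕ}
    {B B' : F.Ω → Prop} {G₀ G₁ G₂ : PtT F → ℕ → MvPolynomial (Option (Fin m)) ℝ}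
    {Gt : PtT F → MvPolynomial (Option (Fin m)) ℝ}
    {Ht : LnT F → MvPolynomial (Option (Fin m)) ℝ}
    (h : Dat F c W W₁ W₂ X Γ g₀ g₁ g₂ B G₀ G₁ G₂ Gt Ht) (hB : Sub B' B) :
    Dat F c W W₁ W₂ X Γ g₀ g₁ g₂ B' G₀ G₁ G₂ Gt Ht where
  d0 := h.d0
  d1 := h.d1
  d2 := h.d2
  pG := h.pG
  pH := h.pH
  vel0 := fun ω ν hω hν => h.vel0 ω ν (hB ω hω) (hB ν hν)
  vel1 := fun ω ν hω hν => h.vel1 ω ν (hB ω hω) (hB ν hν)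
  vel2 := fun ω ν hω hν => h.vel2 ω ν (hB ω hω) (hB ν hν)
  nb := fun ω hω => h.nb ω (hB ω hω)
  row := fun ω hω => h.row ω (hB ω hω)
  rel1 := fun ω hω => h.rel1 ω (hB ω hω)
  velt := fun ω hω => h.velt ω (hB ω hω)
  be := fun ω ν hω hν => h.be ω ν (hB ω hω) (hB ν hν)
  rel := fun ω ν₁ ν₂ hω h1 h2 => h.rel ω ν₁ ν₂ (hB ω hω) (hB ν₁ h1) (hB ν₂ h2)

/-- Another middle window. -/
theorem Dat.swap {F : Fam m J} {c : ℕ → Fin m} {W W₁ W₁' W₂ X Γ : ℕ} {g₀ g₁ g₁' g₂ : ℕ → ℕ}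
    {B : F.Ω → Prop} {G₀ G₁ G₁' G₂ : PtT F → ℕ → MvPolynomial (Option (Fin m)) ℝ}
    {Gt : PtT F → MvPolynomial (Option (Fin m)) ℝ}
    {Ht : LnT F → MvPolynomial (Option (Fin m)) ℝ}
    (h : Dat F c W W₁ W₂ X Γ g₀ g₁ g₂ B G₀ G₁ G₂ Gt Ht) (hd : ∀ y l, DepC c l (G₁' y l))
    (hv : ∀ ω ν, B ω → B ν → ptr F J ω = ptr F J ν → ∀ l ≤ 1,
      |bd F ν (some (c l)) - dd (G₁' (ptr F J ω) l) (bt F ω) (bd F ν)| ≤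
        2 ^ X * 2 ^ W₁' / 2 ^ g₁' l) :
    Dat F c W W₁' W₂ X Γ g₀ g₁' g₂ B G₀ G₁' G₂ Gt Ht where
  d0 := h.d0
  d1 := hd
  d2 := h.d2
  pG := h.pG
  pH := h.pH
  vel0 := h.vel0
  vel1 := hv
  vel2 := h.vel2
  nb := h.nb
  row := h.row
  rel1 := h.rel1
  velt := h.velt
  be := h.be
  rel := h.rel

/-- Powers of two from exponents. -/
theorem two_div {a b x : ℕ} {c d : ℕ} (h : a + d ≤ x + c + b) :
    (2 : ℝ) ^ a / 2 ^ b ≤ 2 ^ x * (2 ^ c / 2 ^ d) := by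
  rw [mul_div_assoc', div_le_div_iff₀ (by positivity) (by positivity), ← pow_add, ← pow_add,
    ← pow_add]
  exact pow_le_pow_right₀ (by norm_num) h

theorem lem_sq {U P : ℝ} (h1 : 1 ≤ U) (h2 : U ≤ P) (h4 : 4 ≤ P) : (1 + U) ^ 2 ≤ P ^ 3 := by
  have e1 : (1 + U) ^ 2 ≤ (2 * P) ^ 2 := pow_le_pow_left₀ (by linarith) (by linarith) 2
  have e2 : (2 * P) ^ 2 ≤ P ^ 3 := by
    have : 0 ≤ P ^ 2 * (P - 4) := mul_nonneg (by positivity) (by linarith)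
    nlinarith
  exact e1.trans e2

theorem lem_one {P Q : ℝ} (h2 : 2 ≤ P) (hQ : 1 ≤ Q) : Q + 1 ≤ P * Q := by nlinarith

theorem lem_four {U V Z R P : ℝ} (h1 : U ≤ R) (h2 : V ≤ R) (h3 : Z ≤ R) (hP : 16 ≤ P)
    (hR : 0 ≤ R) : 4 * U + 3 * V + Z ≤ P * R := by nlinarith

theorem lem_sum {A B Q R P S : ℝ} (h1 : A ≤ S * R) (h2 : B ≤ S * R) (hQ : 0 ≤ Q) (hR : 0 ≤ R)
    (h3 : 2 * S ≤ P) (hP : 1 ≤ P) : A + B + Q ≤ P * (R + Q) := by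
  have e1 := mul_le_mul_of_nonneg_right h3 hR
  have e2 := mul_le_mul_of_nonneg_right hP hQ
  linarith

theorem lem_sc {A B x Y : ℝ} (hA : 0 < A) (hY : 0 < Y) (hx : 0 ≤ x) (hAB : A ≤ B)
    (h : 1 / Y ≤ A * x) : 1 / (B * Y) ≤ x := by
  have hB : 0 < B := hA.trans_le hAB
  rw [div_le_iff₀ hY] at h
  rw [div_le_iff₀ (by positivity)]
  have : A * x * Y ≤ x * (B * Y) := by
    have := mul_le_mul_of_nonneg_right (mul_le_mul_of_nonneg_right hAB hx) hY.le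
    linarith
  linarith

/-- **The numbers.** -/
theorem dat_num {F : Fam m J} {c : ℕ → Fin m} {D Dr : ℕ}
    {C₀ a Eb ηm : ℝ} {o ε p' η σ : ℕ → ℝ} {lv be b : ℕ → ℕ → ℝ} {κ : ℝ} {z : ℕ → ℕ → ℕ}
    {B : F.Ω → Prop} {gc gT g₀ : ℕ → ℕ → ℕ}
    {G : ℕ → PtT F → ℕ → MvPolynomial (Option (Fin m)) ℝ}
    {H : ℕ → LnT F → ℕ → MvPolynomial (Option (Fin m)) ℝ}
    {T : ℕ → PtT F → ℕ → MvPolynomial (Option (Fin m)) ℝ}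
    {TH : ℕ → LnT F → ℕ → MvPolynomial (Option (Fin m)) ℝ}
    {Gt : ℕ → PtT F → MvPolynomial (Option (Fin m)) ℝ}
    {Ht : ℕ → LnT F → MvPolynomial (Option (Fin m)) ℝ}
    (Wn : Wins F c 2 D Dr 2 0 (fun _ => True) C₀ a Eb ηm o ε p' η σ lv be b κ z B gc gT g₀ G H T
      TH Gt Ht) {zz Y Γ : ℕ} (hY : C₀ * (ηm * J) ≤ Y) (hY4 : 4 ≤ Y) (ho : o 0 ≤ o 2)
    (hv : ∀ k ≤ 2, zz + 4 * Y ≤ ⌊a * J⌋₊ - ⌊o k * J⌋₊) (hΓ : 4 * Y ≤ Γ)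
    (r1 : (lv 2 0 - lv 0 0) * J ≤ (o 2 - o 0) * J + Y)
    (r2 : (o 2 - o 0) * J ≤ (lv 2 0 - lv 0 0) * J + Y)
    (r3 : (lv 2 0 + o 2 + lv 0 2) * J + Γ ≤ (lv 2 2 + lv 0 0 + o 0) * J + Y)
    (r4 : (lv 0 2 + (o 2 - o 0) + (a - o 0)) * J + Γ ≤ p' 0 * J + Y) :
    ∃ v v₂ d q₀ q₂ : ℕ, ⌊a * J⌋₊ = ⌊o 0 * J⌋₊ + v ∧ ⌊a * J⌋₊ = ⌊o 2 * J⌋₊ + v₂ ∧
      ⌊o 2 * J⌋₊ = ⌊o 0 * J⌋₊ + d ∧ q₀ + 2 * Y = g₀ 0 2 + v ∧
      q₂ + 6 * Y = g₀ 0 2 + d + v + Γ ∧ (q₀ : ℝ) + C₀ * (η 0 * J) ≤ p' 0 * J ∧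
      (q₂ : ℝ) + C₀ * (η 2 * J) ≤ p' 0 * J ∧ (q₀ : ℝ) + C₀ * (η 0 * J) ≤ gc 0 2 ∧
      (q₂ : ℝ) + C₀ * (η 2 * J) ≤ gc 2 2 ∧ (∀ l ≤ 2, gc 0 l ≤ g₀ 0 l + v + Y) ∧
      (∀ l ≤ 2, gc 2 l ≤ g₀ 2 l + v₂ + Y) ∧ g₀ 0 2 + v ≤ gc 0 2 + Y ∧
      g₀ 2 0 ≤ g₀ 0 0 + d + 3 * Y ∧ g₀ 0 0 + d ≤ g₀ 2 0 + 3 * Y ∧
      g₀ 2 0 + ⌊o 2 * J⌋₊ + g₀ 0 2 + Γ ≤ g₀ 2 2 + g₀ 0 0 + ⌊o 0 * J⌋₊ + 4 * Y ∧
      g₀ 0 2 + v + Γ ≤ ⌊p' 0 * J⌋₊ + 4 * Y := by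
  have hJ : (0 : ℝ) ≤ J := Nat.cast_nonneg J
  have hYR : (4 : ℝ) ≤ Y := by exact_mod_cast hY4
  have hC1 := Wn.C1
  have hηm0 : 0 ≤ ηm := (Wn.hη 0 (by norm_num)).1.trans (Wn.hη 0 (by norm_num)).2
  have hηY : ηm * J ≤ Y := (le_mul_of_one_le_left (mul_nonneg hηm0 hJ) hC1).trans hY
  have hfl : ∀ k ≤ 2, ⌊o k * J⌋₊ ≤ ⌊a * J⌋₊ := fun k hk =>
    Nat.floor_le_floor (mul_le_mul_of_nonneg_right (Wn.ho k hk).2 hJ)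
  have hop : ∀ k ≤ 2, (⌊o k * J⌋₊ : ℝ) ≤ o k * J := fun k hk =>
    Nat.floor_le (mul_nonneg (Wn.ho k hk).1 hJ)
  have hom : ∀ k ≤ 2, o k * J ≤ ⌊o k * J⌋₊ + 1 := fun k hk =>
    (Nat.lt_floor_add_one (o k * (J : ℝ))).le
  have ha0 : 0 ≤ a := (Wn.ho 0 (by norm_num)).1.trans (Wn.ho 0 (by norm_num)).2
  have hap : (⌊a * J⌋₊ : ℝ) ≤ a * J := Nat.floor_le (mul_nonneg ha0 hJ)
  have ham : a * J ≤ ⌊a * J⌋₊ + 1 := (Nat.lt_floor_add_one (a * (J : ℝ))).le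
  have hw02 : ⌊o 0 * J⌋₊ ≤ ⌊o 2 * J⌋₊ := Nat.floor_le_floor (mul_le_mul_of_nonneg_right ho hJ)
  have hηk : ∀ k ≤ 2, C₀ * (η k * J) ≤ Y := fun k hk => le_trans (mul_le_mul_of_nonneg_left
    (mul_le_mul_of_nonneg_right (Wn.hη k hk).2 hJ) (by linarith)) hY
  obtain ⟨v, hve⟩ : ∃ v, v = ⌊a * J⌋₊ - ⌊o 0 * J⌋₊ := ⟨_, rfl⟩
  obtain ⟨v₂, hv₂e⟩ : ∃ v₂, v₂ = ⌊a * J⌋₊ - ⌊o 2 * J⌋₊ := ⟨_, rfl⟩
  obtain ⟨d, hde⟩ : ∃ d, d = ⌊o 2 * J⌋₊ - ⌊o 0 * J⌋₊ := ⟨_, rfl⟩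
  have hvR : (v : ℝ) = ⌊a * J⌋₊ - ⌊o 0 * J⌋₊ := by rw [hve, Nat.cast_sub (hfl 0 (by norm_num))]
  have hv₂R : (v₂ : ℝ) = ⌊a * J⌋₊ - ⌊o 2 * J⌋₊ := by rw [hv₂e, Nat.cast_sub (hfl 2 le_rfl)]
  have hdR : (d : ℝ) = ⌊o 2 * J⌋₊ - ⌊o 0 * J⌋₊ := by rw [hde, Nat.cast_sub hw02]
  have hvY : zz + 4 * Y ≤ v := by rw [hve]; exact hv 0 (by norm_num)
  have hv₂Y : zz + 4 * Y ≤ v₂ := by rw [hv₂e]; exact hv 2 le_rfl
  obtain ⟨q₀, hq₀⟩ : ∃ q₀, q₀ + 2 * Y = g₀ 0 2 + v := ⟨g₀ 0 2 + v - 2 * Y, by omega⟩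
  obtain ⟨q₂, hq₂⟩ : ∃ q₂, q₂ + 6 * Y = g₀ 0 2 + d + v + Γ := ⟨g₀ 0 2 + d + v + Γ - 6 * Y, by omega⟩
  have hq₀R : (q₀ : ℝ) + 2 * Y = g₀ 0 2 + v := by exact_mod_cast hq₀
  have hq₂R : (q₂ : ℝ) + 6 * Y = g₀ 0 2 + d + v + Γ := by exact_mod_cast hq₂
  obtain ⟨a1, a2, a3, a4, a5, a6⟩ := Wn.g_num (k := 0) (by norm_num) (le_refl 2)
  obtain ⟨b1, b2, b3, b4, b5, b6⟩ := Wn.g_num (k := 2) le_rfl (le_refl 2)
  obtain ⟨e1, e2, e3, e4, e5, e6⟩ := Wn.g_num (k := 0) (l := 0) (by norm_num) (by norm_num)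
  obtain ⟨f1, f2, f3, f4, f5, f6⟩ := Wn.g_num (k := 2) (l := 0) le_rfl (by norm_num)
  rw [← hvR] at a5
  rw [← hv₂R] at b5
  have o0 := hop 0 (by norm_num)
  have o0' := hom 0 (by norm_num)
  have o2 := hop 2 le_rfl
  have o2' := hom 2 le_rfl
  have k0 := hηk 0 (by norm_num)
  have k2 := hηk 2 le_rfl
  have hoo : 0 ≤ (o 2 - o 0) * (J : ℝ) := mul_nonneg (by linarith only [ho]) hJ
  have hΓR : (4 : ℝ) * Y ≤ Γ := by exact_mod_cast hΓ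
  refine ⟨v, v₂, d, q₀, q₂, by have := hfl 0 (by norm_num); omega,
    by have := hfl 2 le_rfl; omega, by omega, hq₀, hq₂, ?_, ?_, ?_, ?_, fun l hl => ?_,
    fun l hl => ?_, ?_, ?_, ?_, ?_, ?_⟩
  · linarith only [hq₀R, k0, hoo, hΓR, a4, hvR, hap, o0', r4, hYR]
  · linarith only [hq₂R, k2, hoo, hΓR, a4, hvR, hap, o0', r4, hYR, hdR, o2]
  · linarith only [hq₀R, k0, a4, a5, hηY, hYR]
  · linarith only [hq₂R, k2, a4, b5, hηY, hYR, r3, r2, hvR, hv₂R, hdR, o0, o0', o2, o2', hap, ham]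
  · obtain ⟨-, -, h3, -, -, h6⟩ := Wn.g_num (k := 0) (by norm_num) hl
    rw [← hvR] at h6
    have : ((gc 0 l : ℕ) : ℝ) ≤ ((g₀ 0 l + v + Y : ℕ) : ℝ) := by
      push_cast
      linarith only [h3, h6, hηY]
    exact_mod_cast this
  · obtain ⟨-, -, h3, -, -, h6⟩ := Wn.g_num (k := 2) le_rfl hl
    rw [← hv₂R] at h6
    have : ((gc 2 l : ℕ) : ℝ) ≤ ((g₀ 2 l + v₂ + Y : ℕ) : ℝ) := by
      push_cast
      linarith only [h3, h6, hηY]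
    exact_mod_cast this
  · have : ((g₀ 0 2 + v : ℕ) : ℝ) ≤ ((gc 0 2 + Y : ℕ) : ℝ) := by
      push_cast
      linarith only [a4, a5, hηY]
    exact_mod_cast this
  · have : ((g₀ 2 0 : ℕ) : ℝ) ≤ ((g₀ 0 0 + d + 3 * Y : ℕ) : ℝ) := by
      push_cast
      linarith only [f4, e3, r1, hdR, o2', o0, hηY, hYR]
    exact_mod_cast this
  · have : ((g₀ 0 0 + d : ℕ) : ℝ) ≤ ((g₀ 2 0 + 3 * Y : ℕ) : ℝ) := by
      push_cast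
      linarith only [f3, e4, r2, hdR, o2, o0', hηY, hYR]
    exact_mod_cast this
  · have : ((g₀ 2 0 + ⌊o 2 * J⌋₊ + g₀ 0 2 + Γ : ℕ) : ℝ) ≤
        ((g₀ 2 2 + g₀ 0 0 + ⌊o 0 * J⌋₊ + 4 * Y : ℕ) : ℝ) := by
      push_cast
      linarith only [f4, o2, a4, r3, b3, e3, o0', hηY, hYR]
    exact_mod_cast this
  · have h1 := (Nat.lt_floor_add_one (p' 0 * (J : ℝ))).le
    have : ((g₀ 0 2 + v + Γ : ℕ) : ℝ) ≤ ((⌊p' 0 * J⌋₊ + 4 * Y : ℕ) : ℝ) := by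
      push_cast
      linarith only [h1, hoo, a4, hvR, hap, o0', r4, hYR]
    exact_mod_cast this

/-- **The facts from `Wins`.** -/
theorem dat_of (m D : ℕ) : ∃ C : ℕ, 1 ≤ C ∧ ∀ {J : ℕ} {F : Fam m J} {c : ℕ → Fin m} {Dr : ℕ}
    {C₀ a Eb ηm : ℝ} {o ε p' η σ : ℕ → ℝ} {lv be b : ℕ → ℕ → ℝ} {κ : ℝ} {z : ℕ → ℕ → ℕ}
    {B : F.Ω → Prop} {gc gT g₀ : ℕ → ℕ → ℕ}
    {G : ℕ → PtT F → ℕ → MvPolynomial (Option (Fin m)) ℝ}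
    {H : ℕ → LnT F → ℕ → MvPolynomial (Option (Fin m)) ℝ}
    {T : ℕ → PtT F → ℕ → MvPolynomial (Option (Fin m)) ℝ}
    {TH : ℕ → LnT F → ℕ → MvPolynomial (Option (Fin m)) ℝ}
    {Gt : ℕ → PtT F → MvPolynomial (Option (Fin m)) ℝ}
    {Ht : ℕ → LnT F → MvPolynomial (Option (Fin m)) ℝ}
    (_ : Wins F c 2 D Dr 2 0 (fun _ => True) C₀ a Eb ηm o ε p' η σ lv be b κ z B gc gT g₀ G H T
      TH Gt Ht) {zz Y Γ : ℕ},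
    Set.InjOn c (Set.Iio 3) → (∀ k ≤ 2, z k 0 = zz) → C₀ * (ηm * J) ≤ Y → C ≤ Y →
    o 0 ≤ o 2 → a * J ≤ J → (∀ k ≤ 2, zz + 4 * Y ≤ ⌊a * J⌋₊ - ⌊o k * J⌋₊) → 4 * Y ≤ Γ →
    (lv 2 0 - lv 0 0) * J ≤ (o 2 - o 0) * J + Y →
    (o 2 - o 0) * J ≤ (lv 2 0 - lv 0 0) * J + Y →
    (lv 2 0 + o 2 + lv 0 2) * J + Γ ≤ (lv 2 2 + lv 0 0 + o 0) * J + Y →
    (lv 0 2 + (o 2 - o 0) + (a - o 0)) * J + Γ ≤ p' 0 * J + Y →
    (∀ k ≤ 2, ∀ l ≤ 2, (Eb + lv k l) * J + (a - o k) * J + Γ + 2 * zz + 6 * Y ≤ J) →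
    Dat F c ⌊o 0 * J⌋₊ ⌊o 1 * J⌋₊ ⌊o 2 * J⌋₊ (30 * Y) Γ (g₀ 0) (g₀ 1) (g₀ 2) B (G 0) (G 1) (G 2)
      (Gt 0) (Ht 0) := by
  obtain ⟨C₁, hsr⟩ := hsh_rad m D
  obtain ⟨C₂, hC₂, hgt⟩ := gt_row m D
  refine ⟨C₁ + C₂ + 4, by omega, ?_⟩
  intro J F c Dr C₀ a Eb ηm o ε p' η σ lv be b κ z B gc gT g₀ G H T TH Gt Ht Wn zz Y Γ hc hz hY hCY
    ho haJ hv hΓ r1 r2 r3 r4 hroom
  obtain ⟨v, v₂, d, q₀, q₂, hvW, hv₂W, hdW, hq₀, hq₂, hp0, hp2, hg0, hg2, hgc0, hgc2, hgc0', n6,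
    n6', n7, npp⟩ := dat_num Wn hY (by omega) ho hv hΓ r1 r2 r3 r4
  have hJ : (0 : ℝ) ≤ J := Nat.cast_nonneg J
  have hC1 := Wn.C1
  have hηm0 : 0 ≤ ηm := (Wn.hη 0 (by norm_num)).1.trans (Wn.hη 0 (by norm_num)).2
  have hEb := Wn.Eb0
  have ha0 : 0 ≤ a := (Wn.ho 0 (by norm_num)).1.trans (Wn.ho 0 (by norm_num)).2
  have haJ' : ⌊a * J⌋₊ ≤ J := by
    have : (⌊a * J⌋₊ : ℝ) ≤ (J : ℕ) := (Nat.floor_le (mul_nonneg ha0 hJ)).trans haJ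
    exact_mod_cast this
  have hUf : ∀ k ≤ 2, ⌊C₀ * (η k * J)⌋₊ ≤ Y := by
    intro k hk
    have h2 : C₀ * (η k * J) ≤ Y := le_trans (mul_le_mul_of_nonneg_left
      (mul_le_mul_of_nonneg_right (Wn.hη k hk).2 hJ) (by linarith only [hC1])) hY
    have h3 : (⌊C₀ * (η k * J)⌋₊ : ℝ) ≤ Y := (Nat.floor_le (mul_nonneg (by linarith only [hC1])
      (mul_nonneg (Wn.hη k hk).1 hJ))).trans h2
    exact_mod_cast h3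
  have hfl : ∀ k ≤ 2, ⌊o k * J⌋₊ ≤ ⌊a * J⌋₊ := fun k hk =>
    Nat.floor_le_floor (mul_le_mul_of_nonneg_right (Wn.ho k hk).2 hJ)
  have hηY : ηm * J ≤ Y := (le_mul_of_one_le_left (mul_nonneg hηm0 hJ) hC1).trans hY
  have hYR : (4 : ℝ) ≤ Y := by exact_mod_cast (by omega : 4 ≤ Y)
  have hve : v = ⌊a * J⌋₊ - ⌊o 0 * J⌋₊ := by omega
  have hv₂e : v₂ = ⌊a * J⌋₊ - ⌊o 2 * J⌋₊ := by omega
  have hvR : (v : ℝ) = ⌊a * J⌋₊ - ⌊o 0 * J⌋₊ := by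
    rw [hvW]
    push_cast
    ring
  have R00 := Wn.row 0 (by norm_num) 0 (by norm_num) le_rfl q₀ hp0 hg0
  have R02 := Wn.row 0 (by norm_num) 2 le_rfl ho q₂ hp2 hg2
  rw [← hve] at R00
  rw [← hv₂e] at R02
  -- the sides
  have hE0 := Wn.evs 0 (by norm_num)
  have hE2 := Wn.evs 2 le_rfl
  rw [← hve] at hE0
  rw [← hv₂e] at hE2
  have hT0 : ∀ l < 2, gT 0 l = gc 0 l := fun l hl => (hE0.rgh l hl trivial).1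
  have hT2 : ∀ l < 2, gT 2 l = gc 2 l := fun l hl => (hE2.rgh l hl trivial).1
  have hTH0 : ∀ s, ∀ l < 2, TH 0 s l = Hno (c l) (fun s => H 0 s l) s := fun s l hl =>
    (hE0.rgh l hl trivial).2.2 s
  have hTH2 : ∀ s, ∀ l < 2, TH 2 s l = Hno (c l) (fun s => H 2 s l) s := fun s l hl =>
    (hE2.rgh l hl trivial).2.2 s
  have n4 : ⌊o 2 * J⌋₊ + (g₀ 0 2 + Γ) ≤ g₀ 2 2 + ⌊o 0 * J⌋₊ + 7 * Y := by omega
  obtain ⟨W, hWe⟩ : ∃ W, W = ⌊o 0 * J⌋₊ := ⟨_, rfl⟩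
  obtain ⟨W₂, hW₂e⟩ : ∃ W₂, W₂ = ⌊o 2 * J⌋₊ := ⟨_, rfl⟩
  obtain ⟨U₀, hU₀⟩ : ∃ U₀ : ℝ, U₀ = 2 ^ ⌊C₀ * (η 0 * J)⌋₊ := ⟨_, rfl⟩
  obtain ⟨U₂, hU₂⟩ : ∃ U₂ : ℝ, U₂ = 2 ^ ⌊C₀ * (η 2 * J)⌋₊ := ⟨_, rfl⟩
  rw [← hWe, ← hU₀] at R00
  rw [← hWe, ← hW₂e, ← hU₂] at R02
  rw [← hWe] at hE0
  rw [← hW₂e] at hE2
  have hWJ : W ≤ J := by rw [hWe]; omega
  have hW₂J : W₂ ≤ J := by rw [hW₂e]; omega
  have hU01 : 1 ≤ U₀ := by rw [hU₀]; exact one_le_pow₀ (by norm_num)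
  have hU21 : 1 ≤ U₂ := by rw [hU₂]; exact one_le_pow₀ (by norm_num)
  have hU0Y : U₀ ≤ 2 ^ Y := by
    rw [hU₀]
    exact pow_le_pow_right₀ (by norm_num) (hUf 0 (by norm_num))
  have hU2Y : U₂ ≤ 2 ^ Y := by
    rw [hU₂]
    exact pow_le_pow_right₀ (by norm_num) (hUf 2 le_rfl)
  have hvel := fun (k : ℕ) (hk : k ≤ 2) => Wn.vel hk hY
  have hY30 : (2 : ℝ) ^ Y ≤ 2 ^ (30 * Y) := pow_le_pow_right₀ (by norm_num) (by omega)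
  have hvel' : ∀ k ≤ 2, ∀ ω ν, B ω → B ν → ptr F J ω = ptr F J ν → ∀ l ≤ 2,
      |bd F ν (some (c l)) - dd (G k (ptr F J ω) l) (bt F ω) (bd F ν)| ≤
        2 ^ (30 * Y) * 2 ^ ⌊o k * J⌋₊ / 2 ^ g₀ k l := fun k hk ω ν hω hν hpt l hl =>
    (hvel k hk ω ν hω hν hpt l hl).trans (div_le_div_of_nonneg_right
      (mul_le_mul_of_nonneg_right hY30 (by positivity)) (by positivity))
  -- the shift hypotheses
  have hef : ∀ k ≤ 2, (⌊(Eb + σ k + η k) * J⌋₊ : ℝ) ≤ (Eb + 2 * ηm) * J := by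
    intro k hk
    have h1 := (Wn.hη k hk)
    have h2 := (Wn.hσ k hk)
    have h3 := h1.1
    have h4 := h1.2
    have h5 := h2.1
    have h6 := h2.2
    exact (Nat.floor_le (mul_nonneg (by linarith only [h3, h5, hEb]) hJ)).trans
      (mul_le_mul_of_nonneg_right (by linarith only [h4, h6]) hJ)
  have hsh : ∀ k, k ≤ 2 → (k = 0 ∨ k = 2) → ∀ ω ν, B ω → B ν → ptr F J ω = ptr F J ν →
      |hs (G k (ptr F J ω) 2) (bt F ν) (bd F ν) (ex (c 1)) -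
        hs (G k (ptr F J ω) 2) (bt F ω) (bd F ν) (ex (c 1))| ≤
        3 * 2 ^ C₁ * 2 ^ Y * 2 ^ (3 * (2 * Y)) * (2 ^ g₀ k 1 * (2 ^ ⌊o k * J⌋₊ / 2 ^ g₀ k 2)) := by
    intro k hk _
    have hEk := Wn.evs k hk
    have hrad := hEk.rad 0 le_rfl
    rw [hz k hk] at hrad
    have hnk := fun l (hl : l ≤ 2) => Wn.g_num hk hl
    have hvk := hv k hk
    have hvkR : (zz : ℝ) + 4 * Y ≤ ⌊a * J⌋₊ - ⌊o k * J⌋₊ := by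
      rw [← Nat.cast_sub (hfl k hk)]
      exact_mod_cast hvk
    refine hsr (F := F) (c := c) (a := ⌊o k * J⌋₊) (w := ⌊o k * J⌋₊)
      (e := ⌊(Eb + σ k + η k) * J⌋₊) (s := zz) (z := zz) (X := 2 * Y)
      (g := fun l => ⌊b k l * J⌋₊) (g₀ := g₀ k) (gc := gc k) (U := 2 ^ Y) (B := B) (G := G k)
      hc hrad hEk.top (fun l hl => ?_) (fun l hl => ?_) ?_ (one_le_pow₀ (by norm_num))
      (fun ω ν hω hν hpt l hl => hvel k hk ω ν hω hν hpt l (by omega)) (fun l hl => ?_) le_rfl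
    · obtain ⟨-, h2, -, -, h5, -⟩ := hnk l (by omega)
      have : ((⌊b k l * J⌋₊ + zz + 1 : ℕ) : ℝ) ≤ ((gc k l : ℕ) : ℝ) := by
        push_cast
        linarith only [h2, h5, hvkR, hηY, hYR]
      exact_mod_cast this
    · obtain ⟨-, h2, h3, -⟩ := hnk l (by omega)
      have : ((⌊b k l * J⌋₊ : ℕ) : ℝ) ≤ ((g₀ k l + 2 * Y : ℕ) : ℝ) := by
        push_cast
        linarith only [h2, h3, hηY, hYR]
      exact_mod_cast this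
    · obtain ⟨h1, -, -, h4, -⟩ := hnk 2 le_rfl
      have : ((g₀ k 2 : ℕ) : ℝ) ≤ ((⌊b k 2 * J⌋₊ + 2 * Y : ℕ) : ℝ) := by
        push_cast
        linarith only [h1, h4, hηY, hYR]
      exact_mod_cast this
    · obtain ⟨-, h2, -⟩ := hnk l (by omega)
      have h7 := hroom k hk l (by omega)
      have h8 := hef k hk
      have h9 : (C₁ : ℝ) ≤ Y := by exact_mod_cast (by omega : C₁ ≤ Y)
      have h10 : 0 ≤ (a - o k) * (J : ℝ) := mul_nonneg (sub_nonneg.2 (Wn.ho k hk).2) hJ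
      have h11 : (0 : ℝ) ≤ Γ := Nat.cast_nonneg _
      have : ((⌊(Eb + σ k + η k) * J⌋₊ + ⌊b k l * J⌋₊ + zz + zz + C₁ : ℕ) : ℝ) ≤ ((J : ℕ) : ℝ) := by
        push_cast
        linarith only [h2, h7, h8, h9, h10, h11, hηY, hYR]
      exact_mod_cast this
  obtain ⟨Z, hZ⟩ : ∃ Z : ℝ, Z = 3 * 2 ^ C₁ * 2 ^ Y * 2 ^ (3 * (2 * Y)) := ⟨_, rfl⟩
  have hZ0 : 0 ≤ Z := by rw [hZ]; positivity
  have hZ1 : Z ≤ 2 ^ (9 * Y) := by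
    rw [hZ]
    calc (3 : ℝ) * 2 ^ C₁ * 2 ^ Y * 2 ^ (3 * (2 * Y)) ≤ 2 ^ 2 * 2 ^ C₁ * 2 ^ Y * 2 ^ (3 * (2 * Y)) := by
          refine mul_le_mul_of_nonneg_right (mul_le_mul_of_nonneg_right
            (mul_le_mul_of_nonneg_right (by norm_num) (by positivity)) (by positivity))
            (by positivity)
      _ = 2 ^ (2 + C₁ + Y + 3 * (2 * Y)) := by rw [pow_add, pow_add, pow_add]
      _ ≤ _ := pow_le_pow_right₀ (by norm_num) (by omega)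
  have hsh0 := hsh 0 (by norm_num) (Or.inl rfl)
  have hsh2 := hsh 2 le_rfl (Or.inr rfl)
  rw [← hZ, ← hWe] at hsh0
  rw [← hZ, ← hW₂e] at hsh2
  have hd0 : ∀ y l, DepC c l (G 0 y l) := hE0.ball.depG
  have hd2 : ∀ y l, DepC c l (G 2 y l) := hE2.ball.depG
  have hH0 : ∀ s l, DepC c l (H 0 s l) := hE0.ball.depH
  have hH2 : ∀ s l, DepC c l (H 2 s l) := hE2.ball.depH
  have hgT0 : ∀ l < 2, gT 0 l ≤ g₀ 0 l + (v + Y) := fun l hl => by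
    rw [hT0 l hl]
    have := hgc0 l (by omega)
    omega
  have hgT2 : ∀ l < 2, gT 2 l ≤ g₀ 2 l + (v₂ + Y) := fun l hl => by
    rw [hT2 l hl]
    have := hgc2 l (by omega)
    omega
  have hYp1 : (1 : ℝ) ≤ 2 ^ Y := one_le_pow₀ (by norm_num)
  have h2Y : (2 : ℝ) ≤ 2 ^ Y := by
    calc (2 : ℝ) = 2 ^ 1 := (pow_one _).symm
      _ ≤ 2 ^ Y := pow_le_pow_right₀ (by norm_num) (by omega)
  have h16Y : (16 : ℝ) ≤ 2 ^ Y := by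
    calc (16 : ℝ) = 2 ^ 4 := by norm_num
      _ ≤ 2 ^ Y := pow_le_pow_right₀ (by norm_num) (by omega)
  refine ⟨hd0, (Wn.evs 1 (by norm_num)).ball.depG, hd2, hE0.pG, hE0.pH, hvel' 0 (by norm_num),
    fun ω ν hω hν hpt l hl => hvel' 1 (by norm_num) ω ν hω hν hpt l (by omega), hvel' 2 le_rfl, fun ω hω => ?_, fun ω hω V => ?_, fun ω hω V => ?_,
    fun ω hω => ?_, fun ω ν hω hν hpt β hβ => ?_, ?_⟩
  · -- the velocity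
    rw [← hWe]
    have h1 := nrm_bd R00 hω
    refine h1.trans (mul_le_mul_of_nonneg_right ?_ (by positivity))
    calc (1 + ((2 : ℕ) : ℝ) * U₀) ≤ 2 ^ Y + 2 * 2 ^ Y := by
          push_cast
          linarith only [hU0Y, hYp1]
      _ ≤ 16 * 2 ^ Y := by linarith only [hYp1]
      _ ≤ 2 ^ Y * 2 ^ Y := mul_le_mul_of_nonneg_right h16Y (by positivity)
      _ = 2 ^ (Y + Y) := (pow_add _ _ _).symm
      _ ≤ _ := pow_le_pow_right₀ (by norm_num) (by omega)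
  · -- the row label at the rounded point
    rw [← hWe]
    have h1 := hgt (F := F) (c := c) (W := W) (v := v) (e := ⌊(Eb + σ 0 + η 0) * J⌋₊) (s := Γ)
      (X := Y) (p := q₀) (p' := ⌊p' 0 * J⌋₊) (g₀ := g₀ 0) (gc := gc 0) (U := U₀) (B := B)
      (G := G 0) (Gt := Gt 0) (Ht := Ht 0) hc hE0.top hE0.dG hE0.dH hE0.pG hE0.pH
      (zero_le_one.trans hU01)
      (fun ω hω b hb => hE0.agr ω hω b ⟨hb.1, fun l hl => by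
        rw [hT0 l hl, (hE0.rgh l hl trivial).2.1]
        exact hb.2 l hl⟩) (fun ω hω b hb => R00.box ω hω b ⟨hb.1, fun l hl => by
        rw [hT0 l hl, (hE0.rgh l hl trivial).2.1]
        exact hb.2 l hl⟩) (fun l hl => hgc0 l (by omega)) (fun l hl => by
        obtain ⟨-, -, -, -, -, h6⟩ := Wn.g_num (k := 0) (l := l) (by norm_num) (by omega)
        have h7 := hroom 0 (by norm_num) l (by omega)
        have h8 := hef 0 (by norm_num)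
        have h9 : (C₂ : ℝ) ≤ Y := by exact_mod_cast (by omega : C₂ ≤ Y)
        have h12 : (0 : ℝ) ≤ zz := Nat.cast_nonneg _
        have h13 := Nat.floor_le (mul_nonneg ha0 hJ)
        have h14 := (Nat.lt_floor_add_one (o 0 * (J : ℝ))).le
        have : ((⌊(Eb + σ 0 + η 0) * J⌋₊ + gc 0 l + Γ + C₂ : ℕ) : ℝ) ≤ ((J : ℕ) : ℝ) := by
          push_cast
          linarith only [h6, h7, h8, h9, h12, h13, h14, hηY, hYR]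
        exact_mod_cast this) ω hω V
    refine h1.trans (mul_le_mul_of_nonneg_right ?_ (nrm_nonneg _ _ _ _ _ _ _))
    obtain ⟨R, hR⟩ : ∃ R : ℝ, R = 1 / 2 ^ (g₀ 0 2 + Γ) := ⟨_, rfl⟩
    have hR0 : 0 ≤ R := by rw [hR]; positivity
    have t1 : ∀ x y : ℕ, x + (g₀ 0 2 + Γ) ≤ 6 * Y + y → (2 : ℝ) ^ x / 2 ^ y ≤ 2 ^ (6 * Y) * R := by
      intro x y hxy
      rw [hR, mul_one_div, div_le_div_iff₀ (by positivity) (by positivity), ← pow_add, ← pow_add]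
      exact pow_le_pow_right₀ (by norm_num) hxy
    have k1 : (1 : ℝ) / 2 ^ ⌊p' 0 * J⌋₊ / 2 ^ Γ * 2 ^ (v + Y) ≤ 2 ^ (6 * Y) * R := by
      refine le_trans (le_of_eq ?_) (t1 (v + Y) (⌊p' 0 * J⌋₊ + Γ) (by omega))
      rw [pow_add 2 ⌊p' 0 * (J : ℝ)⌋₊ Γ]
      field_simp
    have k2 : U₀ / 2 ^ q₀ / 2 ^ Γ * 2 ^ (v + Y) ≤ 2 ^ (6 * Y) * R := by
      refine le_trans ?_ (t1 (Y + (v + Y)) (q₀ + Γ) (by omega))
      rw [pow_add 2 q₀ Γ, pow_add 2 Y (v + Y)]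
      calc U₀ / 2 ^ q₀ / 2 ^ Γ * 2 ^ (v + Y) ≤ 2 ^ Y / 2 ^ q₀ / 2 ^ Γ * 2 ^ (v + Y) := by
            refine mul_le_mul_of_nonneg_right (div_le_div_of_nonneg_right
              (div_le_div_of_nonneg_right hU0Y (by positivity)) (by positivity)) (by positivity)
        _ = _ := by field_simp
    have k3 : (1 : ℝ) / 2 ^ gc 0 2 / 2 ^ Γ * 2 ^ (v + Y) ≤ 2 ^ (6 * Y) * R := by
      refine le_trans (le_of_eq ?_) (t1 (v + Y) (gc 0 2 + Γ) (by omega))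
      rw [pow_add 2 (gc 0 2) Γ]
      field_simp
    have k4 : (1 : ℝ) / 2 ^ ⌊p' 0 * J⌋₊ * 2 ^ (v + Y) ≤ 2 ^ (6 * Y) * R := by
      refine le_trans (le_of_eq ?_) (t1 (v + Y) ⌊p' 0 * J⌋₊ (by omega))
      field_simp
    have e : 2 ^ C₂ * ((1 / 2 ^ ⌊p' 0 * J⌋₊ + U₀ / 2 ^ q₀ + 1 / 2 ^ gc 0 2) / 2 ^ Γ +
        1 / 2 ^ ⌊p' 0 * J⌋₊) * 2 ^ (v + Y) = 2 ^ C₂ *
        ((1 : ℝ) / 2 ^ ⌊p' 0 * J⌋₊ / 2 ^ Γ * 2 ^ (v + Y) + U₀ / 2 ^ q₀ / 2 ^ Γ * 2 ^ (v + Y) +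
          (1 : ℝ) / 2 ^ gc 0 2 / 2 ^ Γ * 2 ^ (v + Y) + (1 : ℝ) / 2 ^ ⌊p' 0 * J⌋₊ * 2 ^ (v + Y)) := by
      ring
    rw [e]
    calc _ ≤ 2 ^ C₂ * (2 ^ (6 * Y) * R + 2 ^ (6 * Y) * R + 2 ^ (6 * Y) * R + 2 ^ (6 * Y) * R) :=
          mul_le_mul_of_nonneg_left (by linarith only [k1, k2, k3, k4]) (by positivity)
      _ = 2 ^ C₂ * 2 ^ 2 * 2 ^ (6 * Y) * R := by norm_num; ring
      _ = 2 ^ (C₂ + 2 + 6 * Y) * R := by rw [pow_add, pow_add]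
      _ ≤ 2 ^ (30 * Y) * R := mul_le_mul_of_nonneg_right
          (pow_le_pow_right₀ (by norm_num) (by omega)) hR0
      _ = _ := by rw [hR]; ring
  · -- the row label and the ball chart
    rw [← hWe]
    have h1 := RCV.rel1 R00 hWJ hω V
    have h2 := nrm_thin R00 (zero_le_one.trans hU01) (v' := v + Y) (by omega) hgT0 hTH0 hω V
    obtain ⟨NV, hNV⟩ : ∃ NV, NV = nrm c (G 0 (ptr F J ω)) (g₀ 0) W 2 (bt F ω) V := ⟨_, rfl⟩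
    have hNV0 : 0 ≤ NV := by rw [hNV]; exact nrm_nonneg _ _ _ _ _ _ _
    rw [← hNV] at h1 h2 ⊢
    have hU0sq : (1 + U₀) ^ 2 ≤ 2 ^ (3 * Y) := by
      have := lem_sq hU01 hU0Y ((by norm_num : (4 : ℝ) ≤ 16).trans h16Y)
      rwa [← pow_mul, mul_comm Y 3] at this
    calc _ ≤ U₀ / 2 ^ q₀ * ((1 + U₀) ^ 2 * 2 ^ (v + Y) * NV) + U₀ / 2 ^ g₀ 0 2 * NV :=
          h1.trans (add_le_add (mul_le_mul_of_nonneg_left h2 (by positivity)) le_rfl)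
      _ ≤ 2 ^ Y / 2 ^ q₀ * (2 ^ (3 * Y) * 2 ^ (v + Y) * NV) + 2 ^ Y / 2 ^ g₀ 0 2 * NV := by
          refine add_le_add (mul_le_mul (div_le_div_of_nonneg_right hU0Y (by positivity))
            (mul_le_mul_of_nonneg_right (mul_le_mul_of_nonneg_right hU0sq (by positivity)) hNV0)
            (by positivity) (by positivity)) (mul_le_mul_of_nonneg_right
            (div_le_div_of_nonneg_right hU0Y (by positivity)) hNV0)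
      _ = (2 ^ (Y + 3 * Y + (v + Y)) / 2 ^ q₀ + 2 ^ Y / 2 ^ g₀ 0 2) * NV := by
          rw [pow_add 2 (Y + 3 * Y) (v + Y), pow_add 2 Y (3 * Y)]
          ring
      _ ≤ (2 ^ (7 * Y) / 2 ^ g₀ 0 2 + 2 ^ (7 * Y) / 2 ^ g₀ 0 2) * NV := by
          refine mul_le_mul_of_nonneg_right (add_le_add ?_ (div_le_div_of_nonneg_right
            (pow_le_pow_right₀ (by norm_num) (by omega)) (by positivity))) hNV0
          rw [div_le_div_iff₀ (by positivity) (by positivity), ← pow_add, ← pow_add]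
          exact pow_le_pow_right₀ (by norm_num) (by omega)
      _ = 2 * 2 ^ (7 * Y) / 2 ^ g₀ 0 2 * NV := by ring
      _ ≤ _ := by
          refine mul_le_mul_of_nonneg_right (div_le_div_of_nonneg_right ?_ (by positivity)) hNV0
          calc 2 * (2 : ℝ) ^ (7 * Y) ≤ 2 ^ Y * 2 ^ (7 * Y) :=
                mul_le_mul_of_nonneg_right h2Y (by positivity)
            _ = 2 ^ (Y + 7 * Y) := (pow_add _ _ _).symm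
            _ ≤ _ := pow_le_pow_right₀ (by norm_num) (by omega)
  · -- the velocity of the target
    rw [← hWe]
    have h1 := ht_vel R02 hW₂J hU21 (v' := v₂ + Y) (by omega) hgT2 hTH2 hω
    refine h1.trans ?_
    have k1 : (2 : ℝ) ^ W₂ / 2 ^ g₀ 2 2 ≤ 2 ^ (7 * Y) * (2 ^ W / 2 ^ (g₀ 0 2 + Γ)) :=
      two_div (by omega)
    have k2 : (2 : ℝ) ^ (W₂ + (v₂ + Y)) / 2 ^ q₂ ≤ 2 ^ (7 * Y) * (2 ^ W / 2 ^ (g₀ 0 2 + Γ)) :=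
      two_div (by omega)
    obtain ⟨R, hR⟩ : ∃ R : ℝ, R = 2 ^ W / 2 ^ (g₀ 0 2 + Γ) := ⟨_, rfl⟩
    have hR0 : 0 ≤ R := by rw [hR]; positivity
    rw [← hR] at k1 k2
    have k3 : U₂ ^ 4 ≤ 2 ^ (4 * Y) := by
      rw [show 4 * Y = Y * 4 by ring, pow_mul]
      exact pow_le_pow_left₀ (zero_le_one.trans hU21) hU2Y 4
    calc 16 * U₂ ^ 4 * (2 ^ W₂ / 2 ^ g₀ 2 2 + 2 ^ (W₂ + (v₂ + Y)) / 2 ^ q₂) ≤
          2 ^ Y * 2 ^ (4 * Y) * (2 ^ (7 * Y) * R + 2 ^ (7 * Y) * R) :=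
          mul_le_mul (mul_le_mul h16Y k3 (by positivity) (by positivity)) (add_le_add k1 k2)
            (by positivity) (by positivity)
      _ = 2 * (2 ^ Y * 2 ^ (4 * Y) * 2 ^ (7 * Y)) * R := by ring
      _ ≤ 2 ^ Y * (2 ^ Y * 2 ^ (4 * Y) * 2 ^ (7 * Y)) * R :=
          mul_le_mul_of_nonneg_right (mul_le_mul_of_nonneg_right h2Y (by positivity)) hR0
      _ = 2 ^ (Y + (Y + 4 * Y + 7 * Y)) * R := by
          rw [pow_add 2 Y (Y + 4 * Y + 7 * Y), pow_add 2 (Y + 4 * Y) (7 * Y), pow_add 2 Y (4 * Y)]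
      _ ≤ 2 ^ (30 * Y) * R := mul_le_mul_of_nonneg_right
          (pow_le_pow_right₀ (by norm_num) (by omega)) hR0
      _ = _ := by rw [hR]; ring
  · -- the curvature of the ball chart
    rw [← hWe]
    rw [← hWe] at hβ
    have h1 := rel_be hc R00 hd0 hH0 hWJ hU01 (v' := v + Y) (by omega) hgT0 hTH0 hsh0 hZ0 hω hν
      hpt hβ
    refine h1.trans (add_le_add le_rfl ?_)
    obtain ⟨R, hR⟩ : ∃ R : ℝ, R = 2 ^ W / 2 ^ g₀ 0 2 := ⟨_, rfl⟩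
    have hR0 : 0 ≤ R := by rw [hR]; positivity
    have k1 : (2 : ℝ) ^ (W + (v + Y)) / 2 ^ q₀ ≤ 2 ^ (3 * Y) * R := by
      rw [hR]
      exact two_div (by omega)
    have k3 : 4 * U₀ ^ 3 + 3 * U₀ ^ 2 + Z ≤ 2 ^ (10 * Y) := by
      have u3 : U₀ ^ 3 ≤ 2 ^ (3 * Y) := by
        rw [show 3 * Y = Y * 3 by ring, pow_mul]
        exact pow_le_pow_left₀ (zero_le_one.trans hU01) hU0Y 3
      have u2 : U₀ ^ 2 ≤ 2 ^ (3 * Y) := (pow_le_pow_right₀ hU01 (by norm_num)).trans u3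
      have u4 : (2 : ℝ) ^ (3 * Y) ≤ 2 ^ (9 * Y) := pow_le_pow_right₀ (by norm_num) (by omega)
      calc 4 * U₀ ^ 3 + 3 * U₀ ^ 2 + Z ≤ 2 ^ Y * 2 ^ (9 * Y) :=
            lem_four (u3.trans u4) (u2.trans u4) hZ1 h16Y (by positivity)
        _ = 2 ^ (Y + 9 * Y) := (pow_add _ _ _).symm
        _ = _ := by congr 1; ring
    rw [← hR]
    calc _ ≤ 2 ^ (10 * Y) * (2 ^ g₀ 0 1 * (2 ^ (3 * Y) * R + R)) := by
          refine mul_le_mul k3 (mul_le_mul_of_nonneg_left (add_le_add k1 le_rfl) (by positivity))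
            (by positivity) (by positivity)
      _ ≤ 2 ^ (10 * Y) * (2 ^ g₀ 0 1 * (2 ^ (4 * Y) * R)) := by
          refine mul_le_mul_of_nonneg_left (mul_le_mul_of_nonneg_left ?_ (by positivity))
            (by positivity)
          have e1 : (2 : ℝ) ^ (3 * Y) + 1 ≤ 2 ^ (4 * Y) := by
            rw [show 4 * Y = Y + 3 * Y by ring, pow_add]
            exact lem_one h2Y (one_le_pow₀ (by norm_num))
          have e2 := mul_le_mul_of_nonneg_right e1 hR0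
          linarith only [e2]
      _ = 2 ^ (10 * Y + 4 * Y) * R * 2 ^ g₀ 0 1 := by rw [pow_add]; ring
      _ ≤ _ := by
          refine mul_le_mul_of_nonneg_right (mul_le_mul_of_nonneg_right
            (pow_le_pow_right₀ (by norm_num) (by omega)) hR0) (by positivity)
  · -- the relation
    rw [← hWe]
    intro ω ν₁ ν₂ hω h1 h2 p1 p2 Yr β hYr s1 s2 s3 hβ
    have hsc : ∀ x : ℝ, 1 / Yr ≤ 2 ^ g₀ 0 0 / 2 ^ W * |x| →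
        1 / (2 ^ (10 * Y) * Yr) ≤ 2 ^ g₀ 2 0 / 2 ^ W₂ * |x| := by
      intro x hx
      have k1 : (2 : ℝ) ^ g₀ 0 0 / 2 ^ W ≤ 2 ^ (3 * Y) * (2 ^ g₀ 2 0 / 2 ^ W₂) :=
        two_div (by omega)
      have k2 : 1 / Yr ≤ 2 ^ (3 * Y) * (2 ^ g₀ 2 0 / 2 ^ W₂ * |x|) := by
        refine hx.trans ((mul_le_mul_of_nonneg_right k1 (abs_nonneg _)).trans (le_of_eq ?_))
        ring
      exact lem_sc (by positivity) (lt_of_lt_of_le one_pos hYr) (by positivity)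
        (pow_le_pow_right₀ (by norm_num) (by omega)) k2
    have hYb : (2 : ℝ) ^ (10 * Y) ≤ 2 ^ (10 * Y) * Yr :=
      le_mul_of_one_le_right (by positivity) hYr
    have hb : ∀ x : ℕ, x ≤ 10 * Y → (2 : ℝ) ^ x ≤ 2 ^ (10 * Y) * Yr := fun x hx =>
      (pow_le_pow_right₀ (by norm_num) hx).trans hYb
    have hmain := rel_pt (Y := 2 ^ (10 * Y) * Yr) (Z := Z) (v' := v₂ + Y) (β := β) hc R02 hd2 hH2
      hW₂J hU21 (hU2Y.trans (hb Y (by omega))) hZ0 (hZ1.trans (hb _ (by omega)))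
      (h2Y.trans (hb Y (by omega))) (by omega) hgT2 hTH2 hsh2 hω h1 h2 p1 p2 (hsc _ s1) (hsc _ s2)
      (hsc _ s3) hβ
    refine hmain.trans ?_
    have hβ0 : 0 ≤ β := (abs_nonneg _).trans (hβ ω (Or.inl rfl))
    obtain ⟨R, hR⟩ : ∃ R : ℝ, R = 2 ^ (g₀ 0 0 + W) / 2 ^ (g₀ 0 2 + Γ) := ⟨_, rfl⟩
    have hR0 : 0 ≤ R := by rw [hR]; positivity
    obtain ⟨Q, hQ⟩ : ∃ Q : ℝ, Q = 2 ^ g₀ 2 0 / 2 ^ g₀ 2 1 * β := ⟨_, rfl⟩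
    have hQ0 : 0 ≤ Q := by rw [hQ]; positivity
    rw [← hR, ← hQ]
    have k1 : (2 : ℝ) ^ g₀ 2 0 * (2 ^ (W₂ + (v₂ + Y)) / 2 ^ q₂) ≤ 2 ^ (10 * Y) * R := by
      rw [hR, mul_div_assoc', ← pow_add]
      exact two_div (by omega)
    have k2 : (2 : ℝ) ^ g₀ 2 0 * (2 ^ W₂ / 2 ^ g₀ 2 2) ≤ 2 ^ (10 * Y) * R := by
      rw [hR, mul_div_assoc', ← pow_add]
      exact two_div (by omega)
    have k4 : (2 : ℝ) ^ g₀ 2 0 * (2 ^ (W₂ + (v₂ + Y)) / 2 ^ q₂ + 2 ^ W₂ / 2 ^ g₀ 2 2) + Q ≤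
        2 ^ (11 * Y) * (R + Q) := by
      rw [mul_add]
      refine lem_sum k1 k2 hQ0 hR0 ?_ (one_le_pow₀ (by norm_num))
      rw [show 11 * Y = Y + 10 * Y by ring, pow_add]
      exact mul_le_mul_of_nonneg_right h2Y (by positivity)
    calc (2 ^ (10 * Y) * Yr) ^ 33 * (2 ^ g₀ 2 0 * (2 ^ (W₂ + (v₂ + Y)) / 2 ^ q₂ +
          2 ^ W₂ / 2 ^ g₀ 2 2) + Q) ≤ (2 ^ (10 * Y) * Yr) ^ 33 * (2 ^ (11 * Y) * (R + Q)) :=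
          mul_le_mul_of_nonneg_left k4 (by positivity)
      _ = (2 ^ (10 * Y) * Yr) ^ 33 * 2 ^ (11 * Y) * (R + Q) := by ring
      _ ≤ (2 ^ (10 * Y) * Yr) ^ 33 * (2 ^ (20 * Y)) ^ 33 * (R + Q) := by
          refine mul_le_mul_of_nonneg_right (mul_le_mul_of_nonneg_left ?_ (by positivity))
            (by positivity)
          rw [← pow_mul]
          exact pow_le_pow_right₀ (by norm_num) (by omega)
      _ = (2 ^ (30 * Y) * Yr) ^ 33 * (R + Q) := by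
          rw [← mul_pow]
          congr 2
          rw [show 30 * Y = 10 * Y + 20 * Y by ring, pow_add]
          ring

end Pool.C2T
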