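import Pool.Agent.H46.D2.NoLb

/-!
# Labels from visible gradients which are polynomials of the time along the lines

As `Pool.JVE.jv_fam`, for a pair `(a, w)` of a radius and a window, and with closed polynomials `θ'`
of the relative time of the window `w`: if on an event the visible gradient `θ` of a coordinate is
near `θ'` on the natural boxes of a chain of the pair, then the linear function with the gradient
`θ` is a label over this chain (`jvp_lab`). `jvp_ev`: in a class with the thresholds of the chain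
labels such an event is small, if the precision is above the threshold.
-/

set_option autoImplicit false

namespace Pool.JVP

open Finset Real MvPolynomial
open Pool.Agent.H49.Ent Pool.Agent.H32.Dense Pool.STK Pool.KA Pool.KSAT Pool.K2S Pool.PB Pool.S6C
open Pool.GEN Pool.CHT
open Pool.LBT (ThrOf)
open Pool.JVE (pth gl eval_gl deg_gl dep_gl pd_gl x_rnd)

variable {m J : ℕ}

/-- The relative time of the window of the line. -/
noncomputable def rX {F : Fam m J} (w : ℕ) (s : LnT F) : MvPolynomial (Option (Fin m)) ℝ :=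
  C ((2 : ℝ) ^ w) * X none - C (s.2.2 : ℝ)

/-- **The line side**: the polynomial with the gradient `θ'` through the line. -/
noncomputable def hlp {F : Fam m J} (c : ℕ → Fin m) (i w : ℕ) (θ' : LnT F → ℕ → Polynomial ℝ)
    (s : LnT F) : MvPolynomial (Option (Fin m)) ℝ :=
  C (s.1.1 (c i)) + C (s.1.2 (c i)) * X none +
    ∑ l ∈ range i, Polynomial.aeval (rX w s) (θ' s l) *
      (X (some (c l)) - (C (s.1.1 (c l)) + C (s.1.2 (c l)) * X none))

theorem eval_rX {F : Fam m J} (w : ℕ) (s : LnT F) (b : Option (Fin m) → ℝ) :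
    eval b (rX w s) = 2 ^ w * b none - s.2.2 := by
  unfold rX
  simp only [map_sub, map_mul, eval_C, eval_X]

theorem eval_ap (Q : MvPolynomial (Option (Fin m)) ℝ) (p : Polynomial ℝ)
    (b : Option (Fin m) → ℝ) : eval b (Polynomial.aeval Q p) = p.eval (eval b Q) := by
  rw [Polynomial.aeval_def, Polynomial.eval₂_eq_sum_range, Polynomial.eval_eq_sum_range, map_sum]
  refine Finset.sum_congr rfl fun n _ => ?_
  rw [map_mul, map_pow, algebraMap_eq, eval_C]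

theorem eval_hlp {F : Fam m J} (c : ℕ → Fin m) (i w : ℕ) (θ' : LnT F → ℕ → Polynomial ℝ)
    (s : LnT F) (b : Option (Fin m) → ℝ) : eval b (hlp c i w θ' s) =
      s.1.1 (c i) + s.1.2 (c i) * b none +
        ∑ l ∈ range i, (θ' s l).eval (2 ^ w * b none - s.2.2) *
          (b (some (c l)) - (s.1.1 (c l) + s.1.2 (c l) * b none)) := by
  unfold hlp
  simp only [map_add, map_mul, map_sub, eval_C, eval_X, map_sum, eval_ap, eval_rX]

theorem deg_ap {Q : MvPolynomial (Option (Fin m)) ℝ} (hQ : Q.totalDegree ≤ 1) {p : Polynomial ℝ}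
    {D : ℕ} (hp : p.natDegree ≤ D) : (Polynomial.aeval Q p).totalDegree ≤ D := by
  rw [Polynomial.aeval_def, Polynomial.eval₂_eq_sum_range]
  refine totalDegree_finsetSum_le fun n hn => ?_
  refine (totalDegree_mul _ _).trans ?_
  rw [algebraMap_eq, totalDegree_C, zero_add]
  refine (totalDegree_pow _ _).trans ?_
  have h1 := Nat.lt_succ_iff.1 (Finset.mem_range.1 hn)
  calc n * Q.totalDegree ≤ n * 1 := Nat.mul_le_mul_left _ hQ
    _ ≤ D := by omega

theorem deg_lin1 (a b : ℝ) (o : Option (Fin m)) :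
    (C a * X o - C b : MvPolynomial (Option (Fin m)) ℝ).totalDegree ≤ 1 := by
  refine (totalDegree_sub _ _).trans (max_le ?_ ?_)
  · refine (totalDegree_mul _ _).trans ?_
    rw [totalDegree_C, zero_add]
    exact (totalDegree_X _).le
  · rw [totalDegree_C]
    exact Nat.zero_le _

theorem deg_hlp {F : Fam m J} (c : ℕ → Fin m) (i w : ℕ) {θ' : LnT F → ℕ → Polynomial ℝ}
    (s : LnT F) {D : ℕ} (hD : ∀ l, (θ' s l).natDegree ≤ D) :
    (hlp c i w θ' s).totalDegree ≤ D + 1 := by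
  have h0 : ∀ a : ℝ, (C a * X none : MvPolynomial (Option (Fin m)) ℝ).totalDegree ≤ 1 := by
    intro a
    refine (totalDegree_mul _ _).trans ?_
    rw [totalDegree_C, zero_add]
    exact (totalDegree_X _).le
  have h1 : ∀ a b : ℝ, (C a + C b * X none : MvPolynomial (Option (Fin m)) ℝ).totalDegree ≤ 1 := by
    intro a b
    refine (totalDegree_add _ _).trans (max_le ?_ (h0 b))
    rw [totalDegree_C]
    exact Nat.zero_le _
  unfold hlp
  refine (totalDegree_add _ _).trans (max_le ((h1 _ _).trans (by omega)) ?_)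
  refine totalDegree_finsetSum_le fun l _ => ?_
  refine (totalDegree_mul _ _).trans (Nat.add_le_add (deg_ap ?_ (hD l)) ?_)
  · exact deg_lin1 _ _ _
  · exact (totalDegree_sub _ _).trans (max_le (totalDegree_X _).le (h1 _ _))

theorem dep_hlp {F : Fam m J} (c : ℕ → Fin m) (i w : ℕ) (θ' : LnT F → ℕ → Polynomial ℝ)
    (s : LnT F) : DepC c i (hlp c i w θ' s) := by
  intro b b' h0 h1
  rw [eval_hlp, eval_hlp, h0]
  congr 1
  exact Finset.sum_congr rfl fun l hl => by rw [h1 l (mem_range.1 hl)]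

/-- **A visible gradient** of the coordinate `c i` over the chain of the pair `(a, w)`, near closed
polynomials of the relative time of the window `w`. -/
structure GrP (F : Fam m J) (c : ℕ → Fin m) (i D a w e p Q v : ℕ) (g : ℕ → ℕ)
    (G : PtT F → ℕ → MvPolynomial (Option (Fin m)) ℝ) (B : F.Ω → Prop) (θ : PtT F → ℕ → ℝ)
    (θ₀ : PtT F → ℝ) (θ' : LnT F → ℕ → Polynomial ℝ) : Prop where
  deg : ∀ s l, (θ' s l).natDegree ≤ D
  siz : ∀ ω, B ω → 1 + ∑ l ∈ range i, |θ (ptr F J ω) l| ≤ 2 ^ v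
  lip : ∀ ω, B ω → ∀ l < i,
    |θ (ptr F J ω) l| ≤ 2 ^ (e + nlp (fun j => if j < i then g j else p) l i)
  vel : ∀ ω, B ω → |F.d ω (c i) - θ₀ (ptr F J ω) -
    ∑ l ∈ range i, θ (ptr F J ω) l * F.d ω (c l)| ≤ 2 ^ a / 2 ^ Q
  cst : ∀ ω, B ω → ∀ b : Option (Fin m) → ℝ, NBx c (G (ptr F J ω)) g a (F.t ω) i b →
    |∑ l ∈ range i, (θ (ptr F J ω) l - (θ' (slam F w ω) l).eval
      (2 ^ w * b none - (slam F w ω).2.2)) * (b (some (c l)) - pth F ω (b none) (c l))| ≤ 1 / 2 ^ Q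

/-- **The label.** -/
theorem jvp_lab {F : Fam m J} {c : ℕ → Fin m} {i D a w e p Q v : ℕ} {g : ℕ → ℕ}
    {G : PtT F → ℕ → MvPolynomial (Option (Fin m)) ℝ} {B : F.Ω → Prop} {θ : PtT F → ℕ → ℝ}
    {θ₀ : PtT F → ℝ} {θ' : LnT F → ℕ → Polynomial ℝ} (hc : Set.InjOn c (Set.Iio i))
    (hPQ : p + 2 ≤ Q) (hQ : Q + v ≤ J) (h : GrP F c i D a w e p Q v g G B θ θ₀ θ') :
    Pool.NLB46.Lab F c i (D + 1) a w e p g G B (gl c i θ θ₀) (hlp c i w θ') := by
  have hp : ∀ n : ℕ, (0 : ℝ) < 2 ^ n := fun n => by positivity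
  have hrnd : ∀ ω, B ω → (1 + ∑ l ∈ range i, |θ (ptr F J ω) l|) * (1 / 2 ^ J) ≤ 1 / 2 ^ Q := by
    intro ω hω
    refine (mul_le_mul_of_nonneg_right (h.siz ω hω) (by positivity)).trans ?_
    rw [mul_one_div, div_le_div_iff₀ (hp _) (hp _), ← pow_add, one_mul]
    exact pow_le_pow_right₀ (by norm_num) (by omega)
  have hsum : ∀ ω, |∑ l ∈ range i, θ (ptr F J ω) l *
      (F.x ω (c l) - ((ptr F J ω).1 (c l) : ℝ) / 2 ^ J)| ≤
        (∑ l ∈ range i, |θ (ptr F J ω) l|) * (1 / 2 ^ J) := by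
    intro ω
    refine (Finset.abs_sum_le_sum_abs _ _).trans ?_
    rw [Finset.sum_mul]
    refine Finset.sum_le_sum fun l _ => ?_
    rw [abs_mul]
    exact mul_le_mul_of_nonneg_left (x_rnd F ω (c l)) (abs_nonneg _)
  have ht : ∀ ω, ((ptr F J ω).2.1 : ℝ) / 2 ^ J = F.t ω := fun ω => rfl
  have h4 : (4 : ℝ) / 2 ^ Q ≤ 1 / 2 ^ p := by
    rw [div_le_div_iff₀ (hp _) (hp _), one_mul]
    calc (4 : ℝ) * 2 ^ p = 2 ^ (p + 2) := by rw [pow_add]; ring
      _ ≤ 2 ^ Q := pow_le_pow_right₀ (by norm_num) hPQ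
  refine ⟨fun y => (deg_gl _ _ _ _ _).trans (by omega), fun s => deg_hlp c i w s (h.deg s),
    fun y => dep_gl _ _ _ _ _, fun s => dep_hlp _ _ _ _ _, fun ω hω => ?_, fun ω hω b hb => ?_,
    fun ω hω b hb l hl => ?_⟩
  · rw [eval_gl, ht]
    have e0 : bt F ω none = F.t ω := rfl
    have e1 : ∀ k, bt F ω (some k) = F.x ω k := fun k => rfl
    simp only [e0, e1, sub_self, mul_zero, add_zero]
    have h1 := x_rnd F ω (c i)
    have h2 := hsum ω
    have h3 := hrnd ω hω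
    rw [add_mul, one_mul] at h3
    have h5 : (1 : ℝ) / 2 ^ Q ≤ 1 / 2 ^ p := by
      refine le_trans ?_ h4
      exact div_le_div_of_nonneg_right (by norm_num) (hp _).le
    refine le_trans ?_ (h3.trans h5)
    rw [← sub_sub]
    exact (abs_sub _ _).trans (add_le_add h1 h2)
  · rw [eval_gl, eval_hlp, ht]
    have e2 : ∀ k, (slam F w ω).1.1 k = F.u ω k := fun k => rfl
    have e3 : ∀ k, (slam F w ω).1.2 k = F.d ω k := fun k => rfl
    simp only [e2, e3]
    obtain ⟨ϑ, hϑ⟩ : ∃ ϑ : ℕ → ℝ, ϑ = fun l => (θ' (slam F w ω) l).eval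
      (2 ^ w * b none - (slam F w ω).2.2) := ⟨_, rfl⟩
    obtain ⟨S₁, hS₁⟩ : ∃ S₁, S₁ = ∑ l ∈ range i, θ (ptr F J ω) l *
      (F.x ω (c l) - ((ptr F J ω).1 (c l) : ℝ) / 2 ^ J) := ⟨_, rfl⟩
    obtain ⟨S₂, hS₂⟩ : ∃ S₂, S₂ = ∑ l ∈ range i, (θ (ptr F J ω) l - ϑ l) *
      (b (some (c l)) - pth F ω (b none) (c l)) := ⟨_, rfl⟩
    obtain ⟨S₃, hS₃⟩ : ∃ S₃, S₃ = F.d ω (c i) - θ₀ (ptr F J ω) -
      ∑ l ∈ range i, θ (ptr F J ω) l * F.d ω (c l) := ⟨_, rfl⟩
    have hx : F.x ω (c i) = F.u ω (c i) + F.t ω * F.d ω (c i) := rfl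
    have key : (((ptr F J ω).1 (c i) : ℝ) / 2 ^ J + θ₀ (ptr F J ω) * (b none - F.t ω) +
        ∑ l ∈ range i, θ (ptr F J ω) l *
          (b (some (c l)) - ((ptr F J ω).1 (c l) : ℝ) / 2 ^ J)) -
        (F.u ω (c i) + F.d ω (c i) * b none + ∑ l ∈ range i, ϑ l *
          (b (some (c l)) - (F.u ω (c l) + F.d ω (c l) * b none))) =
        (-(F.x ω (c i) - ((ptr F J ω).1 (c i) : ℝ) / 2 ^ J) + S₁) + S₂ -
          (b none - F.t ω) * S₃ := by
      have k1 : ∑ l ∈ range i, θ (ptr F J ω) l *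
          (b (some (c l)) - ((ptr F J ω).1 (c l) : ℝ) / 2 ^ J) -
          ∑ l ∈ range i, ϑ l * (b (some (c l)) - (F.u ω (c l) + F.d ω (c l) * b none)) =
          S₁ + S₂ + (b none - F.t ω) * ∑ l ∈ range i, θ (ptr F J ω) l * F.d ω (c l) := by
        rw [hS₁, hS₂, Finset.mul_sum, ← Finset.sum_add_distrib, ← Finset.sum_add_distrib,
          ← Finset.sum_sub_distrib]
        refine Finset.sum_congr rfl fun l _ => ?_
        have hxl : F.x ω (c l) = F.u ω (c l) + F.t ω * F.d ω (c l) := rfl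
        rw [hxl]
        unfold pth
        ring
      rw [hS₃, hx]
      linear_combination k1
    rw [hϑ] at key hS₂
    rw [key]
    have h1 : |-(F.x ω (c i) - ((ptr F J ω).1 (c i) : ℝ) / 2 ^ J) + S₁| ≤ 1 / 2 ^ Q := by
      have h3 := hrnd ω hω
      rw [add_mul, one_mul] at h3
      refine le_trans ?_ h3
      refine (abs_add_le _ _).trans (add_le_add ?_ ?_)
      · rw [abs_neg]
        exact x_rnd F ω (c i)
      · rw [hS₁]
        exact hsum ω
    have h2 : |S₂| ≤ 1 / 2 ^ Q := by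
      rw [hS₂]
      exact h.cst ω hω b hb
    have h3 : |(b none - F.t ω) * S₃| ≤ 1 / 2 ^ Q := by
      rw [abs_mul]
      have k1 := hb.1
      have k2 : |S₃| ≤ 2 ^ a / 2 ^ Q := by
        rw [hS₃]
        exact h.vel ω hω
      refine (mul_le_mul k1 k2 (abs_nonneg _) (by positivity)).trans (le_of_eq ?_)
      field_simp
    refine le_trans ?_ h4
    have e4 : (4 : ℝ) / 2 ^ Q = 1 / 2 ^ Q + 1 / 2 ^ Q + 1 / 2 ^ Q + 1 / 2 ^ Q := by ring
    have e5 : (0 : ℝ) < 1 / 2 ^ Q := by positivity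
    rw [e4]
    rw [abs_le] at h1 h2 h3 ⊢
    constructor <;> linarith only [h1.1, h1.2, h2.1, h2.2, h3.1, h3.2, e5]
  · rw [pd_gl hc θ θ₀ _ b hl]
    exact h.lip ω hω l hl

/-- **Events on which a visible gradient is a closed polynomial of the time are small**, if the
precision is above the threshold. -/
theorem jvp_ev {θc : ℝ} {S : PCl m} {P : List (Fin m) × Fin m → ℝ → ℝ → ℝ}
    (hP : ThrOf (chsys m θc) S P) (c : ℕ → Fin m) (i : ℕ) (hc : Set.InjOn c (Set.Iio i)) (D K : ℕ)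
    (hK : D + 1 ≤ K) (a w : ℚ) (e h : ℝ) (hw : 0 ≤ w) (hwa : w ≤ a) (ha : a ≤ 1)
    (he : e < θc * w) (hh : 0 < h) (h1 : bet P c i a w + h ≤ 1) :
    ∃ δ : ℝ, 0 < δ ∧ Bas S (fun J F A => ∀ (a₀ w₀ e₀ p Q v : ℕ) (Kv g : ℕ → ℕ)
      (G : PtT F → ℕ → MvPolynomial (Option (Fin m)) ℝ)
      (H : LnT F → ℕ → MvPolynomial (Option (Fin m)) ℝ) (θ : PtT F → ℕ → ℝ) (θ₀ : PtT F → ℝ)
      (θ' : LnT F → ℕ → Polynomial ℝ),
      w₀ ≤ a₀ → a₀ ≤ ⌊(a : ℝ) * J⌋₊ → w₀ ≤ ⌊(w : ℝ) * J⌋₊ → e₀ ≤ ⌊e * J⌋₊ → (∀ l, Kv l ≤ K) →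
      (∀ l < i, g l ≤ J) → p + 2 ≤ Q → Q + v ≤ J →
      ⌊(bet P c i a w + h) * J⌋₊ + a₀ ≤ p + ⌊(a : ℝ) * J⌋₊ →
      ∀ (B : F.Ω → Prop), Sub B A → ChOK F c i Kv a₀ w₀ e₀ g B G H →
      GrP F c i D a₀ w₀ e₀ p Q v g G B θ θ₀ θ' →
      Pe F.p B ≤ Real.exp (-(δ * J)) * Pe F.p A) := by
  obtain ⟨δ, hδ, hev⟩ := Pool.NLB46.lab_ev hP c i K a w e h hw hwa ha he hh h1
  refine ⟨δ, hδ, Bas.mono 0 hev ?_⟩
  intro J _ F A hA a₀ w₀ e₀ p Q v Kv g G H θ θ₀ θ' k0 k1 k2 k3 k4 k5 k6 k7 k8 B hBA hch hG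
  have hl := jvp_lab hc k6 k7 hG
  exact hA a₀ w₀ e₀ p Kv g G H _ _ k0 k1 k2 k3 k4 k5 (by omega) k8 B hBA hch
    { hl with
      degG := fun y => (hl.degG y).trans hK
      degH := fun s => (hl.degH s).trans hK }

end Pool.JVP
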