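import Pool.Agent.H54.C2T.Own
import Pool.Agent.H54.C2T.Jvp

/-!
# The affine chain and a gradient which is constant along the lines

`grp_aff`: over the affine chain of a frame of two coordinates, a visible polynomial whose gradient at
the rounded point is near the gradient of a closed polynomial at the first time of the window is a
visible gradient.
-/

set_option autoImplicit false

namespace Pool.C2T

open Finset Real MvPolynomial
open Pool.Agent.H49.Ent Pool.Agent.H32.Dense Pool.STK Pool.KA Pool.KSAT Pool.K2S Pool.PB Pool.S6C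
open Pool.GEN Pool.CHT Pool.CHX Pool.ISO Pool.D2R Pool.D2Z Pool.D2F
open Pool.PB.Trl (rt rt_mem t_rt)
open Pool.JVE (pth)
open Pool.JVP (GrP)

variable {m J : ℕ}

theorem dd_ex (P : MvPolynomial (Option (Fin m)) ℝ) (x : Option (Fin m) → ℝ) (k : Fin m) :
    dd P x (ex k) = eval x (pderiv (some k) P) := by
  classical
  unfold dd ex
  rw [Finset.sum_eq_single (some k)]
  · rw [Pi.single_eq_same, mul_one]
  · intro o _ ho
    rw [Pi.single_eq_of_ne ho, mul_zero]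
  · intro h
    exact absurd (Finset.mem_univ _) h

theorem dd_dx (c : ℕ → Fin m) (P : MvPolynomial (Option (Fin m)) ℝ) (x : Option (Fin m) → ℝ)
    (μ : ℝ) : dd P x (dx c μ) = eval x (pderiv (some (c 0)) P) +
      μ * eval x (pderiv (some (c 1)) P) := by
  unfold dx
  rw [dd_add, dd_smul, dd_ex, dd_ex]

theorem dd_two {c : ℕ → Fin m} (hc : Set.InjOn c (Set.Iio 3))
    {P : MvPolynomial (Option (Fin m)) ℝ} (h : DepC c 2 P) (x V : Option (Fin m) → ℝ) :
    dd P x V = eval x (pderiv none P) * V none + (eval x (pderiv (some (c 0)) P) * V (some (c 0)) +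
      eval x (pderiv (some (c 1)) P) * V (some (c 1))) := by
  have hc1 : Set.InjOn c (Set.Iio 2) := hc.mono (Set.Iio_subset_Iio (by norm_num))
  rw [← cv_grd, cv_eq hc1 (cvc_grd h x), Finset.sum_range_succ, Finset.sum_range_one]
  rfl

/-- **The natural box of the affine chain around the own line.** -/
theorem aff_box {F : Fam m J} {c : ℕ → Fin m} {W k e V : ℕ} {g : ℕ → ℕ} {B : F.Ω → Prop}
    {ψ : PtT F → ℕ → Option (Fin m) → ℝ} {ψH : LnT F → ℕ → Option (Fin m) → ℝ}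
    (hc : Set.InjOn c (Set.Iio 3)) (hfr : FrOK F c 2 W k e g B ψ ψH)
    (hkg : ∀ l < 2, k + 1 ≤ g l) (hV : 1 ≤ V) (hJ : ∀ l < 2, e + g l + V ≤ J) {ω : F.Ω}
    (hω : B ω) {b : Option (Fin m) → ℝ}
    (hb : NBx c (GA c ψ (ptr F J ω)) (fun j => g j - (k + 1)) W (F.t ω) 2 b) :
    |b (some (c 0)) - pth F ω (b none) (c 0)| ≤ 2 ^ (k + 2) / 2 ^ g 0 ∧
    |b (some (c 1)) - pth F ω (b none) (c 1) - ψ (ptr F J ω) 1 (some (c 0)) *
      (b (some (c 0)) - pth F ω (b none) (c 0))| ≤ 2 ^ (k + 2) / 2 ^ g 1 := by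
  have hc2 : Set.InjOn c (Set.Iio 2) := hc.mono (Set.Iio_subset_Iio (by norm_num))
  obtain ⟨Δ, hΔ⟩ : ∃ Δ : Option (Fin m) → ℝ,
      Δ = b - (bt F ω + (b none - F.t ω) • bd F ω) := ⟨_, rfl⟩
  have hΔn : Δ none = 0 := by
    rw [hΔ]
    show b none - (F.t ω + (b none - F.t ω) * 1) = 0
    ring
  have hΔl : ∀ k, Δ (some k) = b (some k) - pth F ω (b none) k := by
    intro k
    rw [hΔ]
    show b (some k) - ((F.u ω k + F.t ω * F.d ω k) + (b none - F.t ω) * F.d ω k) = _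
    unfold pth
    ring
  have key : ∀ l < 2, |Δ (some (c l)) - cv (ψ (ptr F J ω) l) Δ| ≤ 2 ^ (k + 2) / 2 ^ g l := by
    intro l hl
    have h1 := hb.2 l hl
    have hge : (1 : ℝ) / 2 ^ (g l - (k + 1)) = 2 ^ (k + 1) / 2 ^ g l := by
      rw [div_eq_div_iff (by positivity) (by positivity), one_mul, ← pow_add,
        Nat.add_sub_cancel' (hkg l hl)]
    beta_reduce at h1
    rw [hge] at h1
    have h2 : eval b (GA c ψ (ptr F J ω) l) = hx F ω (some (c l)) +
        cv (ψ (ptr F J ω) l) (b - hx F ω) := by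
      unfold GA
      rw [eval_afp]
      rfl
    rw [h2] at h1
    have h3 := ht_small (V := V) (W := bt F ω - hx F ω)
      (hc2.mono (Set.Iio_subset_Iio hl.le)) (hfr.dep (ptr F J ω) l)
      (hfr.lip ω hω l hl) (by rw [Pi.sub_apply, hx_none, sub_self])
      (fun k => by rw [Pi.sub_apply, abs_sub_comm]; exact hx_some F ω k)
      fun j hj' => hJ j (lt_of_le_of_lt hj' hl)
    have h4 : ((l : ℝ) + 1) * (1 / 2 ^ (g l + V)) ≤ 1 / 2 ^ g l := by
      have h5 : ((l : ℝ) + 1) ≤ 2 := by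
        have : (l : ℝ) ≤ 1 := by exact_mod_cast (by omega : l ≤ 1)
        linarith
      have h6 : (1 : ℝ) / 2 ^ (g l + V) ≤ 1 / 2 ^ (g l + 1) :=
        one_div_le_one_div_of_le (by positivity) (pow_le_pow_right₀ (by norm_num) (by omega))
      calc ((l : ℝ) + 1) * (1 / 2 ^ (g l + V)) ≤ 2 * (1 / 2 ^ (g l + 1)) :=
            mul_le_mul h5 h6 (by positivity) (by norm_num)
        _ = 1 / 2 ^ g l := by rw [pow_succ]; field_simp
    have h5 := hfr.nat ω hω l hl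
    have h6 : |(b none - F.t ω) * (bd F ω (some (c l)) - cv (ψ (ptr F J ω) l) (bd F ω))| ≤
        2 ^ k / 2 ^ g l := by
      rw [abs_mul]
      calc |b none - F.t ω| * |bd F ω (some (c l)) - cv (ψ (ptr F J ω) l) (bd F ω)| ≤
            1 / 2 ^ W * (2 ^ (W + k) / 2 ^ g l) :=
            mul_le_mul hb.1 h5 (abs_nonneg _) (by positivity)
        _ = _ := by rw [pow_add]; field_simp
    have e1 : Δ (some (c l)) - cv (ψ (ptr F J ω) l) Δ =
        (b (some (c l)) - (hx F ω (some (c l)) + cv (ψ (ptr F J ω) l) (b - hx F ω))) -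
        ((bt F ω - hx F ω) (some (c l)) - cv (ψ (ptr F J ω) l) (bt F ω - hx F ω)) -
        (b none - F.t ω) * (bd F ω (some (c l)) - cv (ψ (ptr F J ω) l) (bd F ω)) := by
      rw [hΔ]
      simp only [cv_sub, cv_add, cv_smul, Pi.sub_apply, Pi.add_apply, Pi.smul_apply, smul_eq_mul]
      ring
    rw [e1]
    refine ((abs_sub _ _).trans (add_le_add ((abs_sub _ _).trans (add_le_add h1
      (h3.trans h4))) h6)).trans ?_
    rw [← add_div, ← add_div]
    refine div_le_div_of_nonneg_right ?_ (by positivity)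
    have h7 : (1 : ℝ) ≤ 2 ^ k := one_le_pow₀ (by norm_num)
    have e2 : (2 : ℝ) ^ (k + 2) = 4 * 2 ^ k := by rw [pow_add]; norm_num; ring
    have e3 : (2 : ℝ) ^ (k + 1) = 2 * 2 ^ k := by rw [pow_succ]; ring
    rw [e2, e3]
    linarith
  have k0 := key 0 (by norm_num)
  have k1 := key 1 (by norm_num)
  have hc0 : Set.InjOn c (Set.Iio 0) := hc.mono (Set.Iio_subset_Iio (by norm_num))
  have hc1 : Set.InjOn c (Set.Iio 1) := hc.mono (Set.Iio_subset_Iio (by norm_num))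
  rw [cv_eq hc0 (hfr.dep _ 0), hΔn, mul_zero, Finset.sum_range_zero, add_zero, sub_zero,
    hΔl] at k0
  rw [cv_eq hc1 (hfr.dep _ 1), hΔn, mul_zero, Finset.sum_range_one, zero_add, hΔl, hΔl] at k1
  exact ⟨k0, k1⟩

/-- **A visible gradient over the affine chain.** -/
theorem grp_aff {F : Fam m J} {c : ℕ → Fin m} {W k e V p Q v e' : ℕ} {g : ℕ → ℕ} {B : F.Ω → Prop}
    {ψ : PtT F → ℕ → Option (Fin m) → ℝ} {ψH : LnT F → ℕ → Option (Fin m) → ℝ}
    {P : PtT F → MvPolynomial (Option (Fin m)) ℝ} {R : LnT F → MvPolynomial (Option (Fin m)) ℝ}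
    {Xv Xy : ℝ} (hc : Set.InjOn c (Set.Iio 3)) (hfr : FrOK F c 2 W k e g B ψ ψH)
    (hkg : ∀ l < 2, k + 1 ≤ g l) (hV : 1 ≤ V) (hJ : ∀ l < 2, e + g l + V ≤ J)
    (hP : ∀ y, DepC c 2 (P y))
    (h1 : ∀ ω, B ω → |dd (P (ptr F J ω)) (hx F ω) (ex (c 1)) -
      dd (R (slam F W ω)) (xt W (slam F W ω) 0) (ex (c 1))| ≤ Xv)
    (h2 : ∀ ω, B ω → |dd (P (ptr F J ω)) (hx F ω) (dx c (ψ (ptr F J ω) 1 (some (c 0)))) -
      dd (R (slam F W ω)) (xt W (slam F W ω) 0) (dx c (ψ (ptr F J ω) 1 (some (c 0))))| ≤ Xy)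
    (h3 : ∀ ω, B ω → |bd F ω (some (c 2)) - dd (P (ptr F J ω)) (hx F ω) (bd F ω)| ≤
      2 ^ W / 2 ^ Q)
    (h4 : ∀ ω, B ω → ∀ l < 2, |eval (hx F ω) (pderiv (some (c l)) (P (ptr F J ω)))| ≤
      2 ^ (e' + nlp (fun j => if j < 2 then g j - (k + 1) else p) l 2))
    (h5 : ∀ ω, B ω → 1 + (|eval (hx F ω) (pderiv (some (c 0)) (P (ptr F J ω)))| +
      |eval (hx F ω) (pderiv (some (c 1)) (P (ptr F J ω)))|) ≤ 2 ^ v)
    (h6 : 2 ^ (k + 2) / 2 ^ g 0 * Xy + 2 ^ (k + 2) / 2 ^ g 1 * Xv ≤ 1 / 2 ^ Q) :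
    GrP F c 2 0 W W e' p Q v (fun j => g j - (k + 1)) (GA c ψ) B
      (fun y l => eval (bho J J y) (pderiv (some (c l)) (P y)))
      (fun y => eval (bho J J y) (pderiv none (P y)))
      (fun s l => Polynomial.C (eval (xt W s 0) (pderiv (some (c l)) (R s)))) := by
  have hh : ∀ ω : F.Ω, bho J J (ptr F J ω) = hx F ω := fun _ => rfl
  refine ⟨fun s l => by rw [Polynomial.natDegree_C], fun ω hω => ?_, fun ω hω l hl => ?_,
    fun ω hω => ?_, fun ω hω b hb => ?_⟩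
  · rw [Finset.sum_range_succ, Finset.sum_range_one, hh]
    exact h5 ω hω
  · rw [hh]
    exact h4 ω hω l hl
  · have h7 := h3 ω hω
    rw [dd_two hc (hP _)] at h7
    rw [Finset.sum_range_succ, Finset.sum_range_one, hh]
    refine le_trans (le_of_eq ?_) h7
    show |F.d ω (c 2) - _ - _| = |F.d ω (c 2) - _|
    congr 1
    show _ = F.d ω (c 2) - (eval (hx F ω) (pderiv none (P (ptr F J ω))) * 1 +
      (eval (hx F ω) (pderiv (some (c 0)) (P (ptr F J ω))) * F.d ω (c 0) +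
      eval (hx F ω) (pderiv (some (c 1)) (P (ptr F J ω))) * F.d ω (c 1)))
    ring
  · obtain ⟨k0, k1⟩ := aff_box hc hfr hkg hV hJ hω hb
    have h7 := h1 ω hω
    have h8 := h2 ω hω
    rw [dd_ex, dd_ex] at h7
    rw [dd_dx, dd_dx] at h8
    rw [Finset.sum_range_succ, Finset.sum_range_one, hh, Polynomial.eval_C, Polynomial.eval_C]
    obtain ⟨x0, hx0⟩ : ∃ x0, x0 = b (some (c 0)) - pth F ω (b none) (c 0) := ⟨_, rfl⟩
    obtain ⟨x1, hx1⟩ : ∃ x1, x1 = b (some (c 1)) - pth F ω (b none) (c 1) := ⟨_, rfl⟩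
    obtain ⟨ψy, hψy⟩ : ∃ ψy, ψy = ψ (ptr F J ω) 1 (some (c 0)) := ⟨_, rfl⟩
    rw [← hψy] at k1 h8
    rw [← hx0] at k0 k1 ⊢
    rw [← hx1] at k1 ⊢
    obtain ⟨t0, ht0⟩ : ∃ t0, t0 = eval (hx F ω) (pderiv (some (c 0)) (P (ptr F J ω))) -
      eval (xt W (slam F W ω) 0) (pderiv (some (c 0)) (R (slam F W ω))) := ⟨_, rfl⟩
    obtain ⟨t1, ht1⟩ : ∃ t1, t1 = eval (hx F ω) (pderiv (some (c 1)) (P (ptr F J ω))) -
      eval (xt W (slam F W ω) 0) (pderiv (some (c 1)) (R (slam F W ω))) := ⟨_, rfl⟩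
    rw [← ht0, ← ht1]
    rw [← ht1] at h7
    have h9 : |t0 + ψy * t1| ≤ Xy := by
      refine le_trans (le_of_eq ?_) h8
      rw [ht0, ht1]
      congr 1
      ring
    have e : t0 * x0 + t1 * x1 = x0 * (t0 + ψy * t1) + (x1 - ψy * x0) * t1 := by ring
    rw [e]
    refine (abs_add_le _ _).trans (le_trans ?_ h6)
    rw [abs_mul, abs_mul]
    exact add_le_add (mul_le_mul k0 h9 (abs_nonneg _) (by positivity))
      (mul_le_mul k1 h7 (abs_nonneg _) (by positivity))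

end Pool.C2T
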