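import Pool.Agent.H54.C2T.Dat

/-!
# The two ends

`sep_out`: the relation and the slopes at a sample with two separated other lines. `dat_flat`: the
hypotheses of `flat_cls`, if the curvature in the direction of the second coordinate is small.
`dat_lam`: the closed slope, if it is large.
-/

set_option autoImplicit false

namespace Pool.C2T

open Finset Real MvPolynomial
open Pool.Agent.H49.Ent Pool.Agent.H32.Dense Pool.STK Pool.KA Pool.KSAT Pool.K2S Pool.PB Pool.S6C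
open Pool.GEN Pool.CHT Pool.CHX Pool.ISO Pool.D2R Pool.D2Z Pool.D2F Pool.RCV
open Pool.PB.Trl (rt rt_mem t_rt)
open Pool.FLF (Fam.sub)

variable {m J : ℕ}

/-- The slope of the second coordinate at the sample. -/
noncomputable def mu (F : Fam m J) (c : ℕ → Fin m)
    (G : PtT F → ℕ → MvPolynomial (Option (Fin m)) ℝ) (ω : F.Ω) : ℝ :=
  eval (bt F ω) (pderiv (some (c 0)) (G (ptr F J ω) 1))

/-- **The relation and the slopes** at a sample with two separated other lines. -/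
theorem sep_out {F : Fam m J} {c : ℕ → Fin m} {W W₁ W₂ X Γ t : ℕ} {g₀ g₁ g₂ : ℕ → ℕ}
    {B : F.Ω → Prop} {G₀ G₁ G₂ : PtT F → ℕ → MvPolynomial (Option (Fin m)) ℝ}
    {Gt : PtT F → MvPolynomial (Option (Fin m)) ℝ}
    {Ht : LnT F → MvPolynomial (Option (Fin m)) ℝ}
    (h : Dat F c W W₁ W₂ X Γ g₀ g₁ g₂ B G₀ G₁ G₂ Gt Ht)
    {ψ : PtT F → ℕ → Option (Fin m) → ℝ} (hcv : ∀ y, CvC c 0 (ψ y 0)) {ω : F.Ω} {ν : Fin 2 → F.Ω}
    {β : ℝ} (hω : B ω) (h1 : ∀ i, B (ν i) ∧ ptr F J (ν i) = ptr F J ω)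
    (h2 : ∀ i, 1 / 2 ^ t ≤ |Xn F c g₀ W ψ ω 1 - Xn F c g₀ W ψ (ν i) 1|)
    (h3 : ∀ i j, i ≠ j → 1 / 2 ^ t ≤ |Xn F c g₀ W ψ (ν i) 1 - Xn F c g₀ W ψ (ν j) 1|)
    (hβ : ∀ ν, B ν → |hs (Ht (slam F W ν)) (bt F ν) (bd F ν) (ex (c 1))| ≤ β) :
    |hs (Ht (slam F W ω)) (bt F ω) (bd F ω) (dx c (mu F c G₂ ω))| ≤
      2 ^ (33 * (X + t)) * (2 ^ (g₀ 0 + W) / 2 ^ (g₀ 2 + Γ) + 2 ^ g₂ 0 / 2 ^ g₂ 1 * β) ∧
    |mu F c G₀ ω - mu F c G₂ ω| ≤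
      2 * (2 ^ X * 2 ^ W / 2 ^ g₀ 1 + 2 ^ X * 2 ^ W₂ / 2 ^ g₂ 1) * (2 ^ g₀ 0 * 2 ^ t / 2 ^ W) ∧
    |mu F c G₁ ω - mu F c G₂ ω| ≤
      2 * (2 ^ X * 2 ^ W₁ / 2 ^ g₁ 1 + 2 ^ X * 2 ^ W₂ / 2 ^ g₂ 1) * (2 ^ g₀ 0 * 2 ^ t / 2 ^ W) := by
  have p0 := (h1 0).2
  have p1 := (h1 1).2
  have s1 := h2 0
  have s2 := h2 1
  have s3 := h3 1 0 (by decide)
  rw [xn_sep hcv p0.symm, abs_sub_comm] at s1
  rw [xn_sep hcv p1.symm, abs_sub_comm] at s2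
  rw [xn_sep hcv (p1.trans p0.symm)] at s3
  have hT1 : (1 : ℝ) ≤ 2 ^ t := one_le_pow₀ (by norm_num)
  have hd : (0 : ℝ) < 2 ^ W / (2 ^ g₀ 0 * 2 ^ t) := by positivity
  have hs1 : (2 : ℝ) ^ W / (2 ^ g₀ 0 * 2 ^ t) ≤
      |bd F (ν 0) (some (c 0)) - bd F ω (some (c 0))| := by
    rw [div_le_iff₀ (by positivity)] at s1
    rw [div_le_iff₀ (by positivity)]
    have e1 : 2 ^ g₀ 0 / 2 ^ W * |bd F (ν 0) (some (c 0)) - bd F ω (some (c 0))| * 2 ^ t * 2 ^ W =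
        |bd F (ν 0) (some (c 0)) - bd F ω (some (c 0))| * (2 ^ g₀ 0 * 2 ^ t) := by field_simp
    rw [← e1]
    have := mul_le_mul_of_nonneg_right s1 (by positivity : (0 : ℝ) ≤ 2 ^ W)
    rwa [one_mul] at this
  have hB0 := (h1 0).1
  have hB1 := (h1 1).1
  refine ⟨?_, ?_, ?_⟩
  · have k1 := h.rel ω (ν 0) (ν 1) hω hB0 hB1 p0 p1 (2 ^ t) β hT1 s1 s2 s3 (by
      rintro ν' (rfl | rfl | rfl)
      · exact hβ _ hω
      · exact hβ _ hB0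
      · exact hβ _ hB1)
    rw [← pow_add, ← pow_mul, mul_comm (X + t) 33] at k1
    exact k1
  · refine (mu_two (P := G₀ (ptr F J ω) 1) (P' := G₂ (ptr F J ω) 1) (h.d0 _ 1) (h.d2 _ 1)
      (x := bt F ω) (E := bd F ω) (E' := bd F (ν 0)) rfl rfl (h.vel0 ω ω hω hω rfl 1 (by norm_num))
      (h.vel0 ω (ν 0) hω hB0 p0.symm 1 (by norm_num)) (h.vel2 ω ω hω hω rfl 1 (by norm_num))
      (h.vel2 ω (ν 0) hω hB0 p0.symm 1 (by norm_num)) hd hs1).trans (le_of_eq ?_)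
    field_simp
  · refine (mu_two (P := G₁ (ptr F J ω) 1) (P' := G₂ (ptr F J ω) 1) (h.d1 _ 1) (h.d2 _ 1)
      (x := bt F ω) (E := bd F ω) (E' := bd F (ν 0)) rfl rfl (h.vel1 ω ω hω hω rfl 1 (by norm_num))
      (h.vel1 ω (ν 0) hω hB0 p0.symm 1 (by norm_num)) (h.vel2 ω ω hω hω rfl 1 (by norm_num))
      (h.vel2 ω (ν 0) hω hB0 p0.symm 1 (by norm_num)) hd hs1).trans (le_of_eq ?_)
    field_simp

theorem two_pw {a b c d x : ℕ} (h : a + d ≤ x + c + b) :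
    (2 : ℝ) ^ a / 2 ^ b ≤ 2 ^ x * (2 ^ c / 2 ^ d) := two_div h

/-- **The hypotheses of the flat end.** -/
theorem dat_flat {F : Fam m J} {c : ℕ → Fin m} {W W₁ W₂ X Γ t α k : ℕ} {g₀ g₁ g₂ : ℕ → ℕ}
    {B : F.Ω → Prop} {G₀ G₁ G₂ : PtT F → ℕ → MvPolynomial (Option (Fin m)) ℝ}
    {Gt : PtT F → MvPolynomial (Option (Fin m)) ℝ}
    {Ht : LnT F → MvPolynomial (Option (Fin m)) ℝ}
    (h : Dat F c W W₁ W₂ X Γ g₀ g₁ g₂ B G₀ G₁ G₂ Gt Ht) (hc : Set.InjOn c (Set.Iio 3))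
    {ψ : PtT F → ℕ → Option (Fin m) → ℝ} (hcv : ∀ y l, CvC c l (ψ y l)) {ω : F.Ω}
    {ν : Fin 2 → F.Ω} (hω : B ω) (h1 : ∀ i, B (ν i) ∧ ptr F J (ν i) = ptr F J ω)
    (h2 : ∀ i, 1 / 2 ^ t ≤ |Xn F c g₀ W ψ ω 1 - Xn F c g₀ W ψ (ν i) 1|)
    (h3 : ∀ i j, i ≠ j → 1 / 2 ^ t ≤ |Xn F c g₀ W ψ (ν i) 1 - Xn F c g₀ W ψ (ν j) 1|)
    (hβ : ∀ ν, B ν → |hs (Ht (slam F W ν)) (bt F ν) (bd F ν) (ex (c 1))| ≤
      2 ^ (W + g₀ 1) / 2 ^ (g₀ 2 + α))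
    (hN : Nc c g₀ W 3 (2 ^ k) (ψ (ptr F J ω)) (fun l => grd (G₀ (ptr F J ω) l) (bt F ω)))
    (hX : 1 ≤ X) (hα : α ≤ Γ) (n1 : g₂ 0 + g₀ 1 ≤ g₂ 1 + g₀ 0 + X)
    (n2 : W₂ + g₀ 1 ≤ W + g₂ 1 + X) :
    (∀ V : Option (Fin m) → ℝ, |cv (grd (Gt (ptr F J ω)) (bho J J (ptr F J ω)) -
      ψ (ptr F J ω) 2) V| ≤ 2 ^ (X + 3 * k + 5) / 2 ^ g₀ 2 * en c g₀ W (ψ (ptr F J ω)) 2 V) ∧
    |bd F ω (some (c 2)) - cv (grd (Gt (ptr F J ω)) (bho J J (ptr F J ω))) (bd F ω)| ≤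
      2 ^ (40 * (X + t + k)) / 2 ^ α * (2 ^ W / 2 ^ g₀ 2) ∧
    (∀ V : Option (Fin m) → ℝ, V none = 0 → |dd (Ht (slam F W ω)) (bt F ω) V -
      cv (grd (Gt (ptr F J ω)) (bho J J (ptr F J ω))) V| ≤
      2 ^ (40 * (X + t + k)) / 2 ^ α / 2 ^ g₀ 2 * en c g₀ W (ψ (ptr F J ω)) 2 V) ∧
    ∀ V : Option (Fin m) → ℝ, V none = 0 → |hs (Ht (slam F W ω)) (bt F ω) (bd F ω) V| ≤
      2 ^ (40 * (X + t + k)) / 2 ^ α * (2 ^ W / 2 ^ g₀ 2) *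
        en c g₀ W (ψ (ptr F J ω)) 2 V := by
  obtain ⟨y, hy⟩ : ∃ y, y = ptr F J ω := ⟨_, rfl⟩
  have hhx : bho J J (ptr F J ω) = hx F ω := rfl
  obtain ⟨r1, r2, -⟩ := sep_out h (fun y => hcv y 0) hω h1 h2 h3 hβ
  have hrow := h.row ω hω
  have hrel := h.rel1 ω hω
  have hK0 : (0 : ℝ) ≤ 2 ^ k := by positivity
  have hK3 : (1 + (2 : ℝ) ^ k) ^ 3 ≤ 2 ^ (3 * k + 3) := by
    have e1 : (1 : ℝ) + 2 ^ k ≤ 2 ^ (k + 1) := by
      rw [pow_succ]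
      have : (1 : ℝ) ≤ 2 ^ k := one_le_pow₀ (by norm_num)
      linarith
    calc (1 + (2 : ℝ) ^ k) ^ 3 ≤ (2 ^ (k + 1)) ^ 3 := pow_le_pow_left₀ (by positivity) e1 3
      _ = _ := by rw [← pow_mul]; congr 1; ring
  obtain ⟨R, hR⟩ : ∃ R : ℝ, R = 1 / 2 ^ g₀ 2 := ⟨_, rfl⟩
  have hR0 : 0 ≤ R := by rw [hR]; positivity
  obtain ⟨Q, hQ⟩ : ∃ Q : ℝ, Q = 1 / 2 ^ α := ⟨_, rfl⟩
  have hQ0 : 0 ≤ Q := by rw [hQ]; positivity
  have hQ1 : Q ≤ 1 := by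
    rw [hQ, div_le_one (by positivity)]
    exact one_le_pow₀ (by norm_num)
  have hΓ : (1 : ℝ) / 2 ^ (g₀ 2 + Γ) ≤ Q * R := by
    rw [hQ, hR, div_mul_div_comm, one_mul, ← pow_add]
    exact one_div_le_one_div_of_le (by positivity) (pow_le_pow_right₀ (by norm_num) (by omega))
  have hER : (2 : ℝ) ^ X / 2 ^ (g₀ 2 + Γ) ≤ 2 ^ X * (Q * R) := by
    rw [div_eq_mul_one_div]
    exact mul_le_mul_of_nonneg_left hΓ (by positivity)
  have hQR : Q * R ≤ R := mul_le_of_le_one_left hR0 hQ1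
  refine ⟨fun V => ?_, ?_, fun V hV => ?_, fun V hV => ?_⟩
  · have k1 := fl_near hK0 hN (by positivity) (by positivity) hrow hrel V
    rw [hhx]
    refine k1.trans (mul_le_mul_of_nonneg_right ?_ (en_nonneg _ _ _ _ _ _))
    have e2 : (2 : ℝ) ^ X / 2 ^ g₀ 2 = 2 ^ X * R := by rw [hR]; ring
    have e3 : (2 : ℝ) ^ k / 2 ^ g₀ 2 = 2 ^ k * R := by rw [hR]; ring
    have e4 : (2 : ℝ) ^ (X + 3 * k + 5) / 2 ^ g₀ 2 = 2 ^ (X + 3 * k + 5) * R := by rw [hR]; ring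
    rw [e2, e3, e4]
    have e5 : (2 : ℝ) ^ X / 2 ^ (g₀ 2 + Γ) ≤ 2 ^ X * R :=
      hER.trans (mul_le_mul_of_nonneg_left hQR (by positivity))
    calc (2 ^ X / 2 ^ (g₀ 2 + Γ) + 2 ^ X * R) * (1 + 2 ^ k) ^ 3 + 2 ^ k * R ≤
          (2 ^ X * R + 2 ^ X * R) * 2 ^ (3 * k + 3) + 2 ^ (X + 3 * k + 3) * R := by
          refine add_le_add (mul_le_mul (by linarith) hK3 (by positivity) (by positivity))
            (mul_le_mul_of_nonneg_right (pow_le_pow_right₀ (by norm_num) (by omega)) hR0)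
      _ = 3 * 2 ^ (X + (3 * k + 3)) * R := by
          rw [pow_add 2 X (3 * k + 3), show X + 3 * k + 3 = X + (3 * k + 3) by ring,
            pow_add 2 X (3 * k + 3)]
          ring
      _ ≤ 4 * 2 ^ (X + (3 * k + 3)) * R := by
          refine mul_le_mul_of_nonneg_right (mul_le_mul_of_nonneg_right (by norm_num)
            (by positivity)) hR0
      _ = _ := by
          rw [show X + 3 * k + 5 = 2 + (X + (3 * k + 3)) by ring, pow_add 2 2 (X + (3 * k + 3))]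
          norm_num
  · rw [hhx, cv_grd]
    have k1 := h.velt ω hω
    have k2 := hrow (bd F ω)
    have k3 := h.nb ω hω
    have e : bd F ω (some (c 2)) - dd (Gt (ptr F J ω)) (hx F ω) (bd F ω) =
        (bd F ω (some (c 2)) - dd (Ht (slam F W ω)) (bt F ω) (bd F ω)) -
        (dd (Gt (ptr F J ω)) (hx F ω) (bd F ω) - dd (Ht (slam F W ω)) (bt F ω) (bd F ω)) := by ring
    rw [e]
    refine (abs_sub _ _).trans ((add_le_add k1 (k2.trans (mul_le_mul hER k3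
      (nrm_nonneg _ _ _ _ _ _ _) (by positivity)))).trans ?_)
    have k4 : (2 : ℝ) ^ X * 2 ^ W / 2 ^ (g₀ 2 + Γ) ≤ 2 ^ X * (Q * R) * 2 ^ W := by
      have := mul_le_mul_of_nonneg_right hER (by positivity : (0 : ℝ) ≤ 2 ^ W)
      refine le_trans (le_of_eq ?_) this
      ring
    have e6 : (2 : ℝ) ^ (40 * (X + t + k)) / 2 ^ α * (2 ^ W / 2 ^ g₀ 2) =
        2 ^ (40 * (X + t + k)) * (Q * R) * 2 ^ W := by rw [hQ, hR]; ring
    rw [e6]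
    calc 2 ^ X * 2 ^ W / 2 ^ (g₀ 2 + Γ) + 2 ^ X * (Q * R) * (2 ^ X * 2 ^ W) ≤
          2 ^ (X + X) * (Q * R) * 2 ^ W + 2 ^ (X + X) * (Q * R) * 2 ^ W := by
          refine add_le_add (k4.trans (mul_le_mul_of_nonneg_right (mul_le_mul_of_nonneg_right
            (pow_le_pow_right₀ (by norm_num) (by omega)) (by positivity)) (by positivity)))
            (le_of_eq ?_)
          rw [pow_add]
          ring
      _ = 2 ^ (X + X + 1) * (Q * R) * 2 ^ W := by rw [pow_succ 2 (X + X)]; ring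
      _ ≤ _ := mul_le_mul_of_nonneg_right (mul_le_mul_of_nonneg_right
          (pow_le_pow_right₀ (by norm_num) (by omega)) (by positivity)) (by positivity)
  · rw [hhx]
    have k1 := fl_row hK0 hN (by positivity) hrow V
    refine k1.trans (mul_le_mul_of_nonneg_right ?_ (en_nonneg _ _ _ _ _ _))
    have e6 : (2 : ℝ) ^ (40 * (X + t + k)) / 2 ^ α / 2 ^ g₀ 2 =
        2 ^ (40 * (X + t + k)) * (Q * R) := by rw [hQ, hR]; ring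
    rw [e6]
    calc 2 ^ X / 2 ^ (g₀ 2 + Γ) * (1 + 2 ^ k) ^ 3 ≤ 2 ^ X * (Q * R) * 2 ^ (3 * k + 3) :=
          mul_le_mul hER hK3 (by positivity) (by positivity)
      _ = 2 ^ (X + (3 * k + 3)) * (Q * R) := by rw [pow_add 2 X (3 * k + 3)]; ring
      _ ≤ _ := mul_le_mul_of_nonneg_right (pow_le_pow_right₀ (by norm_num) (by omega))
          (by positivity)
  · have k0 := psi_y hc (show 2 ≤ 3 by norm_num) (hcv _ 0) hN
    have k1 := fl_flat hc (hcv (ptr F J ω) 0) (hcv (ptr F J ω) 1) (h.pH (slam F W ω))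
      (g₀ := g₀) (W := W) r1 (hβ ω hω) hV
    refine k1.trans (mul_le_mul_of_nonneg_right ?_ (en_nonneg _ _ _ _ _ _))
    obtain ⟨β, hβe⟩ : ∃ β : ℝ, β = 2 ^ (W + g₀ 1) / 2 ^ (g₀ 2 + α) := ⟨_, rfl⟩
    have hβ0 : 0 ≤ β := by rw [hβe]; positivity
    have hβ1 : β / 2 ^ g₀ 1 = Q * R * 2 ^ W := by
      rw [hβe, hQ, hR, pow_add, pow_add]
      field_simp
    rw [← hβe] at r1 ⊢
    have e6 : (2 : ℝ) ^ (40 * (X + t + k)) / 2 ^ α * (2 ^ W / 2 ^ g₀ 2) =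
        2 ^ (40 * (X + t + k)) * (Q * R * 2 ^ W) := by rw [hQ, hR]; ring
    rw [e6, hβ1]
    obtain ⟨S, hS⟩ : ∃ S : ℝ, S = Q * R * 2 ^ W := ⟨_, rfl⟩
    have hS0 : 0 ≤ S := by rw [hS]; positivity
    have a1 : (2 : ℝ) ^ (33 * (X + t)) * (2 ^ (g₀ 0 + W) / 2 ^ (g₀ 2 + Γ) +
        2 ^ g₂ 0 / 2 ^ g₂ 1 * β) / 2 ^ g₀ 0 ≤ 2 ^ (33 * (X + t)) * (2 ^ (X + 1) * S) := by
      have b1 : (2 : ℝ) ^ (g₀ 0 + W) / 2 ^ (g₀ 2 + Γ) / 2 ^ g₀ 0 ≤ S := by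
        have : (2 : ℝ) ^ (g₀ 0 + W) / 2 ^ (g₀ 2 + Γ) / 2 ^ g₀ 0 = 1 / 2 ^ (g₀ 2 + Γ) * 2 ^ W := by
          rw [pow_add 2 (g₀ 0) W]
          field_simp
        rw [this, hS]
        exact mul_le_mul_of_nonneg_right hΓ (by positivity)
      have b2 : (2 : ℝ) ^ g₂ 0 / 2 ^ g₂ 1 * β / 2 ^ g₀ 0 ≤ 2 ^ X * S := by
        have b3 : (2 : ℝ) ^ g₂ 0 / 2 ^ g₂ 1 ≤ 2 ^ X * (2 ^ g₀ 0 / 2 ^ g₀ 1) := two_div (by omega)
        calc (2 : ℝ) ^ g₂ 0 / 2 ^ g₂ 1 * β / 2 ^ g₀ 0 ≤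
              2 ^ X * (2 ^ g₀ 0 / 2 ^ g₀ 1) * β / 2 ^ g₀ 0 := by
              refine div_le_div_of_nonneg_right (mul_le_mul_of_nonneg_right b3 hβ0) (by positivity)
          _ = 2 ^ X * (β / 2 ^ g₀ 1) := by field_simp
          _ = _ := by rw [hβ1, hS]
      have b4 : (2 : ℝ) ^ (33 * (X + t)) * (2 ^ (g₀ 0 + W) / 2 ^ (g₀ 2 + Γ) +
          2 ^ g₂ 0 / 2 ^ g₂ 1 * β) / 2 ^ g₀ 0 = 2 ^ (33 * (X + t)) *
          (2 ^ (g₀ 0 + W) / 2 ^ (g₀ 2 + Γ) / 2 ^ g₀ 0 + 2 ^ g₂ 0 / 2 ^ g₂ 1 * β / 2 ^ g₀ 0) := by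
        ring
      rw [b4]
      refine mul_le_mul_of_nonneg_left ?_ (by positivity)
      have b5 : (1 : ℝ) ≤ 2 ^ X := one_le_pow₀ (by norm_num)
      have b6 := mul_le_mul_of_nonneg_right b5 hS0
      rw [pow_succ]
      linarith
    have a2 : |ψ (ptr F J ω) 1 (some (c 0)) - mu F c G₂ ω| ≤
        2 ^ (2 * X + t + k + 4) * (2 ^ g₀ 0 / 2 ^ g₀ 1) := by
      have b1 : |ψ (ptr F J ω) 1 (some (c 0)) - mu F c G₂ ω| ≤
          2 ^ k * (2 ^ g₀ 0 / 2 ^ g₀ 1) + 2 * (2 ^ X * 2 ^ W / 2 ^ g₀ 1 +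
            2 ^ X * 2 ^ W₂ / 2 ^ g₂ 1) * (2 ^ g₀ 0 * 2 ^ t / 2 ^ W) := by
        have e : ψ (ptr F J ω) 1 (some (c 0)) - mu F c G₂ ω =
            -(mu F c G₀ ω - ψ (ptr F J ω) 1 (some (c 0))) + (mu F c G₀ ω - mu F c G₂ ω) := by ring
        rw [e]
        refine (abs_add_le _ _).trans (add_le_add ?_ r2)
        rw [abs_neg]
        exact k0
      have b2 : (2 : ℝ) ^ X * 2 ^ W₂ / 2 ^ g₂ 1 ≤ 2 ^ (2 * X) * (2 ^ W / 2 ^ g₀ 1) := by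
        rw [← pow_add]
        exact two_div (by omega)
      have b3 : (2 : ℝ) ^ X * 2 ^ W / 2 ^ g₀ 1 ≤ 2 ^ (2 * X) * (2 ^ W / 2 ^ g₀ 1) := by
        rw [← pow_add]
        exact two_div (by omega)
      refine b1.trans ?_
      obtain ⟨N, hN'⟩ : ∃ N : ℝ, N = 2 ^ g₀ 0 / 2 ^ g₀ 1 := ⟨_, rfl⟩
      have hN0 : 0 ≤ N := by rw [hN']; positivity
      have b4 : 2 * ((2 : ℝ) ^ X * 2 ^ W / 2 ^ g₀ 1 + 2 ^ X * 2 ^ W₂ / 2 ^ g₂ 1) *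
          (2 ^ g₀ 0 * 2 ^ t / 2 ^ W) ≤ 2 ^ (2 * X + t + 2) * N := by
        calc _ ≤ 2 * (2 ^ (2 * X) * (2 ^ W / 2 ^ g₀ 1) + 2 ^ (2 * X) * (2 ^ W / 2 ^ g₀ 1)) *
              (2 ^ g₀ 0 * 2 ^ t / 2 ^ W) := mul_le_mul_of_nonneg_right
                (mul_le_mul_of_nonneg_left (add_le_add b3 b2) (by norm_num)) (by positivity)
          _ = 4 * 2 ^ (2 * X) * 2 ^ t * N := by
              rw [hN']
              field_simp
              ring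
          _ = _ := by
              have e4 : (2 : ℝ) ^ (2 * X + t + 2) = 4 * 2 ^ (2 * X) * 2 ^ t := by
                rw [pow_add, pow_add]
                ring
              rw [e4]
      rw [← hN']
      calc 2 ^ k * N + _ ≤ 2 ^ (2 * X + t + k + 2) * N + 2 ^ (2 * X + t + k + 2) * N := by
            refine add_le_add (mul_le_mul_of_nonneg_right (pow_le_pow_right₀ (by norm_num)
              (by omega)) hN0) (b4.trans (mul_le_mul_of_nonneg_right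
              (pow_le_pow_right₀ (by norm_num) (by omega)) hN0))
        _ = 2 ^ (2 * X + t + k + 3) * N := by
            rw [pow_succ 2 (2 * X + t + k + 2)]
            ring
        _ ≤ _ := mul_le_mul_of_nonneg_right (pow_le_pow_right₀ (by norm_num) (by omega)) hN0
    have a3 : |ψ (ptr F J ω) 1 (some (c 0)) - mu F c G₂ ω| * β / 2 ^ g₀ 0 ≤
        2 ^ (2 * X + t + k + 4) * S := by
      calc _ ≤ 2 ^ (2 * X + t + k + 4) * (2 ^ g₀ 0 / 2 ^ g₀ 1) * β / 2 ^ g₀ 0 :=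
            div_le_div_of_nonneg_right (mul_le_mul_of_nonneg_right a2 hβ0) (by positivity)
        _ = 2 ^ (2 * X + t + k + 4) * (β / 2 ^ g₀ 1) := by field_simp
        _ = _ := by rw [hβ1, hS]
    rw [add_div, ← hS]
    calc _ ≤ 2 ^ (33 * (X + t)) * (2 ^ (X + 1) * S) + 2 ^ (2 * X + t + k + 4) * S + S :=
          add_le_add (add_le_add a1 a3) le_rfl
      _ ≤ 2 ^ (38 * (X + t + k)) * S + 2 ^ (38 * (X + t + k)) * S +
          2 ^ (38 * (X + t + k)) * S := by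
          refine add_le_add (add_le_add ?_ ?_) ?_
          · rw [← mul_assoc, ← pow_add]
            exact mul_le_mul_of_nonneg_right (pow_le_pow_right₀ (by norm_num) (by omega)) hS0
          · exact mul_le_mul_of_nonneg_right (pow_le_pow_right₀ (by norm_num) (by omega)) hS0
          · exact le_mul_of_one_le_left hS0 (one_le_pow₀ (by norm_num))
      _ ≤ 4 * (2 ^ (38 * (X + t + k)) * S) := by
          have : 0 ≤ 2 ^ (38 * (X + t + k)) * S := by positivity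
          linarith
      _ = 2 ^ (2 + 38 * (X + t + k)) * S := by
          rw [pow_add]
          ring
      _ ≤ _ := mul_le_mul_of_nonneg_right (pow_le_pow_right₀ (by norm_num) (by omega)) hS0

end Pool.C2T
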