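import Pool.Agent.H54.C2T.End0
import Pool.Agent.H60.D2.Flt

/-!
# Facts about the windows

`rel_be`: the curvature of the ball chart in the direction of the second coordinate. `v1p_two`: the
hypothesis `V1P` of the frame. `hsh_rad`: the shift hypothesis from a chain of larger radius.
`mu_two`: the slopes of the second coordinate in two windows. `xn_sep`: the separation of the
velocities. `hs_two`: the second derivative in the directions of the plane.
-/

set_option autoImplicit false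

namespace Pool.C2T

open Finset Real MvPolynomial
open Pool.Agent.H49.Ent Pool.Agent.H32.Dense Pool.STK Pool.KA Pool.KSAT Pool.K2S Pool.PB Pool.S6C
open Pool.GEN Pool.CHT Pool.CHX Pool.ISO Pool.D2R Pool.D2Z Pool.D2F Pool.RCV
open Pool.PB.Trl (rt rt_mem t_rt)

variable {m J : ℕ}

/-- **The curvature of the ball chart** in the direction of the second coordinate. -/
theorem rel_be {F : Fam m J} {c : ℕ → Fin m} {w a v p v' : ℕ} {g₀ gT : ℕ → ℕ} {U Z β : ℝ}
    {B : F.Ω → Prop} {G₀ : PtT F → ℕ → MvPolynomial (Option (Fin m)) ℝ}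
    {H₀ : LnT F → ℕ → MvPolynomial (Option (Fin m)) ℝ}
    {T : PtT F → ℕ → MvPolynomial (Option (Fin m)) ℝ}
    {TH : LnT F → ℕ → MvPolynomial (Option (Fin m)) ℝ}
    {Ht : LnT F → MvPolynomial (Option (Fin m)) ℝ} (hc : Set.InjOn c (Set.Iio 3))
    (h : ROut1 F c 2 w a v g₀ gT p U B G₀ H₀ T TH Ht) (hdG : ∀ y l, DepC c l (G₀ y l))
    (hdH : ∀ s l, DepC c l (H₀ s l)) (ha : a ≤ J) (hU : 1 ≤ U) (hv : v ≤ v')
    (hg : ∀ l < 2, gT l ≤ g₀ l + v')
    (hT : ∀ s, ∀ l < 2, TH s l = Hno (c l) (fun s => H₀ s l) s)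
    (hsh : ∀ ω ν, B ω → B ν → ptr F J ω = ptr F J ν →
      |hs (G₀ (ptr F J ω) 2) (bt F ν) (bd F ν) (ex (c 1)) -
        hs (G₀ (ptr F J ω) 2) (bt F ω) (bd F ν) (ex (c 1))| ≤ Z * (2 ^ g₀ 1 * (2 ^ a / 2 ^ g₀ 2)))
    (hZ : 0 ≤ Z) {ω ν : F.Ω} (hω : B ω) (hν : B ν) (hpt : ptr F J ω = ptr F J ν)
    (hb : |hs (Ht (slam F w ν)) (bt F ν) (bd F ν) (ex (c 1))| ≤ β) :
    |hs (G₀ (ptr F J ω) 2) (bt F ω) (bd F ν) (ex (c 1))| ≤
      β + (4 * U ^ 3 + 3 * U ^ 2 + Z) * (2 ^ g₀ 1 * (2 ^ (a + v') / 2 ^ p + 2 ^ a / 2 ^ g₀ 2)) := by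
  have hU0 : 0 ≤ U := by linarith
  have hTd : ∀ s, ∀ l < 2, DepC c l (TH s l) := fun s l hl => by
    rw [hT s l hl]
    exact depC_Hno (c l) (fun s => H₀ s l) s (hdH s l)
  have hn1 : nrm c (G₀ (ptr F J ν)) g₀ a 2 (bt F ν) (bd F ν) ≤ 3 * U * 2 ^ a := by
    have := nrm_bd h hν
    push_cast at this
    have h2 : (0 : ℝ) < 2 ^ a := by positivity
    nlinarith
  have k1 := rel2 h ha hν (ex (c 1)) 0
  rw [dd_zr, dd_zr, add_zero, add_zero, nrz_ex (hdG _) _ _ (ex_none _) (ex_ne (c01 hc)),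
    nrm_ex hc (hdG _), add_zero] at k1
  have k2 : nrz c (TH (slam F a ν)) gT (a + v) 2 (bt F ν) (bd F ν) (ex (c 1)) 0 = 0 := by
    unfold nrz
    rw [Finset.sum_eq_zero (fun l hl => ?_), Pi.zero_apply, abs_zero, mul_zero, add_zero]
    have hl' := mem_range.1 hl
    rw [dd_zr, hs_ex (hTd _ l hl') hl' _ _ (ex_none _) (ex_ne (c01 hc)), Pi.zero_apply,
      sub_zero, sub_zero, abs_zero, mul_zero]
  have k3 := nrm_thin h hU0 hv hg hT hν (ex (c 1))
  rw [nrm_ex hc (hdG _)] at k3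
  rw [k2, add_zero] at k1
  obtain ⟨P1, hP1⟩ : ∃ P1 : ℝ, P1 = 2 ^ (a + v') / 2 ^ p := ⟨_, rfl⟩
  obtain ⟨P2, hP2⟩ : ∃ P2 : ℝ, P2 = 2 ^ a / 2 ^ g₀ 2 := ⟨_, rfl⟩
  have hP10 : 0 ≤ P1 := by rw [hP1]; positivity
  have hP20 : 0 ≤ P2 := by rw [hP2]; positivity
  rw [← hP1, ← hP2]
  have k4 : U / 2 ^ p * (2 ^ a * nrm c (TH (slam F a ν)) gT (a + v) 2 (bt F ν) (ex (c 1))) ≤
      4 * U ^ 3 * (2 ^ g₀ 1 * P1) := by
    have e1 : (1 + U) ^ 2 ≤ 4 * U ^ 2 := by nlinarith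
    have e2 : nrm c (TH (slam F a ν)) gT (a + v) 2 (bt F ν) (ex (c 1)) ≤
        4 * U ^ 2 * 2 ^ v' * 2 ^ g₀ 1 :=
      k3.trans (mul_le_mul_of_nonneg_right (mul_le_mul_of_nonneg_right e1 (by positivity))
        (by positivity))
    calc _ ≤ U / 2 ^ p * (2 ^ a * (4 * U ^ 2 * 2 ^ v' * 2 ^ g₀ 1)) :=
          mul_le_mul_of_nonneg_left (mul_le_mul_of_nonneg_left e2 (by positivity)) (by positivity)
      _ = _ := by rw [hP1, pow_add]; ring
  have k5 : U / 2 ^ g₀ 2 * (nrm c (G₀ (ptr F J ν)) g₀ a 2 (bt F ν) (bd F ν) * 2 ^ g₀ 1) ≤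
      3 * U ^ 2 * (2 ^ g₀ 1 * P2) := by
    calc _ ≤ U / 2 ^ g₀ 2 * (3 * U * 2 ^ a * 2 ^ g₀ 1) :=
          mul_le_mul_of_nonneg_left (mul_le_mul_of_nonneg_right hn1 (by positivity))
            (by positivity)
      _ = _ := by rw [hP2]; ring
  have k6 := hsh ω ν hω hν hpt
  rw [← hP2] at k6
  have k7 := k1.trans (add_le_add k4 k5)
  rw [← hpt] at k7
  have e : hs (G₀ (ptr F J ω) 2) (bt F ω) (bd F ν) (ex (c 1)) =
      hs (Ht (slam F w ν)) (bt F ν) (bd F ν) (ex (c 1)) -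
      (hs (Ht (slam F w ν)) (bt F ν) (bd F ν) (ex (c 1)) -
        hs (G₀ (ptr F J ω) 2) (bt F ν) (bd F ν) (ex (c 1))) -
      (hs (G₀ (ptr F J ω) 2) (bt F ν) (bd F ν) (ex (c 1)) -
        hs (G₀ (ptr F J ω) 2) (bt F ω) (bd F ν) (ex (c 1))) := by ring
  rw [e]
  refine ((abs_sub _ _).trans (add_le_add ((abs_sub _ _).trans (add_le_add hb k7)) k6)).trans ?_
  have f0 : (0 : ℝ) < 2 ^ g₀ 1 := by positivity
  have f1 : 0 ≤ U ^ 2 * (2 ^ g₀ 1 * P1) := by positivity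
  have f2 : 0 ≤ U ^ 3 * (2 ^ g₀ 1 * P2) := by positivity
  have f3 : 0 ≤ Z * (2 ^ g₀ 1 * P1) := by positivity
  nlinarith

/-- The norm of a direction of the second coordinate. -/
theorem nrm_R {c : ℕ → Fin m} {ψ : ℕ → MvPolynomial (Option (Fin m)) ℝ}
    (hdep : ∀ l, DepC c l (ψ l)) {g : ℕ → ℕ} {a : ℕ} (x : Option (Fin m) → ℝ)
    {R : Option (Fin m) → ℝ} (h0 : R none = 0) (h1 : R (some (c 0)) = 0) :
    nrm c ψ g a 2 x R = 2 ^ g 1 * |R (some (c 1))| := by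
  unfold nrm
  rw [Finset.sum_range_succ, Finset.sum_range_one, dd_nul (hdep 0), dd_one (hdep 1), h0, h1]
  simp

/-- **The hypothesis of the frame of the target.** -/
theorem v1p_two {F : Fam m J} {c : ℕ → Fin m} {a : ℕ} {g : ℕ → ℕ} {B : F.Ω → Prop}
    {G : PtT F → ℕ → MvPolynomial (Option (Fin m)) ℝ} {K : ℝ} (hc : Set.InjOn c (Set.Iio 3))
    (hdep : ∀ y l, DepC c l (G y l))
    (h : ∀ ω ν, B ω → B ν → ptr F J ω = ptr F J ν →
      |hs (G (ptr F J ω) 2) (bt F ω) (bd F ν) (ex (c 1))| ≤ K * (2 ^ a / 2 ^ g 2) * 2 ^ g 1) :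
    V1P F c a g B G K 2 := by
  intro ω ν hω hν hpt R h0 h1
  rw [nrm_R (hdep _) _ h0 h1]
  have e1 : hs (G (ptr F J ω) 2) (bt F ω) (bd F ν) R =
      hs (G (ptr F J ω) 2) (bt F ω) (bd F ν) (R (some (c 1)) • ex (c 1)) := by
    refine hs_dp (hdep _ 2) rfl (fun _ _ => rfl) rfl (fun _ _ => rfl) ?_ fun l hl => ?_
    · rw [h0, Pi.smul_apply, ex_none, smul_zero]
    · have : l = 0 ∨ l = 1 := by omega
      rcases this with rfl | rfl
      · rw [h1, Pi.smul_apply, ex_ne (c01 hc), smul_zero]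
      · rw [Pi.smul_apply, ex_self, smul_eq_mul, mul_one]
  rw [e1, hs_smul_right, abs_mul]
  calc |R (some (c 1))| * |hs (G (ptr F J ω) 2) (bt F ω) (bd F ν) (ex (c 1))| ≤
        |R (some (c 1))| * (K * (2 ^ a / 2 ^ g 2) * 2 ^ g 1) :=
        mul_le_mul_of_nonneg_left (h ω ν hω hν hpt) (abs_nonneg _)
    _ = _ := by ring

/-- **The second derivative in a direction without the time.** -/
theorem hs_two {c : ℕ → Fin m} {P : MvPolynomial (Option (Fin m)) ℝ}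
    (hc : Set.InjOn c (Set.Iio 3)) (h : DepC c 2 P) (x W : Option (Fin m) → ℝ) (μ : ℝ)
    {V : Option (Fin m) → ℝ} (hV : V none = 0) : hs P x W V =
      V (some (c 0)) * hs P x W (dx c μ) +
        (V (some (c 1)) - μ * V (some (c 0))) * hs P x W (ex (c 1)) := by
  have e1 : hs P x W V = hs P x W (V (some (c 0)) • dx c μ +
      (V (some (c 1)) - μ * V (some (c 0))) • ex (c 1)) := by
    refine hs_dp h rfl (fun _ _ => rfl) rfl (fun _ _ => rfl) ?_ fun l hl => ?_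
    · rw [hV, Pi.add_apply, Pi.smul_apply, Pi.smul_apply, ex_none, dx_none, smul_zero, smul_zero,
        add_zero]
    · have : l = 0 ∨ l = 1 := by omega
      rcases this with rfl | rfl
      · rw [Pi.add_apply, Pi.smul_apply, Pi.smul_apply, ex_ne (c01 hc), dx_zero hc, smul_zero,
          smul_eq_mul, mul_one, add_zero]
      · rw [Pi.add_apply, Pi.smul_apply, Pi.smul_apply, ex_self, dx_one hc, smul_eq_mul,
          smul_eq_mul]
        ring
  rw [e1, hs_add_right, hs_smul_right, hs_smul_right]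

/-- The change of the direction. -/
theorem hs_dx {P : MvPolynomial (Option (Fin m)) ℝ} (c : ℕ → Fin m) (x W : Option (Fin m) → ℝ)
    (μ μ' : ℝ) : hs P x W (dx c μ') = hs P x W (dx c μ) + (μ' - μ) * hs P x W (ex (c 1)) := by
  unfold dx
  rw [hs_add_right, hs_add_right, hs_smul_right, hs_smul_right]
  ring

/-- **The separation of the velocities.** -/
theorem xn_sep {F : Fam m J} {c : ℕ → Fin m} {a : ℕ} {g₀ : ℕ → ℕ}
    {ψ : PtT F → ℕ → Option (Fin m) → ℝ} (hcv : ∀ y, CvC c 0 (ψ y 0)) {ν ν' : F.Ω}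
    (hpt : ptr F J ν = ptr F J ν') :
    |Xn F c g₀ a ψ ν 1 - Xn F c g₀ a ψ ν' 1| =
      2 ^ g₀ 0 / 2 ^ a * |bd F ν (some (c 0)) - bd F ν' (some (c 0))| := by
  have e1 : ∀ ν : F.Ω, Xn F c g₀ a ψ ν 1 = 2 ^ g₀ 0 * (((1 / 2 ^ a : ℝ) • bd F ν) (some (c 0)) -
      cv (ψ (ptr F J ν) 0) ((1 / 2 ^ a : ℝ) • bd F ν)) := fun _ => rfl
  have e2 : cv (ψ (ptr F J ν) 0) ((1 / 2 ^ a : ℝ) • bd F ν) =
      cv (ψ (ptr F J ν') 0) ((1 / 2 ^ a : ℝ) • bd F ν') := by
    rw [hpt]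
    exact cv_congr (hcv _) rfl fun j hj => absurd hj (Nat.not_lt_zero j)
  rw [e1, e1, e2, ← mul_sub, sub_sub_sub_cancel_right, Pi.smul_apply, Pi.smul_apply,
    smul_eq_mul, smul_eq_mul, ← mul_sub, abs_mul, abs_mul, abs_of_pos
      (by positivity : (0 : ℝ) < 2 ^ g₀ 0), abs_of_pos (by positivity : (0 : ℝ) < 1 / 2 ^ a)]
  ring

/-- **The slopes of the second coordinate** in two windows. -/
theorem mu_two {c : ℕ → Fin m} {P P' : MvPolynomial (Option (Fin m)) ℝ} (h : DepC c 1 P)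
    (h' : DepC c 1 P') {x E E' : Option (Fin m) → ℝ} (hE : E none = 1) (hE' : E' none = 1)
    {M M' d : ℝ} (h1 : |E (some (c 1)) - dd P x E| ≤ M) (h2 : |E' (some (c 1)) - dd P x E'| ≤ M)
    (h3 : |E (some (c 1)) - dd P' x E| ≤ M') (h4 : |E' (some (c 1)) - dd P' x E'| ≤ M')
    (hd : 0 < d) (h5 : d ≤ |E' (some (c 0)) - E (some (c 0))|) :
    |eval x (pderiv (some (c 0)) P) - eval x (pderiv (some (c 0)) P')| ≤ 2 * (M + M') / d := by
  rw [dd_one h, hE, mul_one] at h1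
  rw [dd_one h, hE', mul_one] at h2
  rw [dd_one h', hE, mul_one] at h3
  rw [dd_one h', hE', mul_one] at h4
  rw [le_div_iff₀ hd]
  refine le_trans (mul_le_mul_of_nonneg_left h5 (abs_nonneg _)) ?_
  rw [← abs_mul]
  have e : (eval x (pderiv (some (c 0)) P) - eval x (pderiv (some (c 0)) P')) *
      (E' (some (c 0)) - E (some (c 0))) =
      (E (some (c 1)) - (eval x (pderiv none P) + eval x (pderiv (some (c 0)) P) *
        E (some (c 0)))) - (E' (some (c 1)) - (eval x (pderiv none P) +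
        eval x (pderiv (some (c 0)) P) * E' (some (c 0)))) -
      ((E (some (c 1)) - (eval x (pderiv none P') + eval x (pderiv (some (c 0)) P') *
        E (some (c 0)))) - (E' (some (c 1)) - (eval x (pderiv none P') +
        eval x (pderiv (some (c 0)) P') * E' (some (c 0))))) := by ring
  rw [e]
  rw [abs_le] at h1 h2 h3 h4 ⊢
  constructor <;> linarith [h1.1, h1.2, h2.1, h2.2, h3.1, h3.2, h4.1, h4.2]

/-- The norm of the velocity of another line through the point, at a larger radius. -/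
theorem nrm_vel {c : ℕ → Fin m} {ψ : ℕ → MvPolynomial (Option (Fin m)) ℝ} {g₀ g : ℕ → ℕ}
    {a z X : ℕ} {U : ℝ} {x E : Option (Fin m) → ℝ} (hE : E none = 1) (hU : 1 ≤ U)
    (hg : ∀ l < 2, g l ≤ g₀ l + z + X)
    (hv : ∀ l < 2, |E (some (c l)) - dd (ψ l) x E| ≤ U * 2 ^ a / 2 ^ g₀ l) :
    nrm c ψ g (a + z) 2 x E ≤ 3 * U * 2 ^ X * 2 ^ (a + z) := by
  have h1 : ∀ l < 2, (2 : ℝ) ^ g l * |E (some (c l)) - dd (ψ l) x E| ≤ U * 2 ^ X * 2 ^ (a + z) := by
    intro l hl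
    calc (2 : ℝ) ^ g l * |E (some (c l)) - dd (ψ l) x E| ≤
          2 ^ (g₀ l + z + X) * (U * 2 ^ a / 2 ^ g₀ l) :=
          mul_le_mul (pow_le_pow_right₀ (by norm_num) (hg l hl)) (hv l hl) (abs_nonneg _)
            (by positivity)
      _ = _ := by
        rw [pow_add, pow_add, pow_add]
        field_simp
  unfold nrm
  rw [Finset.sum_range_succ, Finset.sum_range_one, hE, abs_one, mul_one]
  have h2 := h1 0 (by norm_num)
  have h3 := h1 1 (by norm_num)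
  have h4 : (1 : ℝ) * 2 ^ (a + z) ≤ U * 2 ^ X * 2 ^ (a + z) := by
    refine mul_le_mul_of_nonneg_right ?_ (by positivity)
    exact one_le_mul_of_one_le_of_one_le hU (one_le_pow₀ (by norm_num))
  linarith

/-- **The shift hypothesis**, from a chain of larger radius. -/
theorem hsh_rad (m D : ℕ) : ∃ C : ℕ, ∀ {J : ℕ} {F : Fam m J} {c : ℕ → Fin m} {a w e s z X : ℕ}
    {g g₀ gc : ℕ → ℕ} {U : ℝ} {B : F.Ω → Prop} {G : PtT F → ℕ → MvPolynomial (Option (Fin m)) ℝ}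
    {H H' : LnT F → ℕ → MvPolynomial (Option (Fin m)) ℝ} {a' : ℕ}, Set.InjOn c (Set.Iio 3) →
    ChOK F c 3 (fun _ => D) (a + z) w e (fun l => g l + z) B
      (fun y l => Gno (c l) J J (fun y => G y l) y) H →
    ChOK F c 3 (fun _ => D) a' w e gc B (fun y l => Gno (c l) J J (fun y => G y l) y) H' →
    (∀ l < 3, g l + z + 1 ≤ gc l) → (∀ l < 3, g l ≤ g₀ l + X) → g₀ 2 ≤ g 2 + X →
    1 ≤ U → (∀ ω ν, B ω → B ν → ptr F J ω = ptr F J ν → ∀ l < 2,
      |bd F ν (some (c l)) - dd (G (ptr F J ω) l) (bt F ω) (bd F ν)| ≤ U * 2 ^ a / 2 ^ g₀ l) →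
    (∀ l < 3, e + g l + z + s + C ≤ J) → z ≤ s → ∀ ω ν, B ω → B ν → ptr F J ω = ptr F J ν →
      |hs (G (ptr F J ω) 2) (bt F ν) (bd F ν) (ex (c 1)) -
        hs (G (ptr F J ω) 2) (bt F ω) (bd F ν) (ex (c 1))| ≤
        3 * 2 ^ C * U * 2 ^ (3 * X) * (2 ^ g₀ 1 * (2 ^ a / 2 ^ g₀ 2)) := by
  obtain ⟨C₀, hsf⟩ := hs_shf m D
  refine ⟨C₀ + 2, ?_⟩
  intro J F c a w e s z X g g₀ gc U B G H H' a' hc hch htop hgc hgX hg2 hU hvel hJ hzs ω ν hω hν hpt
  obtain ⟨η, hη⟩ : ∃ η : Option (Fin m) → ℝ, η = fun o => bt F ν o - bt F ω o := ⟨_, rfl⟩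
  have hJJ : J - 1 + 1 = J ∨ J = 0 := by omega
  have hη1 : ∀ k, |η (some k)| ≤ 1 / 2 ^ (J - 1) := by
    intro k
    have h1 := hx_some F ω k
    have h2 := hx_some F ν k
    have h3 : hx F ν = hx F ω := by
      show bho J J (ptr F J ν) = bho J J (ptr F J ω)
      rw [hpt]
    rw [h3] at h2
    have e1 : η (some k) = (hx F ω (some k) - bt F ω (some k)) -
        (hx F ω (some k) - bt F ν (some k)) := by rw [hη]; ring
    rw [e1]
    refine ((abs_sub _ _).trans (add_le_add h1 h2)).trans ?_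
    rw [← add_div, div_le_div_iff₀ (by positivity) (by positivity)]
    rcases hJJ with h | h
    · rw [← h]
      have : J - 1 + 1 - 1 = J - 1 := by omega
      rw [this, pow_succ]
      exact le_of_eq (by ring)
    · exfalso
      have := hJ 0 (by norm_num)
      omega
  have e0 : (fun o => bt F ω o + η o) = bt F ν := by
    rw [hη]
    funext o
    ring
  have h1 := hsf (c := c) (ψ := fun l => Gno (c l) J J (fun y => G y l) (ptr F J ω))
    (g := fun l => g l + z) (a := a + z) (E := e) (s := s) (J := J - 1) (x := bt F ω) (η := η)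
    (V := bd F ν) (e := ex (c 1)) hc (fun l => hch.degG _ l) (fun l => hch.depG _ l)
    (fun l hl b hb j hj => hch.lip ω hω l hl b hb j hj) (fun l hl => by
      have := hJ l hl
      show e + (g l + z) + s + C₀ ≤ J - 1
      omega) (by
      rw [hη]
      show bt F ν none - bt F ω none = 0
      rw [← hx_none F ν, ← hx_none F ω]
      have h3 : hx F ν = hx F ω := by
        show bho J J (ptr F J ν) = bho J J (ptr F J ω)
        rw [hpt]
      rw [h3, sub_self]) (fun l _ => hη1 (c l)) (fun l hl => by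
      refine (htop.pos ω hω l hl).trans (one_div_le_one_div_of_le (by positivity)
        (pow_le_pow_right₀ (by norm_num) ?_))
      exact hgc l hl) (ex_none _) (ex_ne (c01 hc))
  rw [e0, hs_Gno, hs_Gno] at h1
  refine h1.trans ?_
  have h2 : nrm c (fun l => Gno (c l) J J (fun y => G y l) (ptr F J ω)) (fun l => g l + z)
      (a + z) 2 (bt F ω) (ex (c 1)) = 2 ^ (g 1 + z) :=
    nrm_ex hc (fun l => hch.depG _ l) _
  have h3 : nrm c (fun l => Gno (c l) J J (fun y => G y l) (ptr F J ω)) (fun l => g l + z)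
      (a + z) 2 (bt F ω) (bd F ν) ≤ 3 * U * 2 ^ X * 2 ^ (a + z) := by
    refine nrm_vel (g₀ := g₀) rfl hU (fun l hl => by
      have := hgX l (by omega)
      show g l + z ≤ _
      omega) fun l hl => ?_
    rw [dd_Gno]
    exact hvel ω ν hω hν hpt l hl
  rw [h2]
  calc _ ≤ 2 ^ C₀ / 2 ^ (g 2 + z + s) * (3 * U * 2 ^ X * 2 ^ (a + z) * 2 ^ (g 1 + z)) :=
        mul_le_mul_of_nonneg_left (mul_le_mul_of_nonneg_right h3 (by positivity)) (by positivity)
    _ = 3 * 2 ^ C₀ * U * 2 ^ X * (2 ^ g 1 * 2 ^ z * 2 ^ a / (2 ^ g 2 * 2 ^ s)) := by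
        rw [pow_add, pow_add, pow_add, pow_add]
        field_simp
    _ ≤ 3 * 2 ^ (C₀ + 2) * U * 2 ^ X * (2 ^ (2 * X) * (2 ^ g₀ 1 * (2 ^ a / 2 ^ g₀ 2))) := by
        refine mul_le_mul (mul_le_mul_of_nonneg_right (mul_le_mul_of_nonneg_right
          (mul_le_mul_of_nonneg_left (pow_le_pow_right₀ (by norm_num) (by omega))
            (by norm_num)) (by positivity)) (by positivity)) ?_ (by positivity) (by positivity)
        rw [div_le_iff₀ (by positivity)]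
        have e1 : (2 : ℝ) ^ (2 * X) * (2 ^ g₀ 1 * (2 ^ a / 2 ^ g₀ 2)) * (2 ^ g 2 * 2 ^ s) =
            2 ^ (2 * X + g₀ 1 + a + g 2 + s) / 2 ^ g₀ 2 := by
          simp only [pow_add]
          field_simp
        rw [e1, le_div_iff₀ (by positivity), ← pow_add, ← pow_add, ← pow_add]
        have := hgX 1 (by norm_num)
        exact pow_le_pow_right₀ (by norm_num) (by omega)
    _ = _ := by
        rw [show 3 * X = X + 2 * X by ring, pow_add 2 X (2 * X)]
        ring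

end Pool.C2T
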