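import Pool.Agent.H54.C2T.Shf
import Pool.Agent.H60.D2.Trf
import Pool.Agent.H60.D2.Flt
import Pool.Agent.H60.D2.Crw

/-!
# The flat end in a class

`flat_end`: over `Wins`, an event in which the curvature in the direction of the second coordinate is
smaller than natural is small.
-/

set_option autoImplicit false

namespace Pool.C2T

open Finset Real MvPolynomial
open Pool.Agent.H49.Ent Pool.Agent.H32.Dense Pool.STK Pool.KA Pool.KSAT Pool.K2S Pool.PB Pool.S6C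
open Pool.GEN Pool.CHT Pool.CHX Pool.ISO Pool.D2R Pool.D2Z Pool.D2F Pool.RCV
open Pool.LBT (LSys Slo Tri ThrOf fl_le')
open Pool.LEV (Law)
open Pool.PB.Trl (rt rt_mem t_rt)
open Pool.FLF (Fam.sub)

variable {m : ℕ}

/-- The covector of the row label at the rounded point. -/
noncomputable def gmt {J : ℕ} {F : Fam m J} (Gt : PtT F → MvPolynomial (Option (Fin m)) ℝ)
    (y : PtT F) (l : ℕ) : Option (Fin m) → ℝ :=
  if l = 2 then grd (Gt y) (bho J J y) else 0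

theorem gmt_two {J : ℕ} {F : Fam m J} (Gt : PtT F → MvPolynomial (Option (Fin m)) ℝ)
    (y : PtT F) : gmt Gt y 2 = grd (Gt y) (bho J J y) := by
  unfold gmt
  rw [if_pos rfl]

theorem gmt_cv {J : ℕ} {F : Fam m J} {c : ℕ → Fin m}
    {Gt : PtT F → MvPolynomial (Option (Fin m)) ℝ} (h : ∀ y, DepC c 2 (Gt y)) (y : PtT F) (l : ℕ) :
    CvC c l (gmt Gt y l) := by
  unfold gmt
  split_ifs with h1
  · subst h1
    exact cvc_grd (h y) _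
  · intro k _
    rfl

/-- The chart of the window and its frame. -/
theorem nc_psi {J : ℕ} {F : Fam m J} {c : ℕ → Fin m} {g₀ : ℕ → ℕ} {W n L : ℕ}
    {G₀ : PtT F → ℕ → MvPolynomial (Option (Fin m)) ℝ} {ψ : PtT F → ℕ → Option (Fin m) → ℝ}
    {ω : F.Ω} (hn : n ≤ 3) (h1 : Nc c g₀ W n 1 (fun j => grd (G₀ (ptr F J ω) j) (bt F ω))
      (gpt F G₀ (ptr F J ω))) (h2 : Nc c g₀ W n (2 ^ L) (ψ (ptr F J ω)) (gpt F G₀ (ptr F J ω))) :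
    Nc c g₀ W n (2 ^ (4 * L + 7)) (ψ (ptr F J ω)) (fun j => grd (G₀ (ptr F J ω) j) (bt F ω)) := by
  have h3 : Nc c g₀ W n (2 ^ 0) (fun j => grd (G₀ (ptr F J ω) j) (bt F ω))
      (gpt F G₀ (ptr F J ω)) := by rwa [pow_zero]
  refine (h2.trans2 h3.symm2).mono (pow_le_pow_right₀ (by norm_num) ?_)
  have : (L + 1) * n ≤ (L + 1) * 3 := Nat.mul_le_mul_left _ hn
  have h4 : (0 + 1) * n = n := by ring
  omega

/-- **The flat end.** -/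
theorem flat_end (m D : ℕ) (hD : 1 ≤ D) : ∃ C : ℕ, 1 ≤ C ∧ ∀ {S : PCl m}
    {P : List (Fin m) × Fin m → ℝ → ℝ → ℝ} {θ : ℝ} {c : ℕ → Fin m} {C₀ Eb ηm : ℝ}
    {o ε p' η σ : ℕ → ℝ} {lv be : ℕ → ℕ → ℝ} {Dr : ℕ} {w' : ℚ} {a' h e ε₁ κ₁ : ℝ},
    ThrOf (chsys m θ) S P → TmH S → Set.InjOn c (Set.Iio 3) → 0 ≤ w' → w' < 1 → e < θ * w' →
    0 < h → bet P c 0 w' w' + h ≤ 1 → bet P c 2 w' w' + h ≤ 1 → 0 < ε₁ → 0 < κ₁ →
    Bas S (fun J F A => ∀ (z : ℕ → ℕ → ℕ) (κ : ℝ) (b : ℕ → ℕ → ℝ)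
      (B : F.Ω → Prop) (gc gT g₀ : ℕ → ℕ → ℕ)
      (G : ℕ → PtT F → ℕ → MvPolynomial (Option (Fin m)) ℝ)
      (H : ℕ → LnT F → ℕ → MvPolynomial (Option (Fin m)) ℝ)
      (T : ℕ → PtT F → ℕ → MvPolynomial (Option (Fin m)) ℝ)
      (TH : ℕ → LnT F → ℕ → MvPolynomial (Option (Fin m)) ℝ)
      (Gt : ℕ → PtT F → MvPolynomial (Option (Fin m)) ℝ)
      (Ht : ℕ → LnT F → MvPolynomial (Option (Fin m)) ℝ),
      Wins F c 2 D Dr 2 0 (fun _ => True) C₀ a' Eb ηm o ε p' η σ lv be b κ z B gc gT g₀ G H T TH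
        Gt Ht → Sub B A → ∀ (W₁ W₂ X Γ α k s e₀ : ℕ) (g₁ g₂ : ℕ → ℕ)
      (G₁ G₂ : PtT F → ℕ → MvPolynomial (Option (Fin m)) ℝ) (B' : F.Ω → Prop), Sub B' B →
      Dat F c ⌊o 0 * J⌋₊ W₁ W₂ X Γ (g₀ 0) g₁ g₂ B' (G 0) G₁ G₂ (Gt 0) (Ht 0) →
      (∀ ω, B' ω → |hs (Ht 0 (slam F ⌊o 0 * J⌋₊ ω)) (bt F ω) (bd F ω) (ex (c 1))| ≤
        2 ^ (⌊o 0 * J⌋₊ + g₀ 0 1) / 2 ^ (g₀ 0 2 + α)) →
      1 ≤ X → X + 1 ≤ k → ε₁ * J ≤ k → C₀ * (η 0 * J) ≤ k → e₀ = ⌊(Eb + σ 0 + η 0) * J⌋₊ →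
      ⌊o 0 * J⌋₊ ≤ J → ⌊o 0 * J⌋₊ ≤ ⌊(w' : ℝ) * J⌋₊ → α ≤ Γ → g₂ 0 + g₀ 0 1 ≤ g₂ 1 + g₀ 0 0 + X →
      W₂ + g₀ 0 1 ≤ ⌊o 0 * J⌋₊ + g₂ 1 + X → C * (k + s + 1) ≤ α →
      e₀ + C * (k + s + 1) ≤ ⌊e * J⌋₊ → (∀ l < 3, e₀ + g₀ 0 l + C * (k + s + 1) ≤ J) →
      (∀ l < 2, C * (k + s + 1) ≤ g₀ 0 l) →
      ⌊(bet P c 0 w' w' + h) * J⌋₊ + ⌊o 0 * J⌋₊ ≤ g₀ 0 0 + s + ⌊(w' : ℝ) * J⌋₊ →
      ⌊(bet P c 2 w' w' + h) * J⌋₊ + ⌊o 0 * J⌋₊ ≤ g₀ 0 2 + s + ⌊(w' : ℝ) * J⌋₊ →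
      Pe F.p B' < κ₁ * Pe F.p A) := by
  obtain ⟨Cf, hCf, hfr⟩ := frm_cls m D 2 3 hD (by norm_num) (by norm_num)
  obtain ⟨C₁, hC₁, hgpt⟩ := gpt_near D 3
  refine ⟨2000 * Cf + C₁, by omega, ?_⟩
  intro S P θ c C₀ Eb ηm o ε p' η σ lv be Dr w' a' h e ε₁ κ₁ hP hT hc hw0 hw1 he hh hb0 hb2 hε₁ hκ₁
  have hCf0 : (0 : ℝ) < Cf := by exact_mod_cast hCf
  have hf := hfr hP hT c hc w' e h ε₁ κ₁ hw0 hw1 he hh hb0 hε₁ hκ₁
  obtain ⟨δ, hδ, hsep⟩ := Pool.SEP46.sep_cls hP c 2 w' e h hw0 hw1.le he hh hb0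
  have hfl := flat_cls hP hT c 2 D hc w' e h ε₁ (κ₁ / (2 * Cf)) hw0 hw1 he hh hb2 hε₁
    (by positivity)
  have hpos : Bas S (fun _ F A => 0 < Pe F.p A) := ⟨1, one_pos, 0, fun J _ F A hA =>
    hT.1 1 J F A hA⟩
  obtain ⟨J₁, hJ₁⟩ := exists_nat_ge (-Real.log (κ₁ / Cf) / δ)
  refine Bas.mono J₁ (((hf.and hsep).and hfl).and hpos) ?_
  rintro J hJ F A ⟨⟨⟨hf, hsep⟩, hfl⟩, hA0⟩
  intro z κ b B gc gT g₀ G H T TH Gt Ht Wn hBA W₁ W₂ X Γ α k s e₀ g₁ g₂ G₁ G₂ B' hB' hD' hβ hX hXk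
    hεk hCk he₀ hWJ hWw hαΓ n1 n2 hCα hCe hCg hCl hn0 hn2
  by_contra hcon
  rw [not_lt] at hcon
  have hp := Pe_nonneg F.isLaw
  have hJ0 : (0 : ℝ) ≤ J := Nat.cast_nonneg J
  have hB'0 : 0 < Pe F.p B' := (mul_pos hκ₁ hA0).trans_le hcon
  have hJ2 : Real.exp (-(δ * J)) ≤ κ₁ / Cf := by
    have h2 : (J₁ : ℝ) ≤ J := by exact_mod_cast hJ
    have h3 := hJ₁.trans h2
    rw [div_le_iff₀ hδ] at h3
    have h4 : -(δ * (J : ℝ)) ≤ Real.log (κ₁ / Cf) := by linarith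
    exact (Real.exp_le_exp.2 h4).trans (Real.exp_log (by positivity)).le
  obtain ⟨W, hW⟩ : ∃ W : ℕ, W = ⌊o 0 * J⌋₊ := ⟨_, rfl⟩
  obtain ⟨L, hL⟩ : ∃ L : ℕ, L = Cf * (k + s + 1) := ⟨_, rfl⟩
  obtain ⟨n₀, hn₀⟩ : ∃ n₀ : ℕ, n₀ = (2000 * Cf + C₁) * (k + s + 1) := ⟨_, rfl⟩
  have q1 : 2000 * L + C₁ ≤ n₀ := by
    rw [hn₀, hL, add_mul, mul_assoc]
    exact Nat.add_le_add_left (Nat.le_mul_of_pos_right _ (by omega)) _
  have q2 : 2000 * (k + s + 1) + C₁ ≤ n₀ := by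
    refine le_trans ?_ q1
    rw [hL]
    have := Nat.le_mul_of_pos_left (k + s + 1) (show 0 < Cf by omega)
    omega
  have q3 : k + s + 1 ≤ L := by
    rw [hL]
    exact Nat.le_mul_of_pos_left (k + s + 1) (show 0 < Cf by omega)
  rw [← hn₀] at hCα hCe hCg hCl
  rw [← hW] at hD' hβ hWJ hWw n2 hn0 hn2
  have hE0 := Wn.evs 0 (by norm_num)
  rw [← hW, ← he₀] at hE0
  have R00 := Wn.row 0 (by norm_num) 0 (by norm_num) le_rfl 0 (by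
    rw [Nat.cast_zero, zero_add]
    have := mul_le_mul_of_nonneg_right (Wn.hp' 0 (by norm_num)) hJ0
    linarith only [this]) (by
    rw [Nat.cast_zero, zero_add]
    exact Wn.hgr 0 (by norm_num))
  rw [← hW] at R00
  obtain ⟨U, hU⟩ : ∃ U : ℝ, U = 2 ^ ⌊C₀ * (η 0 * J)⌋₊ := ⟨_, rfl⟩
  rw [← hU] at R00
  have hU0 : 0 ≤ U := by rw [hU]; positivity
  have hUk : U ≤ 2 ^ k := by
    rw [hU]
    refine pow_le_pow_right₀ (by norm_num) ?_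
    have : (⌊C₀ * (η 0 * J)⌋₊ : ℝ) ≤ (k : ℕ) := (Nat.floor_le (mul_nonneg
      (zero_le_one.trans Wn.C1) (mul_nonneg (Wn.hη 0 (by norm_num)).1 hJ0))).trans hCk
    exact_mod_cast this
  have hB'A : Sub B' A := fun ω hω => hBA ω (hB' ω hω)
  have hball : ChOK F c 3 (fun _ => D) W W e₀ (g₀ 0) B' (G 0) (H 0) := hE0.ball.sub hB'
  have hcv : ∀ y l, CvC c l (gpt F (G 0) y l) := fun y l => cvc_grd (hE0.ball.depG y l) _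
  have hgp := hgpt hc le_rfl hball (fun l hl => by have := hCg l hl; omega)
  have h2k : (1 : ℝ) ≤ 2 ^ k := one_le_pow₀ (by norm_num)
  -- the hypothesis of the frame of the target
  have hv1 : V1P F c W (g₀ 0) B' (G 0) (2 ^ k) 2 := by
    refine v1p_two hc hE0.ball.depG fun ω ν hω hν hpt => ?_
    refine (hD'.be ω ν hω hν hpt _ (hβ ν hν)).trans ?_
    obtain ⟨R, hR⟩ : ∃ R : ℝ, R = 2 ^ W / 2 ^ g₀ 0 2 * 2 ^ g₀ 0 1 := ⟨_, rfl⟩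
    have hR0 : 0 ≤ R := by rw [hR]; positivity
    have e1 : (2 : ℝ) ^ (W + g₀ 0 1) / 2 ^ (g₀ 0 2 + α) ≤ R := by
      rw [hR, div_mul_eq_mul_div, ← pow_add]
      exact div_le_div_of_nonneg_left (by positivity) (by positivity)
        (pow_le_pow_right₀ (by norm_num) (by omega))
    calc _ ≤ R + 2 ^ X * R := add_le_add e1 (le_of_eq (by rw [hR]; ring))
      _ ≤ 2 ^ X * R + 2 ^ X * R := add_le_add (le_mul_of_one_le_left hR0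
          (one_le_pow₀ (by norm_num))) le_rfl
      _ = 2 ^ (X + 1) * R := by rw [pow_succ]; ring
      _ ≤ 2 ^ k * R := mul_le_mul_of_nonneg_right (pow_le_pow_right₀ (by norm_num) hXk) hR0
      _ = _ := by rw [hR]; ring
  obtain ⟨B₁, ψ, ψH, c1, c2, c3, c4, -⟩ := hf W W (⌊a' * J⌋₊ - W) e₀ k s L 0 (g₀ 0 0 + s) (g₀ 0)
    (gT 0) U (G 0) (H 0) (T 0) (TH 0) (Ht 0) (gpt F (G 0)) B' hWJ hWw hεk (by rw [← hL]; omega)
    (by rw [← hL]) (by rw [← hL]; have := hCg 0 (by norm_num); omega) le_rfl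
    (by have := hCg 0 (by norm_num); omega) (by omega) hB'A hcon hball (R00.sub hB') hU0 hUk
    (fun l h1 h2 => by
      have : l = 2 := by omega
      subst this
      exact hv1) hcv (fun ω hω => (hgp ω hω).mono h2k)
  rw [← hL] at c3 c4
  have hB₁A : Sub B₁ A := fun ω hω => hB'A ω (c1 ω hω)
  have hPB₁ : κ₁ / Cf * Pe F.p A ≤ Pe F.p B₁ := by
    rw [div_mul_eq_mul_div, div_le_iff₀ hCf0, mul_comm (Pe F.p B₁)]
    exact hcon.trans c2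
  obtain ⟨B₂, d1, d2, d3⟩ := hsep 3 W (e₀ + L) L s (s + 2 * L + 9) (g₀ 0 0 + s) (g₀ 0) ψ ψH
    (by norm_num) hWJ hWw (by omega) le_rfl (by have := hCg 0 (by norm_num); omega) le_rfl
    (by have := hCg 0 (by norm_num); omega) (by omega) B₁ hB₁A c3
    ((mul_le_mul_of_nonneg_right hJ2 hA0.le).trans hPB₁)
  -- the facts at the samples
  have hD1 := hD'.sub c1
  obtain ⟨t, ht⟩ : ∃ t : ℕ, t = s + 2 * L + 9 := ⟨_, rfl⟩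
  rw [← ht] at d3
  obtain ⟨kk, hkk⟩ : ∃ kk : ℕ, kk = 4 * L + 7 := ⟨_, rfl⟩
  choose ν f1 f2 f3 using d3
  have hdf := fun (ω : F.Ω) (hω : B₂ ω) => dat_flat (t := t) (k := kk) hD1 hc c3.dep (d1 ω hω)
    (f1 ω hω) (f2 ω hω) (f3 ω hω) (fun ν hν => hβ ν (c1 ν hν)) (by
      rw [hkk]
      exact nc_psi le_rfl (hgp ω (c1 ω (d1 ω hω))) (c4 ω (d1 ω hω))) hX hαΓ n1 n2
  obtain ⟨k₂, hk₂⟩ : ∃ k₂ : ℕ, k₂ = X + 3 * kk + 5 := ⟨_, rfl⟩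
  rw [← hk₂] at hdf
  have hend := hfl 3 W (e₀ + L) k₂ s (s + 2 * k₂ + 18) (g₀ 0 2 + s) (g₀ 0) ψ (gmt (Gt 0)) ψH (Ht 0)
    (2 ^ (40 * (X + t + kk)) / 2 ^ α) (by norm_num) hWJ hWw
    (hεk.trans (by exact_mod_cast (by omega : k ≤ k₂))) (by omega) (by omega)
    (fun j hj => by have := hCg j (by omega); omega) (fun l hl => by have := hCl l hl; omega)
    le_rfl (by have := hCg 2 (by norm_num); omega) (by omega) (by positivity) (by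
      rw [div_mul_eq_mul_div, div_le_one (by positivity), ← pow_add]
      exact pow_le_pow_right₀ (by norm_num) (by omega)) hE0.dH hE0.pH B₂
    (fun ω hω => hB₁A ω (d1 ω hω)) (frok_mono (frok_sub c3 d1) (by omega) le_rfl)
    (gmt_cv hE0.pG) (fun ω hω V => by
      rw [gmt_two, cv_subl]
      have := (hdf ω hω).1 V
      rwa [cv_subl] at this) (fun ω hω => by
      rw [gmt_two]
      exact (hdf ω hω).2.1) (fun ω hω V hV => by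
      rw [gmt_two]
      exact (hdf ω hω).2.2.1 V hV) (fun ω hω V hV => (hdf ω hω).2.2.2 V hV)
  have h5 : κ₁ / Cf * Pe F.p A ≤ 2 * Pe F.p B₂ := hPB₁.trans d2
  have h6 : κ₁ / (2 * Cf) * Pe F.p A = κ₁ / Cf * Pe F.p A / 2 := by
    field_simp
  rw [h6] at hend
  linarith only [h5, hend]

end Pool.C2T
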