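import Pool.Agent.H54.C2T.Fct

/-!
# The row label at the rounded point, in the flat case

`gt_row`: the gradient of the visible row label at the rounded point is near the gradient of the
closed row label at the exact point. `ht_vel`: the velocity of the target. `fl_near`, `fl_row`,
`fl_flat`: the hypotheses of `flat_cls`.
-/

set_option autoImplicit false

namespace Pool.C2T

open Finset Real MvPolynomial
open Pool.Agent.H49.Ent Pool.Agent.H32.Dense Pool.STK Pool.KA Pool.KSAT Pool.K2S Pool.PB Pool.S6C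
open Pool.GEN Pool.CHT Pool.CHX Pool.ISO Pool.D2R Pool.D2Z Pool.D2F Pool.RCV
open Pool.PB.Trl (rt rt_mem t_rt)

variable {m J : ℕ}

/-- The norm of the chain of the largest radius. -/
theorem nrm_top {F : Fam m J} {c : ℕ → Fin m} {G : PtT F → ℕ → MvPolynomial (Option (Fin m)) ℝ}
    {gc g₀ : ℕ → ℕ} {W v X i : ℕ} (hgc : ∀ l < i, gc l ≤ g₀ l + v + X) (y : PtT F)
    (x V : Option (Fin m) → ℝ) :
    nrm c (fun l => Gno (c l) J J (fun y => G y l) y) gc (W + v) i x V ≤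
      2 ^ (v + X) * nrm c (G y) g₀ W i x V := by
  unfold nrm
  rw [mul_add, Finset.mul_sum]
  refine add_le_add ?_ (Finset.sum_le_sum fun l hl => ?_)
  · rw [← mul_assoc, ← pow_add]
    exact mul_le_mul_of_nonneg_right (pow_le_pow_right₀ (by norm_num) (by omega)) (abs_nonneg _)
  · rw [dd_Gno, ← mul_assoc, ← pow_add]
    have := hgc l (mem_range.1 hl)
    exact mul_le_mul_of_nonneg_right (pow_le_pow_right₀ (by norm_num) (by omega)) (abs_nonneg _)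

/-- **The row label at the rounded point.** -/
theorem gt_row (m D : ℕ) : ∃ C : ℕ, 1 ≤ C ∧ ∀ {J : ℕ} {F : Fam m J} {c : ℕ → Fin m}
    {W v e s X p p' : ℕ} {g₀ gc : ℕ → ℕ} {U : ℝ} {B : F.Ω → Prop}
    {G : PtT F → ℕ → MvPolynomial (Option (Fin m)) ℝ}
    {H : LnT F → ℕ → MvPolynomial (Option (Fin m)) ℝ}
    {Gt : PtT F → MvPolynomial (Option (Fin m)) ℝ}
    {Ht : LnT F → MvPolynomial (Option (Fin m)) ℝ}, Set.InjOn c (Set.Iio 3) →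
    ChOK F c 3 (fun _ => D) (W + v) W e gc B
      (fun y l => Gno (c l) J J (fun y => G y l) y) H →
    (∀ y, (Gt y).totalDegree ≤ D) → (∀ s, (Ht s).totalDegree ≤ D) → (∀ y, DepC c 2 (Gt y)) →
    (∀ s, DepC c 2 (Ht s)) → 0 ≤ U →
    (∀ ω, B ω → ∀ b, NBx c (fun l => Gno (c l) J J (fun y => G y l) (ptr F J ω)) gc (W + v)
      (F.t ω) 2 b → |eval b (Gt (ptr F J ω)) - eval b (Ht (slam F W ω))| ≤ 1 / 2 ^ p') →
    (∀ ω, B ω → ∀ b, NBx c (fun l => Gno (c l) J J (fun y => G y l) (ptr F J ω)) gc (W + v)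
      (F.t ω) 2 b → |eval b (Ht (slam F W ω)) -
        eval b (Gno (c 2) J J (fun y => G y 2) (ptr F J ω))| ≤ U / 2 ^ p) →
    (∀ l < 2, gc l ≤ g₀ l + v + X) → (∀ l < 3, e + gc l + s + C ≤ J) → ∀ ω, B ω →
    ∀ V : Option (Fin m) → ℝ,
      |dd (Gt (ptr F J ω)) (hx F ω) V - dd (Ht (slam F W ω)) (bt F ω) V| ≤
        2 ^ C * ((1 / 2 ^ p' + U / 2 ^ p + 1 / 2 ^ gc 2) / 2 ^ s + 1 / 2 ^ p') * 2 ^ (v + X) *
          nrm c (G (ptr F J ω)) g₀ W 2 (bt F ω) V := by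
  obtain ⟨C₁, hsh⟩ := hx_shf m D
  obtain ⟨Cb, hCb, hbox⟩ := box_all 2 D D
  obtain ⟨C₂, hC₂⟩ := pow_unbounded_of_one_lt Cb (one_lt_two (α := ℝ))
  refine ⟨C₁ + C₂ + 2, by omega, ?_⟩
  intro J F c W v e s X p p' g₀ gc U B G H Gt Ht hc htop hdG hdH hpG hpH hU hagr hbx hgc hJ ω hω V
  obtain ⟨x, hxe⟩ : ∃ x, x = bt F ω := ⟨_, rfl⟩
  have hnt := nrm_top (c := c) (G := G) (W := W) hgc (ptr F J ω) (bt F ω) V
  obtain ⟨NT, hNT⟩ : ∃ NT, NT = nrm c (fun l => Gno (c l) J J (fun y => G y l) (ptr F J ω)) gc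
    (W + v) 2 (bt F ω) V := ⟨_, rfl⟩
  obtain ⟨NG, hNG⟩ : ∃ NG, NG = nrm c (G (ptr F J ω)) g₀ W 2 (bt F ω) V := ⟨_, rfl⟩
  rw [← hNT, ← hNG] at hnt
  have hNT0 : 0 ≤ NT := by rw [hNT]; exact nrm_nonneg _ _ _ _ _ _ _
  have hNG0 : 0 ≤ NG := by rw [hNG]; exact nrm_nonneg _ _ _ _ _ _ _
  have h1 := hsh (F := F) (c := c) (a := W + v) (w := W) (e := e) (s := s) (i := 2) (g := gc)
    (B := B) (G := G) (H := H) (Q := Gt (ptr F J ω)) (M := 1 / 2 ^ p' + U / 2 ^ p) hc htop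
    (fun l hl => by have := hJ l hl; omega) le_rfl (hpG _) (hdG _) hω (fun b hb => by
      have e1 : eval b (Gt (ptr F J ω)) - eval b (Gno (c 2) J J (fun y => G y 2) (ptr F J ω)) =
          (eval b (Gt (ptr F J ω)) - eval b (Ht (slam F W ω))) +
          (eval b (Ht (slam F W ω)) -
            eval b (Gno (c 2) J J (fun y => G y 2) (ptr F J ω))) := by ring
      rw [e1]
      exact (abs_add_le _ _).trans (add_le_add (hagr ω hω b hb) (hbx ω hω b hb))) V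
  have h1' : nrm c (G (ptr F J ω)) gc (W + v) 2 (bt F ω) V = NT := by
    rw [hNT, nrm_Gno]
  rw [h1'] at h1
  have h2 := (hbox (c := c) (ψ := fun l => Gno (c l) J J (fun y => G y l) (ptr F J ω))
    (Q := Gt (ptr F J ω) - Ht (slam F W ω)) (g := gc) (a := W + v) (M := 1 / 2 ^ p')
    (x := bt F ω) (hc.mono (Set.Iio_subset_Iio (by norm_num))) (fun l => htop.degG _ l)
    (fun l => htop.depG _ l) (fun b b' h3 h4 => by
      rw [map_sub, map_sub, hpG _ b b' h3 h4, hpH _ b b' h3 h4])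
    ((totalDegree_sub _ _).trans (max_le (hdG _) (hdH _))) (by positivity) (fun b hb => by
      rw [map_sub]
      exact hagr ω hω b hb) (fun l hl => htop.pos ω hω l (by omega))).1 V
  rw [dd_sub, ← hNT] at h2
  have e1 : dd (Gt (ptr F J ω)) (hx F ω) V - dd (Ht (slam F W ω)) (bt F ω) V =
      (dd (Gt (ptr F J ω)) (hx F ω) V - dd (Gt (ptr F J ω)) (bt F ω) V) +
      (dd (Gt (ptr F J ω)) (bt F ω) V - dd (Ht (slam F W ω)) (bt F ω) V) := by ring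
  rw [e1]
  refine ((abs_add_le _ _).trans (add_le_add h1 h2)).trans ?_
  obtain ⟨Q, hQ⟩ : ∃ Q : ℝ, Q = (1 / 2 ^ p' + U / 2 ^ p + 1 / 2 ^ gc 2) / 2 ^ s := ⟨_, rfl⟩
  obtain ⟨P, hP⟩ : ∃ P : ℝ, P = 1 / 2 ^ p' := ⟨_, rfl⟩
  have hQ0 : 0 ≤ Q := by rw [hQ]; positivity
  have hP0 : 0 ≤ P := by rw [hP]; positivity
  have e2 : 2 ^ C₁ * (1 / 2 ^ p' + U / 2 ^ p + 1 / 2 ^ gc 2) / 2 ^ s * NT = 2 ^ C₁ * Q * NT := by
    rw [hQ]; ring
  rw [← hNG, e2, ← hQ, ← hP]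
  have hc1 : (2 : ℝ) ^ C₁ ≤ 2 ^ (C₁ + C₂ + 2) := pow_le_pow_right₀ (by norm_num) (by omega)
  have hc2 : Cb ≤ 2 ^ (C₁ + C₂ + 2) := hC₂.le.trans (pow_le_pow_right₀ (by norm_num) (by omega))
  calc 2 ^ C₁ * Q * NT + Cb * P * NT ≤ 2 ^ (C₁ + C₂ + 2) * Q * NT + 2 ^ (C₁ + C₂ + 2) * P * NT :=
        add_le_add (mul_le_mul_of_nonneg_right (mul_le_mul_of_nonneg_right hc1 hQ0) hNT0)
          (mul_le_mul_of_nonneg_right (mul_le_mul_of_nonneg_right hc2 hP0) hNT0)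
    _ = 2 ^ (C₁ + C₂ + 2) * (Q + P) * NT := by ring
    _ ≤ 2 ^ (C₁ + C₂ + 2) * (Q + P) * (2 ^ (v + X) * NG) :=
        mul_le_mul_of_nonneg_left hnt (by positivity)
    _ = _ := by ring

/-- **The velocity of the target.** -/
theorem ht_vel {F : Fam m J} {c : ℕ → Fin m} {w a v p v' : ℕ} {g₀ gT : ℕ → ℕ} {U : ℝ}
    {B : F.Ω → Prop} {G₀ : PtT F → ℕ → MvPolynomial (Option (Fin m)) ℝ}
    {H₀ : LnT F → ℕ → MvPolynomial (Option (Fin m)) ℝ}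
    {T : PtT F → ℕ → MvPolynomial (Option (Fin m)) ℝ}
    {TH : LnT F → ℕ → MvPolynomial (Option (Fin m)) ℝ}
    {Ht : LnT F → MvPolynomial (Option (Fin m)) ℝ}
    (h : ROut1 F c 2 w a v g₀ gT p U B G₀ H₀ T TH Ht) (ha : a ≤ J) (hU : 1 ≤ U) (hv : v ≤ v')
    (hg : ∀ l < 2, gT l ≤ g₀ l + v')
    (hT : ∀ s, ∀ l < 2, TH s l = Hno (c l) (fun s => H₀ s l) s) {ω : F.Ω} (hω : B ω) :
    |bd F ω (some (c 2)) - dd (Ht (slam F w ω)) (bt F ω) (bd F ω)| ≤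
      16 * U ^ 4 * (2 ^ a / 2 ^ g₀ 2 + 2 ^ (a + v') / 2 ^ p) := by
  have hU0 : 0 ≤ U := by linarith
  have h1 := h.vel ω ω hω hω rfl 2 le_rfl
  have h2 := rel1 h ha hω (bd F ω)
  have h3 : nrm c (G₀ (ptr F J ω)) g₀ a 2 (bt F ω) (bd F ω) ≤ 3 * U * 2 ^ a := by
    have := nrm_bd h hω
    push_cast at this
    have h2 : (0 : ℝ) < 2 ^ a := by positivity
    nlinarith
  have h4 := nrm_thin h hU0 hv hg hT hω (bd F ω)
  have h5 : nrm c (TH (slam F a ω)) gT (a + v) 2 (bt F ω) (bd F ω) ≤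
      12 * U ^ 3 * 2 ^ (a + v') := by
    refine h4.trans ?_
    have e1 : (1 + U) ^ 2 ≤ 4 * U ^ 2 := by nlinarith
    calc (1 + U) ^ 2 * 2 ^ v' * nrm c (G₀ (ptr F J ω)) g₀ a 2 (bt F ω) (bd F ω) ≤
          4 * U ^ 2 * 2 ^ v' * (3 * U * 2 ^ a) :=
          mul_le_mul (mul_le_mul_of_nonneg_right e1 (by positivity)) h3 (nrm_nonneg _ _ _ _ _ _ _)
            (by positivity)
      _ = _ := by rw [pow_add]; ring
  obtain ⟨A, hA⟩ : ∃ A : ℝ, A = 2 ^ a / 2 ^ g₀ 2 := ⟨_, rfl⟩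
  obtain ⟨P, hP⟩ : ∃ P : ℝ, P = 2 ^ (a + v') / 2 ^ p := ⟨_, rfl⟩
  have hA0 : 0 ≤ A := by rw [hA]; positivity
  have hP0 : 0 ≤ P := by rw [hP]; positivity
  have k1 : U * 2 ^ a / 2 ^ g₀ 2 = U * A := by rw [hA]; ring
  have k2 : U / 2 ^ p * nrm c (TH (slam F a ω)) gT (a + v) 2 (bt F ω) (bd F ω) ≤
      12 * U ^ 4 * P := by
    calc _ ≤ U / 2 ^ p * (12 * U ^ 3 * 2 ^ (a + v')) := mul_le_mul_of_nonneg_left h5 (by positivity)
      _ = _ := by rw [hP]; ring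
  have k3 : U / 2 ^ g₀ 2 * nrm c (G₀ (ptr F J ω)) g₀ a 2 (bt F ω) (bd F ω) ≤ 3 * U ^ 2 * A := by
    calc _ ≤ U / 2 ^ g₀ 2 * (3 * U * 2 ^ a) := mul_le_mul_of_nonneg_left h3 (by positivity)
      _ = _ := by rw [hA]; ring
  rw [k1] at h1
  rw [← hA, ← hP]
  have e : bd F ω (some (c 2)) - dd (Ht (slam F w ω)) (bt F ω) (bd F ω) =
      (bd F ω (some (c 2)) - dd (G₀ (ptr F J ω) 2) (bt F ω) (bd F ω)) -
      (dd (Ht (slam F w ω)) (bt F ω) (bd F ω) -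
        dd (G₀ (ptr F J ω) 2) (bt F ω) (bd F ω)) := by ring
  rw [e]
  refine (abs_sub _ _).trans ((add_le_add h1 (h2.trans (add_le_add k2 k3))).trans ?_)
  have u1 : U ≤ U ^ 4 := le_self_pow₀ hU (by norm_num)
  have u2 : U ^ 2 ≤ U ^ 4 := pow_le_pow_right₀ hU (by norm_num)
  have u3 := mul_le_mul_of_nonneg_right u1 hA0
  have u4 := mul_le_mul_of_nonneg_right u2 hA0
  have u5 : 0 ≤ U ^ 4 * P := by positivity
  have u6 : 0 ≤ U ^ 4 * A := by positivity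
  linarith

/-- **The visible covector is natural.** -/
theorem fl_near {c : ℕ → Fin m} {ψ : ℕ → Option (Fin m) → ℝ}
    {G : ℕ → MvPolynomial (Option (Fin m)) ℝ} {Q R : MvPolynomial (Option (Fin m)) ℝ}
    {g₀ : ℕ → ℕ} {W : ℕ} {K ER EN : ℝ} {x y : Option (Fin m) → ℝ} (hK : 0 ≤ K)
    (hN : Nc c g₀ W 3 K ψ (fun l => grd (G l) x)) (hER : 0 ≤ ER) (hEN : 0 ≤ EN)
    (h1 : ∀ V, |dd Q y V - dd R x V| ≤ ER * nrm c G g₀ W 2 x V)
    (h2 : ∀ V, |dd R x V - dd (G 2) x V| ≤ EN * nrm c G g₀ W 2 x V) (V : Option (Fin m) → ℝ) :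
    |cv (grd Q y - ψ 2) V| ≤ ((ER + EN) * (1 + K) ^ 3 + K / 2 ^ g₀ 2) * en c g₀ W ψ 2 V := by
  have h3 := hN 2 (by norm_num) V
  have h4 := hN.en_le hK (show 2 ≤ 3 by norm_num) V
  rw [← nrm_en] at h4
  rw [cv_subl, cv_grd] at h3
  rw [cv_subl, cv_grd]
  have e : dd Q y V - cv (ψ 2) V = (dd Q y V - dd R x V) + (dd R x V - dd (G 2) x V) +
      (dd (G 2) x V - cv (ψ 2) V) := by ring
  rw [e]
  have h5 := mul_le_mul_of_nonneg_left h4 hER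
  have h6 := mul_le_mul_of_nonneg_left h4 hEN
  refine ((abs_add_le _ _).trans (add_le_add ((abs_add_le _ _).trans (add_le_add (h1 V) (h2 V)))
    h3)).trans ?_
  linarith

/-- The row. -/
theorem fl_row {c : ℕ → Fin m} {ψ : ℕ → Option (Fin m) → ℝ}
    {G : ℕ → MvPolynomial (Option (Fin m)) ℝ} {Q R : MvPolynomial (Option (Fin m)) ℝ}
    {g₀ : ℕ → ℕ} {W : ℕ} {K ER : ℝ} {x y : Option (Fin m) → ℝ} (hK : 0 ≤ K)
    (hN : Nc c g₀ W 3 K ψ (fun l => grd (G l) x)) (hER : 0 ≤ ER)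
    (h1 : ∀ V, |dd Q y V - dd R x V| ≤ ER * nrm c G g₀ W 2 x V) (V : Option (Fin m) → ℝ) :
    |dd R x V - cv (grd Q y) V| ≤ ER * (1 + K) ^ 3 * en c g₀ W ψ 2 V := by
  have h4 := hN.en_le hK (show 2 ≤ 3 by norm_num) V
  rw [← nrm_en] at h4
  rw [cv_grd, abs_sub_comm]
  refine (h1 V).trans ((mul_le_mul_of_nonneg_left h4 hER).trans (le_of_eq ?_))
  ring

/-- The size of a direction without the time. -/
theorem en_two {c : ℕ → Fin m} (hc : Set.InjOn c (Set.Iio 3)) {ψ : ℕ → Option (Fin m) → ℝ}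
    (h0 : CvC c 0 (ψ 0)) (h1 : CvC c 1 (ψ 1)) (g₀ : ℕ → ℕ) (W : ℕ) {V : Option (Fin m) → ℝ}
    (hV : V none = 0) : en c g₀ W ψ 2 V = 2 ^ g₀ 0 * |V (some (c 0))| +
      2 ^ g₀ 1 * |V (some (c 1)) - ψ 1 (some (c 0)) * V (some (c 0))| := by
  have hc0 : Set.InjOn c (Set.Iio 0) := hc.mono (Set.Iio_subset_Iio (by norm_num))
  have hc1 : Set.InjOn c (Set.Iio 1) := hc.mono (Set.Iio_subset_Iio (by norm_num))
  rw [en_eq, Finset.sum_range_succ, Finset.sum_range_one, hV, abs_zero, mul_zero, zero_add,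
    cv_eq hc0 h0, cv_eq hc1 h1, hV, Finset.sum_range_zero, Finset.sum_range_one]
  simp

/-- The slope of the frame. -/
theorem psi_y {c : ℕ → Fin m} (hc : Set.InjOn c (Set.Iio 3)) {ψ : ℕ → Option (Fin m) → ℝ}
    {G : ℕ → MvPolynomial (Option (Fin m)) ℝ} {g₀ : ℕ → ℕ} {W n : ℕ} {K : ℝ}
    {x : Option (Fin m) → ℝ} (hn : 2 ≤ n) (h0 : CvC c 0 (ψ 0))
    (hN : Nc c g₀ W n K ψ (fun l => grd (G l) x)) :
    |eval x (pderiv (some (c 0)) (G 1)) - ψ 1 (some (c 0))| ≤ K * (2 ^ g₀ 0 / 2 ^ g₀ 1) := by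
  have h3 := hN 1 (by omega) (ex (c 0))
  have hc0 : Set.InjOn c (Set.Iio 0) := hc.mono (Set.Iio_subset_Iio (by norm_num))
  have e1 : en c g₀ W ψ 1 (ex (c 0)) = 2 ^ g₀ 0 := by
    rw [en_eq, Finset.sum_range_one, ex_none, abs_zero, mul_zero, zero_add,
      cv_eq hc0 h0, ex_none, Finset.sum_range_zero, ex_self]
    simp
  have e2 : cv (ψ 1) (ex (c 0)) = ψ 1 (some (c 0)) := by
    classical
    unfold cv ex
    rw [Finset.sum_eq_single (some (c 0))]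
    · rw [Pi.single_eq_same, mul_one]
    · intro o _ ho
      rw [Pi.single_eq_of_ne ho, mul_zero]
    · intro h
      exact absurd (Finset.mem_univ _) h
  rw [cv_subl, cv_grd, dd_ex, e2, e1] at h3
  refine h3.trans (le_of_eq ?_)
  ring

/-- **No curvature.** -/
theorem fl_flat {c : ℕ → Fin m} (hc : Set.InjOn c (Set.Iio 3)) {ψ : ℕ → Option (Fin m) → ℝ}
    (h0 : CvC c 0 (ψ 0)) (h1 : CvC c 1 (ψ 1)) {R : MvPolynomial (Option (Fin m)) ℝ}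
    (hR : DepC c 2 R) {g₀ : ℕ → ℕ} {W : ℕ} {μ E β : ℝ} {x E₁ : Option (Fin m) → ℝ}
    (hμ : |hs R x E₁ (dx c μ)| ≤ E) (hβ : |hs R x E₁ (ex (c 1))| ≤ β)
    {V : Option (Fin m) → ℝ} (hV : V none = 0) :
    |hs R x E₁ V| ≤ ((E + |ψ 1 (some (c 0)) - μ| * β) / 2 ^ g₀ 0 + β / 2 ^ g₀ 1) *
      en c g₀ W ψ 2 V := by
  have hE0 : 0 ≤ E := (abs_nonneg _).trans hμ
  have hβ0 : 0 ≤ β := (abs_nonneg _).trans hβ
  rw [hs_two hc hR x E₁ (ψ 1 (some (c 0))) hV, en_two hc h0 h1 g₀ W hV, hs_dx c x E₁ μ]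
  obtain ⟨V0, hV0⟩ : ∃ V0, V0 = V (some (c 0)) := ⟨_, rfl⟩
  obtain ⟨V1, hV1⟩ : ∃ V1, V1 = V (some (c 1)) - ψ 1 (some (c 0)) * V (some (c 0)) := ⟨_, rfl⟩
  rw [← hV1, ← hV0]
  obtain ⟨ρ, hρ⟩ : ∃ ρ, ρ = ψ 1 (some (c 0)) - μ := ⟨_, rfl⟩
  rw [← hρ]
  have k1 : |hs R x E₁ (dx c μ) + ρ * hs R x E₁ (ex (c 1))| ≤ E + |ρ| * β := by
    refine (abs_add_le _ _).trans (add_le_add hμ ?_)
    rw [abs_mul]
    exact mul_le_mul_of_nonneg_left hβ (abs_nonneg _)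
  have k2 : |V0 * (hs R x E₁ (dx c μ) + ρ * hs R x E₁ (ex (c 1)))| ≤
      (E + |ρ| * β) / 2 ^ g₀ 0 * (2 ^ g₀ 0 * |V0|) := by
    rw [abs_mul]
    calc |V0| * |hs R x E₁ (dx c μ) + ρ * hs R x E₁ (ex (c 1))| ≤ |V0| * (E + |ρ| * β) :=
          mul_le_mul_of_nonneg_left k1 (abs_nonneg _)
      _ = _ := by field_simp
  have k3 : |V1 * hs R x E₁ (ex (c 1))| ≤ β / 2 ^ g₀ 1 * (2 ^ g₀ 1 * |V1|) := by
    rw [abs_mul]
    calc |V1| * |hs R x E₁ (ex (c 1))| ≤ |V1| * β := mul_le_mul_of_nonneg_left hβ (abs_nonneg _)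
      _ = _ := by field_simp
  refine (abs_add_le _ _).trans ((add_le_add k2 k3).trans ?_)
  have k4 : 0 ≤ (E + |ρ| * β) / 2 ^ g₀ 0 := by positivity
  have k5 : 0 ≤ β / 2 ^ g₀ 1 := by positivity
  have k6 : 0 ≤ (2 : ℝ) ^ g₀ 0 * |V0| := by positivity
  have k7 : 0 ≤ (2 : ℝ) ^ g₀ 1 * |V1| := by positivity
  have k8 := mul_nonneg k4 k7
  have k9 := mul_nonneg k5 k6
  linarith

end Pool.C2T
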