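import Pool.Agent.H54.C2T.Ends

/-!
# The closed slope is near the slope of the ball chart, in natural units

`dat_lam`: if the curvature in the direction of the second coordinate is large, the closed slope
`lam1` is near the slope of the chart of the shortest window.
-/

set_option autoImplicit false

namespace Pool.C2T

open Finset Real MvPolynomial
open Pool.Agent.H49.Ent Pool.Agent.H32.Dense Pool.STK Pool.KA Pool.KSAT Pool.K2S Pool.PB Pool.S6C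
open Pool.GEN Pool.CHT Pool.CHX Pool.ISO Pool.D2R Pool.D2Z Pool.D2F Pool.RCV
open Pool.PB.Trl (rt rt_mem t_rt)
open Pool.FLF (Fam.sub)

variable {m J : ℕ}

/-- Two slopes, in natural units. -/
theorem lem_mu {W W₁ W₂ a b c t X : ℕ} (h : W₂ + b ≤ W₁ + c + X) :
    2 * ((2 : ℝ) ^ X * 2 ^ W₁ / 2 ^ b + 2 ^ X * 2 ^ W₂ / 2 ^ c) * (2 ^ a * 2 ^ t / 2 ^ W) ≤
      2 ^ (2 * X + t + 2) * (2 ^ (W₁ + a) / 2 ^ (b + W)) := by
  have b2 : (2 : ℝ) ^ X * 2 ^ W₂ / 2 ^ c ≤ 2 ^ (2 * X) * (2 ^ W₁ / 2 ^ b) := by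
    rw [← pow_add]
    exact two_div (by omega)
  have b3 : (2 : ℝ) ^ X * 2 ^ W₁ / 2 ^ b ≤ 2 ^ (2 * X) * (2 ^ W₁ / 2 ^ b) := by
    rw [← pow_add]
    exact two_div (by omega)
  calc _ ≤ 2 * (2 ^ (2 * X) * (2 ^ W₁ / 2 ^ b) + 2 ^ (2 * X) * (2 ^ W₁ / 2 ^ b)) *
        (2 ^ a * 2 ^ t / 2 ^ W) := mul_le_mul_of_nonneg_right
          (mul_le_mul_of_nonneg_left (add_le_add b3 b2) (by norm_num)) (by positivity)
    _ = 4 * 2 ^ (2 * X) * 2 ^ t * (2 ^ W₁ * 2 ^ a / (2 ^ b * 2 ^ W)) := by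
        field_simp
        ring
    _ = _ := by
        have e4 : (2 : ℝ) ^ (2 * X + t + 2) = 4 * 2 ^ (2 * X) * 2 ^ t := by
          rw [pow_add, pow_add]
          ring
        rw [e4, pow_add, pow_add]

/-- The numbers of `dat_lam`. -/
theorem lam_num {Hl E κ M r ρ R : ℝ} {X t k k' : ℕ} (hH : 0 < Hl)
    (h1 : E / Hl ≤ 2 ^ (33 * (X + t)) * (2 ^ (X + 1) * R))
    (h2 : κ * (M / Hl) * ρ ≤ 2 ^ (2 * X + t + k + k' + 3) * (2 ^ X * R)) (hR : 0 ≤ R)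
    (hE : 0 ≤ E) (hρ : ρ ≤ 1) (hr : r = 4 / Hl * (E + (E + κ * M) * ρ)) :
    r ≤ 2 ^ (40 * (X + t + k + k' + 1)) * R := by
  have e1 : r ≤ 8 * (E / Hl) + 4 * (κ * (M / Hl) * ρ) := by
    rw [hr]
    have e2 : 4 / Hl * (E + (E + κ * M) * ρ) = 4 * (E / Hl) + 4 * (E / Hl) * ρ +
        4 * (κ * (M / Hl) * ρ) := by
      field_simp
      ring
    rw [e2]
    have e3 : 4 * (E / Hl) * ρ ≤ 4 * (E / Hl) * 1 :=
      mul_le_mul_of_nonneg_left hρ (by positivity)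
    linarith
  refine e1.trans ((add_le_add (mul_le_mul_of_nonneg_left h1 (by norm_num))
    (mul_le_mul_of_nonneg_left h2 (by norm_num))).trans ?_)
  have e4 : (8 : ℝ) * (2 ^ (33 * (X + t)) * (2 ^ (X + 1) * R)) =
      2 ^ (33 * (X + t) + (X + 1) + 3) * R := by
    rw [pow_add 2 (33 * (X + t) + (X + 1)) 3, pow_add 2 (33 * (X + t)) (X + 1)]
    ring
  have e5 : (4 : ℝ) * (2 ^ (2 * X + t + k + k' + 3) * (2 ^ X * R)) =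
      2 ^ (2 * X + t + k + k' + 3 + X + 2) * R := by
    rw [pow_add 2 (2 * X + t + k + k' + 3 + X) 2, pow_add 2 (2 * X + t + k + k' + 3) X]
    ring
  rw [e4, e5, ← add_mul]
  refine mul_le_mul_of_nonneg_right ?_ hR
  calc (2 : ℝ) ^ (33 * (X + t) + (X + 1) + 3) + 2 ^ (2 * X + t + k + k' + 3 + X + 2) ≤
        2 ^ (40 * (X + t + k + k') + 39) + 2 ^ (40 * (X + t + k + k') + 39) :=
        add_le_add (pow_le_pow_right₀ (by norm_num) (by omega))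
          (pow_le_pow_right₀ (by norm_num) (by omega))
    _ = 2 ^ (40 * (X + t + k + k' + 1)) := by
        rw [show 40 * (X + t + k + k' + 1) = 40 * (X + t + k + k') + 39 + 1 by ring, pow_succ]
        ring

/-- **The closed slope.** -/
theorem dat_lam (D : ℕ) : ∃ C : ℕ, ∀ {m J : ℕ} {F : Fam m J} {c : ℕ → Fin m}
    {W W₁ W₂ X Γ t α k k' lm N s₁ r : ℕ} {g₀ g₁ g₂ : ℕ → ℕ}
    {B : F.Ω → Prop} {G₀ G₁ G₂ : PtT F → ℕ → MvPolynomial (Option (Fin m)) ℝ}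
    {Gt : PtT F → MvPolynomial (Option (Fin m)) ℝ}
    {Ht : LnT F → MvPolynomial (Option (Fin m)) ℝ}
    (_ : Dat F c W W₁ W₂ X Γ g₀ g₁ g₂ B G₀ G₁ G₂ Gt Ht)
    {ψ : PtT F → ℕ → Option (Fin m) → ℝ} {ψH : LnT F → ℕ → Option (Fin m) → ℝ} {ω : F.Ω}
    {ν : Fin 2 → F.Ω} {Hl : ℝ}, (∀ y, CvC c 0 (ψ y 0)) → B ω →
    (∀ i, B (ν i) ∧ ptr F J (ν i) = ptr F J ω) →
    (∀ i, 1 / 2 ^ t ≤ |Xn F c g₀ W ψ ω 1 - Xn F c g₀ W ψ (ν i) 1|) →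
    (∀ i j, i ≠ j → 1 / 2 ^ t ≤ |Xn F c g₀ W ψ (ν i) 1 - Xn F c g₀ W ψ (ν j) 1|) →
    (∀ ν, B ν → |hs (Ht (slam F W ν)) (bt F ν) (bd F ν) (ex (c 1))| ≤ Hl * 2 ^ lm) →
    (∀ τ ∈ Set.Icc (0 : ℝ) 1,
      |(hq W (slam F W ω) (Ht (slam F W ω)) (ex (c 1))).eval τ| ≤ 2 ^ k' * (Hl * 2 ^ lm)) →
    Hl ≤ |hs (Ht (slam F W ω)) (bt F ω) (bd F ω) (ex (c 1))| →
    2 ^ (W + g₀ 1) / 2 ^ (g₀ 2 + α) ≤ Hl →
    |ψH (slam F W ω) 1 (some (c 0)) - mu F c G₀ ω| ≤ 2 ^ k * (2 ^ g₀ 0 / 2 ^ g₀ 1) →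
    W ≤ W₁ → W₁ ≤ J → (∀ s, (Ht s).totalDegree ≤ D) → W₂ + g₀ 1 ≤ W + g₂ 1 + X →
    W₂ + g₁ 1 ≤ W₁ + g₂ 1 + X → W₁ + g₀ 0 ≤ g₁ 0 + W + X → r + (C + k' + lm) ≤ W₁ - W →
    g₀ 0 + α + g₁ 1 + s₁ ≤ X + g₁ 0 + Γ + g₀ 1 → g₂ 0 + lm + g₁ 1 + s₁ ≤ X + g₁ 0 + g₂ 1 →
    g₀ 0 + lm + g₁ 1 + s₁ ≤ X + g₁ 0 + g₀ 1 + r * N →
    |(lam1 c W (W₁ - W) N ψH Ht (slam F W₁ ω) 0).eval (rt F W₁ ω) - mu F c G₂ ω| ≤
      2 ^ (40 * (X + t + k + k' + 1)) * (2 ^ g₁ 0 / 2 ^ (g₁ 1 + s₁)) ∧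
    |mu F c G₁ ω - mu F c G₂ ω| ≤ 2 ^ (3 * X + t + 2) * (2 ^ g₁ 0 / 2 ^ g₁ 1) := by
  obtain ⟨C₁, hC₁, hlam⟩ := lam_near D
  obtain ⟨C₂, hC₂⟩ := pow_unbounded_of_one_lt C₁ (one_lt_two (α := ℝ))
  refine ⟨C₂ + 2, ?_⟩
  intro m J F c W W₁ W₂ X Γ t α k k' lm N s₁ r g₀ g₁ g₂ B G₀ G₁ G₂ Gt Ht h ψ ψH ω ν Hl hcv hω h1 h2
    h3 hβ hM hHl hH0 hψ hW hW₁ hdeg m1 m2 m3 hr w1 w2 w3
  obtain ⟨r1, r2, r3⟩ := sep_out h hcv hω h1 h2 h3 hβ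
  have hHl0 : 0 < Hl := lt_of_lt_of_le (by positivity) hH0
  obtain ⟨R, hR⟩ : ∃ R : ℝ, R = 2 ^ g₁ 0 / 2 ^ (g₁ 1 + s₁) := ⟨_, rfl⟩
  have hR0 : 0 ≤ R := by rw [hR]; positivity
  obtain ⟨E, hE⟩ : ∃ E : ℝ, E = 2 ^ (33 * (X + t)) * (2 ^ (g₀ 0 + W) / 2 ^ (g₀ 2 + Γ) +
    2 ^ g₂ 0 / 2 ^ g₂ 1 * (Hl * 2 ^ lm)) := ⟨_, rfl⟩
  rw [← hE] at r1
  have hE0 : 0 ≤ E := (abs_nonneg _).trans r1
  obtain ⟨N₀, hN₀⟩ : ∃ N₀ : ℝ, N₀ = 2 ^ g₀ 0 / 2 ^ g₀ 1 := ⟨_, rfl⟩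
  have hN₀0 : 0 ≤ N₀ := by rw [hN₀]; positivity
  have hκ : |ψH (slam F W ω) 1 (some (c 0)) - mu F c G₂ ω| ≤ 2 ^ (2 * X + t + k + 3) * N₀ := by
    have e : ψH (slam F W ω) 1 (some (c 0)) - mu F c G₂ ω =
        (ψH (slam F W ω) 1 (some (c 0)) - mu F c G₀ ω) + (mu F c G₀ ω - mu F c G₂ ω) := by ring
    rw [e]
    have e2 : (2 : ℝ) ^ (W + g₀ 0) / 2 ^ (g₀ 1 + W) = N₀ := by
      rw [hN₀, pow_add, pow_add]
      field_simp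
    have k2 := r2.trans (lem_mu (W := W) (a := g₀ 0) (t := t) m1)
    rw [e2] at k2
    rw [← hN₀] at hψ
    refine (abs_add_le _ _).trans ((add_le_add hψ k2).trans ?_)
    rw [← add_mul]
    refine mul_le_mul_of_nonneg_right ?_ hN₀0
    calc (2 : ℝ) ^ k + 2 ^ (2 * X + t + 2) ≤ 2 ^ (2 * X + t + k + 2) + 2 ^ (2 * X + t + k + 2) :=
          add_le_add (pow_le_pow_right₀ (by norm_num) (by omega))
            (pow_le_pow_right₀ (by norm_num) (by omega))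
      _ = _ := by rw [pow_succ 2 (2 * X + t + k + 2)]; ring
  obtain ⟨n, hn⟩ : ∃ n, n = W₁ - W := ⟨_, rfl⟩
  obtain ⟨M, hMe⟩ : ∃ M : ℝ, M = 2 ^ k' * (Hl * 2 ^ lm) := ⟨_, rfl⟩
  have hM0 : 0 ≤ M := by rw [hMe]; positivity
  rw [← hMe] at hM
  have hC₁0 : 0 < C₁ := by linarith
  have hM4 : 4 * (C₁ * M / 2 ^ n) ≤ Hl := by
    have e1 : C₁ * M ≤ 2 ^ C₂ * M := mul_le_mul_of_nonneg_right hC₂.le hM0
    have e2 : 4 * (2 ^ C₂ * M / 2 ^ n) = 2 ^ (C₂ + 2 + k' + lm) / 2 ^ n * Hl := by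
      rw [hMe, pow_add, pow_add, pow_add]
      ring
    calc 4 * (C₁ * M / 2 ^ n) ≤ 4 * (2 ^ C₂ * M / 2 ^ n) :=
          mul_le_mul_of_nonneg_left (div_le_div_of_nonneg_right e1 (by positivity)) (by norm_num)
      _ = 2 ^ (C₂ + 2 + k' + lm) / 2 ^ n * Hl := e2
      _ ≤ 1 * Hl := by
          refine mul_le_mul_of_nonneg_right ?_ hHl0.le
          rw [div_le_one (by positivity)]
          exact pow_le_pow_right₀ (by norm_num) (by omega)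
      _ = Hl := one_mul _
  rw [hn] at hM4
  have hmain := hlam (N := N) hW hW₁ hdeg hHl0 hM hHl r1 hκ hM4
  rw [← hn] at hmain hM4 ⊢
  rw [← hR]
  obtain ⟨ρ, hρ⟩ : ∃ ρ : ℝ, ρ = C₁ * M / 2 ^ n / (Hl / 2) := ⟨_, rfl⟩
  rw [← hρ] at hmain
  have hρ0 : 0 ≤ ρ := by rw [hρ]; positivity
  have hρr : ρ ≤ 1 / 2 ^ r := by
    have e1 : C₁ * M ≤ 2 ^ C₂ * M := mul_le_mul_of_nonneg_right hC₂.le hM0
    rw [hρ]
    calc C₁ * M / 2 ^ n / (Hl / 2) ≤ 2 ^ C₂ * M / 2 ^ n / (Hl / 2) :=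
          div_le_div_of_nonneg_right (div_le_div_of_nonneg_right e1 (by positivity))
            (by positivity)
      _ = 2 ^ (C₂ + 1 + k' + lm) / 2 ^ n := by
          rw [hMe, pow_add, pow_add, pow_add]
          field_simp
      _ ≤ _ := by
          rw [div_le_div_iff₀ (by positivity) (by positivity), one_mul, ← pow_add]
          exact pow_le_pow_right₀ (by norm_num) (by omega)
  have hρN : ρ ^ N ≤ 1 / 2 ^ (r * N) := by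
    calc ρ ^ N ≤ (1 / 2 ^ r) ^ N := pow_le_pow_left₀ hρ0 hρr N
      _ = _ := by rw [div_pow, one_pow, ← pow_mul]
  have hρ1 : ρ ^ N ≤ 1 := hρN.trans (by
    rw [div_le_one (by positivity)]
    exact one_le_pow₀ (by norm_num))
  refine ⟨hmain.trans (lam_num (κ := 2 ^ (2 * X + t + k + 3) * N₀) (M := M) hHl0 ?_ ?_ hR0 hE0 hρ1
    rfl), ?_⟩
  · -- the first error
    have e1 : E / Hl = 2 ^ (33 * (X + t)) * (2 ^ (g₀ 0 + W) / 2 ^ (g₀ 2 + Γ) / Hl +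
        2 ^ g₂ 0 / 2 ^ g₂ 1 * 2 ^ lm) := by
      rw [hE]
      field_simp
    rw [e1]
    refine mul_le_mul_of_nonneg_left ?_ (by positivity)
    have e2 : (2 : ℝ) ^ (g₀ 0 + W) / 2 ^ (g₀ 2 + Γ) / Hl ≤ 2 ^ X * R := by
      calc (2 : ℝ) ^ (g₀ 0 + W) / 2 ^ (g₀ 2 + Γ) / Hl ≤
            2 ^ (g₀ 0 + W) / 2 ^ (g₀ 2 + Γ) / (2 ^ (W + g₀ 1) / 2 ^ (g₀ 2 + α)) :=
            div_le_div_of_nonneg_left (by positivity) (by positivity) hH0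
        _ = 2 ^ (g₀ 0 + α) / 2 ^ (Γ + g₀ 1) := by
            rw [pow_add, pow_add, pow_add, pow_add, pow_add, pow_add]
            field_simp
        _ ≤ _ := by
            rw [hR]
            exact two_div (by omega)
    have e3 : (2 : ℝ) ^ g₂ 0 / 2 ^ g₂ 1 * 2 ^ lm ≤ 2 ^ X * R := by
      have : (2 : ℝ) ^ g₂ 0 / 2 ^ g₂ 1 * 2 ^ lm = 2 ^ (g₂ 0 + lm) / 2 ^ g₂ 1 := by
        rw [pow_add]
        ring
      rw [this, hR]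
      exact two_div (by omega)
    calc _ ≤ 2 ^ X * R + 2 ^ X * R := add_le_add e2 e3
      _ = _ := by rw [pow_succ]; ring
  · -- the second error
    have e1 : M / Hl = 2 ^ (k' + lm) := by
      rw [hMe, pow_add]
      field_simp
    rw [e1]
    calc 2 ^ (2 * X + t + k + 3) * N₀ * 2 ^ (k' + lm) * ρ ^ N ≤
          2 ^ (2 * X + t + k + 3) * N₀ * 2 ^ (k' + lm) * (1 / 2 ^ (r * N)) :=
          mul_le_mul_of_nonneg_left hρN (by positivity)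
      _ = 2 ^ (2 * X + t + k + 3) * 2 ^ k' * (2 ^ (g₀ 0 + lm) / 2 ^ (g₀ 1 + r * N)) := by
          rw [hN₀, pow_add 2 k' lm, pow_add 2 (g₀ 0) lm, pow_add 2 (g₀ 1) (r * N)]
          field_simp
      _ ≤ 2 ^ (2 * X + t + k + 3) * 2 ^ k' * (2 ^ X * R) := by
          refine mul_le_mul_of_nonneg_left ?_ (by positivity)
          rw [hR]
          exact two_div (by omega)
      _ = _ := by
          rw [show 2 * X + t + k + k' + 3 = 2 * X + t + k + 3 + k' by ring,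
            pow_add 2 (2 * X + t + k + 3) k']
  · have k3 := r3.trans (lem_mu (W := W) (a := g₀ 0) (t := t) m2)
    refine k3.trans ?_
    have e1 : (2 : ℝ) ^ (W₁ + g₀ 0) / 2 ^ (g₁ 1 + W) ≤ 2 ^ X * (2 ^ g₁ 0 / 2 ^ g₁ 1) :=
      two_div (by omega)
    calc _ ≤ 2 ^ (2 * X + t + 2) * (2 ^ X * (2 ^ g₁ 0 / 2 ^ g₁ 1)) :=
          mul_le_mul_of_nonneg_left e1 (by positivity)
      _ = _ := by
          rw [show 3 * X + t + 2 = 2 * X + t + 2 + X by ring, pow_add 2 (2 * X + t + 2) X]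
          ring

end Pool.C2T
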