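import Pool.Agent.H54.C2T.Fle
import Pool.Agent.H23.D2.Wnr

/-!
# The end with a closed slope in a class

`lam_end`: over `Wins`, an event in which the curvature in the direction of the second coordinate is
not small, and known up to a small factor, is small.
-/

set_option autoImplicit false

namespace Pool.C2T

open Finset Real MvPolynomial
open Pool.Agent.H49.Ent Pool.Agent.H32.Dense Pool.STK Pool.KA Pool.KSAT Pool.K2S Pool.PB Pool.S6C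
open Pool.GEN Pool.CHT Pool.CHX Pool.ISO Pool.D2R Pool.D2Z Pool.D2F Pool.RCV
open Pool.LBT (LSys Slo Tri ThrOf fl_le')
open Pool.LEV (Law)
open Pool.PB.Trl (rt rt_mem t_rt)
open Pool.FLF (Fam.sub)

variable {m : ℕ}

/-- The derivative of a chart over the first coordinate in a direction without the time. -/
theorem dd_mu {J : ℕ} {F : Fam m J} {c : ℕ → Fin m}
    {G : PtT F → ℕ → MvPolynomial (Option (Fin m)) ℝ} (h : ∀ y l, DepC c l (G y l)) (ω : F.Ω)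
    {V : Option (Fin m) → ℝ} (hV : V none = 0) :
    dd (G (ptr F J ω) 1) (bt F ω) V = mu F c G ω * V (some (c 0)) := by
  rw [dd_one (h _ 1), hV, mul_zero, zero_add]
  rfl

/-- **The end with a closed slope**: the data for the second coordinate as target, at the windows
`o' 0`, `o' 1`, and the data of the target at the windows `o 0`, `o 2`. -/
theorem lam_end (m D D' N : ℕ) (hDp : 1 ≤ D') (hD : 1 ≤ D) : ∃ (C : ℕ) (Cr : ℝ), 1 ≤ C ∧ 1 ≤ Cr ∧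
    ∀ {S : PCl m} {P P₂ : List (Fin m) × Fin m → ℝ → ℝ → ℝ} {θ θ₂ : ℝ} {c : ℕ → Fin m}
    {C₀ Eb ηm ζ : ℝ} {o ε p' η σ : ℕ → ℝ} {lv be : ℕ → ℕ → ℝ} {Dr : ℕ}
    {C₀' Eb' ηm' : ℝ} {o' ε' p'' η' σ' : ℕ → ℝ} {lv' be' : ℕ → ℕ → ℝ} {Dr' : ℕ}
    {a w w' : ℚ} {a' q₁ s₁ h e e₂ ε₁ κ₁ : ℝ},
    ThrOf (chsys m θ) S P → ThrOf (chsys m θ₂) S P₂ → TmH S → Set.InjOn c (Set.Iio 3) →
    o' 0 ≤ w → w ≤ o' 0 + ζ → a' ≤ a → a ≤ a' + ζ → 0 ≤ w → w ≤ a → a ≤ 1 → w < 1 →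
    e < θ * w → 0 < h → 0 < ζ → C₀' * ηm' ≤ ζ → 0 ≤ q₁ → bet P c 1 a w + h ≤ 1 →
    Eb' + Cr * ζ ≤ e →
    bet P c 1 a w + h + Cr * ζ ≤ lv' 0 1 + s₁ + (a - w) →
    bet P c 1 a w + h + Cr * ζ ≤ lv' 1 1 - (o' 1 - w) + (a - w) →
    bet P c 1 a w + h + Cr * ζ + q₁ ≤ lv' 0 1 + 2 * (a - w) → q₁ + Cr * ζ ≤ a - w →
    (∀ l ≤ 1, Eb' + lv' 0 l + 2 * (a - w) + Cr * ζ ≤ 1) →
    bet P c 1 a w + h ≤ lv' 0 1 + (a - w) + ζ →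
    0 ≤ w' → w' < 1 → e₂ < θ₂ * w' → bet P₂ c 0 w' w' + h ≤ 1 → 0 < ε₁ → 0 < κ₁ →
    Bas S (fun J F A => ∀ (z' : ℕ → ℕ → ℕ) (κ' : ℝ) (b' : ℕ → ℕ → ℝ)
      (Bp : F.Ω → Prop) (gc' gT' g₀' : ℕ → ℕ → ℕ)
      (G' : ℕ → PtT F → ℕ → MvPolynomial (Option (Fin m)) ℝ)
      (H' : ℕ → LnT F → ℕ → MvPolynomial (Option (Fin m)) ℝ)
      (T' : ℕ → PtT F → ℕ → MvPolynomial (Option (Fin m)) ℝ)
      (TH' : ℕ → LnT F → ℕ → MvPolynomial (Option (Fin m)) ℝ)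
      (Gt' : ℕ → PtT F → MvPolynomial (Option (Fin m)) ℝ)
      (Ht' : ℕ → LnT F → MvPolynomial (Option (Fin m)) ℝ),
      Wins F c 1 D' Dr' 1 0 (fun _ => True) C₀' a' Eb' ηm' o' ε' p'' η' σ' lv' be' b' κ' z' Bp gc'
        gT' g₀' G' H' T' TH' Gt' Ht' → Sub Bp A → z' 0 0 = ⌊q₁ * J⌋₊ →
      ∀ (z : ℕ → ℕ → ℕ) (κ : ℝ) (b : ℕ → ℕ → ℝ)
      (B : F.Ω → Prop) (gc gT g₀ : ℕ → ℕ → ℕ)
      (G : ℕ → PtT F → ℕ → MvPolynomial (Option (Fin m)) ℝ)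
      (H : ℕ → LnT F → ℕ → MvPolynomial (Option (Fin m)) ℝ)
      (T : ℕ → PtT F → ℕ → MvPolynomial (Option (Fin m)) ℝ)
      (TH : ℕ → LnT F → ℕ → MvPolynomial (Option (Fin m)) ℝ)
      (Gt : ℕ → PtT F → MvPolynomial (Option (Fin m)) ℝ)
      (Ht : ℕ → LnT F → MvPolynomial (Option (Fin m)) ℝ),
      Wins F c 2 D Dr 2 0 (fun _ => True) C₀ a' Eb ηm o ε p' η σ lv be b κ z B gc gT g₀ G H T TH
        Gt Ht → Sub B Bp →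
      ∀ (X Γ α k s lm r e₀ e₃ : ℕ) (Hl : ℝ) (B' : F.Ω → Prop), Sub B' B →
      Dat F c ⌊o 0 * J⌋₊ ⌊o' 0 * J⌋₊ ⌊o 2 * J⌋₊ X Γ (g₀ 0) (g₀' 0) (g₀ 2) B (G 0) (G' 0) (G 2)
        (Gt 0) (Ht 0) →
      (∀ ω, B' ω → Hl ≤ |hs (Ht 0 (slam F ⌊o 0 * J⌋₊ ω)) (bt F ω) (bd F ω) (ex (c 1))| ∧
        |hs (Ht 0 (slam F ⌊o 0 * J⌋₊ ω)) (bt F ω) (bd F ω) (ex (c 1))| ≤ Hl * 2 ^ lm) →
      2 ^ (⌊o 0 * J⌋₊ + g₀ 0 1) / 2 ^ (g₀ 0 2 + α) ≤ Hl →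
      1 ≤ X → ε₁ * J ≤ k → C₀ * (η 0 * J) ≤ k → e₀ = ⌊(Eb + σ 0 + η 0) * J⌋₊ →
      e₃ = ⌊(Eb + σ 2 + η 2) * J⌋₊ → ⌊o' 0 * J⌋₊ ≤ J → ⌊o 2 * J⌋₊ = ⌊o' 1 * J⌋₊ →
      ⌊o 0 * J⌋₊ ≤ ⌊(w' : ℝ) * J⌋₊ → ⌊o 0 * J⌋₊ ≤ ⌊o' 0 * J⌋₊ →
      ⌊o 2 * J⌋₊ + g₀ 0 1 ≤ ⌊o 0 * J⌋₊ + g₀ 2 1 + X →
      ⌊o 2 * J⌋₊ + g₀' 0 1 ≤ ⌊o' 0 * J⌋₊ + g₀ 2 1 + X →
      ⌊o' 0 * J⌋₊ + g₀ 0 0 ≤ g₀' 0 0 + ⌊o 0 * J⌋₊ + X → g₀' 1 1 ≤ g₀ 2 1 + X →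
      r + lm + C * (k + s + X + 1) ≤ ⌊o' 0 * J⌋₊ - ⌊o 0 * J⌋₊ →
      g₀ 0 0 + α + g₀' 0 1 + ⌊s₁ * J⌋₊ ≤ X + g₀' 0 0 + Γ + g₀ 0 1 →
      g₀ 2 0 + lm + g₀' 0 1 + ⌊s₁ * J⌋₊ ≤ X + g₀' 0 0 + g₀ 2 1 →
      g₀ 0 0 + lm + g₀' 0 1 + ⌊s₁ * J⌋₊ ≤ X + g₀' 0 0 + g₀ 0 1 + r * N →
      gc 2 0 + g₀' 0 1 + ⌊s₁ * J⌋₊ ≤ X + g₀' 0 0 + gc 2 1 →
      C * (k + s + X + 1) ≤ ⌊ζ * J⌋₊ →
      e₀ + C * (k + s + X + 1) ≤ ⌊e₂ * J⌋₊ → e₀ + g₀ 0 0 + C * (k + s + X + 1) ≤ J →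
      e₀ + g₀ 0 1 + C * (k + s + X + 1) ≤ J → (∀ l < 3, e₃ + gc 2 l + C * (k + s + X + 1) ≤ J) →
      ⌊(bet P₂ c 0 w' w' + h) * J⌋₊ + ⌊o 0 * J⌋₊ ≤ g₀ 0 0 + s + ⌊(w' : ℝ) * J⌋₊ →
      Pe F.p B' < κ₁ * Pe F.p A) := by
  obtain ⟨Cf, hCf, hfr⟩ := frm_cls m D 2 2 hD (by norm_num) (by norm_num)
  obtain ⟨C₁, hC₁, hgpt⟩ := gpt_near D 2
  obtain ⟨C₂, hdl⟩ := dat_lam D
  obtain ⟨C₃, hshf⟩ := shf_one m D
  obtain ⟨C₄, hC₄, hrem⟩ := rem_fam m D 1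
  obtain ⟨Cr, hCr, hwn⟩ := win_no' m (D * (N + 1)) D' 1 hDp
  refine ⟨2000 * Cf + (C₁ + C₂ + C₃), Cr, by omega, hCr, ?_⟩
  intro S P P₂ θ θ₂ c C₀ Eb ηm ζ o ε p' η σ lv be Dr C₀' Eb' ηm' o' ε' p'' η' σ' lv' be' Dr' a w w'
    a' q₁ s₁ h e e₂ ε₁ κ₁ hP hP₂ hT hc how1 how2 haa1 haa2 hw0 hwa ha1 hw1 hew hh hζ hCη hq₁ hbet
    hEe h1 h2 h3 h4 h5 h6 hw'0 hw'1 hew' hb0 hε₁ hκ₁
  have hc2 : Set.InjOn c (Set.Iio 2) := hc.mono (Set.Iio_subset_Iio (by norm_num))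
  have hCf0 : (0 : ℝ) < Cf := by exact_mod_cast hCf
  have hL2 : 0 < Real.log 2 := Real.log_pos (by norm_num)
  have hw'1R : (w' : ℝ) < 1 := by exact_mod_cast hw'1
  have hw'0R : (0 : ℝ) ≤ w' := by exact_mod_cast hw'0
  obtain ⟨δ₁, hδ₁, hwn⟩ := hwn (S := S) (P := P) (θ := θ) (c := c) (R := fun _ => True) (C₀ := C₀')
    (Eb := Eb') (ηm := ηm') (ζ := ζ) (o := o') (ε := ε') (p' := p'') (η := η') (σ := σ')
    (lv := lv') (be := be') (r := 1) (Dr := Dr') (N := 1) (M := 0) (k₀ := 0) (n := 1) (a := a)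
    (w := w) (a' := a') (q₁ := q₁) (s₁ := s₁) (h := h) (e := e) hP hT hc2 le_rfl (by norm_num)
    le_rfl how1 how2 haa1 haa2 hw0 hwa ha1 hw1 hew hh hζ hCη hq₁ hbet hEe h1 h2 h3 h4
    (fun l hl => h5 l hl) (fun l _ hl => absurd trivial hl)
    (fun j hj => by
      have : j = 0 := by omega
      subst this
      exact Or.inr (Or.inl ⟨trivial, h6⟩))
  have hf := hfr hP₂ hT c hc2 w' e₂ h ε₁ (κ₁ / 2) hw'0 hw'1 hew' hh hb0 hε₁ (by positivity)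
  obtain ⟨δ, hδ, hsep⟩ := Pool.SEP46.sep_cls hP₂ c 2 w' e₂ h hw'0 hw'1.le hew' hh hb0
  have hpos : Bas S (fun _ F A => 0 < Pe F.p A) := ⟨1, one_pos, 0, fun J _ F A hA =>
    hT.1 1 J F A hA⟩
  obtain ⟨μ, hμ⟩ : ∃ μ : ℝ, μ = min ε₁ (1 - w') * Real.log 2 / 2 := ⟨_, rfl⟩
  have hμ0 : 0 < μ := by
    rw [hμ]
    have : 0 < min ε₁ (1 - (w' : ℝ)) := lt_min hε₁ (by linarith)
    positivity
  have hC₄0 : 0 < C₄ := by linarith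
  obtain ⟨ε₂, hε₂⟩ : ∃ ε₂ : ℝ, ε₂ = μ / C₄ := ⟨_, rfl⟩
  have hε₂0 : 0 < ε₂ := by rw [hε₂]; positivity
  have htm := bas_ev (hT.2 ε₂ hε₂0) hκ₁
  obtain ⟨J₁, hJ₁⟩ := exists_nat_ge (-Real.log (κ₁ / (2 * Cf)) / δ)
  obtain ⟨J₂, hJ₂⟩ := exists_nat_ge (C₄ / μ)
  obtain ⟨J₃, hJ₃⟩ := exists_nat_ge (-Real.log (κ₁ / (8 * Cf)) / δ₁)
  refine Bas.mono (max (max J₁ J₂) J₃) ((((hf.and hsep).and hwn).and htm).and hpos) ?_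
  rintro J hJ F A ⟨⟨⟨⟨hf, hsep⟩, hwn⟩, htm⟩, hA0⟩
  intro z' κ' b' Bp gc' gT' g₀' G' H' T' TH' Gt' Ht' Wn' hBpA hz z κ b B gc gT g₀ G H T TH Gt Ht Wn
    hBBp X Γ α k s lm r e₀ e₃ Hl B' hB' hD' hhv hHl hX hεk
    hCk he₀ he₂ hW₁J hW₂' hWw hWW₁ n1 n2 n3 n9 n4 n5 n6 n7 n8 hCζ hCe hCg hCg' hCg2 hn0
  have hBA : Sub B A := fun ω hω => hBpA ω (hBBp ω hω)
  by_contra hcon
  rw [not_lt] at hcon
  have hp := Pe_nonneg F.isLaw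
  have hJ0 : (0 : ℝ) ≤ J := Nat.cast_nonneg J
  have hB'0 : 0 < Pe F.p B' := (mul_pos hκ₁ hA0).trans_le hcon
  have hJ1 : Real.exp (-(δ * J)) ≤ κ₁ / (2 * Cf) := by
    have h2 : (J₁ : ℝ) ≤ J := by exact_mod_cast ((le_max_left _ _).trans (le_max_left _ _)).trans hJ
    have h3 := hJ₁.trans h2
    rw [div_le_iff₀ hδ] at h3
    have h4 : -(δ * (J : ℝ)) ≤ Real.log (κ₁ / (2 * Cf)) := by linarith only [h3]
    exact (Real.exp_le_exp.2 h4).trans (Real.exp_log (by positivity)).le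
  have hJ3 : Real.exp (-(δ₁ * J)) ≤ κ₁ / (8 * Cf) := by
    have h2 : (J₃ : ℝ) ≤ J := by exact_mod_cast (le_max_right _ _).trans hJ
    have h3 := hJ₃.trans h2
    rw [div_le_iff₀ hδ₁] at h3
    have h4 : -(δ₁ * (J : ℝ)) ≤ Real.log (κ₁ / (8 * Cf)) := by linarith only [h3]
    exact (Real.exp_le_exp.2 h4).trans (Real.exp_log (by positivity)).le
  have hJ2 : C₄ ≤ μ * J := by
    have h2 : (J₂ : ℝ) ≤ J := by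
      exact_mod_cast ((le_max_right _ _).trans (le_max_left _ _)).trans hJ
    have h3 := hJ₂.trans h2
    rw [div_le_iff₀ hμ0] at h3
    linarith only [h3]
  obtain ⟨W, hW⟩ : ∃ W : ℕ, W = ⌊o 0 * J⌋₊ := ⟨_, rfl⟩
  obtain ⟨W₁, hW₁⟩ : ∃ W₁ : ℕ, W₁ = ⌊o' 0 * J⌋₊ := ⟨_, rfl⟩
  obtain ⟨W₂, hW₂⟩ : ∃ W₂ : ℕ, W₂ = ⌊o 2 * J⌋₊ := ⟨_, rfl⟩
  obtain ⟨L, hL⟩ : ∃ L : ℕ, L = Cf * (k + s + 1) := ⟨_, rfl⟩
  obtain ⟨n₀, hn₀⟩ : ∃ n₀ : ℕ, n₀ = (2000 * Cf + (C₁ + C₂ + C₃)) * (k + s + X + 1) := ⟨_, rfl⟩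
  have q0 : 2000 * (k + s + X + 1) + (C₁ + C₂ + C₃) ≤ n₀ := by
    rw [hn₀, add_mul]
    refine Nat.add_le_add (Nat.mul_le_mul_right _ (by omega))
      (Nat.le_mul_of_pos_right _ (by omega))
  have q1 : 2000 * L + 2000 * X + (C₁ + C₂ + C₃) ≤ n₀ := by
    rw [hn₀, hL, add_mul]
    refine Nat.add_le_add ?_ (Nat.le_mul_of_pos_right _ (by omega))
    have : 2000 * Cf * (k + s + X + 1) = 2000 * (Cf * (k + s + 1)) + 2000 * (Cf * X) := by ring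
    rw [this]
    have := Nat.le_mul_of_pos_left X (show 0 < Cf by omega)
    omega
  have q3 : k + s + 1 ≤ L := by
    rw [hL]
    exact Nat.le_mul_of_pos_left (k + s + 1) (show 0 < Cf by omega)
  rw [← hn₀] at n4 hCζ hCe hCg hCg' hCg2
  rw [← hW] at hhv hHl hWw n1 n3 n4 hn0 hWW₁
  rw [← hW₁] at hW₁J n2 n3 n4 hWW₁
  rw [← hW₂] at n1 n2 hW₂'
  rw [← hW, ← hW₁, ← hW₂] at hD'
  rw [← hW₂'] at hwn
  have hWJ : W ≤ J := hWW₁.trans hW₁J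
  have hE0 := Wn.evs 0 (by norm_num)
  have hE1 := Wn'.evs 0 (by norm_num)
  have hE2 := Wn.evs 2 le_rfl
  rw [← hW, ← he₀] at hE0
  rw [← hW₂, ← he₂] at hE2
  have R00 := Wn.row 0 (by norm_num) 0 (by norm_num) le_rfl 0 (by
    rw [Nat.cast_zero, zero_add]
    have := mul_le_mul_of_nonneg_right (Wn.hp' 0 (by norm_num)) hJ0
    linarith only [this]) (by
    rw [Nat.cast_zero, zero_add]
    exact Wn.hgr 0 (by norm_num))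
  rw [← hW] at R00
  obtain ⟨U, hU⟩ : ∃ U : ℝ, U = 2 ^ ⌊C₀ * (η 0 * J)⌋₊ := ⟨_, rfl⟩
  rw [← hU] at R00
  have hU0 : 0 ≤ U := by rw [hU]; positivity
  have hUk : U ≤ 2 ^ k := by
    rw [hU]
    refine pow_le_pow_right₀ (by norm_num) ?_
    have : (⌊C₀ * (η 0 * J)⌋₊ : ℝ) ≤ (k : ℕ) := (Nat.floor_le (mul_nonneg
      (zero_le_one.trans Wn.C1) (mul_nonneg (Wn.hη 0 (by norm_num)).1 hJ0))).trans hCk
    exact_mod_cast this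
  have hB'A : Sub B' A := fun ω hω => hBA ω (hB' ω hω)
  have hHl0 : 0 < Hl := lt_of_lt_of_le (by positivity) hHl
  -- the time
  have hθ0 : 0 ≤ ε₂ * J := by positivity
  have hmain : C₄ * (ε₂ * J + 1) ≤ min ε₁ (1 - (w' : ℝ)) * Real.log 2 * J := by
    have e1 : C₄ * (ε₂ * J) = μ * J := by rw [hε₂]; field_simp
    have e2 : 2 * (μ * J) = min ε₁ (1 - (w' : ℝ)) * Real.log 2 * J := by rw [hμ]; ring
    rw [mul_add, mul_one, e1]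
    linarith only [hJ2, e2]
  have hm1 : C₄ * (ε₂ * J + 1) ≤ k * Real.log 2 := by
    refine hmain.trans ?_
    have e1 : min ε₁ (1 - (w' : ℝ)) * Real.log 2 * J ≤ ε₁ * Real.log 2 * J :=
      mul_le_mul_of_nonneg_right (mul_le_mul_of_nonneg_right (min_le_left _ _) hL2.le) hJ0
    have e2 := mul_le_mul_of_nonneg_right hεk hL2.le
    linarith only [e1, e2]
  have hm2 : C₄ * (ε₂ * J + 1) ≤ ((J : ℝ) - W) * Real.log 2 := by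
    refine hmain.trans ?_
    have e1 : min ε₁ (1 - (w' : ℝ)) * Real.log 2 * J ≤ (1 - w') * Real.log 2 * J :=
      mul_le_mul_of_nonneg_right (mul_le_mul_of_nonneg_right (min_le_right _ _) hL2.le) hJ0
    have e2 : (W : ℝ) ≤ w' * J := by
      have h2 : (W : ℝ) ≤ ⌊(w' : ℝ) * J⌋₊ := by exact_mod_cast hWw
      exact h2.trans (Nat.floor_le (mul_nonneg hw'0R hJ0))
    have e3 := mul_le_mul_of_nonneg_right e2 hL2.le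
    linarith only [e1, e3]
  have hexp : Real.exp (C₄ * (ε₂ * J + 1)) ≤ 2 ^ k := by
    have e2 : Real.exp (C₄ * (ε₂ * J + 1)) ≤ Real.exp (k * Real.log 2) := Real.exp_le_exp.2 hm1
    rw [mul_comm (k : ℝ), ← Real.rpow_def_of_pos (by norm_num), Real.rpow_natCast] at e2
    exact e2
  obtain ⟨Bm, m1, m2, m3⟩ := hrem J F B' hB'0 W (fun _ s => hq W s (Ht 0 s) (ex (c 1)))
    (fun _ => Hl * 2 ^ lm) (ε₂ * J) hWJ (fun _ _ s => deg_hq W s (hE0.dH s) _)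
    (fun _ _ => by positivity) hθ0 (htm B' hB'A hcon hB'0) hm2 (fun ω hω _ _ => by
      rw [eval_hq_rt F hWJ]
      exact (hhv ω hω).2)
  have hBmA : Sub Bm A := fun ω hω => hB'A ω (m1 ω hω)
  have hBmB : Sub Bm B := fun ω hω => hB' ω (m1 ω hω)
  have hPBm : κ₁ / 2 * Pe F.p A ≤ Pe F.p Bm := by linarith only [hcon, m2]
  have hball : ChOK F c 3 (fun _ => D) W W e₀ (g₀ 0) Bm (G 0) (H 0) := hE0.ball.sub hBmB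
  have hcv : ∀ y l, CvC c l (gpt F (G 0) y l) := fun y l => cvc_grd (hE0.ball.depG y l) _
  have hgp := hgpt (r := 3) hc2 (by norm_num) hball (fun l hl => by
    have : l = 0 ∨ l = 1 := by omega
    rcases this with rfl | rfl <;> omega)
  have h2k : (1 : ℝ) ≤ 2 ^ k := one_le_pow₀ (by norm_num)
  obtain ⟨B₁, ψ, ψH, c1, c2, c3, c4, -⟩ := hf W W (⌊a' * J⌋₊ - W) e₀ k s L 0 (g₀ 0 0 + s) (g₀ 0)
    (gT 0) U (G 0) (H 0) (T 0) (TH 0) (Ht 0) (gpt F (G 0)) Bm hWJ hWw hεk (by rw [← hL]; omega)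
    (by rw [← hL]) (by rw [← hL]; omega) le_rfl
    (by omega) (by omega) hBmA hPBm hball (R00.sub hBmB) hU0 hUk
    (fun l h1 h2 => absurd h1 (by omega)) hcv (fun ω hω => (hgp ω hω).mono h2k)
  rw [← hL] at c3 c4
  have hB₁A : Sub B₁ A := fun ω hω => hBmA ω (c1 ω hω)
  have hPB₁ : κ₁ / (2 * Cf) * Pe F.p A ≤ Pe F.p B₁ := by
    have e1 : κ₁ / (2 * Cf) * Pe F.p A = κ₁ / 2 * Pe F.p A / Cf := by field_simp
    rw [e1, div_le_iff₀ hCf0, mul_comm (Pe F.p B₁)]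
    exact hPBm.trans c2
  obtain ⟨B₂, d1, d2, d3⟩ := hsep 2 W (e₀ + L) L s (s + 2 * L + 9) (g₀ 0 0 + s) (g₀ 0) ψ ψH
    (by norm_num) hWJ hWw (by omega) le_rfl (by omega) le_rfl
    (by omega) (by omega) B₁ hB₁A c3
    ((mul_le_mul_of_nonneg_right hJ1 hA0.le).trans hPB₁)
  -- the facts at the samples
  have hD1 : Dat F c W W₁ W₂ X Γ (g₀ 0) (g₀' 0) (g₀ 2) B₁ (G 0) (G' 0) (G 2) (Gt 0) (Ht 0) :=
    hD'.sub fun ω hω => hBmB ω (c1 ω hω)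
  obtain ⟨t, ht⟩ : ∃ t : ℕ, t = s + 2 * L + 9 := ⟨_, rfl⟩
  rw [← ht] at d3
  choose ν f1 f2 f3 using d3
  have hB₂B : Sub B₂ B := fun ω hω => hBmB ω (c1 ω (d1 ω hω))
  have hdl' := fun (ω : F.Ω) (hω : B₂ ω) => hdl (t := t) (k := 4 * L + 7) (k' := k) (lm := lm)
    (N := N) (α := α) (s₁ := ⌊s₁ * J⌋₊) (r := r) (ψH := ψH) hD1 (fun y => c3.dep y 0) (d1 ω hω)
    (f1 ω hω) (f2 ω hω) (f3 ω hω) (fun ν hν => (hhv ν (m1 ν (c1 ν hν))).2)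
    (fun τ hτ => by
      refine (m3 ω (c1 ω (d1 ω hω)) 0 (by norm_num) τ hτ).trans
        (mul_le_mul_of_nonneg_right hexp (by positivity)))
    (hhv ω (m1 ω (c1 ω (d1 ω hω)))).1 hHl (by
      rw [← c3.cls ω (d1 ω hω), abs_sub_comm]
      exact psi_y hc le_rfl (c3.dep _ 0) (nc_psi (by norm_num) (hgp ω (c1 ω (d1 ω hω)))
        (c4 ω (d1 ω hω)))) hWW₁ hW₁J hE0.dH n1 n2 n3 (by omega) n5 n6 n7
  obtain ⟨Z, hZ⟩ : ∃ Z : ℕ, Z = ⌊ζ * J⌋₊ := ⟨_, rfl⟩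
  rw [← hZ] at hCζ hwn
  have hd2 : ∀ y l, DepC c l (G 2 y l) := hE2.ball.depG
  have hd1 : ∀ y l, DepC c l (G' 0 y l) := hE1.ball.depG
  rw [← hW₁] at hwn
  have hend := hwn z' κ' b' Bp gc' gT' g₀' G' H' T' TH' Gt' Ht' 0 Wn' hBpA le_rfl hz B₂
    (fun y => G 2 y 1) (lam1 c W (W₁ - W) N ψH (Ht 0)) (fun ω hω => hBBp ω (hB₂B ω hω))
    (fun ω ν hω hν hpt => by
      refine (hD'.vel2 ω ν (hB₂B ω hω) (hB₂B ν hν) hpt 1 (by norm_num)).trans ?_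
      rw [← pow_add, ← pow_add, div_le_div_iff₀ (by positivity) (by positivity), ← pow_add,
        ← pow_add]
      exact pow_le_pow_right₀ (by norm_num) (by omega))
    (fun ω hω V hV => by
      rw [dd_mu hd2 ω hV, dd_mu hd1 ω hV, nrm_sp1 (hd1 _ 0) _ _ _ hV, ← sub_mul, abs_mul,
        abs_sub_comm]
      refine (mul_le_mul_of_nonneg_right (hdl' ω hω).2 (abs_nonneg _)).trans ?_
      calc 2 ^ (3 * X + t + 2) * ((2 : ℝ) ^ g₀' 0 0 / 2 ^ g₀' 0 1) * |V (some (c 0))| ≤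
            2 ^ Z * ((2 : ℝ) ^ g₀' 0 0 / 2 ^ g₀' 0 1) * |V (some (c 0))| := by
            refine mul_le_mul_of_nonneg_right (mul_le_mul_of_nonneg_right
              (pow_le_pow_right₀ (by norm_num) (by omega)) (by positivity)) (abs_nonneg _)
        _ = _ := by ring)
    (fun ω ν hω hν hpt V hV => by
      rw [nrm_sp1 (hd1 _ 0) _ _ _ hV]
      refine (hshf hc (hE2.top.sub hB₂B) hd2 (fun l hl => by have := hCg2 l hl; omega) ω ν hω hν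
        hpt V hV).trans ?_
      have e1 : (2 : ℝ) ^ (C₃ + gc 2 0) / 2 ^ gc 2 1 ≤
          2 ^ Z * (2 ^ g₀' 0 0 / 2 ^ (g₀' 0 1 + ⌊s₁ * J⌋₊)) := two_div (by omega)
      calc (2 : ℝ) ^ C₃ / 2 ^ gc 2 1 * (2 ^ gc 2 0 * |V (some (c 0))|) =
            2 ^ (C₃ + gc 2 0) / 2 ^ gc 2 1 * |V (some (c 0))| := by rw [pow_add]; ring
        _ ≤ 2 ^ Z * (2 ^ g₀' 0 0 / 2 ^ (g₀' 0 1 + ⌊s₁ * J⌋₊)) * |V (some (c 0))| :=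
            mul_le_mul_of_nonneg_right e1 (abs_nonneg _)
        _ = _ := by ring)
    (deg_lam1 c W (W₁ - W) N ψH hE0.dH) (fun ω hω V hV => by
      rw [Finset.sum_range_one, dd_mu hd2 ω hV, nrm_sp1 (hd1 _ 0) _ _ _ hV, ← sub_mul, abs_mul]
      refine (mul_le_mul_of_nonneg_right (hdl' ω hω).1 (abs_nonneg _)).trans ?_
      calc 2 ^ (40 * (X + t + (4 * L + 7) + k + 1)) *
            ((2 : ℝ) ^ g₀' 0 0 / 2 ^ (g₀' 0 1 + ⌊s₁ * J⌋₊)) * |V (some (c 0))| ≤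
            2 ^ Z * ((2 : ℝ) ^ g₀' 0 0 / 2 ^ (g₀' 0 1 + ⌊s₁ * J⌋₊)) * |V (some (c 0))| := by
            refine mul_le_mul_of_nonneg_right (mul_le_mul_of_nonneg_right
              (pow_le_pow_right₀ (by norm_num) (by omega)) (by positivity)) (abs_nonneg _)
        _ = _ := by ring)
  have h7 : κ₁ / (2 * Cf) * Pe F.p A ≤ 2 * Pe F.p B₂ := hPB₁.trans d2
  have h8 : Pe F.p B₂ ≤ κ₁ / (8 * Cf) * Pe F.p A := hend.trans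
    (mul_le_mul_of_nonneg_right hJ3 (hp A))
  have h9 : κ₁ / (2 * Cf) * Pe F.p A = 4 * (κ₁ / (8 * Cf) * Pe F.p A) := by
    field_simp
    norm_num
  have h10 : 0 < κ₁ / (8 * Cf) * Pe F.p A := by positivity
  rw [h9] at h7
  linarith only [h7, h8, h10]

end Pool.C2T
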