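import Pool.Agent.H54.C2T.Rel
import Pool.Agent.H23.D2.Env

/-!
# Closed curvatures along the own line; the rounded point

`hq`: the second derivative of a closed polynomial in the direction of the own line, as a polynomial
of the relative time. `grad_var`: the variation of the gradient on the window. `pol_var`: the
variation of a polynomial. `top_pos`: the exact point is in the middle of the box of a re-centred
chart. `hx_shf`: the gradient of a label at the rounded point.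
-/

set_option autoImplicit false

namespace Pool.C2T

open Finset Real MvPolynomial
open Pool.Agent.H49.Ent Pool.Agent.H32.Dense Pool.STK Pool.KA Pool.KSAT Pool.K2S Pool.PB Pool.S6C
open Pool.GEN Pool.CHT Pool.CHX Pool.ISO Pool.D2R Pool.D2Z Pool.D2F
open Pool.PB.Trl (rt rt_mem t_rt)

variable {m J : ℕ}

/-- The variation of a polynomial. -/
theorem pol_var (K : ℕ) : ∃ C : ℝ, 1 ≤ C ∧ ∀ (q : Polynomial ℝ) (S : ℝ), q.natDegree ≤ K →
    (∀ t ∈ Set.Icc (0 : ℝ) 1, |q.eval t| ≤ S) → ∀ x y : ℝ, |x| ≤ 2 → |y| ≤ 2 →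
      |q.eval x - q.eval y| ≤ C * S * |x - y| := by
  obtain ⟨C, hC, h⟩ := Pool.Agent.H40.FR.unit_coef K
  obtain ⟨A, hA⟩ : ∃ A : ℝ, A = ∑ j ∈ range (K + 1), ((j : ℝ) * 2 ^ j) := ⟨_, rfl⟩
  have hA0 : 0 ≤ A := by
    rw [hA]
    exact Finset.sum_nonneg fun j _ => by positivity
  refine ⟨C * A + 1, by nlinarith, ?_⟩
  intro q S hq hS x y hx hy
  have hS0 : 0 ≤ S := (abs_nonneg _).trans (hS 0 ⟨le_rfl, by norm_num⟩)
  have h1 := h q S hq hS
  have hp : ∀ j : ℕ, |x ^ j - y ^ j| ≤ (j : ℝ) * 2 ^ j * |x - y| := by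
    intro j
    induction j with
    | zero => simp
    | succ j ih =>
      have e : x ^ (j + 1) - y ^ (j + 1) = x * (x ^ j - y ^ j) + (x - y) * y ^ j := by ring
      rw [e]
      refine (abs_add_le _ _).trans ?_
      rw [abs_mul, abs_mul, abs_pow]
      have h2 : |x| * |x ^ j - y ^ j| ≤ 2 * ((j : ℝ) * 2 ^ j * |x - y|) :=
        mul_le_mul hx ih (abs_nonneg _) (by norm_num)
      have h3 : |x - y| * |y| ^ j ≤ |x - y| * 2 ^ j :=
        mul_le_mul_of_nonneg_left (pow_le_pow_left₀ (abs_nonneg _) hy j) (abs_nonneg _)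
      have h4 : 0 ≤ |x - y| * 2 ^ j := by positivity
      push_cast
      rw [pow_succ]
      nlinarith
  rw [Polynomial.eval_eq_sum_range' (Nat.lt_succ_of_le hq),
    Polynomial.eval_eq_sum_range' (Nat.lt_succ_of_le hq), ← Finset.sum_sub_distrib]
  refine (Finset.abs_sum_le_sum_abs _ _).trans ?_
  have h2 : ∀ j ∈ range (K + 1), |q.coeff j * x ^ j - q.coeff j * y ^ j| ≤
      C * S * |x - y| * ((j : ℝ) * 2 ^ j) := by
    intro j _
    rw [← mul_sub, abs_mul]
    refine (mul_le_mul (h1 j) (hp j) (abs_nonneg _) (by positivity)).trans (le_of_eq ?_)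
    ring
  refine (Finset.sum_le_sum h2).trans ?_
  rw [← Finset.mul_sum, ← hA]
  have h3 : 0 ≤ S * |x - y| := mul_nonneg hS0 (abs_nonneg _)
  nlinarith

/-- The second derivative in the direction of the line, as a polynomial of the relative time. -/
noncomputable def hq {ζ : Type} (w : ℕ) (s : ((Fin m → ℝ) × (Fin m → ℝ)) × ζ × ℕ)
    (Q : MvPolynomial (Option (Fin m)) ℝ) (V : Option (Fin m) → ℝ) : Polynomial ℝ :=
  MvPolynomial.aeval (lc w s) (dP (dP Q V) (wd s))

theorem eval_hq {ζ : Type} (w : ℕ) (s : ((Fin m → ℝ) × (Fin m → ℝ)) × ζ × ℕ)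
    (Q : MvPolynomial (Option (Fin m)) ℝ) (V : Option (Fin m) → ℝ) (τ : ℝ) :
    (hq w s Q V).eval τ = hs Q (xt w s τ) (wd s) V := by
  unfold hq
  rw [eval_lcR, eval_dP2]

theorem deg_hq {ζ : Type} (w : ℕ) (s : ((Fin m → ℝ) × (Fin m → ℝ)) × ζ × ℕ)
    {Q : MvPolynomial (Option (Fin m)) ℝ} {D : ℕ} (hQ : Q.totalDegree ≤ D)
    (V : Option (Fin m) → ℝ) : (hq w s Q V).natDegree ≤ D := by
  unfold hq
  exact Pool.KBX.natDegree_aeval_le _ _ (natDegree_lc w s) (deg_dP (deg_dP hQ V) _)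

theorem xt_rt (F : Fam m J) {w : ℕ} (hw : w ≤ J) (ω : F.Ω) :
    xt w (slam F w ω) (rt F w ω) = bt F ω := funext fun o => eval_lc F hw ω o

theorem eval_hq_rt (F : Fam m J) {w : ℕ} (hw : w ≤ J) (ω : F.Ω)
    (Q : MvPolynomial (Option (Fin m)) ℝ) (V : Option (Fin m) → ℝ) :
    (hq w (slam F w ω) Q V).eval (rt F w ω) = hs Q (bt F ω) (bd F ω) V := by
  rw [eval_hq, xt_rt F hw, wd_slam]

theorem hq_add {ζ : Type} (w : ℕ) (s : ((Fin m → ℝ) × (Fin m → ℝ)) × ζ × ℕ)
    (Q : MvPolynomial (Option (Fin m)) ℝ) (V V' : Option (Fin m) → ℝ) (t τ : ℝ) :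
    (hq w s Q (V + t • V')).eval τ = (hq w s Q V).eval τ + t * (hq w s Q V').eval τ := by
  rw [eval_hq, eval_hq, eval_hq, hs_add_right, hs_smul_right]

theorem xt_add {ζ : Type} (w : ℕ) (s : ((Fin m → ℝ) × (Fin m → ℝ)) × ζ × ℕ) (τ : ℝ)
    (o : Option (Fin m)) : xt w s τ o = xt w s 0 o + τ * (1 / 2 ^ w * wd s o) := by
  cases o with
  | none =>
    simp only [xt, lc, wd, Polynomial.eval_add, Polynomial.eval_mul, Polynomial.eval_C,
      Polynomial.eval_X]
    ring
  | some j =>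
    simp only [xt, lc, wd, Polynomial.eval_add, Polynomial.eval_mul, Polynomial.eval_C,
      Polynomial.eval_X]
    ring

/-- **The variation of the gradient on the window.** -/
theorem grad_var {ζ : Type} (w : ℕ) (s : ((Fin m → ℝ) × (Fin m → ℝ)) × ζ × ℕ)
    (Q : MvPolynomial (Option (Fin m)) ℝ) (V : Option (Fin m) → ℝ) {M : ℝ}
    (h : ∀ τ ∈ Set.Icc (0 : ℝ) 1, |(hq w s Q V).eval τ| ≤ M) :
    ∀ τ ∈ Set.Icc (0 : ℝ) 1, |dd Q (xt w s τ) V - dd Q (xt w s 0) V| ≤ M / 2 ^ w := by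
  intro τ hτ
  have hM : 0 ≤ M := (abs_nonneg _).trans (h 0 ⟨le_rfl, zero_le_one⟩)
  obtain ⟨δ, hδ⟩ : ∃ δ : Option (Fin m) → ℝ, δ = (τ / 2 ^ w) • wd s := ⟨_, rfl⟩
  have hx : ∀ u : ℝ, (fun o => xt w s 0 o + u * δ o) = xt w s (u * τ) := by
    intro u
    funext o
    rw [xt_add w s (u * τ), hδ, Pi.smul_apply, smul_eq_mul]
    ring
  have h1 := mv_seg (dP Q V) (xt w s 0) δ (M := M / 2 ^ w) (fun u hu => by
    rw [hx u, dd_dP, hδ, hs_smul_left, ← eval_hq, abs_mul, abs_of_nonneg (div_nonneg hτ.1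
      (by positivity))]
    have h2 := h (u * τ) ⟨mul_nonneg hu.1 hτ.1, mul_le_one₀ hu.2 hτ.1 hτ.2⟩
    calc τ / 2 ^ w * |(hq w s Q V).eval (u * τ)| ≤ τ / 2 ^ w * M :=
          mul_le_mul_of_nonneg_left h2 (div_nonneg hτ.1 (by positivity))
      _ ≤ 1 / 2 ^ w * M := mul_le_mul_of_nonneg_right (div_le_div_of_nonneg_right hτ.2
          (by positivity)) hM
      _ = _ := by ring) 1 ⟨zero_le_one, le_rfl⟩
  rw [hx 1, one_mul, eval_dP, eval_dP] at h1
  exact h1

/-- The re-centred chart at the rounded point. -/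
theorem gno_hx {F : Fam m J} (k : Fin m) (P : PtT F → MvPolynomial (Option (Fin m)) ℝ)
    (ω : F.Ω) : eval (hx F ω) (Gno k J J P (ptr F J ω)) = hx F ω (some k) := by
  unfold Gno hx
  rw [map_add, eval_C]
  show eval _ _ + (((ptr F J ω).1 k : ℝ) / 2 ^ J - eval _ _) = ((ptr F J ω).1 k : ℝ) / 2 ^ J
  ring

theorem nlp_two {g : ℕ → ℕ} {e C J : ℕ} (h : ∀ l < 3, e + g l + C ≤ J) {i j : ℕ} (hi : i < 3)
    (hj : j ≤ i) : e + nlp g j i + g i + C ≤ J := by
  obtain ⟨x, hx, hxe⟩ := Finset.exists_mem_eq_sup (Finset.Icc j i)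
    ⟨i, Finset.mem_Icc.2 ⟨hj, le_rfl⟩⟩ g
  have h1 : g i ≤ (Finset.Icc j i).sup g := Finset.le_sup (f := g)
    (Finset.mem_Icc.2 ⟨hj, le_rfl⟩)
  have h2 := h x (by have := (Finset.mem_Icc.1 hx).2; omega)
  unfold nlp
  rw [hxe] at h1 ⊢
  omega

/-- **The exact point is in the middle of the box.** -/
theorem top_pos {F : Fam m J} {c : ℕ → Fin m} {D a w e : ℕ} {g : ℕ → ℕ} {B : F.Ω → Prop}
    {G : PtT F → ℕ → MvPolynomial (Option (Fin m)) ℝ}
    {H : LnT F → ℕ → MvPolynomial (Option (Fin m)) ℝ}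
    (hch : ChOK F c 3 (fun _ => D) a w e g B (fun y l => Gno (c l) J J (fun y => G y l) y) H)
    (hJ : ∀ l < 3, e + g l + 2 ≤ J) : ∀ ω, B ω → ∀ l < 2,
    |F.x ω (c l) - eval (bt F ω) (Gno (c l) J J (fun y => G y l) (ptr F J ω))| ≤
      1 / 2 ^ (g l + 1) := by
  classical
  intro ω hω
  have hP : ∀ l, DepC c l (Gno (c l) J J (fun y => G y l) (ptr F J ω)) := fun l =>
    hch.depG (ptr F J ω) l
  have hxk : ∀ k, |F.x ω k - hx F ω (some k)| ≤ 1 / 2 ^ J := fun k => by
    have := hx_some F ω k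
    rw [abs_sub_comm] at this
    exact this
  have e0 : eval (bt F ω) (Gno (c 0) J J (fun y => G y 0) (ptr F J ω)) = hx F ω (some (c 0)) := by
    rw [← gno_hx (c 0) (fun y => G y 0) ω]
    exact hP 0 _ _ rfl fun l hl => absurd hl (Nat.not_lt_zero l)
  intro l hl
  have hl2 : l = 0 ∨ l = 1 := by omega
  rcases hl2 with rfl | rfl
  · rw [e0]
    refine (hxk _).trans (one_div_le_one_div_of_le (by positivity)
      (pow_le_pow_right₀ (by norm_num) ?_))
    have := hJ 0 (by norm_num)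
    omega
  · obtain ⟨P, hPe⟩ : ∃ P, P = Gno (c 1) J J (fun y => G y 1) (ptr F J ω) := ⟨_, rfl⟩
    obtain ⟨δ, hδ⟩ : ∃ δ : Option (Fin m) → ℝ, δ = (hx F ω (some (c 0)) - F.x ω (c 0)) • ex (c 0) :=
      ⟨_, rfl⟩
    have hδn : δ none = 0 := by rw [hδ, Pi.smul_apply, ex_none, smul_zero]
    have hδ0 : δ (some (c 0)) = hx F ω (some (c 0)) - F.x ω (c 0) := by
      rw [hδ, Pi.smul_apply, ex_self, smul_eq_mul, mul_one]
    have hP1 : DepC c 1 P := by rw [hPe]; exact hP 1
    have h1 := mv_seg P (bt F ω) δ (M := 2 ^ (e + nlp g 0 1) * (1 / 2 ^ J)) (fun u hu => by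
      rw [dd_one hP1, hδn, mul_zero, zero_add, abs_mul]
      refine mul_le_mul ?_ ?_ (abs_nonneg _) (by positivity)
      · rw [hPe]
        refine hch.lip ω hω 1 (by norm_num) _ ⟨?_, fun j hj => ?_⟩ 0 (by norm_num)
        · show |bt F ω none + u * δ none - F.t ω| ≤ _
          rw [hδn, mul_zero, add_zero]
          have : bt F ω none = F.t ω := rfl
          rw [this, sub_self, abs_zero]
          positivity
        · have hj0 : j = 0 := by omega
          rw [hj0]
          have e1 : eval (fun o => bt F ω o + u * δ o) (Gno (c 0) J J (fun y => G y 0)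
              (ptr F J ω)) = hx F ω (some (c 0)) := by
            rw [← e0]
            refine hP 0 _ _ ?_ fun l hl => absurd hl (Nat.not_lt_zero l)
            show bt F ω none + u * δ none = bt F ω none
            rw [hδn, mul_zero, add_zero]
          show |F.x ω (c 0) + u * δ (some (c 0)) - _| ≤ _
          rw [e1, hδ0]
          have e2 : F.x ω (c 0) + u * (hx F ω (some (c 0)) - F.x ω (c 0)) -
              hx F ω (some (c 0)) = (1 - u) * (F.x ω (c 0) - hx F ω (some (c 0))) := by ring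
          rw [e2, abs_mul, abs_of_nonneg (by linarith [hu.2] : (0 : ℝ) ≤ 1 - u)]
          have h2 : (1 - u) * |F.x ω (c 0) - hx F ω (some (c 0))| ≤ 1 * (1 / 2 ^ J) :=
            mul_le_mul (by linarith [hu.1]) (hxk _) (abs_nonneg _) zero_le_one
          rw [one_mul] at h2
          refine h2.trans (one_div_le_one_div_of_le (by positivity)
            (pow_le_pow_right₀ (by norm_num) ?_))
          have := hJ 0 (by norm_num)
          omega
      · rw [hδ0, abs_sub_comm]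
        exact hxk _) 1 ⟨zero_le_one, le_rfl⟩
    have e3 : eval (fun o => bt F ω o + 1 * δ o) P = hx F ω (some (c 1)) := by
      rw [← gno_hx (c 1) (fun y => G y 1) ω, ← hPe]
      refine hP1 _ _ ?_ fun l hl => ?_
      · show bt F ω none + 1 * δ none = hx F ω none
        rw [hδn, hx_none]
        ring
      · have hl0 : l = 0 := by omega
        rw [hl0]
        show F.x ω (c 0) + 1 * δ (some (c 0)) = _
        rw [hδ0]
        ring
    rw [e3] at h1
    have e4 : F.x ω (c 1) - eval (bt F ω) P = (F.x ω (c 1) - hx F ω (some (c 1))) +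
        (hx F ω (some (c 1)) - eval (bt F ω) P) := by ring
    rw [← hPe, e4]
    refine (abs_add_le _ _).trans ((add_le_add (hxk _) h1).trans ?_)
    have h5 := nlp_two hJ (i := 1) (j := 0) (by norm_num) (by norm_num)
    have h6 : (1 : ℝ) / 2 ^ J ≤ 1 / 2 ^ (g 1 + 2) :=
      one_div_le_one_div_of_le (by positivity) (pow_le_pow_right₀ (by norm_num) (by omega))
    have h7 : (2 : ℝ) ^ (e + nlp g 0 1) * (1 / 2 ^ J) ≤ 1 / 2 ^ (g 1 + 2) := by
      rw [mul_one_div, div_le_div_iff₀ (by positivity) (by positivity), one_mul, ← pow_add]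
      exact pow_le_pow_right₀ (by norm_num) (by omega)
    refine (add_le_add h6 h7).trans (le_of_eq ?_)
    rw [pow_succ, pow_succ]
    field_simp
    norm_num

/-- **The gradient of a label at the rounded point.** -/
theorem hx_shf (m D : ℕ) : ∃ C : ℕ, ∀ {J : ℕ} {F : Fam m J} {c : ℕ → Fin m} {a w e s i : ℕ}
    {g : ℕ → ℕ} {B : F.Ω → Prop} {G : PtT F → ℕ → MvPolynomial (Option (Fin m)) ℝ}
    {H : LnT F → ℕ → MvPolynomial (Option (Fin m)) ℝ} {Q : MvPolynomial (Option (Fin m)) ℝ}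
    {M : ℝ}, Set.InjOn c (Set.Iio 3) →
    ChOK F c 3 (fun _ => D) a w e g B (fun y l => Gno (c l) J J (fun y => G y l) y) H →
    (∀ l < 3, e + g l + s + C ≤ J) → i ≤ 2 → DepC c i Q → Q.totalDegree ≤ D → ∀ {ω : F.Ω},
    B ω → (∀ b, NBx c (fun l => Gno (c l) J J (fun y => G y l) (ptr F J ω)) g a (F.t ω) i b →
      |eval b Q - eval b (Gno (c i) J J (fun y => G y i) (ptr F J ω))| ≤ M) →
    ∀ V : Option (Fin m) → ℝ, |dd Q (hx F ω) V - dd Q (bt F ω) V| ≤
      2 ^ C * (M + 1 / 2 ^ g i) / 2 ^ s * nrm c (G (ptr F J ω)) g a i (bt F ω) V := by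
  have hsh := fun i : ℕ => shf_pol m D i
  choose C₁ hsh using hsh
  obtain ⟨C, hC⟩ : ∃ C : ℕ, C = C₁ 0 + C₁ 1 + C₁ 2 + 2 := ⟨_, rfl⟩
  refine ⟨C, ?_⟩
  intro J F c a w e s i g B G H Q M hc hch hJ hi hQ hQd ω hω hM V
  have hC1 : C₁ i ≤ C := by
    have : i = 0 ∨ i = 1 ∨ i = 2 := by omega
    rcases this with rfl | rfl | rfl <;> omega
  have hM0 : 0 ≤ M := by
    obtain ⟨b, hb, -⟩ := nbx_up (c := c)
      (G := fun l => Gno (c l) J J (fun y => G y l) (ptr F J ω)) (g := g) (a := a) (t := F.t ω)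
      (l := 0) (r := i) (hc.mono fun x hx => by rw [Set.mem_Iio] at hx ⊢; omega)
      (fun l => hch.depG (ptr F J ω) l) (Nat.zero_le _) (b := bt F ω)
      ⟨by
        show |F.t ω - F.t ω| ≤ _
        rw [sub_self, abs_zero]
        positivity, fun j hj => absurd hj (Nat.not_lt_zero j)⟩
    exact (abs_nonneg _).trans (hM b hb)
  obtain ⟨η, hη⟩ : ∃ η : Option (Fin m) → ℝ, η = fun o => hx F ω o - bt F ω o := ⟨_, rfl⟩
  have h1 := (hsh i (c := c) (ψ := fun l => Gno (c l) J J (fun y => G y l) (ptr F J ω)) (Q := Q)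
    (g := g) (a := a) (e := e) (s := s) (J := J) (M := M) (x := bt F ω) (η := η)
    (hc.mono fun x hx => by rw [Set.mem_Iio] at hx ⊢; omega)
    (fun l => hch.degG (ptr F J ω) l) (fun l => hch.depG (ptr F J ω) l) hQ hQd
    (fun l hl b hb j hj => hch.lip ω hω l (by omega) b hb j hj) hM
    (fun l hl => by
      have := hJ l (by omega)
      omega) (by
      rw [hη]
      show hx F ω none - bt F ω none = 0
      rw [hx_none, sub_self]) (fun l _ => by
      rw [hη]
      exact hx_some F ω (c l)) (fun l hl => top_pos hch (fun l hl => by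
        have := hJ l hl
        omega) ω hω l (by omega))).2.1 V
  have e1 : (fun o => bt F ω o + η o) = hx F ω := by
    rw [hη]
    funext o
    ring
  rw [e1, nrm_Gno c G] at h1
  refine h1.trans (mul_le_mul_of_nonneg_right (div_le_div_of_nonneg_right
    (mul_le_mul_of_nonneg_right (pow_le_pow_right₀ (by norm_num) hC1) (by positivity))
    (by positivity)) (nrm_nonneg _ _ _ _ _ _ _))

end Pool.C2T
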