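import Pool.Agent.H88.D2.Rcv
import Pool.Agent.H60.D2.Trf
import Pool.Agent.H60.D2.Tay
import Pool.Agent.H23.D2.Shf

/-!
# Polarisation with three lines in one plane; the second derivative at two points of one cell

`pol_hs`: a symmetric form which is small on three vectors with separated first coordinates, which
are in one plane over the first coordinate up to an error, is small between the first vector and the
direction of the plane. `hs_shf`: the second derivative in the direction of a coordinate at two points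
of one cell.
-/

set_option autoImplicit false

namespace Pool.C2T

open Finset Real MvPolynomial
open Pool.Agent.H49.Ent Pool.Agent.H32.Dense Pool.STK Pool.KA Pool.KSAT Pool.K2S Pool.PB Pool.S6C
open Pool.GEN Pool.CHT Pool.CHX Pool.ISO Pool.D2R Pool.D2Z Pool.D2F

variable {m J : ℕ}

theorem dd_dp {c : ℕ → Fin m} {r : ℕ} {Q : MvPolynomial (Option (Fin m)) ℝ} (hQ : DepC c r Q)
    {x x' W W' : Option (Fin m) → ℝ} (x0 : x none = x' none)
    (xl : ∀ l < r, x (some (c l)) = x' (some (c l))) (w0 : W none = W' none)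
    (wl : ∀ l < r, W (some (c l)) = W' (some (c l))) : dd Q x W = dd Q x' W' := by
  rw [dd_congr hQ x w0 wl]
  unfold dd
  exact Finset.sum_congr rfl fun o _ => by rw [depC_pderiv hQ o x x' x0 xl]

/-- The second derivative only depends on the coordinates of the chart. -/
theorem hs_dp {c : ℕ → Fin m} {r : ℕ} {Q : MvPolynomial (Option (Fin m)) ℝ} (hQ : DepC c r Q)
    {x x' W W' V V' : Option (Fin m) → ℝ} (x0 : x none = x' none)
    (xl : ∀ l < r, x (some (c l)) = x' (some (c l))) (w0 : W none = W' none)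
    (wl : ∀ l < r, W (some (c l)) = W' (some (c l))) (v0 : V none = V' none)
    (vl : ∀ l < r, V (some (c l)) = V' (some (c l))) : hs Q x W V = hs Q x' W' V' := by
  unfold hs
  refine Finset.sum_congr rfl fun o _ => ?_
  have h1 : dd (pderiv o Q) x W = dd (pderiv o Q) x' W' := dd_dp (depC_pderiv hQ o) x0 xl w0 wl
  cases o with
  | none => rw [h1, v0]
  | some k =>
    by_cases h9 : ∃ j < r, c j = k
    · obtain ⟨j, h10, rfl⟩ := h9
      rw [h1, vl j h10]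
    · have h2 : pderiv (some k) Q = 0 := pd_zero' hQ fun j h10 h11 => h9 ⟨j, h10, h11⟩
      rw [h2]
      unfold dd
      simp

/-- The numbers of the polarisation. -/
theorem pol_num {a b1 b2 d q s t c1 c2 ε E1 E2 n β R μ : ℝ} (hμ : 0 < μ)
    (e1 : b1 = a + 2 * E1 * d + E1 ^ 2 * q)
    (e2 : b2 = a + 2 * E2 * d + E2 ^ 2 * q + ε * (s + E2 * t + c2)) (e3 : c1 = s + E1 * t)
    (ha : |a| ≤ n) (hb1 : |b1| ≤ n) (hb2 : |b2| ≤ n) (hs : |s| ≤ β) (hc1 : |c1| ≤ β)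
    (hc2 : |c2| ≤ β) (hE1 : μ ≤ |E1|) (hE2 : μ ≤ |E2|) (hE : μ ≤ |E2 - E1|) (hR1 : |E1| ≤ R)
    (hR2 : |E2| ≤ R) : |d| ≤ R ^ 2 / μ ^ 3 * (2 * n + 2 * |ε| * (β * (R / μ))) := by
  have hβ : 0 ≤ β := (abs_nonneg _).trans hs
  have hn : 0 ≤ n := (abs_nonneg _).trans ha
  have hR : μ ≤ R := hE1.trans hR1
  have hR0 : 0 < R := hμ.trans_le hR
  have hRμ : 1 ≤ R / μ := by rwa [le_div_iff₀ hμ, one_mul]
  have ht : |t| ≤ 2 * β / μ := by
    rw [le_div_iff₀ hμ]
    have h1 : |E1 * t| ≤ 2 * β := by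
      have e : E1 * t = c1 - s := by rw [e3]; ring
      rw [e]
      refine (abs_sub _ _).trans ?_
      linarith
    rw [abs_mul] at h1
    have h2 := mul_le_mul_of_nonneg_right hE1 (abs_nonneg t)
    linarith
  have hw : |s + E2 * t + c2| ≤ 4 * (β * (R / μ)) := by
    have h1 : |E2 * t| ≤ R * (2 * β / μ) := by
      rw [abs_mul]
      exact mul_le_mul hR2 ht (abs_nonneg _) hR0.le
    have h2 : R * (2 * β / μ) = 2 * (β * (R / μ)) := by ring
    have h3 : β ≤ β * (R / μ) := le_mul_of_one_le_right hβ hRμ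
    refine (abs_add_le _ _).trans ((add_le_add (abs_add_le _ _) le_rfl).trans ?_)
    linarith
  have key : 2 * (E1 * E2 * (E2 - E1)) * d =
      E2 ^ 2 * (b1 - a) - E1 ^ 2 * (b2 - a - ε * (s + E2 * t + c2)) := by
    rw [e1, e2]
    ring
  have hl : 2 * μ ^ 3 * |d| ≤ |2 * (E1 * E2 * (E2 - E1)) * d| := by
    rw [abs_mul, abs_mul, abs_mul, abs_mul, abs_two]
    refine mul_le_mul_of_nonneg_right (mul_le_mul_of_nonneg_left ?_ (by norm_num)) (abs_nonneg _)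
    have h1 : μ * μ ≤ |E1| * |E2| := mul_le_mul hE1 hE2 hμ.le (abs_nonneg _)
    have h2 := mul_le_mul h1 hE hμ.le (mul_nonneg (abs_nonneg E1) (abs_nonneg E2))
    calc μ ^ 3 = μ * μ * μ := by ring
      _ ≤ _ := h2
  have hr : |E2 ^ 2 * (b1 - a) - E1 ^ 2 * (b2 - a - ε * (s + E2 * t + c2))| ≤
      R ^ 2 * (4 * n + 4 * |ε| * (β * (R / μ))) := by
    have h1 : |E2 ^ 2 * (b1 - a)| ≤ R ^ 2 * (2 * n) := by
      rw [abs_mul, abs_pow]
      refine mul_le_mul (pow_le_pow_left₀ (abs_nonneg _) hR2 2) ?_ (abs_nonneg _) (by positivity)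
      refine (abs_sub _ _).trans ?_
      linarith
    have h2 : |E1 ^ 2 * (b2 - a - ε * (s + E2 * t + c2))| ≤
        R ^ 2 * (2 * n + |ε| * (4 * (β * (R / μ)))) := by
      rw [abs_mul, abs_pow]
      refine mul_le_mul (pow_le_pow_left₀ (abs_nonneg _) hR1 2) ?_ (abs_nonneg _) (by positivity)
      refine (abs_sub _ _).trans (add_le_add ((abs_sub _ _).trans (by linarith)) ?_)
      rw [abs_mul]
      exact mul_le_mul_of_nonneg_left hw (abs_nonneg _)
    refine (abs_sub _ _).trans ((add_le_add h1 h2).trans (le_of_eq ?_))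
    ring
  rw [key] at hl
  have h3 := hl.trans hr
  have hμ3 : 0 < μ ^ 3 := by positivity
  have e4 : R ^ 2 / μ ^ 3 * (2 * n + 2 * |ε| * (β * (R / μ))) =
      R ^ 2 * (2 * n + 2 * |ε| * (β * (R / μ))) / μ ^ 3 := by ring
  rw [e4, le_div_iff₀ hμ3]
  linarith

/-- **Polarisation in a plane.** -/
theorem pol_hs {c : ℕ → Fin m} {Q : MvPolynomial (Option (Fin m)) ℝ} (hQ : DepC c 2 Q)
    {x X0 X1 X2 D e : Option (Fin m) → ℝ} {m₁ n β R μ δ : ℝ} (hD0 : D none = 0)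
    (hD1 : D (some (c 0)) = 1) (hD2 : D (some (c 1)) = m₁) (he0 : e none = 0)
    (he1 : e (some (c 0)) = 0) (he2 : e (some (c 1)) = 1) (h1 : X1 none = X0 none)
    (h2 : X2 none = X0 none)
    (hv1 : |X1 (some (c 1)) - X0 (some (c 1)) - m₁ * (X1 (some (c 0)) - X0 (some (c 0)))| ≤ δ)
    (hv2 : |X2 (some (c 1)) - X0 (some (c 1)) - m₁ * (X2 (some (c 0)) - X0 (some (c 0)))| ≤ δ)
    (n0 : |hs Q x X0 X0| ≤ n) (n1 : |hs Q x X1 X1| ≤ n) (n2 : |hs Q x X2 X2| ≤ n)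
    (b0 : |hs Q x X0 e| ≤ β) (b1 : |hs Q x X1 e| ≤ β) (b2 : |hs Q x X2 e| ≤ β) (hμ : 0 < μ)
    (s1 : μ ≤ |X1 (some (c 0)) - X0 (some (c 0))|) (s2 : μ ≤ |X2 (some (c 0)) - X0 (some (c 0))|)
    (s3 : μ ≤ |X2 (some (c 0)) - X1 (some (c 0))|) (r1 : |X1 (some (c 0)) - X0 (some (c 0))| ≤ R)
    (r2 : |X2 (some (c 0)) - X0 (some (c 0))| ≤ R) :
    |hs Q x X0 D| ≤ 5 * (R / μ) ^ 4 * (n + δ * β) / μ := by
  obtain ⟨E1, hE1⟩ : ∃ E1, E1 = X1 (some (c 0)) - X0 (some (c 0)) := ⟨_, rfl⟩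
  obtain ⟨E2, hE2⟩ : ∃ E2, E2 = X2 (some (c 0)) - X0 (some (c 0)) := ⟨_, rfl⟩
  obtain ⟨ε1, hε1⟩ : ∃ ε1, ε1 = X1 (some (c 1)) - X0 (some (c 1)) - m₁ * E1 := ⟨_, rfl⟩
  obtain ⟨ε2, hε2⟩ : ∃ ε2, ε2 = X2 (some (c 1)) - X0 (some (c 1)) - m₁ * E2 := ⟨_, rfl⟩
  have hE12 : X2 (some (c 0)) - X1 (some (c 0)) = E2 - E1 := by rw [hE1, hE2]; ring
  rw [← hE1] at hv1 s1 r1
  rw [← hE2] at hv2 s2 r2
  rw [← hε1] at hv1
  rw [← hε2] at hv2
  rw [hE12] at s3
  have hE1p : 0 < |E1| := hμ.trans_le s1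
  have hE10 : E1 ≠ 0 := abs_pos.1 hE1p
  have hδ : 0 ≤ δ := (abs_nonneg _).trans hv1
  have hβ : 0 ≤ β := (abs_nonneg _).trans b0
  have hn : 0 ≤ n := (abs_nonneg _).trans n0
  have hR : μ ≤ R := s1.trans r1
  have hR0 : 0 < R := hμ.trans_le hR
  have hRμ : 1 ≤ R / μ := by rwa [le_div_iff₀ hμ, one_mul]
  obtain ⟨D', hD'⟩ : ∃ D' : Option (Fin m) → ℝ, D' = E1⁻¹ • (X1 - X0) := ⟨_, rfl⟩
  obtain ⟨ε, hε⟩ : ∃ ε, ε = ε2 - E2 * (ε1 / E1) := ⟨_, rfl⟩
  have hX1 : X1 = X0 + E1 • D' := by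
    rw [hD', smul_smul, mul_inv_cancel₀ hE10, one_smul]
    funext o
    simp only [Pi.add_apply, Pi.sub_apply]
    ring
  have hDn : D' none = 0 := by
    rw [hD']
    simp only [Pi.smul_apply, Pi.sub_apply, smul_eq_mul]
    rw [h1, sub_self, mul_zero]
  have hD0' : D' (some (c 0)) = 1 := by
    rw [hD']
    simp only [Pi.smul_apply, Pi.sub_apply, smul_eq_mul]
    rw [← hE1, inv_mul_cancel₀ hE10]
  have hD1' : D' (some (c 1)) = m₁ + ε1 / E1 := by
    rw [hD']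
    simp only [Pi.smul_apply, Pi.sub_apply, smul_eq_mul]
    have e' : X1 (some (c 1)) - X0 (some (c 1)) = m₁ * E1 + ε1 := by rw [hε1]; ring
    rw [e']
    field_simp
  have hl2 : ∀ l : ℕ, l < 2 → l = 0 ∨ l = 1 := fun l hl => by omega
  have hX2 : ∀ V, hs Q x X2 V = hs Q x (X0 + E2 • D' + ε • e) V := by
    intro V
    refine hs_dp hQ rfl (fun _ _ => rfl) ?_ (fun l hl => ?_) rfl (fun _ _ => rfl)
    · simp only [Pi.add_apply, Pi.smul_apply, smul_eq_mul]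
      rw [h2, hDn, he0]
      ring
    · simp only [Pi.add_apply, Pi.smul_apply, smul_eq_mul]
      rcases hl2 l hl with rfl | rfl
      · rw [hD0', he1, hE2]
        ring
      · rw [hD1', he2, hε, hε2]
        ring
  have hX2' : ∀ V, hs Q x V X2 = hs Q x V (X0 + E2 • D' + ε • e) := by
    intro V
    rw [hs_comm, hX2, hs_comm]
  have hDD : hs Q x X0 D = hs Q x X0 D' - ε1 / E1 * hs Q x X0 e := by
    have e' : hs Q x X0 D' = hs Q x X0 (D + (ε1 / E1) • e) := by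
      refine hs_dp hQ rfl (fun _ _ => rfl) rfl (fun _ _ => rfl) ?_ (fun l hl => ?_)
      · simp only [Pi.add_apply, Pi.smul_apply, smul_eq_mul]
        rw [hDn, hD0, he0]
        ring
      · simp only [Pi.add_apply, Pi.smul_apply, smul_eq_mul]
        rcases hl2 l hl with rfl | rfl
        · rw [hD0', hD1, he1]
          ring
        · rw [hD1', hD2, he2]
          ring
    rw [e', hs_add_right, hs_smul_right]
    ring
  have hc : hs Q x D' X0 = hs Q x X0 D' := hs_comm _ _ _ _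
  have hce : hs Q x e X0 = hs Q x X0 e := hs_comm _ _ _ _
  have hcD : hs Q x e D' = hs Q x D' e := hs_comm _ _ _ _
  have k1 : hs Q x X1 X1 = hs Q x X0 X0 + 2 * E1 * hs Q x X0 D' + E1 ^ 2 * hs Q x D' D' := by
    rw [hX1]
    simp only [hs_add_left, hs_add_right, hs_smul_left, hs_smul_right]
    rw [hc]
    ring
  have k3 : hs Q x X1 e = hs Q x X0 e + E1 * hs Q x D' e := by
    rw [hX1]
    simp only [hs_add_left, hs_smul_left]
  have k4 : hs Q x X2 e = hs Q x X0 e + E2 * hs Q x D' e + ε * hs Q x e e := by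
    rw [hX2]
    simp only [hs_add_left, hs_smul_left]
  have k2 : hs Q x X2 X2 = hs Q x X0 X0 + 2 * E2 * hs Q x X0 D' + E2 ^ 2 * hs Q x D' D' +
      ε * (hs Q x X0 e + E2 * hs Q x D' e + hs Q x X2 e) := by
    rw [k4, hX2, hX2']
    simp only [hs_add_left, hs_add_right, hs_smul_left, hs_smul_right]
    rw [hc, hce, hcD]
    ring
  have h3 := pol_num hμ k1 k2 k3 n0 n1 n2 b0 b1 b2 s1 s2 s3 r1 r2
  have hεb : |ε| ≤ 2 * (δ * (R / μ)) := by
    rw [hε]
    have h4 : |E2 * (ε1 / E1)| ≤ δ * (R / μ) := by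
      rw [abs_mul, abs_div]
      have h5 : |ε1| / |E1| ≤ δ / μ := div_le_div₀ hδ hv1 hμ s1
      calc |E2| * (|ε1| / |E1|) ≤ R * (δ / μ) :=
            mul_le_mul r2 h5 (div_nonneg (abs_nonneg _) (abs_nonneg _)) hR0.le
        _ = δ * (R / μ) := by ring
    have h5 : δ ≤ δ * (R / μ) := le_mul_of_one_le_right hδ hRμ
    refine (abs_sub _ _).trans ?_
    linarith
  obtain ⟨ρ, hρ⟩ : ∃ ρ, ρ = R / μ := ⟨_, rfl⟩
  rw [← hρ] at hεb h3 hRμ ⊢
  have hRρ : R = ρ * μ := by rw [hρ]; field_simp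
  have h6 : |hs Q x X0 D'| ≤ (2 * ρ ^ 2 * n + 4 * ρ ^ 4 * (δ * β)) / μ := by
    refine h3.trans ?_
    have e5 : R ^ 2 / μ ^ 3 = ρ ^ 2 / μ := by
      rw [hRρ]
      field_simp
    rw [e5]
    have h7 : 2 * n + 2 * |ε| * (β * ρ) ≤ 2 * n + 4 * ρ ^ 2 * (δ * β) := by
      have h8 : |ε| * (β * ρ) ≤ 2 * (δ * ρ) * (β * ρ) :=
        mul_le_mul_of_nonneg_right hεb (mul_nonneg hβ (by linarith))
      nlinarith
    calc ρ ^ 2 / μ * (2 * n + 2 * |ε| * (β * ρ)) ≤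
          ρ ^ 2 / μ * (2 * n + 4 * ρ ^ 2 * (δ * β)) :=
          mul_le_mul_of_nonneg_left h7 (by positivity)
      _ = _ := by ring
  have h7 : |ε1 / E1 * hs Q x X0 e| ≤ δ * β / μ := by
    rw [abs_mul, abs_div]
    calc |ε1| / |E1| * |hs Q x X0 e| ≤ δ / μ * β :=
          mul_le_mul (div_le_div₀ hδ hv1 hμ s1) b0 (abs_nonneg _) (by positivity)
      _ = _ := by ring
  rw [hDD]
  refine (abs_sub _ _).trans ((add_le_add h6 h7).trans ?_)
  rw [← add_div]
  refine div_le_div_of_nonneg_right ?_ hμ.le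
  have g1 : (1 : ℝ) ≤ ρ ^ 4 := one_le_pow₀ hRμ
  have g2 : ρ ^ 2 ≤ ρ ^ 4 := pow_le_pow_right₀ hRμ (by norm_num)
  have g3 : 0 ≤ δ * β := mul_nonneg hδ hβ
  nlinarith [mul_le_mul_of_nonneg_right g2 hn, mul_le_mul_of_nonneg_right g1 g3,
    mul_nonneg (by positivity : (0 : ℝ) ≤ ρ ^ 4) hn]

/-- The directional derivatives commute. -/
theorem dP_comm (Q : MvPolynomial (Option (Fin m)) ℝ) (η ξ : Option (Fin m) → ℝ) :
    dP (dP Q η) ξ = dP (dP Q ξ) η := by
  unfold dP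
  simp only [map_sum, pderiv_C_mul, Finset.mul_sum]
  rw [Finset.sum_comm]
  refine Finset.sum_congr rfl fun o _ => Finset.sum_congr rfl fun o' _ => ?_
  rw [pd_comm]
  ring

/-- The second derivative as a polynomial. -/
theorem eval_dP2 (Q : MvPolynomial (Option (Fin m)) ℝ) (b V e : Option (Fin m) → ℝ) :
    eval b (dP (dP Q e) V) = hs Q b V e := by
  rw [eval_dP, dd_dP]

/-- **The second derivative at two points of one cell.** -/
theorem hs_shf (m K : ℕ) : ∃ C : ℕ, ∀ {c : ℕ → Fin m}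
    {ψ : ℕ → MvPolynomial (Option (Fin m)) ℝ} {g : ℕ → ℕ}
    {a E s J : ℕ} {x η V e : Option (Fin m) → ℝ}, Set.InjOn c (Set.Iio 3) →
    (∀ l, (ψ l).totalDegree ≤ K) → (∀ l, DepC c l (ψ l)) →
    (∀ l < 3, ∀ b, NBx c ψ g a (x none) l b → ∀ j < l,
      |eval b (pderiv (some (c j)) (ψ l))| ≤ 2 ^ (E + nlp g j l)) →
    (∀ l < 3, E + g l + s + C ≤ J) → η none = 0 → (∀ l < 3, |η (some (c l))| ≤ 1 / 2 ^ J) →
    (∀ l < 3, |x (some (c l)) - eval x (ψ l)| ≤ 1 / 2 ^ (g l + 1)) →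
    e none = 0 → e (some (c 0)) = 0 →
    |hs (ψ 2) (fun o => x o + η o) V e - hs (ψ 2) x V e| ≤
      2 ^ C / 2 ^ (g 2 + s) * (nrm c ψ g a 2 x V * nrm c ψ g a 2 x e) := by
  obtain ⟨C₁, hlip⟩ := shf_lip m K 3
  obtain ⟨Cb, hCb, hbox⟩ := box_all 2 K K
  obtain ⟨C₂, hC₂⟩ := pow_unbounded_of_one_lt (Cb * 9) (one_lt_two (α := ℝ))
  refine ⟨C₁ + C₂, ?_⟩
  intro c ψ g a E s J x η V e hc hψ hdep hder hJ hη0 hη hx he0 he1
  have h1 := hlip (s := s) hc hψ hdep hder (fun l hl => by have := hJ l hl; omega) hη0 hη hx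
  have hc2 : Set.InjOn c (Set.Iio 2) := hc.mono (Set.Iio_subset_Iio (by norm_num))
  -- the polynomial
  have hmv := mv_seg (dP (dP (ψ 2) e) V) x η (M := 2 ^ (C₁ + C₂) / 2 ^ (g 2 + s) *
    (nrm c ψ g a 2 x V * nrm c ψ g a 2 x e)) (fun u hu => ?_) 1 ⟨zero_le_one, le_rfl⟩
  · simp only [one_mul, eval_dP2] at hmv
    exact hmv
  rw [← eval_dP, dP_comm (dP (ψ 2) e) V η, dP_comm (ψ 2) e η, eval_dP2]
  obtain ⟨y, hy⟩ : ∃ y : Option (Fin m) → ℝ, y = fun o => x o + u * η o := ⟨_, rfl⟩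
  rw [← hy]
  have hyn : y none = x none := by rw [hy]; show x none + u * η none = x none; rw [hη0]; ring
  have hxy : ∀ l < 3, |y (some (c l)) - eval y (ψ l)| ≤ 1 / 2 ^ g l := fun l hl => by
    rw [hy]
    exact ((h1 l hl).2 u hu).1
  have hdy : ∀ l < 3, ∀ V, |dd (ψ l) y V - dd (ψ l) x V| ≤
      1 / 2 ^ (g l + s) * nrm c ψ g a l x V := fun l hl V => by
    rw [hy]
    exact ((h1 l hl).2 u hu).2 V
  have hM : ∀ b, NBx c ψ g a (y none) 2 b → |eval b (dP (ψ 2) η)| ≤ 1 / 2 ^ (g 2 + s) := by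
    intro b hb
    rw [hyn] at hb
    rw [eval_dP]
    refine ((h1 2 (by norm_num)).1 b hb).trans ?_
    exact one_div_le_one_div_of_le (by positivity) (pow_le_pow_right₀ (by norm_num) (by omega))
  have hb2 := (hbox (M := 1 / 2 ^ (g 2 + s)) (x := y) hc2 hψ hdep (dep_dP (hdep 2) η)
    (deg_dP (hψ 2) η) (by positivity) hM (fun l hl => hxy l (by omega))).2 V e 0
  have hz : nrz c ψ g a 2 y V e 0 = 0 := by
    unfold nrz
    have e0 : ∀ P : MvPolynomial (Option (Fin m)) ℝ, dd P y 0 = 0 := fun P => by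
      have := dd_smul P y (0 : Option (Fin m) → ℝ) 0
      rwa [zero_smul, zero_mul] at this
    have e1 : ∀ l < 2, hs (ψ l) y V e = 0 := by
      intro l hl
      have e2 : hs (ψ l) y V e = hs (ψ l) y V 0 := by
        refine hs_dp (hdep l) rfl (fun _ _ => rfl) rfl (fun _ _ => rfl) he0 (fun j hj => ?_)
        have : j = 0 := by omega
        rw [this, he1]
        rfl
      rw [e2]
      have := hs_smul_right (ψ l) y V (0 : Option (Fin m) → ℝ) 0
      rwa [zero_smul, zero_mul] at this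
    rw [Finset.sum_eq_zero (fun l hl => ?_)]
    · simp
    · rw [e0, e1 l (mem_range.1 hl), Pi.zero_apply, sub_zero, sub_zero, abs_zero, mul_zero]
  have e0 : dd (dP (ψ 2) η) y 0 = 0 := by
    have := dd_smul (dP (ψ 2) η) y (0 : Option (Fin m) → ℝ) 0
    rwa [zero_smul, zero_mul] at this
  rw [e0, hz, add_zero, add_zero] at hb2
  have hnr : ∀ V, nrm c ψ g a 2 y V ≤ 3 * nrm c ψ g a 2 x V := by
    intro V
    have := shf_nrm (c := c) (ψ := ψ) (g := g) (a := a) (s := s) (l := 2) (x := x) (y := y)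
      (V := V) (fun j hj => hdy j (by omega) V)
    norm_num at this
    exact this
  refine hb2.trans ?_
  have n0 := nrm_nonneg c ψ g a 2 x V
  have n1 := nrm_nonneg c ψ g a 2 x e
  have n2 := nrm_nonneg c ψ g a 2 y V
  have n3 := nrm_nonneg c ψ g a 2 y e
  have h5 : nrm c ψ g a 2 y V * nrm c ψ g a 2 y e ≤
      3 * nrm c ψ g a 2 x V * (3 * nrm c ψ g a 2 x e) :=
    mul_le_mul (hnr V) (hnr e) n3 (by positivity)
  have hp : (0 : ℝ) < 2 ^ (g 2 + s) := by positivity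
  calc Cb * (1 / 2 ^ (g 2 + s)) * (nrm c ψ g a 2 y V * nrm c ψ g a 2 y e) ≤
        Cb * (1 / 2 ^ (g 2 + s)) * (3 * nrm c ψ g a 2 x V * (3 * nrm c ψ g a 2 x e)) :=
        mul_le_mul_of_nonneg_left h5 (by positivity)
    _ = (Cb * 9) / 2 ^ (g 2 + s) * (nrm c ψ g a 2 x V * nrm c ψ g a 2 x e) := by ring
    _ ≤ _ := by
        refine mul_le_mul_of_nonneg_right (div_le_div_of_nonneg_right ?_ hp.le)
          (mul_nonneg n0 n1)
        refine hC₂.le.trans ?_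
        rw [pow_add]
        exact le_mul_of_one_le_left (by positivity) (one_le_pow₀ (by norm_num))

end Pool.C2T
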