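import Pool.Agent.H54.C2T.Pol

/-!
# The relation of the closed curvature with the slope of the second coordinate

`rel_pt`: at an exact point with three lines with separated velocities, the second derivative of the
row label in the own direction and in the direction `e_0 + μ e_1` of the deep ball chart of the
second coordinate is small.
-/

set_option autoImplicit false

namespace Pool.C2T

open Finset Real MvPolynomial
open Pool.Agent.H49.Ent Pool.Agent.H32.Dense Pool.STK Pool.KA Pool.KSAT Pool.K2S Pool.PB Pool.S6C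
open Pool.GEN Pool.CHT Pool.CHX Pool.ISO Pool.D2R Pool.D2Z Pool.D2F Pool.RCV

variable {m J : ℕ}

/-- The basis vector of the coordinate `k`. -/
def ex (k : Fin m) : Option (Fin m) → ℝ := Pi.single (some k) 1

theorem ex_none (k : Fin m) : ex k none = 0 := by
  unfold ex
  exact Pi.single_eq_of_ne (by simp) _

theorem ex_self (k : Fin m) : ex k (some k) = 1 := by
  unfold ex
  exact Pi.single_eq_same _ _

theorem ex_ne {k k' : Fin m} (h : k' ≠ k) : ex k (some k') = 0 := by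
  unfold ex
  exact Pi.single_eq_of_ne (fun h' => h (Option.some_injective _ h')) _

/-- The direction of a plane over the first coordinate. -/
def dx (c : ℕ → Fin m) (μ : ℝ) : Option (Fin m) → ℝ := ex (c 0) + μ • ex (c 1)

section

variable {c : ℕ → Fin m}

theorem c01 (hc : Set.InjOn c (Set.Iio 3)) : c 0 ≠ c 1 := fun h => by
  have := hc (Set.mem_Iio.2 (by norm_num : 0 < 3)) (Set.mem_Iio.2 (by norm_num : 1 < 3)) h
  omega

theorem dx_none (c : ℕ → Fin m) (μ : ℝ) : dx c μ none = 0 := by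
  unfold dx
  simp only [Pi.add_apply, Pi.smul_apply, smul_eq_mul]
  rw [ex_none, ex_none, mul_zero, add_zero]

theorem dx_zero (hc : Set.InjOn c (Set.Iio 3)) (μ : ℝ) : dx c μ (some (c 0)) = 1 := by
  unfold dx
  simp only [Pi.add_apply, Pi.smul_apply, smul_eq_mul]
  rw [ex_self, ex_ne (c01 hc), mul_zero, add_zero]

theorem dx_one (hc : Set.InjOn c (Set.Iio 3)) (μ : ℝ) : dx c μ (some (c 1)) = μ := by
  unfold dx
  simp only [Pi.add_apply, Pi.smul_apply, smul_eq_mul]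
  rw [ex_self, ex_ne (c01 hc).symm, mul_one, zero_add]

/-- The derivative of a chart over the first coordinate. -/
theorem dd_one {c : ℕ → Fin m} {P : MvPolynomial (Option (Fin m)) ℝ} (h : DepC c 1 P)
    (x V : Option (Fin m) → ℝ) : dd P x V = eval x (pderiv none P) * V none +
      eval x (pderiv (some (c 0)) P) * V (some (c 0)) := by
  have hc1 : Set.InjOn c (Set.Iio 1) := by
    intro a ha b hb _
    rw [Set.mem_Iio] at ha hb
    omega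
  rw [← cv_grd, cv_eq hc1 (cvc_grd h x), Finset.sum_range_one]
  rfl

/-- The derivative of a chart over the time. -/
theorem dd_nul {c : ℕ → Fin m} {P : MvPolynomial (Option (Fin m)) ℝ} (h : DepC c 0 P)
    (x V : Option (Fin m) → ℝ) : dd P x V = eval x (pderiv none P) * V none := by
  have hc1 : Set.InjOn c (Set.Iio 0) := by
    intro a ha b hb _
    rw [Set.mem_Iio] at ha
    omega
  rw [← cv_grd, cv_eq hc1 (cvc_grd h x), Finset.sum_range_zero, add_zero]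
  rfl

theorem hs_zr (P : MvPolynomial (Option (Fin m)) ℝ) (x V : Option (Fin m) → ℝ) :
    hs P x V 0 = 0 := by
  have := hs_smul_right P x V (0 : Option (Fin m) → ℝ) 0
  rwa [zero_smul, zero_mul] at this

theorem dd_zr (P : MvPolynomial (Option (Fin m)) ℝ) (x : Option (Fin m) → ℝ) :
    dd P x 0 = 0 := by
  have := dd_smul P x (0 : Option (Fin m) → ℝ) 0
  rwa [zero_smul, zero_mul] at this

/-- Directions without the time on a chart over the time. -/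
theorem hs_nul {P : MvPolynomial (Option (Fin m)) ℝ} (h : DepC c 0 P)
    (x W : Option (Fin m) → ℝ) {V : Option (Fin m) → ℝ} (hV : V none = 0) : hs P x W V = 0 := by
  rw [← hs_zr P x W]
  exact hs_dp h rfl (fun _ _ => rfl) rfl (fun _ _ => rfl) hV fun l hl => absurd hl (by omega)

/-- The direction of the second coordinate on a chart over the first coordinate. -/
theorem hs_ex {P : MvPolynomial (Option (Fin m)) ℝ} {l : ℕ} (h : DepC c l P) (hl : l < 2)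
    (x W : Option (Fin m) → ℝ) {V : Option (Fin m) → ℝ} (hV : V none = 0)
    (hV0 : V (some (c 0)) = 0) : hs P x W V = 0 := by
  rw [← hs_zr P x W]
  refine hs_dp h rfl (fun _ _ => rfl) rfl (fun _ _ => rfl) hV fun j hj => ?_
  have : j = 0 := by omega
  rw [this, hV0]
  rfl

theorem nrz_ex {ψ : ℕ → MvPolynomial (Option (Fin m)) ℝ} (hdep : ∀ l, DepC c l (ψ l))
    {g : ℕ → ℕ} {a : ℕ} (x W : Option (Fin m) → ℝ) {V : Option (Fin m) → ℝ} (hV : V none = 0)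
    (hV0 : V (some (c 0)) = 0) : nrz c ψ g a 2 x W V 0 = 0 := by
  unfold nrz
  rw [Finset.sum_eq_zero (fun l hl => ?_), Pi.zero_apply, abs_zero, mul_zero, add_zero]
  rw [dd_zr, hs_ex (hdep l) (mem_range.1 hl) x W hV hV0, Pi.zero_apply, sub_zero, sub_zero,
    abs_zero, mul_zero]

theorem nrm_ex (hc : Set.InjOn c (Set.Iio 3)) {ψ : ℕ → MvPolynomial (Option (Fin m)) ℝ}
    (hdep : ∀ l, DepC c l (ψ l)) {g : ℕ → ℕ} {a : ℕ} (x : Option (Fin m) → ℝ) :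
    nrm c ψ g a 2 x (ex (c 1)) = 2 ^ g 1 := by
  unfold nrm
  rw [Finset.sum_range_succ, Finset.sum_range_one, dd_nul (hdep 0), dd_one (hdep 1), ex_none,
    ex_ne (c01 hc), ex_self]
  simp

theorem nrm_dx (hc : Set.InjOn c (Set.Iio 3)) {ψ : ℕ → MvPolynomial (Option (Fin m)) ℝ}
    (hdep : ∀ l, DepC c l (ψ l)) {g : ℕ → ℕ} {a : ℕ} (x : Option (Fin m) → ℝ) :
    nrm c ψ g a 2 x (dx c (eval x (pderiv (some (c 0)) (ψ 1)))) = 2 ^ g 0 := by
  unfold nrm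
  rw [Finset.sum_range_succ, Finset.sum_range_one, dd_nul (hdep 0), dd_one (hdep 1), dx_none,
    dx_zero hc, dx_one hc]
  simp

theorem nrm_dx1 (hc : Set.InjOn c (Set.Iio 3)) {ψ : ℕ → MvPolynomial (Option (Fin m)) ℝ}
    (hdep : ∀ l, DepC c l (ψ l)) {g : ℕ → ℕ} {a : ℕ} (x : Option (Fin m) → ℝ) (μ : ℝ) :
    nrm c ψ g a 1 x (dx c μ) = 2 ^ g 0 := by
  unfold nrm
  rw [Finset.sum_range_one, dd_nul (hdep 0), dx_none, dx_zero hc]
  simp

end

/-- The numbers. -/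
theorem rel_num {U Y Z G0 G1 P1 P2 β : ℝ} (hU : 1 ≤ U) (hUY : U ≤ Y) (hZ : 0 ≤ Z) (hZY : Z ≤ Y)
    (hY : 2 ≤ Y) (h0 : 0 < G0) (h1 : 0 < G1) (hP1 : 0 ≤ P1) (hP2 : 0 ≤ P2) (hβ : 0 ≤ β) :
    80 * U ^ 5 * Y ^ 5 * (G0 * P2 + 2 * (G0 / G1 * (β + (4 * U ^ 3 + 3 * U ^ 2 + Z) *
      (G1 * (P1 + P2))))) +
      (U * (7 * U ^ 2 + Y ^ 30) * (G0 * P1) + U * (3 * U + Y ^ 30) * (G0 * P2)) ≤
    Y ^ 33 * (G0 * (P1 + P2) + G0 / G1 * β) := by
  have hY0 : 0 < Y := by linarith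
  have hY1 : 1 ≤ Y := by linarith
  have hU0 : 0 ≤ U := by linarith
  obtain ⟨X, hX⟩ : ∃ X, X = G0 * (P1 + P2) + G0 / G1 * β := ⟨_, rfl⟩
  have hX0 : 0 ≤ X := by rw [hX]; positivity
  have a1 : G0 * P1 ≤ X := by
    rw [hX]
    have : 0 ≤ G0 * P2 := by positivity
    have : 0 ≤ G0 / G1 * β := by positivity
    linarith
  have a2 : G0 * P2 ≤ X := by
    rw [hX]
    have : 0 ≤ G0 * P1 := by positivity
    have : 0 ≤ G0 / G1 * β := by positivity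
    linarith
  have a3 : G0 * (P1 + P2) ≤ X := by
    rw [hX]
    have : 0 ≤ G0 / G1 * β := by positivity
    linarith
  have a4 : G0 / G1 * β ≤ X := by
    rw [hX]
    have : 0 ≤ G0 * (P1 + P2) := by positivity
    linarith
  have hUp : ∀ n : ℕ, U ^ n ≤ Y ^ n := fun n => pow_le_pow_left₀ hU0 hUY n
  have hYp : ∀ {i j : ℕ}, i ≤ j → Y ^ i ≤ Y ^ j := fun h => pow_le_pow_right₀ hY1 h
  have h16 : (16 : ℝ) ≤ Y ^ 4 := by
    calc (16 : ℝ) = 2 ^ 4 := by norm_num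
      _ ≤ Y ^ 4 := pow_le_pow_left₀ (by norm_num) hY 4
  have h128 : (128 : ℝ) ≤ Y ^ 7 := by
    calc (128 : ℝ) = 2 ^ 7 := by norm_num
      _ ≤ Y ^ 7 := pow_le_pow_left₀ (by norm_num) hY 7
  have b1 : 4 * U ^ 3 + 3 * U ^ 2 + Z ≤ 8 * Y ^ 3 := by
    have e1 := hUp 3
    have e2 : U ^ 2 ≤ Y ^ 3 := (hUp 2).trans (hYp (by norm_num))
    have e3 : Z ≤ Y ^ 3 := hZY.trans (by
      calc Y = Y ^ 1 := (pow_one Y).symm
        _ ≤ Y ^ 3 := hYp (by norm_num))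
    linarith
  have b2 : G0 * P2 + 2 * (G0 / G1 * (β + (4 * U ^ 3 + 3 * U ^ 2 + Z) * (G1 * (P1 + P2)))) ≤
      19 * Y ^ 3 * X := by
    have e1 : G0 / G1 * (β + (4 * U ^ 3 + 3 * U ^ 2 + Z) * (G1 * (P1 + P2))) =
        G0 / G1 * β + (4 * U ^ 3 + 3 * U ^ 2 + Z) * (G0 * (P1 + P2)) := by
      field_simp
    rw [e1]
    have e2 : (4 * U ^ 3 + 3 * U ^ 2 + Z) * (G0 * (P1 + P2)) ≤ 8 * Y ^ 3 * X :=
      mul_le_mul b1 a3 (by positivity) (by positivity)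
    have e3 : X ≤ Y ^ 3 * X := le_mul_of_one_le_left hX0 (one_le_pow₀ hY1)
    nlinarith
  have b3 : 80 * U ^ 5 * Y ^ 5 * (G0 * P2 + 2 * (G0 / G1 * (β + (4 * U ^ 3 + 3 * U ^ 2 + Z) *
      (G1 * (P1 + P2))))) ≤ Y ^ 24 * X := by
    have e1 : 80 * U ^ 5 * Y ^ 5 ≤ 80 * Y ^ 10 := by
      calc 80 * U ^ 5 * Y ^ 5 ≤ 80 * Y ^ 5 * Y ^ 5 := mul_le_mul_of_nonneg_right
            (mul_le_mul_of_nonneg_left (hUp 5) (by norm_num)) (by positivity)
        _ = 80 * Y ^ 10 := by ring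
    calc _ ≤ 80 * Y ^ 10 * (19 * Y ^ 3 * X) := mul_le_mul e1 b2 (by positivity) (by positivity)
      _ = 1520 * (Y ^ 13 * X) := by ring
      _ ≤ (Y ^ 7 * Y ^ 4) * (Y ^ 13 * X) := by
          refine mul_le_mul_of_nonneg_right ?_ (by positivity)
          calc (1520 : ℝ) ≤ 128 * 16 := by norm_num
            _ ≤ Y ^ 7 * Y ^ 4 := mul_le_mul h128 h16 (by norm_num) (by positivity)
      _ = _ := by ring
  have b4 : U * (7 * U ^ 2 + Y ^ 30) ≤ Y ^ 32 := by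
    have e1 : 7 * U ^ 2 ≤ Y ^ 30 := by
      calc 7 * U ^ 2 ≤ Y ^ 4 * Y ^ 2 := mul_le_mul (by linarith) (hUp 2) (by positivity)
            (by positivity)
        _ = Y ^ 6 := by ring
        _ ≤ Y ^ 30 := hYp (by norm_num)
    calc U * (7 * U ^ 2 + Y ^ 30) ≤ Y * (Y ^ 30 + Y ^ 30) := mul_le_mul hUY (by linarith)
          (by positivity) hY0.le
      _ = 2 * Y ^ 31 := by ring
      _ ≤ Y * Y ^ 31 := mul_le_mul_of_nonneg_right hY (by positivity)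
      _ = _ := by ring
  have b5 : U * (3 * U + Y ^ 30) ≤ Y ^ 32 := by
    refine le_trans (mul_le_mul_of_nonneg_left ?_ hU0) b4
    nlinarith
  have b6 : U * (7 * U ^ 2 + Y ^ 30) * (G0 * P1) + U * (3 * U + Y ^ 30) * (G0 * P2) ≤
      Y ^ 32 * X := by
    have e1 := mul_le_mul_of_nonneg_right b4 (show 0 ≤ G0 * P1 by positivity)
    have e2 := mul_le_mul_of_nonneg_right b5 (show 0 ≤ G0 * P2 by positivity)
    have e3 : Y ^ 32 * (G0 * (P1 + P2)) ≤ Y ^ 32 * X :=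
      mul_le_mul_of_nonneg_left a3 (by positivity)
    have e4 : Y ^ 32 * (G0 * (P1 + P2)) = Y ^ 32 * (G0 * P1) + Y ^ 32 * (G0 * P2) := by ring
    linarith
  have b7 : Y ^ 24 * X ≤ Y ^ 32 * X := mul_le_mul_of_nonneg_right (hYp (by norm_num)) hX0
  rw [← hX]
  have b8 : Y ^ 33 * X = Y * (Y ^ 32 * X) := by ring
  have b9 : 2 * (Y ^ 32 * X) ≤ Y * (Y ^ 32 * X) :=
    mul_le_mul_of_nonneg_right hY (by positivity)
  linarith

/-- **The relation**, at an exact point with three separated lines. -/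
theorem rel_pt {F : Fam m J} {c : ℕ → Fin m} {w a v p v' : ℕ} {g₀ gT : ℕ → ℕ} {U Y Z β : ℝ}
    {B : F.Ω → Prop} {G₀ : PtT F → ℕ → MvPolynomial (Option (Fin m)) ℝ}
    {H₀ : LnT F → ℕ → MvPolynomial (Option (Fin m)) ℝ}
    {T : PtT F → ℕ → MvPolynomial (Option (Fin m)) ℝ}
    {TH : LnT F → ℕ → MvPolynomial (Option (Fin m)) ℝ}
    {Ht : LnT F → MvPolynomial (Option (Fin m)) ℝ} (hc : Set.InjOn c (Set.Iio 3))
    (h : ROut1 F c 2 w a v g₀ gT p U B G₀ H₀ T TH Ht) (hdG : ∀ y l, DepC c l (G₀ y l))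
    (hdH : ∀ s l, DepC c l (H₀ s l)) (ha : a ≤ J) (hU : 1 ≤ U) (hUY : U ≤ Y) (hZ : 0 ≤ Z)
    (hZY : Z ≤ Y) (hY : 2 ≤ Y) (hv : v ≤ v') (hg : ∀ l < 2, gT l ≤ g₀ l + v')
    (hT : ∀ s, ∀ l < 2, TH s l = Hno (c l) (fun s => H₀ s l) s)
    (hsh : ∀ ω ν, B ω → B ν → ptr F J ω = ptr F J ν →
      |hs (G₀ (ptr F J ω) 2) (bt F ν) (bd F ν) (ex (c 1)) -
        hs (G₀ (ptr F J ω) 2) (bt F ω) (bd F ν) (ex (c 1))| ≤ Z * (2 ^ g₀ 1 * (2 ^ a / 2 ^ g₀ 2)))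
    {ω ν₁ ν₂ : F.Ω} (hω : B ω) (h1 : B ν₁) (h2 : B ν₂) (p1 : ptr F J ν₁ = ptr F J ω)
    (p2 : ptr F J ν₂ = ptr F J ω)
    (s1 : 1 / Y ≤ 2 ^ g₀ 0 / 2 ^ a * |bd F ν₁ (some (c 0)) - bd F ω (some (c 0))|)
    (s2 : 1 / Y ≤ 2 ^ g₀ 0 / 2 ^ a * |bd F ν₂ (some (c 0)) - bd F ω (some (c 0))|)
    (s3 : 1 / Y ≤ 2 ^ g₀ 0 / 2 ^ a * |bd F ν₂ (some (c 0)) - bd F ν₁ (some (c 0))|)
    (hβ : ∀ ν, ν = ω ∨ ν = ν₁ ∨ ν = ν₂ →
      |hs (Ht (slam F w ν)) (bt F ν) (bd F ν) (ex (c 1))| ≤ β) :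
    |hs (Ht (slam F w ω)) (bt F ω) (bd F ω)
      (dx c (eval (bt F ω) (pderiv (some (c 0)) (G₀ (ptr F J ω) 1))))| ≤
      Y ^ 33 * (2 ^ g₀ 0 * (2 ^ (a + v') / 2 ^ p + 2 ^ a / 2 ^ g₀ 2) +
        2 ^ g₀ 0 / 2 ^ g₀ 1 * β) := by
  have hU0 : 0 ≤ U := by linarith
  have hY0 : 0 < Y := by linarith
  obtain ⟨G0, hG0⟩ : ∃ G0 : ℝ, G0 = 2 ^ g₀ 0 := ⟨_, rfl⟩
  obtain ⟨G1, hG1⟩ : ∃ G1 : ℝ, G1 = 2 ^ g₀ 1 := ⟨_, rfl⟩
  obtain ⟨A, hA⟩ : ∃ A : ℝ, A = 2 ^ a := ⟨_, rfl⟩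
  obtain ⟨P1, hP1⟩ : ∃ P1 : ℝ, P1 = 2 ^ (a + v') / 2 ^ p := ⟨_, rfl⟩
  obtain ⟨P2, hP2⟩ : ∃ P2 : ℝ, P2 = 2 ^ a / 2 ^ g₀ 2 := ⟨_, rfl⟩
  have hG00 : 0 < G0 := by rw [hG0]; positivity
  have hG10 : 0 < G1 := by rw [hG1]; positivity
  have hA0 : 0 < A := by rw [hA]; positivity
  have hP10 : 0 ≤ P1 := by rw [hP1]; positivity
  have hP20 : 0 ≤ P2 := by rw [hP2]; positivity
  have hβ0 : 0 ≤ β := (abs_nonneg _).trans (hβ ω (Or.inl rfl))
  obtain ⟨μ₁, hμ₁⟩ : ∃ μ₁, μ₁ = eval (bt F ω) (pderiv (some (c 0)) (G₀ (ptr F J ω) 1)) := ⟨_, rfl⟩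
  have hTd : ∀ s, ∀ l < 2, DepC c l (TH s l) := fun s l hl => by
    rw [hT s l hl]
    exact depC_Hno (c l) (fun s => H₀ s l) s (hdH s l)
  have hn1 : ∀ ν, B ν → nrm c (G₀ (ptr F J ν)) g₀ a 2 (bt F ν) (bd F ν) ≤ 3 * U * A := by
    intro ν hν
    have := nrm_bd h hν
    rw [← hA] at this
    push_cast at this
    nlinarith
  -- the curvature in the direction of the second coordinate
  have hbe : ∀ ν, B ν → |hs (Ht (slam F w ν)) (bt F ν) (bd F ν) (ex (c 1))| ≤ β →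
      ptr F J ω = ptr F J ν →
      |hs (G₀ (ptr F J ω) 2) (bt F ω) (bd F ν) (ex (c 1))| ≤
        β + (4 * U ^ 3 + 3 * U ^ 2 + Z) * (G1 * (P1 + P2)) := by
    intro ν hν hb hpt
    have k1 := rel2 h ha hν (ex (c 1)) 0
    rw [dd_zr, dd_zr, add_zero, add_zero, nrz_ex (hdG _) _ _ (ex_none _) (ex_ne (c01 hc)),
      nrm_ex hc (hdG _), add_zero] at k1
    have k2 : nrz c (TH (slam F a ν)) gT (a + v) 2 (bt F ν) (bd F ν) (ex (c 1)) 0 = 0 := by
      unfold nrz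
      rw [Finset.sum_eq_zero (fun l hl => ?_), Pi.zero_apply, abs_zero, mul_zero, add_zero]
      have hl' := mem_range.1 hl
      rw [dd_zr, hs_ex (hTd _ l hl') hl' _ _ (ex_none _) (ex_ne (c01 hc)), Pi.zero_apply,
        sub_zero, sub_zero, abs_zero, mul_zero]
    have k3 := nrm_thin h hU0 hv hg hT hν (ex (c 1))
    rw [nrm_ex hc (hdG _)] at k3
    rw [k2, add_zero] at k1
    have k4 : U / 2 ^ p * (2 ^ a * nrm c (TH (slam F a ν)) gT (a + v) 2 (bt F ν) (ex (c 1))) ≤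
        4 * U ^ 3 * (G1 * P1) := by
      have e1 : (1 + U) ^ 2 ≤ 4 * U ^ 2 := by nlinarith
      have e2 : nrm c (TH (slam F a ν)) gT (a + v) 2 (bt F ν) (ex (c 1)) ≤
          4 * U ^ 2 * 2 ^ v' * G1 := by
        rw [← hG1] at k3
        refine k3.trans (mul_le_mul_of_nonneg_right (mul_le_mul_of_nonneg_right e1 (by positivity))
          hG10.le)
      calc _ ≤ U / 2 ^ p * (2 ^ a * (4 * U ^ 2 * 2 ^ v' * G1)) :=
            mul_le_mul_of_nonneg_left (mul_le_mul_of_nonneg_left e2 (by positivity)) (by positivity)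
        _ = _ := by rw [hP1, pow_add]; ring
    have k5 : U / 2 ^ g₀ 2 * (nrm c (G₀ (ptr F J ν)) g₀ a 2 (bt F ν) (bd F ν) * 2 ^ g₀ 1) ≤
        3 * U ^ 2 * (G1 * P2) := by
      rw [← hG1]
      calc _ ≤ U / 2 ^ g₀ 2 * (3 * U * A * G1) :=
            mul_le_mul_of_nonneg_left (mul_le_mul_of_nonneg_right (hn1 ν hν) hG10.le)
              (by positivity)
        _ = _ := by rw [hP2, hA]; ring
    have k6 := hsh ω ν hω hν hpt
    rw [← hG1, ← hP2] at k6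
    have k7 := k1.trans (add_le_add k4 k5)
    rw [← hpt] at k7
    have e : hs (G₀ (ptr F J ω) 2) (bt F ω) (bd F ν) (ex (c 1)) =
        hs (Ht (slam F w ν)) (bt F ν) (bd F ν) (ex (c 1)) -
        (hs (Ht (slam F w ν)) (bt F ν) (bd F ν) (ex (c 1)) -
          hs (G₀ (ptr F J ω) 2) (bt F ν) (bd F ν) (ex (c 1))) -
        (hs (G₀ (ptr F J ω) 2) (bt F ν) (bd F ν) (ex (c 1)) -
          hs (G₀ (ptr F J ω) 2) (bt F ω) (bd F ν) (ex (c 1))) := by ring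
    rw [e]
    refine ((abs_sub _ _).trans (add_le_add ((abs_sub _ _).trans (add_le_add hb k7)) k6)).trans ?_
    have f1 : 0 ≤ U ^ 2 * (G1 * P1) := by positivity
    have f2 : 0 ≤ U ^ 3 * (G1 * P2) := by positivity
    have f3 : 0 ≤ Z * (G1 * P1) := by positivity
    nlinarith
  obtain ⟨β', hβ'⟩ : ∃ β', β' = β + (4 * U ^ 3 + 3 * U ^ 2 + Z) * (G1 * (P1 + P2)) := ⟨_, rfl⟩
  rw [← hβ'] at hbe
  have hβ'0 : 0 ≤ β' := by rw [hβ']; positivity
  -- the polarisation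
  have hvel : ∀ ν, B ν → ptr F J ν = ptr F J ω →
      |bd F ν (some (c 0)) - bd F ω (some (c 0))| ≤ 2 * U * A / G0 ∧
      |bd F ν (some (c 1)) - bd F ω (some (c 1)) -
        μ₁ * (bd F ν (some (c 0)) - bd F ω (some (c 0)))| ≤ 2 * U * A / G1 := by
    intro ν hν hpt
    have k0 := h.vel ω ω hω hω rfl 0 (by norm_num)
    have k1 := h.vel ω ν hω hν hpt.symm 0 (by norm_num)
    have k2 := h.vel ω ω hω hω rfl 1 (by norm_num)
    have k3 := h.vel ω ν hω hν hpt.symm 1 (by norm_num)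
    have e1 : ∀ ν : F.Ω, bd F ν none = 1 := fun _ => rfl
    rw [dd_nul (hdG _ 0), e1] at k0 k1
    rw [dd_one (hdG _ 1), e1, ← hμ₁] at k2 k3
    rw [← hA, ← hG0] at k0 k1
    rw [← hA, ← hG1] at k2 k3
    constructor
    · have e2 : bd F ν (some (c 0)) - bd F ω (some (c 0)) =
          (bd F ν (some (c 0)) - eval (bt F ω) (pderiv none (G₀ (ptr F J ω) 0)) * 1) -
          (bd F ω (some (c 0)) - eval (bt F ω) (pderiv none (G₀ (ptr F J ω) 0)) * 1) := by ring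
      rw [e2]
      refine (abs_sub _ _).trans ((add_le_add k1 k0).trans (le_of_eq ?_))
      ring
    · have e2 : bd F ν (some (c 1)) - bd F ω (some (c 1)) -
          μ₁ * (bd F ν (some (c 0)) - bd F ω (some (c 0))) =
          (bd F ν (some (c 1)) - (eval (bt F ω) (pderiv none (G₀ (ptr F J ω) 1)) * 1 +
            μ₁ * bd F ν (some (c 0)))) -
          (bd F ω (some (c 1)) - (eval (bt F ω) (pderiv none (G₀ (ptr F J ω) 1)) * 1 +
            μ₁ * bd F ω (some (c 0)))) := by ring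
      rw [e2]
      refine (abs_sub _ _).trans ((add_le_add k3 k2).trans (le_of_eq ?_))
      ring
  have hnul : ∀ ν, B ν → ptr F J ν = ptr F J ω →
      |hs (G₀ (ptr F J ω) 2) (bt F ω) (bd F ν) (bd F ν)| ≤ U * (A * P2) := by
    intro ν hν hpt
    refine (h.nul ω ν hω hν hpt.symm 2 le_rfl).trans (le_of_eq ?_)
    rw [hP2, hA]
    ring
  have hμ : 0 < A / (Y * G0) := by positivity
  have hsp : ∀ z : ℝ, 1 / Y ≤ 2 ^ g₀ 0 / 2 ^ a * |z| → A / (Y * G0) ≤ |z| := by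
    intro z hz
    rw [← hG0, ← hA, div_le_iff₀ hY0] at hz
    rw [div_le_iff₀ (by positivity)]
    have e1 : G0 / A * |z| * Y * A = |z| * (Y * G0) := by field_simp
    have e2 := mul_le_mul_of_nonneg_right hz hA0.le
    rw [e1, one_mul] at e2
    exact e2
  have hpol := pol_hs (hdG (ptr F J ω) 2) (x := bt F ω) (X0 := bd F ω) (X1 := bd F ν₁)
    (X2 := bd F ν₂) (D := dx c μ₁) (e := ex (c 1)) (m₁ := μ₁) (n := U * (A * P2)) (β := β')
    (R := 2 * U * A / G0) (μ := A / (Y * G0)) (δ := 2 * U * A / G1) (dx_none c μ₁)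
    (dx_zero hc μ₁) (dx_one hc μ₁) (ex_none _) (ex_ne (c01 hc)) (ex_self _) rfl rfl
    (hvel ν₁ h1 p1).2 (hvel ν₂ h2 p2).2 (hnul ω hω rfl) (hnul ν₁ h1 p1) (hnul ν₂ h2 p2)
    (hbe ω hω (hβ ω (Or.inl rfl)) rfl) (hbe ν₁ h1 (hβ ν₁ (Or.inr (Or.inl rfl))) p1.symm)
    (hbe ν₂ h2 (hβ ν₂ (Or.inr (Or.inr rfl))) p2.symm) hμ (hsp _ s1) (hsp _ s2) (hsp _ s3)
    (hvel ν₁ h1 p1).1 (hvel ν₂ h2 p2).1
  have hpol' : |hs (G₀ (ptr F J ω) 2) (bt F ω) (bd F ω) (dx c μ₁)| ≤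
      80 * U ^ 5 * Y ^ 5 * (G0 * P2 + 2 * (G0 / G1 * β')) := by
    refine hpol.trans (le_of_eq ?_)
    field_simp
    ring
  -- the natural curvature of the second coordinate
  have hcur : ∀ V, |hs (G₀ (ptr F J ω) 1) (bt F ω) (bd F ω) V| ≤
      Y ^ 30 * (2 ^ a / 2 ^ g₀ 1) * nrm c (G₀ (ptr F J ω)) g₀ a 1 (bt F ω) V := by
    intro V
    refine tri (c := c) (g := g₀) (a := a) (l := 1) le_rfl (G := G₀ (ptr F J ω)) (hdG _)
      (x := bt F ω) (W₁ := bd F ω) (W₂ := bd F ν₁) (W₃ := bd F ν₂) (Y := Y) (U := U) (K := 1) hY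
      hUY (by linarith) hU0 (by push_cast; linarith) rfl rfl rfl ?_ ?_ ?_ s1 s2 s3 V
    · rintro W (rfl | rfl | rfl) j hj
      · exact h.vel ω ω hω hω rfl j (by omega)
      · exact h.vel ω ν₁ hω h1 p1.symm j (by omega)
      · exact h.vel ω ν₂ hω h2 p2.symm j (by omega)
    · rintro W (rfl | rfl | rfl)
      · exact h.nul ω ω hω hω rfl 1 (by norm_num)
      · exact h.nul ω ν₁ hω h1 p1.symm 1 (by norm_num)
      · exact h.nul ω ν₂ hω h2 p2.symm 1 (by norm_num)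
    · intro W _ R hR hR0
      rw [hs_ex (hdG _ 1) (by norm_num) _ _ hR hR0, abs_zero]
      exact mul_nonneg (by positivity) (nrm_nonneg _ _ _ _ _ _ _)
  have hc1 : |hs (G₀ (ptr F J ω) 1) (bt F ω) (bd F ω) (dx c μ₁)| ≤ Y ^ 30 * (A * G0 / G1) := by
    refine (hcur _).trans (le_of_eq ?_)
    rw [nrm_dx1 hc (hdG _), hA, hG0, hG1]
    ring
  have hz1 : nrz c (G₀ (ptr F J ω)) g₀ a 2 (bt F ω) (bd F ω) (dx c μ₁) 0 ≤
      Y ^ 30 * (A * G0) := by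
    unfold nrz
    rw [Finset.sum_range_succ, Finset.sum_range_one, dd_zr, dd_zr,
      hs_nul (hdG _ 0) _ _ (dx_none c μ₁), Pi.zero_apply, Pi.zero_apply, Pi.zero_apply, abs_zero,
      mul_zero, sub_zero, sub_zero, abs_zero, mul_zero, zero_add, zero_add, zero_sub, abs_neg,
      ← hG1]
    calc G1 * |hs (G₀ (ptr F J ω) 1) (bt F ω) (bd F ω) (dx c μ₁)| ≤
          G1 * (Y ^ 30 * (A * G0 / G1)) := mul_le_mul_of_nonneg_left hc1 hG10.le
      _ = _ := by field_simp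
  have hz2 : nrz c (TH (slam F a ω)) gT (a + v) 2 (bt F ω) (bd F ω) (dx c μ₁) 0 ≤
      2 ^ v' * ((3 * U ^ 2 + Y ^ 30) * (A * G0)) := by
    unfold nrz
    rw [Finset.sum_range_succ, Finset.sum_range_one, dd_zr, dd_zr,
      hs_nul (hTd _ 0 (by norm_num)) _ _ (dx_none c μ₁), Pi.zero_apply, Pi.zero_apply,
      Pi.zero_apply, abs_zero, mul_zero, sub_zero, sub_zero, abs_zero, mul_zero, zero_add,
      zero_add, zero_sub, abs_neg]
    have k1 := (h.dif ω hω 1 (by norm_num)).2 (bd F ω) (dx c μ₁) 0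
    rw [hs_sub, dd_sub, dd_zr, dd_zr, sub_zero, add_zero, nrm_dx1 hc (hdG _)] at k1
    have k2 : nrz c (G₀ (ptr F J ω)) g₀ a 1 (bt F ω) (bd F ω) (dx c μ₁) 0 = 0 := by
      unfold nrz
      rw [Finset.sum_range_one, dd_zr, hs_nul (hdG _ 0) _ _ (dx_none c μ₁), Pi.zero_apply,
        Pi.zero_apply, abs_zero, mul_zero, sub_zero, sub_zero, abs_zero, mul_zero, add_zero]
    rw [k2, add_zero] at k1
    have k3 : nrm c (G₀ (ptr F J ω)) g₀ a 1 (bt F ω) (bd F ω) ≤ 3 * U * A :=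
      (nrm_mono (by norm_num) _ _).trans (hn1 ω hω)
    have e1 : hs (TH (slam F a ω) 1) (bt F ω) (bd F ω) (dx c μ₁) =
        (hs (Hno (c 1) (fun s => H₀ s 1) (slam F a ω)) (bt F ω) (bd F ω) (dx c μ₁) -
          hs (G₀ (ptr F J ω) 1) (bt F ω) (bd F ω) (dx c μ₁)) +
        hs (G₀ (ptr F J ω) 1) (bt F ω) (bd F ω) (dx c μ₁) := by
      rw [hT _ 1 (by norm_num)]
      ring
    have k4 : |hs (TH (slam F a ω) 1) (bt F ω) (bd F ω) (dx c μ₁)| ≤
        (3 * U ^ 2 + Y ^ 30) * (A * G0) / G1 := by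
      rw [e1]
      refine (abs_add_le _ _).trans ((add_le_add (k1.trans (mul_le_mul_of_nonneg_left
        (mul_le_mul_of_nonneg_right k3 (by positivity)) (by positivity))) hc1).trans
        (le_of_eq ?_))
      rw [hG0, hG1]
      ring
    have k5 : (2 : ℝ) ^ gT 1 ≤ G1 * 2 ^ v' := by
      rw [hG1, ← pow_add]
      exact pow_le_pow_right₀ (by norm_num) (hg 1 (by norm_num))
    calc (2 : ℝ) ^ gT 1 * |hs (TH (slam F a ω) 1) (bt F ω) (bd F ω) (dx c μ₁)| ≤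
          G1 * 2 ^ v' * ((3 * U ^ 2 + Y ^ 30) * (A * G0) / G1) :=
          mul_le_mul k5 k4 (abs_nonneg _) (by positivity)
      _ = _ := by field_simp
  have hn2 : nrm c (TH (slam F a ω)) gT (a + v) 2 (bt F ω) (dx c μ₁) ≤ 4 * U ^ 2 * 2 ^ v' * G0 := by
    have k3 := nrm_thin h hU0 hv hg hT hω (dx c μ₁)
    rw [hμ₁, nrm_dx hc (hdG _), ← hG0, ← hμ₁] at k3
    have e1 : (1 + U) ^ 2 ≤ 4 * U ^ 2 := by nlinarith
    exact k3.trans (mul_le_mul_of_nonneg_right (mul_le_mul_of_nonneg_right e1 (by positivity))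
      hG00.le)
  have hr := rel2 h ha hω (dx c μ₁) 0
  rw [dd_zr, dd_zr, add_zero, add_zero] at hr
  have hn3 : nrm c (G₀ (ptr F J ω)) g₀ a 2 (bt F ω) (dx c μ₁) = G0 := by
    rw [hμ₁, nrm_dx hc (hdG _), hG0]
  rw [hn3] at hr
  have hr1 : U / 2 ^ p * (2 ^ a * nrm c (TH (slam F a ω)) gT (a + v) 2 (bt F ω) (dx c μ₁) +
      nrz c (TH (slam F a ω)) gT (a + v) 2 (bt F ω) (bd F ω) (dx c μ₁) 0) ≤
      U * (7 * U ^ 2 + Y ^ 30) * (G0 * P1) := by
    calc _ ≤ U / 2 ^ p * (2 ^ a * (4 * U ^ 2 * 2 ^ v' * G0) +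
          2 ^ v' * ((3 * U ^ 2 + Y ^ 30) * (A * G0))) :=
          mul_le_mul_of_nonneg_left (add_le_add (mul_le_mul_of_nonneg_left hn2 (by positivity))
            hz2) (by positivity)
      _ = _ := by rw [hP1, hA, pow_add]; ring
  have hr2 : U / 2 ^ g₀ 2 * (nrm c (G₀ (ptr F J ω)) g₀ a 2 (bt F ω) (bd F ω) * G0 +
      nrz c (G₀ (ptr F J ω)) g₀ a 2 (bt F ω) (bd F ω) (dx c μ₁) 0) ≤
      U * (3 * U + Y ^ 30) * (G0 * P2) := by
    calc _ ≤ U / 2 ^ g₀ 2 * (3 * U * A * G0 + Y ^ 30 * (A * G0)) :=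
          mul_le_mul_of_nonneg_left (add_le_add (mul_le_mul_of_nonneg_right (hn1 ω hω) hG00.le)
            hz1) (by positivity)
      _ = _ := by rw [hP2, hA]; ring
  have hfin := rel_num (β := β) hU hUY hZ hZY hY hG00 hG10 hP10 hP20 hβ0
  rw [← hβ'] at hfin
  rw [← hμ₁, ← hG0, ← hG1, ← hP1, ← hP2]
  have e : hs (Ht (slam F w ω)) (bt F ω) (bd F ω) (dx c μ₁) =
      hs (G₀ (ptr F J ω) 2) (bt F ω) (bd F ω) (dx c μ₁) +
      (hs (Ht (slam F w ω)) (bt F ω) (bd F ω) (dx c μ₁) -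
        hs (G₀ (ptr F J ω) 2) (bt F ω) (bd F ω) (dx c μ₁)) := by ring
  rw [e]
  refine le_trans ?_ hfin
  exact (abs_add_le _ _).trans (add_le_add hpol' (hr.trans (add_le_add hr1 hr2)))

end Pool.C2T
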