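import Pool.Agent.H54.C2T.Lam

/-!
# Two more facts

`nrm_sp1`: the norm of a direction without the time at the second place. `shf_one`: the slope of the
chart of the second coordinate at two samples of the same point. `crd_pt`: a crude bound of the
derivative of the row label in the direction of the second coordinate.
-/

set_option autoImplicit false

namespace Pool.C2T

open Finset Real MvPolynomial
open Pool.Agent.H49.Ent Pool.Agent.H32.Dense Pool.STK Pool.KA Pool.KSAT Pool.K2S Pool.PB Pool.S6C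
open Pool.GEN Pool.CHT Pool.CHX Pool.ISO Pool.D2R Pool.D2Z Pool.D2F Pool.RCV
open Pool.PB.Trl (rt rt_mem t_rt)
open Pool.FLF (Fam.sub)

variable {m J : ℕ}

/-- The norm of a direction without the time at the second place. -/
theorem nrm_sp1 {c : ℕ → Fin m} {ψ : ℕ → MvPolynomial (Option (Fin m)) ℝ}
    (h : DepC c 0 (ψ 0)) (g : ℕ → ℕ) (a : ℕ) (x : Option (Fin m) → ℝ)
    {V : Option (Fin m) → ℝ} (hV : V none = 0) :
    nrm c ψ g a 1 x V = 2 ^ g 0 * |V (some (c 0))| := by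
  unfold nrm
  rw [Finset.sum_range_one, dd_nul h, hV]
  simp

/-- **The slope at two samples of the same point.** -/
theorem shf_one (m D : ℕ) : ∃ C : ℕ, ∀ {J : ℕ} {F : Fam m J} {c : ℕ → Fin m} {a w e : ℕ}
    {g : ℕ → ℕ} {B : F.Ω → Prop} {G : PtT F → ℕ → MvPolynomial (Option (Fin m)) ℝ}
    {H : LnT F → ℕ → MvPolynomial (Option (Fin m)) ℝ}, Set.InjOn c (Set.Iio 3) →
    ChOK F c 3 (fun _ => D) a w e g B (fun y l => Gno (c l) J J (fun y => G y l) y) H →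
    (∀ y l, DepC c l (G y l)) → (∀ l < 3, e + g l + C ≤ J) → ∀ ω ν, B ω → B ν →
    ptr F J ω = ptr F J ν → ∀ V : Option (Fin m) → ℝ, V none = 0 →
      |dd (G (ptr F J ω) 1) (bt F ν) V - dd (G (ptr F J ω) 1) (bt F ω) V| ≤
        2 ^ C / 2 ^ g 1 * (2 ^ g 0 * |V (some (c 0))|) := by
  obtain ⟨C₁, hsh⟩ := hx_shf m D
  refine ⟨C₁ + 1, ?_⟩
  intro J F c a w e g B G H hc hch hdep hJ ω ν hω hν hpt V hV
  have key : ∀ ν, B ν → ptr F J ω = ptr F J ν → |dd (G (ptr F J ω) 1) (hx F ω) V -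
      dd (G (ptr F J ω) 1) (bt F ν) V| ≤ 2 ^ C₁ / 2 ^ g 1 * (2 ^ g 0 * |V (some (c 0))|) := by
    intro ν hν hpt
    have h1 := hsh (F := F) (c := c) (a := a) (w := w) (e := e) (s := 0) (i := 1) (g := g)
      (B := B) (G := G) (H := H) (Q := Gno (c 1) J J (fun y => G y 1) (ptr F J ν)) (M := 0) hc hch
      (fun l hl => by have := hJ l hl; omega) (by norm_num) (hch.depG _ 1) (hch.degG _ 1) hν
      (fun b _ => by rw [sub_self, abs_zero]) V
    rw [dd_Gno, dd_Gno, nrm_sp1 (hdep _ 0) _ _ _ hV, ← hpt, zero_add, pow_zero, div_one] at h1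
    have h3 : hx F ν = hx F ω := by
      show bho J J (ptr F J ν) = bho J J (ptr F J ω)
      rw [hpt]
    rw [h3] at h1
    refine h1.trans (le_of_eq ?_)
    ring
  have e1 : dd (G (ptr F J ω) 1) (bt F ν) V - dd (G (ptr F J ω) 1) (bt F ω) V =
      (dd (G (ptr F J ω) 1) (hx F ω) V - dd (G (ptr F J ω) 1) (bt F ω) V) -
      (dd (G (ptr F J ω) 1) (hx F ω) V - dd (G (ptr F J ω) 1) (bt F ν) V) := by ring
  rw [e1]
  refine ((abs_sub _ _).trans (add_le_add (key ω hω rfl) (key ν hν hpt))).trans (le_of_eq ?_)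
  rw [pow_succ]
  ring

/-- **A crude bound** of the row label. -/
theorem crd_pt {F : Fam m J} {c : ℕ → Fin m} {W W₁ W₂ X Γ e : ℕ} {g₀ g₁ g₂ : ℕ → ℕ}
    {B : F.Ω → Prop} {G₀ G₁ G₂ : PtT F → ℕ → MvPolynomial (Option (Fin m)) ℝ}
    {Gt : PtT F → MvPolynomial (Option (Fin m)) ℝ}
    {Ht : LnT F → MvPolynomial (Option (Fin m)) ℝ} {D : ℕ}
    {H : LnT F → ℕ → MvPolynomial (Option (Fin m)) ℝ}
    (h : Dat F c W W₁ W₂ X Γ g₀ g₁ g₂ B G₀ G₁ G₂ Gt Ht) (hc : Set.InjOn c (Set.Iio 3))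
    (hch : ChOK F c 3 (fun _ => D) W W e g₀ B G₀ H) (ω : F.Ω) (hω : B ω) :
    |dd (Ht (slam F W ω)) (bt F ω) (ex (c 1))| ≤ 2 ^ (e + g₀ 1 + X + 1) := by
  have h1 := h.rel1 ω hω (ex (c 1))
  have e1 : nrm c (G₀ (ptr F J ω)) g₀ W 2 (bt F ω) (ex (c 1)) = 2 ^ g₀ 1 := by
    rw [nrm_R (h.d0 _) _ (ex_none _) (ex_ne (c01 hc)), ex_self, abs_one, mul_one]
  rw [e1] at h1
  have h2 := hch.lip ω hω 2 (by norm_num) (bt F ω) (hch.self hω (by norm_num)) 1 (by norm_num)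
  rw [← dd_ex] at h2
  have h3 : nlp g₀ 1 2 ≤ g₀ 1 := by
    unfold nlp
    have : (Finset.Icc 1 2).sup g₀ ≤ g₀ 1 + g₀ 2 := by
      refine Finset.sup_le fun x hx => ?_
      rw [Finset.mem_Icc] at hx
      have : x = 1 ∨ x = 2 := by omega
      rcases this with rfl | rfl
      · exact Nat.le_add_right _ _
      · exact Nat.le_add_left _ _
    omega
  have h4 : (2 : ℝ) ^ X / 2 ^ g₀ 2 * 2 ^ g₀ 1 ≤ 2 ^ (e + g₀ 1 + X) := by
    have : (2 : ℝ) ^ X / 2 ^ g₀ 2 ≤ 2 ^ X :=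
      div_le_self (by positivity) (one_le_pow₀ (by norm_num))
    calc (2 : ℝ) ^ X / 2 ^ g₀ 2 * 2 ^ g₀ 1 ≤ 2 ^ X * 2 ^ g₀ 1 :=
          mul_le_mul_of_nonneg_right this (by positivity)
      _ = 2 ^ (X + g₀ 1) := (pow_add _ _ _).symm
      _ ≤ _ := pow_le_pow_right₀ (by norm_num) (by omega)
  have e2 : dd (Ht (slam F W ω)) (bt F ω) (ex (c 1)) =
      (dd (Ht (slam F W ω)) (bt F ω) (ex (c 1)) - dd (G₀ (ptr F J ω) 2) (bt F ω) (ex (c 1))) +
      dd (G₀ (ptr F J ω) 2) (bt F ω) (ex (c 1)) := by ring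
  rw [e2]
  refine (abs_add_le _ _).trans ((add_le_add (h1.trans h4) (h2.trans (pow_le_pow_right₀
    (by norm_num) (show e + nlp g₀ 1 2 ≤ e + g₀ 1 + X by omega)))).trans (le_of_eq ?_))
  rw [pow_succ]
  ring

end Pool.C2T
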